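import Mathlib

/-!
# Folding of the integers onto `0..N`

The group generated by `V ↦ V + 2N` and `V ↦ -V`; every orbit contains exactly one of the numbers
`0..N`, the value of `fold`.
-/

namespace Pool.Agent.Lib.H54T

/-- The number of the cell `[2Nk - N, 2Nk + N)` which contains `V`. -/
def kk (N : ℕ) (V : ℤ) : ℤ := (V + N) / (2 * N)

/-- The position in the cell, in `[-N, N)`. -/
def rr (N : ℕ) (V : ℤ) : ℤ := (V + N) % (2 * N) - N

/-- The folding. -/
def fold (N : ℕ) (V : ℤ) : ℕ := (rr N V).natAbs

end Pool.Agent.Lib.H54T
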