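import Mathlib

/-!
# Edge-to-edge tilings of the plane by unit triangles, squares and hexagons: definitions

The plane is the complex plane. A tile is a closed regular polygon with sides of length 1.
-/

namespace Pool.Agent.Lib.H54T

/-- The `k`-th vertex of the regular `n`-gon with centre `c` and first vertex `c + u`. -/
noncomputable def vert (n : ℕ) (c u : ℂ) (k : ℕ) : ℂ :=
  c + u * Complex.exp (2 * (Real.pi : ℂ) * Complex.I * (k : ℂ) / (n : ℂ))

/-- The closed regular `n`-gon with centre `c` and first vertex `c + u`: the convex hull of its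
vertices. -/
noncomputable def gon (n : ℕ) (c u : ℂ) : Set ℂ := convexHull ℝ (Set.range (vert n c u))

/-- `A` is a closed regular `n`-gon with sides of length 1. -/
def IsGon (n : ℕ) (A : Set ℂ) : Prop :=
  ∃ c u : ℂ, ‖vert n c u 1 - vert n c u 0‖ = 1 ∧ A = gon n c u

/-- `v` is a vertex of the regular polygon `A`. -/
def IsVertex (A : Set ℂ) (v : ℂ) : Prop :=
  ∃ (n : ℕ) (c u : ℂ), 3 ≤ n ∧ A = gon n c u ∧ v = vert n c u 0

/-- `e` is a side of the regular polygon `A`. -/
def IsSide (A e : Set ℂ) : Prop :=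
  ∃ (n : ℕ) (c u : ℂ), 3 ≤ n ∧ A = gon n c u ∧ e = segment ℝ (vert n c u 0) (vert n c u 1)

/-- `A` and `B` are disjoint, or their intersection is a vertex of both, or their intersection is a
side of both. -/
def Meets (A B : Set ℂ) : Prop :=
  A ∩ B = ∅ ∨ (∃ v, A ∩ B = {v} ∧ IsVertex A v ∧ IsVertex B v) ∨ (IsSide A (A ∩ B) ∧ IsSide B (A ∩ B))

/-- `T` is an edge-to-edge tiling of the plane whose tiles are equilateral triangles, squares and
regular hexagons with sides of length 1. -/
structure IsTiling (T : Set (Set ℂ)) : Prop where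
  tile : ∀ A ∈ T, IsGon 3 A ∨ IsGon 4 A ∨ IsGon 6 A
  cover : ∀ z : ℂ, ∃ A ∈ T, z ∈ A
  edge : ∀ A ∈ T, ∀ B ∈ T, A ≠ B → Meets A B

/-- The isometries of the plane which map `T` onto itself. -/
def Sym (T : Set (Set ℂ)) : Set (ℂ ≃ᵢ ℂ) := {g | (fun A : Set ℂ => g '' A) '' T = T}

/-- The transitivity class of the tile `A`. -/
def cls (T : Set (Set ℂ)) (A : Set ℂ) : Set (Set ℂ) := {B | ∃ g ∈ Sym T, B = g '' A}

/-- The number of transitivity classes which consist of `n`-gons. -/
noncomputable def classes (n : ℕ) (T : Set (Set ℂ)) : ℕ∞ :=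
  Set.encard {O : Set (Set ℂ) | ∃ A ∈ T, IsGon n A ∧ O = cls T A}

/-- The set of the triples `(t, s, h)` of positive integers for which there is a tiling with exactly
`t` classes of triangles, `s` classes of squares and `h` classes of hexagons. -/
def Sigma3 : Set (ℕ × ℕ × ℕ) :=
  {x | 0 < x.1 ∧ 0 < x.2.1 ∧ 0 < x.2.2 ∧ ∃ T : Set (Set ℂ), IsTiling T ∧
    classes 3 T = x.1 ∧ classes 4 T = x.2.1 ∧ classes 6 T = x.2.2}

end Pool.Agent.Lib.H54T
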