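import Mathlib
import Pool.Agent.Lib.H54T.Stmt

/-!
# Layered tilings

Line `l` is the horizontal line `im z = y l`, row `l` is the strip between line `l` and line `l + 1`;
it is a row of squares (`w l = false`) or a row of triangles (`w l = true`). Abscissae are doubled:
the integer `X` stands for the abscissa `X / 2`. The vertices on line `l` are the points with
`X ≡ α l` mod 2. `H l X`: there is a hexagon with centre `(X / 2, y l)`; it covers three triangles of
row `l` and three triangles of row `l - 1`.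
-/

namespace Pool.Agent.Lib.H54T

/-- The height of a unit triangle. -/
noncomputable def rho : ℝ := Real.sqrt 3 / 2

/-- The data of a layered tiling. -/
structure Lay where
  w : ℤ → Bool
  al : ℤ → ℤ
  H : ℤ → ℤ → Prop
  y : ℤ → ℝ
  hy : ∀ l, y (l + 1) = y l + (if w l = true then rho else 1)
  hal : ∀ l, (al (l + 1) - al l - (if w l = true then 1 else 0)) % 2 = 0
  hpar : ∀ l X, H l X → (X - al l) % 2 = 0
  hrow : ∀ l X, H l X → w l = true ∧ w (l - 1) = true
  hsame : ∀ l X X', H l X → H l X' → X ≠ X' → 4 ≤ |X - X'|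
  hadj : ∀ l X X', H l X → H (l + 1) X' → 3 ≤ |X - X'|

/-- The point with abscissa `X / 2` and ordinate `a`. -/
noncomputable def pt (X : ℤ) (a : ℝ) : ℂ := ⟨(X : ℝ) / 2, a⟩

/-- The square above the line `im z = a` with centre on `re z = X / 2`. -/
def sqR (a : ℝ) (X : ℤ) : Set ℂ := {z | |2 * z.re - X| ≤ 1 ∧ a ≤ z.im ∧ z.im ≤ a + 1}

/-- The triangle with base on the line `im z = a`, symmetric to `re z = X / 2`. -/
def upR (a : ℝ) (X : ℤ) : Set ℂ := {z | ∃ τ : ℝ, z.im = a + rho * τ ∧ 0 ≤ τ ∧ |2 * z.re - X| ≤ 1 - τ}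

/-- The triangle above the line `im z = a` with apex `pt X a`. -/
def dnR (a : ℝ) (X : ℤ) : Set ℂ := {z | ∃ τ : ℝ, z.im = a + rho * τ ∧ τ ≤ 1 ∧ |2 * z.re - X| ≤ τ}

/-- The hexagon with centre `pt X a`. -/
def hxR (a : ℝ) (X : ℤ) : Set ℂ :=
  {z | ∃ τ : ℝ, z.im = a + rho * τ ∧ |τ| ≤ 1 ∧ |2 * z.re - X| ≤ 2 - |τ|}

/-- The kinds of tiles: triangle, square, hexagon. -/
inductive Kd | tr | sq | hx
  deriving DecidableEq

/-- The number of sides. -/
def Kd.size : Kd → ℕ
  | .tr => 3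
  | .sq => 4
  | .hx => 6

/-- The triangle with axis `X / 2` in row `l` is covered by a hexagon. -/
def Lay.cov (L : Lay) (l X : ℤ) : Prop := ∃ X' : ℤ, |X - X'| ≤ 1 ∧ (L.H l X' ∨ L.H (l + 1) X')

/-- The labels of the tiles. -/
def Lay.ok (L : Lay) : Kd → ℤ → ℤ → Prop
  | .tr, l, X => L.w l = true ∧ ¬ L.cov l X
  | .sq, l, X => L.w l = false ∧ (X - L.al l) % 2 = 1
  | .hx, l, X => L.H l X

/-- The tiles. -/
noncomputable def Lay.reg (L : Lay) : Kd → ℤ → ℤ → Set ℂ
  | .tr, l, X => if (X - L.al l) % 2 = 0 then dnR (L.y l) X else upR (L.y l) X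
  | .sq, l, X => sqR (L.y l) X
  | .hx, l, X => hxR (L.y l) X

/-- The layered tiling. -/
def Lay.tiles (L : Lay) : Set (Set ℂ) := {A | ∃ k l X, L.ok k l X ∧ A = L.reg k l X}

/-- The index of the image of row `l` under the map which sends line `l` to line `δ l + m`. -/
def rim (δ m l : ℤ) : ℤ := if δ = 1 then l + m else m - l - 1

/-- The index of the image of a tile. -/
def im (k : Kd) (δ m l : ℤ) : ℤ :=
  match k with
  | .hx => δ * l + m
  | _ => rim δ m l

/-- A combinatorial symmetry: `(l, X) ↦ (δ l + m, ε X + a)`. -/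
structure Lay.CS (L : Lay) (ε δ a m : ℤ) : Prop where
  he : ε = 1 ∨ ε = -1
  hd : δ = 1 ∨ δ = -1
  hw : ∀ l, L.w (rim δ m l) = L.w l
  hp : ∀ l, (L.al (δ * l + m) - L.al l - a) % 2 = 0
  hH : ∀ l X, L.H (δ * l + m) (ε * X + a) ↔ L.H l X

end Pool.Agent.Lib.H54T
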