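import Mathlib
import Pool.Agent.Lib.H54T.Lay
import Pool.Agent.Lib.H54T.FDefs

/-!
# Folded codes

A tiling with the vertical mirrors `X ≡ 0` mod `P` (abscissae doubled) and with the vertical period
`n` (lines), symmetric to line 0: it is given by its part in `0 ≤ X ≤ P`, `0 ≤ V ≤ n`, where lines have
the even vertical coordinates `V = 2 l` and rows the odd coordinates `V = 2 l + 1`. The translation by
`n` lines is accompanied by the horizontal translation by `σ` (`σ = 0` or `σ = P`).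
-/

namespace Pool.Agent.Lib.H54T

structure Code where
  P : ℕ
  n : ℕ
  sg : ℕ
  ty : ℕ → Bool
  par : ℕ → ℕ
  D : ℕ → Finset ℕ

/-- The folded abscissa. -/
def Code.fX (c : Code) (V X : ℤ) : ℕ := fold c.P (X - c.sg * kk c.n V)

/-- The type of row `l`. -/
def Code.w (c : Code) (l : ℤ) : Bool := c.ty (fold c.n (2 * l + 1))

/-- The parity of line `l`. -/
def Code.al (c : Code) (l : ℤ) : ℤ := (c.par (fold c.n (2 * l)) : ℤ)

/-- The hexagons. -/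
def Code.H (c : Code) (l X : ℤ) : Prop := c.fX (2 * l) X ∈ c.D (fold c.n (2 * l))

structure Code.Valid (c : Code) : Prop where
  hP : 2 ≤ c.P
  hn : 1 ≤ c.n
  hsg : c.sg = 0 ∨ (c.sg = c.P ∧ c.P % 2 = 0)
  hpar : ∀ v, v % 2 = 0 → v + 2 ≤ c.n →
    (c.par (v + 2)) % 2 = (c.par v + (if c.ty (v + 1) = true then 1 else 0)) % 2
  hodd : c.n % 2 = 1 → c.ty c.n = false
  hD : ∀ v, v % 2 = 0 → v ≤ c.n → ∀ Y ∈ c.D v,
    Y ≤ c.P ∧ Y % 2 = c.par v % 2 ∧ (Y = 0 ∨ 2 ≤ Y) ∧ (Y = c.P ∨ Y + 2 ≤ c.P)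
  hDs : ∀ v, v % 2 = 0 → v ≤ c.n → ∀ Y ∈ c.D v, ∀ Z ∈ c.D v, Y < Z → Y + 4 ≤ Z
  hDr : ∀ v, v % 2 = 0 → v ≤ c.n → (c.D v).Nonempty →
    (v = 0 ∨ c.ty (v - 1) = true) ∧ (v = c.n ∨ c.ty (v + 1) = true)
  hDa : ∀ v, v % 2 = 0 → v + 2 ≤ c.n → ∀ Y ∈ c.D v, ∀ Z ∈ c.D (v + 2),
    (Y + 3 ≤ Z ∨ Z + 3 ≤ Y) ∧ 3 ≤ Y + Z ∧ Y + Z + 3 ≤ 2 * c.P
  hsn : c.sg ≠ 0 → c.n % 2 = 0 → c.ty (c.n - 1) = false ∧ c.D c.n = ∅

/-- No vertical symmetries of the sequence of rows besides those of the group. -/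
def Code.R1 (c : Code) : Prop := ∀ δ m : ℤ, (δ = 1 ∨ δ = -1) →
  (∀ l, c.w (rim δ m l) = c.w l) → (c.n : ℤ) ∣ m

/-- The unfolding of `D` has the exact period `2 P`. -/
def ExactD (P : ℕ) (D : Finset ℕ) : Prop := ∀ a : ℤ,
  (∀ X : ℤ, fold P (X + a) ∈ D ↔ fold P X ∈ D) → (2 * (P : ℤ)) ∣ a

/-- One of the lines has the exact period. -/
def Code.R2 (c : Code) : Prop := ∃ v, v % 2 = 0 ∧ v ≤ c.n ∧ ExactD c.P (c.D v)

/-- The triangle with folded abscissa `Y` between lines with the hexagons `D` and `D'` is not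
covered. -/
def unc (D D' : Finset ℕ) (Y : ℕ) : Bool :=
  decide ((∀ Z ∈ D, ¬ (Z ≤ Y + 1 ∧ Y ≤ Z + 1)) ∧ (∀ Z ∈ D', ¬ (Z ≤ Y + 1 ∧ Y ≤ Z + 1)))

/-- The labels of the triangles. -/
def Code.LT (c : Code) : Finset (ℕ × ℕ) :=
  (Finset.range (c.n + 1) ×ˢ Finset.range (c.P + 1)).filter (fun x => x.1 % 2 = 1 ∧
    c.ty x.1 = true ∧ unc (c.D (x.1 - 1)) (c.D (x.1 + 1)) x.2 = true)

/-- The labels of the squares. -/
def Code.LS (c : Code) : Finset (ℕ × ℕ) :=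
  (Finset.range (c.n + 1) ×ˢ Finset.range (c.P + 1)).filter (fun x => x.1 % 2 = 1 ∧
    c.ty x.1 = false ∧ (x.2 + c.par (x.1 - 1)) % 2 = 1 ∧ (x.1 = c.n → c.sg ≠ 0 → 2 * x.2 ≤ c.P))

/-- The labels of the hexagons. -/
def Code.LH (c : Code) : Finset (ℕ × ℕ) :=
  (Finset.range (c.n + 1) ×ˢ Finset.range (c.P + 1)).filter (fun x => x.1 % 2 = 0 ∧ x.2 ∈ c.D x.1)

/-- The label of a tile. -/
def Code.lab (c : Code) (k : Kd) (l X : ℤ) : ℕ × ℕ :=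
  let V : ℤ := if k = .hx then 2 * l else 2 * l + 1
  (fold c.n V, if fold c.n V = c.n ∧ c.sg ≠ 0 then min (c.fX V X) (c.P - c.fX V X) else c.fX V X)

end Pool.Agent.Lib.H54T
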