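import Mathlib
import Pool.Agent.Lib.H54T.FDefs

/-! # H54T, chunk FA: basic properties of the folding -/

namespace Pool.Agent.Lib.H54T

theorem kk_rr (N : ℕ) (hN : 1 ≤ N) (V : ℤ) : V = 2 * N * kk N V + rr N V := by
  unfold kk rr
  have := Int.emod_add_mul_ediv (V + N) (2 * N)
  linarith

theorem rr_range (N : ℕ) (hN : 1 ≤ N) (V : ℤ) : -(N : ℤ) ≤ rr N V ∧ rr N V < N := by
  unfold rr
  have hN' : (1 : ℤ) ≤ N := by exact_mod_cast hN
  have h1 := Int.emod_nonneg (V + N) (show (2 * N : ℤ) ≠ 0 by omega)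
  have h2 := Int.emod_lt_of_pos (V + N) (show (0 : ℤ) < 2 * N by omega)
  omega

/-- Uniqueness of the representation. -/
theorem fa_unique (N : ℕ) (hN : 1 ≤ N) (V k r : ℤ) (h : V = 2 * N * k + r) (h1 : -(N : ℤ) ≤ r)
    (h2 : r < N) : kk N V = k ∧ rr N V = r := by
  have hN' : (1 : ℤ) ≤ N := by exact_mod_cast hN
  have e1 := kk_rr N hN V
  obtain ⟨g1, g2⟩ := rr_range N hN V
  have e2 : 2 * (N : ℤ) * (kk N V - k) = r - rr N V := by linarith
  have e3 : kk N V - k = 0 := by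
    by_contra hc
    rcases lt_or_gt_of_ne hc with h3 | h3
    · have : kk N V - k ≤ -1 := by omega
      nlinarith
    · have : 1 ≤ kk N V - k := by omega
      nlinarith
  refine ⟨by omega, ?_⟩
  rw [e3] at e2
  linarith

theorem fold_le (N : ℕ) (hN : 1 ≤ N) (V : ℤ) : fold N V ≤ N := by
  obtain ⟨g1, g2⟩ := rr_range N hN V
  unfold fold
  omega

theorem fold_parity (N : ℕ) (hN : 1 ≤ N) (V : ℤ) : ((fold N V : ℤ) - V) % 2 = 0 := by
  have e1 := kk_rr N hN V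
  unfold fold
  have e2 : V = 2 * (N * kk N V) + rr N V := by linarith
  omega

theorem fold_of_le (N : ℕ) (hN : 1 ≤ N) (V : ℤ) (h : |V| ≤ N) : (fold N V : ℤ) = |V| := by
  have hN' : (1 : ℤ) ≤ N := by exact_mod_cast hN
  rw [abs_le] at h
  unfold fold
  by_cases hV : V = N
  · have := fa_unique N hN V 1 (-N) (by linarith) le_rfl (by omega)
    rw [this.2, hV]
    simp
  · have := fa_unique N hN V 0 V (by linarith) h.1 (by omega)
    rw [this.2]
    simp

theorem kk_of_lt (N : ℕ) (hN : 1 ≤ N) (V : ℤ) (h : |V| < N) : kk N V = 0 := by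
  rw [abs_lt] at h
  exact (fa_unique N hN V 0 V (by linarith) h.1.le h.2).1

theorem fa_add (N : ℕ) (hN : 1 ≤ N) (V j : ℤ) :
    kk N (V + 2 * N * j) = kk N V + j ∧ rr N (V + 2 * N * j) = rr N V := by
  have e1 := kk_rr N hN V
  obtain ⟨g1, g2⟩ := rr_range N hN V
  exact fa_unique N hN _ _ _ (by linarith) g1 g2

theorem fold_add (N : ℕ) (hN : 1 ≤ N) (V j : ℤ) : fold N (V + 2 * N * j) = fold N V := by
  unfold fold
  rw [(fa_add N hN V j).2]

theorem kk_add (N : ℕ) (hN : 1 ≤ N) (V j : ℤ) : kk N (V + 2 * N * j) = kk N V + j :=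
  (fa_add N hN V j).1

theorem fa_neg (N : ℕ) (hN : 1 ≤ N) (V : ℤ) (h : rr N V ≠ -N) :
    kk N (-V) = -kk N V ∧ rr N (-V) = -rr N V := by
  have e1 := kk_rr N hN V
  obtain ⟨g1, g2⟩ := rr_range N hN V
  exact fa_unique N hN _ _ _ (by linarith) (by omega) (by omega)

theorem fa_neg' (N : ℕ) (hN : 1 ≤ N) (V : ℤ) (h : rr N V = -N) :
    kk N (-V) = 1 - kk N V ∧ rr N (-V) = -N := by
  have hN' : (1 : ℤ) ≤ N := by exact_mod_cast hN
  have e1 := kk_rr N hN V
  rw [h] at e1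
  exact fa_unique N hN _ _ _ (by linarith) le_rfl (by omega)

theorem fa_fold_eq (N : ℕ) (hN : 1 ≤ N) (V : ℤ) : fold N V = N ↔ rr N V = -N := by
  obtain ⟨g1, g2⟩ := rr_range N hN V
  unfold fold
  omega

theorem fold_neg (N : ℕ) (hN : 1 ≤ N) (V : ℤ) : fold N (-V) = fold N V := by
  by_cases h : rr N V = -N
  · unfold fold
    rw [(fa_neg' N hN V h).2, h]
  · unfold fold
    rw [(fa_neg N hN V h).2]
    simp

theorem kk_neg (N : ℕ) (hN : 1 ≤ N) (V : ℤ) (h : fold N V ≠ N) : kk N (-V) = -kk N V :=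
  (fa_neg N hN V (fun h' => h ((fa_fold_eq N hN V).2 h'))).1

/-- On the boundary of the cells. -/
theorem kk_neg' (N : ℕ) (hN : 1 ≤ N) (V : ℤ) (h : fold N V = N) : kk N (-V) = 1 - kk N V :=
  (fa_neg' N hN V ((fa_fold_eq N hN V).1 h)).1

end Pool.Agent.Lib.H54T
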