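import Mathlib
import Pool.Agent.Lib.H54T.FA

/-! # H54T, chunk FB: fibres of the folding, Lipschitz property, lifting -/

namespace Pool.Agent.Lib.H54T

/-- Normal form: `V = 2 N k + s Y` with `Y = fold N V`. -/
theorem fb_form (N : ℕ) (hN : 1 ≤ N) (V : ℤ) : ∃ k s : ℤ, (s = 1 ∨ s = -1) ∧
    V = 2 * N * k + s * fold N V := by
  have e1 := kk_rr N hN V
  rcases le_or_gt 0 (rr N V) with h | h
  · refine ⟨kk N V, 1, Or.inl rfl, ?_⟩
    have : (fold N V : ℤ) = rr N V := by
      unfold fold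
      omega
    rw [this]
    linarith
  · refine ⟨kk N V, -1, Or.inr rfl, ?_⟩
    have : (fold N V : ℤ) = -rr N V := by
      unfold fold
      omega
    rw [this]
    linarith

/-- Conversely. -/
theorem fb_of_form (N : ℕ) (hN : 1 ≤ N) (k s : ℤ) (Y : ℕ) (hs : s = 1 ∨ s = -1) (hY : Y ≤ N) :
    fold N (2 * N * k + s * Y) = Y := by
  have h0 : fold N (Y : ℤ) = Y := by
    have := fold_of_le N hN (Y : ℤ) (by rw [abs_of_nonneg (by positivity)]; exact_mod_cast hY)
    rw [abs_of_nonneg (by positivity)] at this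
    exact_mod_cast this
  have h1 : fold N (s * Y) = Y := by
    rcases hs with rfl | rfl
    · rw [one_mul, h0]
    · rw [neg_one_mul, fold_neg N hN, h0]
  rw [add_comm, fold_add N hN, h1]

theorem fold_eq_iff (N : ℕ) (hN : 1 ≤ N) (V V' : ℤ) :
    fold N V = fold N V' ↔ ∃ j : ℤ, V' = V + 2 * N * j ∨ V' = -V + 2 * N * j := by
  constructor
  · intro h
    obtain ⟨k, s, hs, e⟩ := fb_form N hN V
    obtain ⟨k', s', hs', e'⟩ := fb_form N hN V'
    rw [← h] at e'
    generalize (fold N V : ℤ) = Y at e e'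
    rcases hs with rfl | rfl <;> rcases hs' with rfl | rfl
    · exact ⟨k' - k, Or.inl (by rw [e, e']; ring)⟩
    · exact ⟨k' + k, Or.inr (by rw [e, e']; ring)⟩
    · exact ⟨k' + k, Or.inr (by rw [e, e']; ring)⟩
    · exact ⟨k' - k, Or.inl (by rw [e, e']; ring)⟩
  · rintro ⟨j, h | h⟩
    · rw [h, fold_add N hN]
    · rw [h, fold_add N hN, fold_neg N hN]

theorem fb_one (N : ℕ) (hN : 1 ≤ N) (V : ℤ) :
    (fold N (V + 1) : ℤ) - fold N V = 1 ∨ (fold N (V + 1) : ℤ) - fold N V = -1 := by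
  have e1 := kk_rr N hN V
  obtain ⟨g1, g2⟩ := rr_range N hN V
  by_cases h : rr N V + 1 = N
  · have := fa_unique N hN (V + 1) (kk N V + 1) (-N) (by linarith) le_rfl (by omega)
    unfold fold
    rw [this.2]
    omega
  · have := fa_unique N hN (V + 1) (kk N V) (rr N V + 1) (by linarith) (by omega) (by omega)
    unfold fold
    rw [this.2]
    omega

theorem fold_lip (N : ℕ) (hN : 1 ≤ N) (V V' : ℤ) :
    |(fold N V : ℤ) - fold N V'| ≤ |V - V'| := by
  have key : ∀ (n : ℕ) (V : ℤ), |(fold N (V + n) : ℤ) - fold N V| ≤ n := by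
    intro n
    induction n with
    | zero =>
      intro V
      simp
    | succ n ih =>
      intro V
      have h1 := ih V
      have h2 := fb_one N hN (V + n)
      rw [show V + (n : ℤ) + 1 = V + ((n + 1 : ℕ) : ℤ) by push_cast; ring] at h2
      rw [abs_le] at h1 ⊢
      push_cast at h1 h2 ⊢
      omega
  rcases le_total V V' with h | h
  · obtain ⟨n, hn⟩ : ∃ n : ℕ, V' = V + n := ⟨(V' - V).toNat, by omega⟩
    have := key n V
    rw [← hn] at this
    rw [abs_sub_comm, abs_sub_comm V V', abs_of_nonneg (show 0 ≤ V' - V by omega)]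
    omega
  · obtain ⟨n, hn⟩ : ∃ n : ℕ, V = V' + n := ⟨(V - V').toNat, by omega⟩
    have := key n V'
    rw [← hn] at this
    rw [abs_of_nonneg (show 0 ≤ V - V' by omega)]
    omega

theorem fold_lift (N : ℕ) (hN : 1 ≤ N) (V : ℤ) (Z : ℕ) (hZ : Z ≤ N) :
    ∃ V' : ℤ, fold N V' = Z ∧ |V - V'| = |(fold N V : ℤ) - Z| := by
  obtain ⟨k, s, hs, e⟩ := fb_form N hN V
  refine ⟨2 * N * k + s * Z, fb_of_form N hN k s Z hs hZ, ?_⟩
  have e2 : V - (2 * N * k + s * Z) = s * ((fold N V : ℤ) - Z) := by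
    rw [mul_sub]
    linarith
  rw [e2, abs_mul]
  rcases hs with rfl | rfl <;> simp

/-- The folding and the reflection `V ↦ V + N` (for the shift `σ = P`). -/
theorem fold_add_half (N : ℕ) (hN : 1 ≤ N) (V : ℤ) : (fold N (V + N) : ℤ) = N - fold N V := by
  have e1 := kk_rr N hN V
  obtain ⟨g1, g2⟩ := rr_range N hN V
  by_cases h : 0 ≤ rr N V
  · have := fa_unique N hN (V + N) (kk N V + 1) (rr N V - N) (by linarith) (by omega) (by omega)
    unfold fold
    rw [this.2]
    omega
  · have := fa_unique N hN (V + N) (kk N V) (rr N V + N) (by linarith) (by omega) (by omega)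
    unfold fold
    rw [this.2]
    omega

end Pool.Agent.Lib.H54T
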