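import Mathlib
import Pool.Agent.Lib.H54T.FB

/-! # H54T, chunk FD: consecutive integers -/

namespace Pool.Agent.Lib.H54T

/-- For even `V`: the foldings of `V, V + 1, V + 2` go up, or down, or turn at `N` (`N` odd). -/
theorem fold_succ (N : ℕ) (hN : 1 ≤ N) (V : ℤ) (hV : V % 2 = 0) :
    (fold N (V + 1) = fold N V + 1 ∧ fold N (V + 2) = fold N V + 2) ∨
    (fold N (V + 1) = fold N V + 1 ∧ fold N (V + 1) = N ∧ fold N (V + 2) = fold N V) ∨
    (fold N V = fold N (V + 1) + 1 ∧ fold N (V + 2) + 1 = fold N (V + 1)) := by
  have e1 := kk_rr N hN V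
  obtain ⟨g1, g2⟩ := rr_range N hN V
  have hr : rr N V % 2 = 0 := by
    have e2 : V = 2 * (N * kk N V) + rr N V := by linarith
    omega
  rcases lt_or_ge (rr N V) 0 with h | h
  · right
    right
    have a1 := (fa_unique N hN (V + 1) (kk N V) (rr N V + 1) (by linarith) (by omega) (by omega)).2
    have a2 : fold N (V + 2) = (rr N V + 2).natAbs := by
      by_cases h2 : rr N V + 2 < N
      · have := (fa_unique N hN (V + 2) (kk N V) (rr N V + 2) (by linarith) (by omega) (by omega)).2
        unfold fold
        rw [this]
      · have := (fa_unique N hN (V + 2) (kk N V + 1) (rr N V + 2 - 2 * N) (by linarith) (by omega)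
          (by omega)).2
        unfold fold
        rw [this]
        omega
    rw [a2]
    unfold fold
    rw [a1]
    omega
  · by_cases h1 : rr N V + 1 = N
    · right
      left
      have a1 := (fa_unique N hN (V + 1) (kk N V + 1) (-N) (by linarith) le_rfl (by omega)).2
      have a2 : fold N (V + 2) = (rr N V).natAbs := by
        by_cases h2 : N = 1
        · have := (fa_unique N hN (V + 2) (kk N V + 1) (1 - N) (by linarith) (by omega)
            (by omega)).2
          unfold fold
          rw [this]
          omega
        · have := (fa_unique N hN (V + 2) (kk N V + 1) (1 - N) (by linarith) (by omega)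
            (by omega)).2
          unfold fold
          rw [this]
          omega
      rw [a2]
      unfold fold
      rw [a1]
      omega
    · left
      have a1 := (fa_unique N hN (V + 1) (kk N V) (rr N V + 1) (by linarith) (by omega)
        (by omega)).2
      have a2 : fold N (V + 2) = (rr N V + 2).natAbs := by
        by_cases h2 : rr N V + 2 < N
        · have := (fa_unique N hN (V + 2) (kk N V) (rr N V + 2) (by linarith) (by omega)
            (by omega)).2
          unfold fold
          rw [this]
        · have := (fa_unique N hN (V + 2) (kk N V + 1) (rr N V + 2 - 2 * N) (by linarith) (by omega)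
            (by omega)).2
          unfold fold
          rw [this]
          omega
      rw [a2]
      unfold fold
      rw [a1]
      omega

/-- The cell changes only at `N`. -/
theorem kk_succ (N : ℕ) (hN : 1 ≤ N) (V : ℤ) (h : fold N (V + 1) ≠ N) : kk N (V + 1) = kk N V := by
  have e1 := kk_rr N hN (V + 1)
  obtain ⟨g1, g2⟩ := rr_range N hN (V + 1)
  have h3 : rr N (V + 1) ≠ -N := fun h' => h ((fa_fold_eq N hN (V + 1)).2 h')
  exact (fa_unique N hN V (kk N (V + 1)) (rr N (V + 1) - 1) (by linarith) (by omega) (by omega)).1.symm

theorem kk_succ' (N : ℕ) (hN : 1 ≤ N) (V : ℤ) (h : fold N (V + 1) = N) (h' : fold N V ≠ N) :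
    (kk N (V + 1) = kk N V + 1) := by
  have hN' : (1 : ℤ) ≤ N := by exact_mod_cast hN
  have e1 := kk_rr N hN (V + 1)
  have h3 := (fa_fold_eq N hN (V + 1)).1 h
  rw [h3] at e1
  have := (fa_unique N hN V (kk N (V + 1) - 1) (N - 1) (by linarith) (by omega) (by omega)).1
  omega

end Pool.Agent.Lib.H54T
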