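import Mathlib
import Pool.Agent.Lib.H54T.CDefs
import Pool.Agent.Lib.H54T.FD

/-! # H54T, chunk CA: the unfolding of a code is a layered tiling -/

namespace Pool.Agent.Lib.H54T

theorem ca_rec (c : ℤ → ℝ) : ∃ y : ℤ → ℝ, ∀ l, y (l + 1) = y l + c l := by
  let up : ℕ → ℝ := fun n => Nat.rec 0 (fun k r => r + c k) n
  let dn : ℕ → ℝ := fun n => Nat.rec 0 (fun k r => r - c (-(k : ℤ) - 1)) n
  have hup : ∀ n, up (n + 1) = up n + c n := fun n => rfl
  have hdn : ∀ n, dn (n + 1) = dn n - c (-(n : ℤ) - 1) := fun n => rfl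
  have hup0 : up 0 = 0 := rfl
  have hdn0 : dn 0 = 0 := rfl
  refine ⟨fun l => if 0 ≤ l then up l.toNat else dn (-l).toNat, fun l => ?_⟩
  rcases lt_trichotomy l (-1) with h | h | h
  · simp only [show ¬ (0 ≤ l + 1) by omega, show ¬ (0 ≤ l) by omega, if_false]
    have e : (-l).toNat = (-(l + 1)).toNat + 1 := by omega
    rw [e, hdn]
    have e2 : -(((-(l + 1)).toNat : ℕ) : ℤ) - 1 = l := by omega
    rw [e2]
    ring
  · subst h
    simp only [show (0 : ℤ) ≤ -1 + 1 by omega, show ¬ ((0 : ℤ) ≤ -1) by omega, if_false, if_true]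
    have e : (-(-1 : ℤ)).toNat = 0 + 1 := by decide
    have e1 : (-1 + 1 : ℤ).toNat = 0 := by decide
    rw [e, e1, hdn, hdn0, hup0]
    simp
  · simp only [show 0 ≤ l + 1 by omega, show 0 ≤ l by omega, if_true]
    have e : (l + 1).toNat = l.toNat + 1 := by omega
    rw [e, hup]
    have e2 : ((l.toNat : ℕ) : ℤ) = l := by omega
    rw [e2]

theorem exists_y (w : ℤ → Bool) :
    ∃ y : ℤ → ℝ, ∀ l, y (l + 1) = y l + (if w l = true then rho else 1) :=
  ca_rec _

theorem ca_even (n : ℕ) (hn : 1 ≤ n) (l : ℤ) : fold n (2 * l) % 2 = 0 := by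
  have := fold_parity n hn (2 * l)
  omega

/-- `fold_succ` for `V = 2 l`. -/
theorem code_hal (c : Code) (hv : c.Valid) (l : ℤ) :
    (c.al (l + 1) - c.al l - (if c.w l = true then 1 else 0)) % 2 = 0 := by
  have hn := hv.hn
  have h2 := ca_even c.n hn l
  have h3 := ca_even c.n hn (l + 1)
  have hl1 := fold_le c.n hn (2 * l)
  have hl2 := fold_le c.n hn (2 * (l + 1))
  have hf := fold_succ c.n hn (2 * l) (by omega)
  unfold Code.al Code.w
  rw [show 2 * l + 2 = 2 * (l + 1) by ring] at hf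
  rcases hf with ⟨h4, h5⟩ | ⟨h4, h5, h6⟩ | ⟨h4, h5⟩
  · have h := hv.hpar (fold c.n (2 * l)) h2 (by omega)
    rw [h4, h5]
    split_ifs at h ⊢ <;> omega
  · have h7 : c.n % 2 = 1 := by omega
    have := hv.hodd h7
    rw [h5, h6, this]
    simp
  · have h := hv.hpar (fold c.n (2 * (l + 1))) h3 (by omega)
    have e1 : fold c.n (2 * l) = fold c.n (2 * (l + 1)) + 2 := by omega
    rw [← h5, e1]
    split_ifs at h ⊢ <;> omega

theorem ca_sg_even (c : Code) (hv : c.Valid) (k : ℤ) : ((c.sg : ℤ) * k) % 2 = 0 := by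
  rcases hv.hsg with h | ⟨h, h'⟩
  · rw [h]
    simp
  · rw [h]
    obtain ⟨q, hq⟩ : ∃ q, c.P = 2 * q := ⟨c.P / 2, by omega⟩
    rw [hq]
    push_cast
    rw [mul_assoc]
    omega

theorem code_hpar (c : Code) (hv : c.Valid) (l X : ℤ) (h : c.H l X) : (X - c.al l) % 2 = 0 := by
  have hn := hv.hn
  have hP := hv.hP
  have h2 := ca_even c.n hn l
  have hl1 := fold_le c.n hn (2 * l)
  obtain ⟨_, h4, _⟩ := hv.hD _ h2 hl1 _ h
  have h5 := fold_parity c.P (by omega) (X - c.sg * kk c.n (2 * l))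
  have h6 := ca_sg_even c hv (kk c.n (2 * l))
  unfold Code.fX at h4
  unfold Code.al
  generalize (c.sg : ℤ) * kk c.n (2 * l) = s at *
  omega

/-- `fold_succ` for `V = 2 l` and for `V = 2 l - 2`. -/
theorem code_hrow (c : Code) (hv : c.Valid) (l X : ℤ) (h : c.H l X) :
    c.w l = true ∧ c.w (l - 1) = true := by
  have hn := hv.hn
  have h2 := ca_even c.n hn l
  have hl1 := fold_le c.n hn (2 * l)
  obtain ⟨r1, r2⟩ := hv.hDr _ h2 hl1 ⟨_, h⟩
  have key : ∀ u : ℕ, u ≤ c.n → (u + 1 = fold c.n (2 * l) ∨ u = fold c.n (2 * l) + 1) →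
      c.ty u = true := by
    intro u hu h3
    rcases h3 with h3 | h3
    · rcases r1 with r1 | r1
      · omega
      · rwa [← h3, Nat.add_sub_cancel] at r1
    · rcases r2 with r2 | r2
      · omega
      · rwa [h3]
  unfold Code.w
  constructor
  · have hf := fold_succ c.n hn (2 * l) (by omega)
    have hl2 := fold_le c.n hn (2 * l + 1)
    apply key _ hl2
    omega
  · have hf := fold_succ c.n hn (2 * (l - 1)) (by omega)
    rw [show 2 * (l - 1) + 2 = 2 * l by ring] at hf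
    have hl2 := fold_le c.n hn (2 * (l - 1) + 1)
    apply key _ hl2
    omega

end Pool.Agent.Lib.H54T
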