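import Mathlib
import Pool.Agent.Lib.H54T.FB

/-! # H54T, chunk FC: distances -/

namespace Pool.Agent.Lib.H54T

/-- Two different points of one fibre: `V' = V + 2Nj` (`j ≠ 0`, distance at least `2N`), or
`V' = -V + 2Nj`, and then the distance is `|2V - 2Nj| ≥ min (2Y) (2N - 2Y)` unless `Y = 0` or `Y = N`
(in these cases the first case applies). -/
theorem dist_same (N : ℕ) (hN : 2 ≤ N) (V V' : ℤ) (h : fold N V = fold N V') (hne : V ≠ V')
    (h1 : fold N V = 0 ∨ 2 ≤ fold N V) (h2 : fold N V = N ∨ fold N V + 2 ≤ N) : 4 ≤ |V - V'| := by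
  have hN2 : (2 : ℤ) ≤ N := by exact_mod_cast hN
  obtain ⟨j, hj | hj⟩ := (fold_eq_iff N (by omega) V V').1 h
  · have hj0 : j ≠ 0 := by
      rintro rfl
      apply hne
      rw [hj]
      ring
    have e : V - V' = -(2 * N * j) := by rw [hj]; ring
    rw [e, abs_neg, le_abs]
    rcases lt_or_gt_of_ne hj0 with h3 | h3
    · right
      nlinarith
    · left
      nlinarith
  · obtain ⟨k, s, hs, e⟩ := fb_form N (by omega) V
    have hY := fold_le N (by omega) V
    generalize fold N V = Y at *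
    obtain ⟨i, hi⟩ : ∃ i : ℤ, i = 2 * k - j := ⟨_, rfl⟩
    have e2 : V - V' = 2 * (N * i) + 2 * (s * Y) := by
      rw [hj, hi]
      linear_combination 2 * e
    have hYN : (Y : ℤ) ≤ N := by exact_mod_cast hY
    have hi3 : i = 0 ∨ i = 1 ∨ i = -1 ∨ 2 ≤ i ∨ i ≤ -2 := by omega
    have hne' : V - V' ≠ 0 := sub_ne_zero.2 hne
    rw [e2] at hne' ⊢
    rw [le_abs]
    rcases hi3 with h3 | h3 | h3 | h3 | h3
    · rw [h3] at hne' ⊢
      rcases hs with rfl | rfl <;> omega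
    · rw [h3] at hne' ⊢
      rcases hs with rfl | rfl <;> omega
    · rw [h3] at hne' ⊢
      rcases hs with rfl | rfl <;> omega
    · left
      have : 2 * (N : ℤ) ≤ N * i := by nlinarith
      rcases hs with rfl | rfl <;> omega
    · right
      have : (N : ℤ) * i ≤ -(2 * N) := by nlinarith
      rcases hs with rfl | rfl <;> omega

/-- `V = ±Y + 2Ni`, `V' = ±Z + 2Nj`: the distance is at least the minimum of `|Y - Z|`, `Y + Z` and
`2N - Y - Z`. -/
theorem dist_adj (N : ℕ) (hN : 2 ≤ N) (V V' : ℤ) (Y Z : ℕ) (hY : fold N V = Y) (hZ : fold N V' = Z)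
    (h1 : Y + 3 ≤ Z ∨ Z + 3 ≤ Y) (h2 : 3 ≤ Y + Z) (h3 : Y + Z + 3 ≤ 2 * N) : 3 ≤ |V - V'| := by
  have hN2 : (2 : ℤ) ≤ N := by exact_mod_cast hN
  obtain ⟨k, s, hs, e⟩ := fb_form N (by omega) V
  obtain ⟨k', s', hs', e'⟩ := fb_form N (by omega) V'
  rw [hY] at e
  rw [hZ] at e'
  obtain ⟨i, hi⟩ : ∃ i : ℤ, i = k - k' := ⟨_, rfl⟩
  have e2 : V - V' = 2 * (N * i) + (s * Y - s' * Z) := by
    rw [e, e', hi]
    ring
  rw [e2, le_abs]
  have hi3 : i = 0 ∨ 1 ≤ i ∨ i ≤ -1 := by omega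
  rcases hi3 with h4 | h4 | h4
  · rw [h4]
    rcases hs with rfl | rfl <;> rcases hs' with rfl | rfl <;> omega
  · left
    have : (N : ℤ) ≤ N * i := by nlinarith
    rcases hs with rfl | rfl <;> rcases hs' with rfl | rfl <;> omega
  · right
    have : (N : ℤ) * i ≤ -N := by nlinarith
    rcases hs with rfl | rfl <;> rcases hs' with rfl | rfl <;> omega

end Pool.Agent.Lib.H54T
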