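import Mathlib
import Pool.Agent.Lib.H54T.CA
import Pool.Agent.Lib.H54T.FC

/-! # H54T, chunk CB: distances of the hexagons -/

namespace Pool.Agent.Lib.H54T

/-- Same values of the folded abscissa: `dist_same`; different values: `fold_lip` and `hDs`. -/
theorem code_hsame (c : Code) (hv : c.Valid) (l X X' : ℤ) (h : c.H l X) (h' : c.H l X')
    (hne : X ≠ X') : 4 ≤ |X - X'| := by
  have hn := hv.hn
  have hP := hv.hP
  have h2 := ca_even c.n hn l
  have hl1 := fold_le c.n hn (2 * l)
  obtain ⟨a1, a2, a3, a4⟩ := hv.hD _ h2 hl1 _ h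
  have e : X - X' = (X - c.sg * kk c.n (2 * l)) - (X' - c.sg * kk c.n (2 * l)) := by ring
  by_cases hf : c.fX (2 * l) X = c.fX (2 * l) X'
  · rw [e]
    exact dist_same c.P hP _ _ hf (by intro hc; apply hne; linarith) a3 a4
  · have h3 := fold_lip c.P (by omega) (X - c.sg * kk c.n (2 * l)) (X' - c.sg * kk c.n (2 * l))
    rw [← e] at h3
    have h4 : 4 ≤ |(c.fX (2 * l) X : ℤ) - c.fX (2 * l) X'| := by
      rcases lt_or_gt_of_ne hf with h5 | h5
      · have := hv.hDs _ h2 hl1 _ h _ h' h5
        rw [le_abs]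
        right
        omega
      · have := hv.hDs _ h2 hl1 _ h' _ h h5
        rw [le_abs]
        left
        omega
    exact le_trans h4 h3

/-- A row of triangles is not at the boundary of a cell. -/
theorem cb_row (c : Code) (hv : c.Valid) (l : ℤ) (h : c.w l = true) : fold c.n (2 * l + 1) ≠ c.n := by
  intro hc
  have hn := hv.hn
  have h1 := fold_parity c.n hn (2 * l + 1)
  have h2 := hv.hodd (by omega)
  unfold Code.w at h
  rw [hc, h2] at h
  exact absurd h (by simp)

/-- The shift is the same on both lines of a row of triangles. -/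
theorem cb_shift (c : Code) (hv : c.Valid) (l : ℤ) (h : c.w l = true) :
    (c.sg : ℤ) * kk c.n (2 * (l + 1)) = c.sg * kk c.n (2 * l) ∧
    (c.sg : ℤ) * kk c.n (2 * l + 1) = c.sg * kk c.n (2 * l) := by
  have hn := hv.hn
  have h1 := cb_row c hv l h
  have h2 := kk_succ c.n hn (2 * l) h1
  by_cases hs : c.sg = 0
  · rw [hs]
    simp
  · refine ⟨?_, by rw [h2]⟩
    by_cases h3 : fold c.n (2 * (l + 1)) = c.n
    · exfalso
      have h4 := fold_parity c.n hn (2 * (l + 1))
      obtain ⟨h5, -⟩ := hv.hsn hs (by omega)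
      have h6 := fold_succ c.n hn (2 * l) (by omega)
      rw [show 2 * l + 2 = 2 * (l + 1) by ring, h3] at h6
      have hl := fold_le c.n hn (2 * l)
      have hl' := fold_le c.n hn (2 * l + 1)
      unfold Code.w at h
      have h7 : fold c.n (2 * l + 1) = c.n - 1 := by omega
      rw [h7, h5] at h
      exact absurd h (by simp)
    · have h4 := kk_succ c.n hn (2 * l + 1) (by
        rw [show 2 * l + 1 + 1 = 2 * (l + 1) by ring]
        exact h3)
      rw [show 2 * l + 1 + 1 = 2 * (l + 1) by ring] at h4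
      rw [h4, h2]

/-- The row between is a row of triangles, so for `sg ≠ 0` the cell is the same (`kk_succ`, `hodd`,
`hsn`); then `fold_succ`, `hDa` and `dist_adj`. -/
theorem code_hadj (c : Code) (hv : c.Valid) (l X X' : ℤ) (h : c.H l X) (h' : c.H (l + 1) X') :
    3 ≤ |X - X'| := by
  have hn := hv.hn
  have hP := hv.hP
  have hw := (code_hrow c hv l X h).1
  have h1 := cb_row c hv l hw
  have h2 := (cb_shift c hv l hw).1
  have e2 := ca_even c.n hn l
  have e3 := ca_even c.n hn (l + 1)
  have hl := fold_le c.n hn (2 * l)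
  have hl' := fold_le c.n hn (2 * (l + 1))
  have h6 := fold_succ c.n hn (2 * l) (by omega)
  rw [show 2 * l + 2 = 2 * (l + 1) by ring] at h6
  have key : (c.fX (2 * l) X + 3 ≤ c.fX (2 * (l + 1)) X' ∨
      c.fX (2 * (l + 1)) X' + 3 ≤ c.fX (2 * l) X) ∧ 3 ≤ c.fX (2 * l) X + c.fX (2 * (l + 1)) X' ∧
      c.fX (2 * l) X + c.fX (2 * (l + 1)) X' + 3 ≤ 2 * c.P := by
    rcases h6 with ⟨_, h7⟩ | ⟨_, h7, _⟩ | ⟨h7, h8⟩
    · refine hv.hDa _ e2 (by omega) _ h _ ?_
      rw [← h7]
      exact h'
    · exact absurd h7 h1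
    · have h9 : fold c.n (2 * l) = fold c.n (2 * (l + 1)) + 2 := by omega
      have := hv.hDa _ e3 (by omega) _ h' (c.fX (2 * l) X) (by rw [← h9]; exact h)
      omega
  have := dist_adj c.P hP (X - c.sg * kk c.n (2 * l)) (X' - c.sg * kk c.n (2 * (l + 1))) _ _ rfl rfl
    key.1 key.2.1 key.2.2
  rw [h2] at this
  rwa [show X - c.sg * kk c.n (2 * l) - (X' - c.sg * kk c.n (2 * l)) = X - X' by ring] at this

/-- The layered tiling of a code. -/
noncomputable def Code.lay (c : Code) (hv : c.Valid) : Lay where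
  w := c.w
  al := c.al
  H := c.H
  y := Classical.choose (exists_y c.w)
  hy := Classical.choose_spec (exists_y c.w)
  hal := code_hal c hv
  hpar := code_hpar c hv
  hrow := code_hrow c hv
  hsame := code_hsame c hv
  hadj := code_hadj c hv

end Pool.Agent.Lib.H54T
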