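import Mathlib
import Pool.Agent.Lib.H54T.CB

/-! # H54T, chunk CC1: the symmetries of a code -/

namespace Pool.Agent.Lib.H54T

theorem code_w_sym (c : Code) (hv : c.Valid) (δ j : ℤ) (hd : δ = 1 ∨ δ = -1) (l : ℤ) :
    c.w (rim δ (c.n * j) l) = c.w l := by
  have hn := hv.hn
  unfold Code.w rim
  rcases hd with rfl | rfl
  · rw [if_pos rfl, show 2 * (l + (c.n : ℤ) * j) + 1 = (2 * l + 1) + 2 * c.n * j by ring,
      fold_add c.n hn]
  · rw [if_neg (by norm_num), show 2 * ((c.n : ℤ) * j - l - 1) + 1 = -(2 * l + 1) + 2 * c.n * j by ring,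
      fold_add c.n hn, fold_neg c.n hn]

/-- The shift `sg * K` may be replaced by its opposite. -/
theorem cc1_shift (c : Code) (hv : c.Valid) (X K : ℤ) :
    fold c.P (X + c.sg * K) = fold c.P (X - c.sg * K) := by
  have hP := hv.hP
  rcases hv.hsg with h | ⟨h, -⟩
  · rw [h]
    simp
  · rw [h, show X + (c.P : ℤ) * K = (X - c.P * K) + 2 * c.P * K by ring, fold_add c.P (by omega)]

/-- The sign of the abscissa. -/
theorem cc1_sign (c : Code) (hv : c.Valid) (ε X K : ℤ) (he : ε = 1 ∨ ε = -1) :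
    fold c.P (ε * X - c.sg * K) = fold c.P (X - c.sg * K) := by
  have hP := hv.hP
  rcases he with rfl | rfl
  · rw [one_mul]
  · rw [show (-1) * X - c.sg * K = -(X + c.sg * K) by ring, fold_neg c.P (by omega),
      cc1_shift c hv]

/-- The vertical coordinate of the image. -/
theorem cc1_V (c : Code) (hv : c.Valid) (δ j V : ℤ) (hd : δ = 1 ∨ δ = -1) :
    fold c.n (δ * V + 2 * c.n * j) = fold c.n V := by
  have hn := hv.hn
  rw [fold_add c.n hn]
  rcases hd with rfl | rfl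
  · rw [one_mul]
  · rw [neg_one_mul, fold_neg c.n hn]

/-- The folded abscissa of the image, away from the boundary of the cells. -/
theorem cc1_fX (c : Code) (hv : c.Valid) (ε δ i j V X : ℤ) (he : ε = 1 ∨ ε = -1)
    (hd : δ = 1 ∨ δ = -1) (h : δ = 1 ∨ fold c.n V ≠ c.n ∨ c.sg = 0) :
    c.fX (δ * V + 2 * c.n * j) (ε * X + (c.sg * j + 2 * c.P * i)) = c.fX V X := by
  have hn := hv.hn
  have hP := hv.hP
  unfold Code.fX
  rw [kk_add c.n hn]
  rw [show ε * X + (c.sg * j + 2 * c.P * i) - c.sg * (kk c.n (δ * V) + j) =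
    (ε * X - c.sg * kk c.n (δ * V)) + 2 * c.P * i by ring, fold_add c.P (by omega),
    cc1_sign c hv ε X _ he]
  rcases hd with rfl | rfl
  · rw [one_mul]
  · rcases h with h | h | h
    · norm_num at h
    · rw [neg_one_mul, kk_neg c.n hn V h, mul_neg, sub_neg_eq_add, cc1_shift c hv]
    · rw [h]
      simp

/-- On the boundary. -/
theorem cc1_fX' (c : Code) (hv : c.Valid) (ε i j V X : ℤ) (he : ε = 1 ∨ ε = -1)
    (h : fold c.n V = c.n) (hs : c.sg ≠ 0) :
    (c.fX (-1 * V + 2 * c.n * j) (ε * X + (c.sg * j + 2 * c.P * i)) : ℤ) = c.P - c.fX V X := by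
  have hn := hv.hn
  have hP := hv.hP
  unfold Code.fX
  rw [kk_add c.n hn]
  rw [show ε * X + (c.sg * j + 2 * c.P * i) - c.sg * (kk c.n (-1 * V) + j) =
    (ε * X - c.sg * kk c.n (-1 * V)) + 2 * c.P * i by ring, fold_add c.P (by omega),
    cc1_sign c hv ε X _ he, neg_one_mul, kk_neg' c.n hn V h]
  have hsP : c.sg = c.P := by
    rcases hv.hsg with h1 | ⟨h1, -⟩
    · exact absurd h1 hs
    · exact h1
  rw [← fold_add_half c.P (by omega)]
  rw [hsP, show X - (c.P : ℤ) * (1 - kk c.n V) = (X - c.P * kk c.n V + c.P) +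
    2 * c.P * (kk c.n V - 1) by ring, fold_add c.P (by omega)]

/-- `H` is invariant under the translation `(l, X) ↦ (l + n j, X + sg j)`, under `X ↦ -X`, under
`X ↦ X + 2 P i`, and under `l ↦ -l`: for `sg = 0` clear; for `sg = P`: `kk_neg` and
`fold P (X + P k) = fold P (X - P k)`; on the lines with `fold = n` there are no hexagons (`hsn`; if
`n` is odd there are no such lines). -/
theorem code_H_sym (c : Code) (hv : c.Valid) (ε δ i j : ℤ) (he : ε = 1 ∨ ε = -1)
    (hd : δ = 1 ∨ δ = -1) (l X : ℤ) :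
    c.H (δ * l + c.n * j) (ε * X + (c.sg * j + 2 * c.P * i)) ↔ c.H l X := by
  have hn := hv.hn
  have hP := hv.hP
  unfold Code.H
  rw [show 2 * (δ * l + (c.n : ℤ) * j) = δ * (2 * l) + 2 * c.n * j by ring, cc1_V c hv δ j _ hd]
  by_cases h : fold c.n (2 * l) ≠ c.n ∨ c.sg = 0
  · rw [cc1_fX c hv ε δ i j (2 * l) X he hd (Or.inr h)]
  · push Not at h
    obtain ⟨h1, h2⟩ := h
    have h3 := ca_even c.n hn l
    obtain ⟨-, h4⟩ := hv.hsn h2 (by omega)
    rw [h1, h4]
    simp

end Pool.Agent.Lib.H54T
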