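import Mathlib
import Pool.Agent.Lib.H54T.CC1

/-! # H54T, chunk CC2: the symmetries of a code -/

namespace Pool.Agent.Lib.H54T

theorem code_CS (c : Code) (hv : c.Valid) (ε δ i j : ℤ) (he : ε = 1 ∨ ε = -1)
    (hd : δ = 1 ∨ δ = -1) : (c.lay hv).CS ε δ (c.sg * j + 2 * c.P * i) (c.n * j) where
  he := he
  hd := hd
  hw := code_w_sym c hv δ j hd
  hp := by
    intro l
    show (c.al (δ * l + c.n * j) - c.al l - (c.sg * j + 2 * c.P * i)) % 2 = 0
    have h1 := cc1_V c hv δ j (2 * l) hd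
    have h2 := ca_sg_even c hv j
    unfold Code.al
    rw [show 2 * (δ * l + (c.n : ℤ) * j) = δ * (2 * l) + 2 * c.n * j by ring, h1]
    generalize (c.sg : ℤ) * j = s at *
    rw [show (2 * c.P * i : ℤ) = 2 * (c.P * i) by ring]
    omega
  hH := code_H_sym c hv ε δ i j he hd

/-- There are no other symmetries: `m = n j` by `R1`; then compare with `code_H_sym`: with
`a' = a - sg j` one has `H l (X + a') ↔ H l X` for all `l`, `X`. Insert `2 l = v` from `R2`
(`fold_of_le`, `kk_of_lt`; for `v = n` the exactness gives `D n ≠ ∅`, so `sg = 0`). -/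
theorem code_rigid (c : Code) (hv : c.Valid) (h1 : c.R1) (h2 : c.R2) (ε δ a m : ℤ)
    (h : (c.lay hv).CS ε δ a m) : ∃ i j : ℤ, m = c.n * j ∧ a = c.sg * j + 2 * c.P * i := by
  have hn := hv.hn
  have hP := hv.hP
  have he := h.he
  have hd := h.hd
  obtain ⟨j, hj⟩ := h1 δ m hd h.hw
  have hH : ∀ l X, c.H (δ * l + m) (ε * X + a) ↔ c.H l X := h.hH
  have hεε : ε * ε = 1 := by rcases he with rfl | rfl <;> norm_num
  have key : ∀ l X, c.H l (X + ε * (a - c.sg * j)) ↔ c.H l X := by
    intro l X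
    have g1 := code_H_sym c hv ε δ 0 j he hd l (X + ε * (a - c.sg * j))
    have e : ε * (X + ε * (a - c.sg * j)) + (c.sg * j + 2 * c.P * 0) = ε * X + a := by
      linear_combination (a - c.sg * j) * hεε
    rw [e, ← hj] at g1
    rw [← g1]
    exact hH l X
  obtain ⟨v, v1, v2, v3⟩ := h2
  have hfv : fold c.n (v : ℤ) = v := by
    have := fold_of_le c.n hn (v : ℤ) (by rw [abs_of_nonneg (by positivity)]; exact_mod_cast v2)
    rw [abs_of_nonneg (by positivity)] at this
    exact_mod_cast this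
  have hs : (c.sg : ℤ) * kk c.n (v : ℤ) = 0 := by
    by_cases hvn : v = c.n
    · have : c.sg = 0 := by
        by_contra hc
        obtain ⟨-, h4⟩ := hv.hsn hc (by omega)
        rw [hvn, h4] at v3
        obtain ⟨q, hq⟩ := v3 1 (by simp)
        rw [mul_assoc] at hq
        omega
      rw [this]
      simp
    · rw [kk_of_lt c.n hn (v : ℤ) (by rw [abs_of_nonneg (by positivity)]; omega)]
      simp
  have hHv : ∀ X, c.H (v / 2 : ℤ) X ↔ fold c.P X ∈ c.D v := by
    intro X
    unfold Code.H Code.fX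
    rw [show 2 * ((v : ℤ) / 2) = (v : ℤ) by omega, hfv, hs, sub_zero]
  obtain ⟨q, hq⟩ := v3 (ε * (a - c.sg * j)) (by
    intro X
    rw [← hHv, ← hHv]
    exact key _ X)
  refine ⟨ε * q, j, hj, ?_⟩
  linear_combination ε * hq - (a - c.sg * j) * hεε

end Pool.Agent.Lib.H54T
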