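import Mathlib
import Pool.Agent.Lib.H54T.CC1
import Pool.Agent.Lib.H54T.CC2

/-! # H54T: CC (umbrella of CC1, CC2) -/
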