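import Mathlib
import Pool.Agent.Lib.H54T.CC

/-! # H54T, chunk CD1: the label is a complete invariant -/

namespace Pool.Agent.Lib.H54T

/-- The vertical coordinate of a tile. -/
def cdV (k : Kd) (l : ℤ) : ℤ := if k = .hx then 2 * l else 2 * l + 1

theorem cd1_V (k : Kd) (δ n j l : ℤ) (hd : δ = 1 ∨ δ = -1) :
    cdV k (im k δ (n * j) l) = δ * cdV k l + 2 * n * j := by
  unfold cdV im rim
  rcases hd with rfl | rfl <;> cases k <;> simp <;> ring

theorem cd1_lab (c : Code) (k : Kd) (l X : ℤ) : c.lab k l X = (fold c.n (cdV k l),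
    if fold c.n (cdV k l) = c.n ∧ c.sg ≠ 0 then min (c.fX (cdV k l) X) (c.P - c.fX (cdV k l) X)
      else c.fX (cdV k l) X) := rfl

/-- The label is invariant. Vertical coordinate: `2 (im k δ m l) [+ 1] = δ V + 2 m`. -/
theorem lab_inv (c : Code) (hv : c.Valid) (ε δ i j : ℤ) (he : ε = 1 ∨ ε = -1)
    (hd : δ = 1 ∨ δ = -1) (k : Kd) (l X : ℤ) (hok : (c.lay hv).ok k l X) :
    c.lab k (im k δ (c.n * j) l) (ε * X + (c.sg * j + 2 * c.P * i)) = c.lab k l X := by
  have hn := hv.hn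
  have hP := hv.hP
  rw [cd1_lab, cd1_lab, cd1_V k δ c.n j l hd, cc1_V c hv δ j _ hd]
  congr 1
  by_cases hb : fold c.n (cdV k l) = c.n ∧ c.sg ≠ 0
  · rw [if_pos hb, if_pos hb]
    rcases hd with rfl | rfl
    · rw [cc1_fX c hv ε 1 i j _ X he (Or.inl rfl) (Or.inl rfl)]
    · have h1 := cc1_fX' c hv ε i j _ X he hb.1 hb.2
      have h2 : c.fX (cdV k l) X ≤ c.P := fold_le c.P (by omega) _
      generalize c.fX (-1 * cdV k l + 2 * c.n * j) (ε * X + (c.sg * j + 2 * c.P * i)) = u at *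
      generalize c.fX (cdV k l) X = v at *
      have e1 : u = c.P - v := by omega
      have e2 : c.P - u = v := by omega
      rw [e2, e1, min_comm]
  · rw [if_neg hb, if_neg hb]
    rw [cc1_fX c hv ε δ i j _ X he hd (Or.inr (by tauto))]

end Pool.Agent.Lib.H54T
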