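import Mathlib
import Pool.Agent.Lib.H54T.CC
import Pool.Agent.Lib.H54T.CD1

/-! # H54T, chunk CD2: the label is a complete invariant -/

namespace Pool.Agent.Lib.H54T

theorem cd2_x (c : Code) (hv : c.Valid) (X X' K j : ℤ)
    (h : fold c.P (1 * X + (c.sg * j + 2 * c.P * 0) - c.sg * K) = fold c.P (X' - c.sg * K)) :
    ∃ ε i : ℤ, (ε = 1 ∨ ε = -1) ∧ ε * X + (c.sg * j + 2 * c.P * i) = X' := by
  have hP := hv.hP
  obtain ⟨i, hi | hi⟩ := (fold_eq_iff c.P (by omega) _ _).1 h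
  · refine ⟨1, i, Or.inl rfl, ?_⟩
    linear_combination -hi
  · rcases hv.hsg with hs | ⟨hs, -⟩
    · refine ⟨-1, i, Or.inr rfl, ?_⟩
      rw [hs] at hi ⊢
      push_cast at hi ⊢
      linear_combination -hi
    · refine ⟨-1, i - j + K, Or.inr rfl, ?_⟩
      rw [hs] at hi ⊢
      linear_combination -hi

theorem cd2_im (k : Kd) (δ n j l l' : ℤ) (hd : δ = 1 ∨ δ = -1)
    (h : cdV k l' = δ * cdV k l + 2 * n * j) : im k δ (n * j) l = l' := by
  rw [← cd1_V k δ n j l hd] at h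
  unfold cdV at h
  split_ifs at h <;> omega

/-- The label is complete (`fold_eq_iff` twice; in the row `fold = n`, `sg = P`, use `fold_add_half`
and the reflection at this row). -/
theorem lab_complete (c : Code) (hv : c.Valid) (k : Kd) (l X l' X' : ℤ)
    (h : (c.lay hv).ok k l X) (h' : (c.lay hv).ok k l' X') (hl : c.lab k l X = c.lab k l' X') :
    ∃ ε δ i j : ℤ, (ε = 1 ∨ ε = -1) ∧ (δ = 1 ∨ δ = -1) ∧ im k δ (c.n * j) l = l' ∧
      ε * X + (c.sg * j + 2 * c.P * i) = X' := by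
  have hn := hv.hn
  have hP := hv.hP
  rw [cd1_lab, cd1_lab] at hl
  obtain ⟨h1, h2⟩ := Prod.mk.inj hl
  rw [← h1] at h2
  have fin : ∀ δ j : ℤ, (δ = 1 ∨ δ = -1) → cdV k l' = δ * cdV k l + 2 * c.n * j →
      c.fX (δ * cdV k l + 2 * c.n * j) (1 * X + (c.sg * j + 2 * c.P * 0)) = c.fX (cdV k l') X' →
      ∃ ε δ i j : ℤ, (ε = 1 ∨ ε = -1) ∧ (δ = 1 ∨ δ = -1) ∧ im k δ (c.n * j) l = l' ∧
      ε * X + (c.sg * j + 2 * c.P * i) = X' := by
    intro δ j hd hV hf
    rw [hV] at hf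
    obtain ⟨ε, i, he, hX⟩ := cd2_x c hv X X' _ j hf
    exact ⟨ε, δ, i, j, he, hd, cd2_im k δ c.n j l l' hd hV, hX⟩
  by_cases hb : fold c.n (cdV k l) = c.n ∧ c.sg ≠ 0
  · rw [if_pos hb, if_pos hb] at h2
    have ha : c.fX (cdV k l) X ≤ c.P := fold_le c.P (by omega) _
    have ha' : c.fX (cdV k l') X' ≤ c.P := fold_le c.P (by omega) _
    have hab : c.fX (cdV k l') X' = c.fX (cdV k l) X ∨
        (c.fX (cdV k l') X' : ℤ) = c.P - c.fX (cdV k l) X := by
      rcases min_choice (c.fX (cdV k l) X) (c.P - c.fX (cdV k l) X) with g | g <;>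
        rcases min_choice (c.fX (cdV k l') X') (c.P - c.fX (cdV k l') X') with g' | g' <;>
        rw [g, g'] at h2 <;> omega
    -- both forms
    have hV2 : ∃ q : ℤ, 2 * cdV k l = 2 * c.n * q := by
      have e1 := kk_rr c.n hn (cdV k l)
      rw [(fa_fold_eq c.n hn _).1 hb.1] at e1
      exact ⟨2 * kk c.n (cdV k l) - 1, by linear_combination 2 * e1⟩
    obtain ⟨q, hq⟩ := hV2
    obtain ⟨j1, hj1⟩ : ∃ j1 : ℤ, cdV k l' = 1 * cdV k l + 2 * c.n * j1 := by
      obtain ⟨j, hj | hj⟩ := (fold_eq_iff c.n hn _ _).1 h1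
      · exact ⟨j, by linear_combination hj⟩
      · exact ⟨j - q, by linear_combination hj - hq⟩
    rcases hab with hab | hab
    · apply fin 1 j1 (Or.inl rfl) hj1
      rw [cc1_fX c hv 1 1 0 j1 _ X (Or.inl rfl) (Or.inl rfl) (Or.inl rfl), hab]
    · apply fin (-1) (j1 + q) (Or.inr rfl) (by linear_combination hj1 + hq)
      have := cc1_fX' c hv 1 0 (j1 + q) _ X (Or.inl rfl) hb.1 hb.2
      rw [← hab] at this
      exact_mod_cast this
  · rw [if_neg hb, if_neg hb] at h2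
    obtain ⟨j, hj⟩ := (fold_eq_iff c.n hn _ _).1 h1
    have : ∃ δ : ℤ, (δ = 1 ∨ δ = -1) ∧ cdV k l' = δ * cdV k l + 2 * c.n * j := by
      rcases hj with hj | hj
      · exact ⟨1, Or.inl rfl, by linear_combination hj⟩
      · exact ⟨-1, Or.inr rfl, by linear_combination hj⟩
    obtain ⟨δ, hd, hV⟩ := this
    apply fin δ j hd hV
    rw [cc1_fX c hv 1 δ 0 j _ X (Or.inl rfl) hd (Or.inr (by tauto)), h2]

end Pool.Agent.Lib.H54T
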