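import Mathlib
import Pool.Agent.Lib.H54T.CC

/-! # H54T, chunk CE1: the sets of labels -/

namespace Pool.Agent.Lib.H54T

theorem ce1_fold (N : ℕ) (hN : 1 ≤ N) (v : ℕ) (h : v ≤ N) : fold N (v : ℤ) = v := by
  have := fold_of_le N hN (v : ℤ) (by rw [abs_of_nonneg (by positivity)]; exact_mod_cast h)
  rw [abs_of_nonneg (by positivity)] at this
  exact_mod_cast this

/-- Neighbours of a point and neighbours in the folding. -/
theorem ce1_near (P : ℕ) (hP : 1 ≤ P) (D : Finset ℕ) (hD : ∀ Z ∈ D, Z ≤ P) (X s : ℤ) :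
    (∃ X' : ℤ, |X - X'| ≤ 1 ∧ fold P (X' - s) ∈ D) ↔
      ∃ Z ∈ D, Z ≤ fold P (X - s) + 1 ∧ fold P (X - s) ≤ Z + 1 := by
  constructor
  · rintro ⟨X', h1, h2⟩
    refine ⟨_, h2, ?_⟩
    have := fold_lip P hP (X - s) (X' - s)
    rw [show X - s - (X' - s) = X - X' by ring] at this
    have h3 := le_trans this h1
    rw [abs_le] at h3
    omega
  · rintro ⟨Z, hZ, h1, h2⟩
    obtain ⟨V', h3, h4⟩ := fold_lift P hP (X - s) Z (hD Z hZ)
    refine ⟨V' + s, ?_, ?_⟩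
    · rw [show X - (V' + s) = X - s - V' by ring, h4, abs_le]
      omega
    · rw [add_sub_cancel_right, h3]
      exact hZ

theorem ce1_unc (D D' : Finset ℕ) (Y : ℕ) : unc D D' Y = true ↔
    ¬ ((∃ Z ∈ D, Z ≤ Y + 1 ∧ Y ≤ Z + 1) ∨ ∃ Z ∈ D', Z ≤ Y + 1 ∧ Y ≤ Z + 1) := by
  unfold unc
  rw [decide_eq_true_eq]
  push Not
  constructor
  · rintro ⟨h1, h2⟩
    exact ⟨fun Z hZ h => by have := h1 Z hZ h; omega, fun Z hZ h => by have := h2 Z hZ h; omega⟩
  · rintro ⟨h1, h2⟩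
    exact ⟨fun Z hZ h => by have := h1 Z hZ h; omega, fun Z hZ h => by have := h2 Z hZ h; omega⟩

theorem ce1_cov (c : Code) (hv : c.Valid) (l X : ℤ) (hw : c.w l = true) :
    unc (c.D (fold c.n (2 * l + 1) - 1)) (c.D (fold c.n (2 * l + 1) + 1)) (c.fX (2 * l + 1) X) = true ↔
      ¬ (c.lay hv).cov l X := by
  have hn := hv.hn
  have hP := hv.hP
  obtain ⟨s1, s2⟩ := cb_shift c hv l hw
  have hr := cb_row c hv l hw
  have e2 := ca_even c.n hn l
  have e3 := ca_even c.n hn (l + 1)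
  have hl := fold_le c.n hn (2 * l)
  have hl' := fold_le c.n hn (2 * (l + 1))
  have h6 := fold_succ c.n hn (2 * l) (by omega)
  rw [show 2 * l + 2 = 2 * (l + 1) by ring] at h6
  have n1 := ce1_near c.P (by omega) (c.D (fold c.n (2 * l)))
    (fun Z hZ => (hv.hD _ e2 hl Z hZ).1) X (c.sg * kk c.n (2 * l))
  have n2 := ce1_near c.P (by omega) (c.D (fold c.n (2 * (l + 1))))
    (fun Z hZ => (hv.hD _ e3 hl' Z hZ).1) X (c.sg * kk c.n (2 * l))
  have hcov : (c.lay hv).cov l X ↔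
      (∃ Z ∈ c.D (fold c.n (2 * l)), Z ≤ c.fX (2 * l + 1) X + 1 ∧ c.fX (2 * l + 1) X ≤ Z + 1) ∨
      (∃ Z ∈ c.D (fold c.n (2 * (l + 1))),
        Z ≤ c.fX (2 * l + 1) X + 1 ∧ c.fX (2 * l + 1) X ≤ Z + 1) := by
    have e : c.fX (2 * l + 1) X = fold c.P (X - c.sg * kk c.n (2 * l)) := by
      unfold Code.fX
      rw [s2]
    rw [e, ← n1, ← n2]
    show (∃ X' : ℤ, |X - X'| ≤ 1 ∧ (c.H l X' ∨ c.H (l + 1) X')) ↔ _
    unfold Code.H Code.fX
    rw [s1]
    constructor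
    · rintro ⟨X', h1, h2 | h2⟩
      · exact Or.inl ⟨X', h1, h2⟩
      · exact Or.inr ⟨X', h1, h2⟩
    · rintro (⟨X', h1, h2⟩ | ⟨X', h1, h2⟩)
      · exact ⟨X', h1, Or.inl h2⟩
      · exact ⟨X', h1, Or.inr h2⟩
  rw [ce1_unc, hcov]
  rcases h6 with ⟨g1, g2⟩ | ⟨_, g2, _⟩ | ⟨g1, g2⟩
  · have a1 : fold c.n (2 * l + 1) - 1 = fold c.n (2 * l) := by omega
    have a2 : fold c.n (2 * l + 1) + 1 = fold c.n (2 * (l + 1)) := by omega
    rw [a1, a2]
  · exact absurd g2 hr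
  · have a1 : fold c.n (2 * l + 1) - 1 = fold c.n (2 * (l + 1)) := by omega
    have a2 : fold c.n (2 * l + 1) + 1 = fold c.n (2 * l) := by omega
    rw [a1, a2, or_comm]

/-- `x.2` is attained at `X = x.2`, `l = (x.1 - 1) / 2`; `cov` in terms of the folding: `fold_lift`,
`fold_lip`, `fold_succ`, `kk_succ` (a row of triangles is not next to the boundary of the cells if
`sg ≠ 0`). -/
theorem LT_iff (c : Code) (hv : c.Valid) (x : ℕ × ℕ) :
    x ∈ c.LT ↔ ∃ l X, (c.lay hv).ok .tr l X ∧ c.lab .tr l X = x := by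
  have hn := hv.hn
  have hP := hv.hP
  have hlab : ∀ l X, c.w l = true → c.lab .tr l X = (fold c.n (2 * l + 1), c.fX (2 * l + 1) X) := by
    intro l X hw
    have hr := cb_row c hv l hw
    unfold Code.lab
    simp [hr]
  obtain ⟨x1, x2⟩ := x
  unfold Code.LT
  rw [Finset.mem_filter, Finset.mem_product, Finset.mem_range, Finset.mem_range]
  constructor
  · rintro ⟨⟨h1, h2⟩, h3, h4, h5⟩
    simp only at h1 h2 h3 h4 h5
    have e : 2 * (((x1 : ℤ) - 1) / 2) + 1 = x1 := by omega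
    have f1 := ce1_fold c.n hn x1 (by omega)
    have f2 := ce1_fold c.P (by omega) x2 (by omega)
    have hw : c.w (((x1 : ℤ) - 1) / 2) = true := by
      unfold Code.w
      rw [e, f1, h4]
    have hfX : c.fX (x1 : ℤ) (x2 + c.sg * kk c.n x1) = x2 := by
      unfold Code.fX
      rw [add_sub_cancel_right, f2]
    refine ⟨((x1 : ℤ) - 1) / 2, x2 + c.sg * kk c.n x1, ⟨hw, ?_⟩, ?_⟩
    · rw [← ce1_cov c hv _ _ hw, e, f1, hfX]
      exact h5
    · rw [hlab _ _ hw, e, f1, hfX]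
  · rintro ⟨l, X, ⟨hw, hc⟩, hl⟩
    have hw' : c.w l = true := hw
    rw [hlab l X hw'] at hl
    obtain ⟨g1, g2⟩ := Prod.mk.inj hl
    rw [← ce1_cov c hv _ _ hw', g1, g2] at hc
    have k1 := fold_le c.n hn (2 * l + 1)
    have k2 : c.fX (2 * l + 1) X ≤ c.P := fold_le c.P (by omega) _
    have k3 := fold_parity c.n hn (2 * l + 1)
    refine ⟨⟨by simp only; omega, by simp only; omega⟩, by simp only; omega, ?_, hc⟩
    simp only
    rw [← g1]
    exact hw'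

end Pool.Agent.Lib.H54T
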