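import Mathlib
import Pool.Agent.Lib.H54T.CC

/-! # H54T, chunk CE2: the sets of labels -/

namespace Pool.Agent.Lib.H54T

theorem ce2_fold (N : ℕ) (hN : 1 ≤ N) (v : ℕ) (h : v ≤ N) : fold N (v : ℤ) = v := by
  have := fold_of_le N hN (v : ℤ) (by rw [abs_of_nonneg (by positivity)]; exact_mod_cast h)
  rw [abs_of_nonneg (by positivity)] at this
  exact_mod_cast this

theorem LH_iff (c : Code) (hv : c.Valid) (x : ℕ × ℕ) :
    x ∈ c.LH ↔ ∃ l X, (c.lay hv).ok .hx l X ∧ c.lab .hx l X = x := by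
  have hn := hv.hn
  have hP := hv.hP
  have hlab : ∀ l X, c.H l X → c.lab .hx l X = (fold c.n (2 * l), c.fX (2 * l) X) := by
    intro l X hH
    have : ¬ (fold c.n (2 * l) = c.n ∧ c.sg ≠ 0) := by
      rintro ⟨h1, h2⟩
      have e2 := ca_even c.n hn l
      obtain ⟨-, h4⟩ := hv.hsn h2 (by omega)
      unfold Code.H at hH
      rw [h1, h4] at hH
      exact absurd hH (by simp)
    unfold Code.lab
    simp [this]
  obtain ⟨x1, x2⟩ := x
  unfold Code.LH
  rw [Finset.mem_filter, Finset.mem_product, Finset.mem_range, Finset.mem_range]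
  constructor
  · rintro ⟨⟨h1, h2⟩, h3, h4⟩
    simp only at h1 h2 h3 h4
    have e : 2 * ((x1 : ℤ) / 2) = x1 := by omega
    have f1 := ce2_fold c.n hn x1 (by omega)
    have f2 := ce2_fold c.P (by omega) x2 (by omega)
    have hfX : c.fX (x1 : ℤ) (x2 + c.sg * kk c.n x1) = x2 := by
      unfold Code.fX
      rw [add_sub_cancel_right, f2]
    have hH : c.H ((x1 : ℤ) / 2) (x2 + c.sg * kk c.n x1) := by
      unfold Code.H
      rw [e, f1, hfX]
      exact h4
    refine ⟨(x1 : ℤ) / 2, x2 + c.sg * kk c.n x1, hH, ?_⟩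
    rw [hlab _ _ hH, e, f1, hfX]
  · rintro ⟨l, X, hH, hl⟩
    have hH' : c.H l X := hH
    rw [hlab l X hH'] at hl
    obtain ⟨g1, g2⟩ := Prod.mk.inj hl
    have k1 := fold_le c.n hn (2 * l)
    have k2 : c.fX (2 * l) X ≤ c.P := fold_le c.P (by omega) _
    have k3 := ca_even c.n hn l
    refine ⟨⟨by simp only; omega, by simp only; omega⟩, by simp only; omega, ?_⟩
    simp only
    rw [← g1, ← g2]
    exact hH'

end Pool.Agent.Lib.H54T
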