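import Mathlib
import Pool.Agent.Lib.H54T.CE1
import Pool.Agent.Lib.H54T.CE2

/-! # H54T: CE (umbrella of CE1, CE2) -/
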