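import Mathlib
import Pool.Agent.Lib.H54T.CC

/-! # H54T, chunk CF: the set of labels of the squares -/

namespace Pool.Agent.Lib.H54T

theorem cf_fold (N : ℕ) (hN : 1 ≤ N) (v : ℕ) (h : v ≤ N) : fold N (v : ℤ) = v := by
  have := fold_of_le N hN (v : ℤ) (by rw [abs_of_nonneg (by positivity)]; exact_mod_cast h)
  rw [abs_of_nonneg (by positivity)] at this
  exact_mod_cast this

/-- The parity of line `l` is `par (fold n (2 l))`; if `fold n (2 l + 1) = v` then `fold n (2 l)` is
`v - 1` or `v + 1`, and the parities of these two lines are equal (row of squares, `hpar`). -/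
theorem LS_iff (c : Code) (hv : c.Valid) (x : ℕ × ℕ) :
    x ∈ c.LS ↔ ∃ l X, (c.lay hv).ok .sq l X ∧ c.lab .sq l X = x := by
  have hn := hv.hn
  have hP := hv.hP
  have hlab : ∀ l X, c.lab .sq l X = (fold c.n (2 * l + 1),
      if fold c.n (2 * l + 1) = c.n ∧ c.sg ≠ 0 then
        min (c.fX (2 * l + 1) X) (c.P - c.fX (2 * l + 1) X) else c.fX (2 * l + 1) X) := fun _ _ => rfl
  obtain ⟨x1, x2⟩ := x
  unfold Code.LS
  rw [Finset.mem_filter, Finset.mem_product, Finset.mem_range, Finset.mem_range]
  constructor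
  · rintro ⟨⟨h1, h2⟩, h3, h4, h5, h6⟩
    simp only at h1 h2 h3 h4 h5 h6
    have e : 2 * (((x1 : ℤ) - 1) / 2) + 1 = x1 := by omega
    have e' : 2 * (((x1 : ℤ) - 1) / 2) = ((x1 - 1 : ℕ) : ℤ) := by omega
    have f1 := cf_fold c.n hn x1 (by omega)
    have f1' := cf_fold c.n hn (x1 - 1) (by omega)
    have f2 := cf_fold c.P (by omega) x2 (by omega)
    have hfX : c.fX (x1 : ℤ) (x2 + c.sg * kk c.n x1) = x2 := by
      unfold Code.fX
      rw [add_sub_cancel_right, f2]
    refine ⟨((x1 : ℤ) - 1) / 2, x2 + c.sg * kk c.n x1, ⟨?_, ?_⟩, ?_⟩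
    · show c.w _ = false
      unfold Code.w
      rw [e, f1, h4]
    · show ((x2 : ℤ) + c.sg * kk c.n x1 - c.al (((x1 : ℤ) - 1) / 2)) % 2 = 1
      unfold Code.al
      rw [e', f1']
      have := ca_sg_even c hv (kk c.n (x1 : ℤ))
      generalize (c.sg : ℤ) * kk c.n (x1 : ℤ) = s at *
      omega
    · rw [hlab, e, f1, hfX]
      congr 1
      split_ifs with hb
      · have := h6 hb.1 hb.2
        omega
      · rfl
  · rintro ⟨l, X, ⟨hw, hp⟩, hl⟩
    have hw' : c.w l = false := hw
    have hp' : (X - c.al l) % 2 = 1 := hp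
    rw [hlab l X] at hl
    obtain ⟨g1, g2⟩ := Prod.mk.inj hl
    have k1 := fold_le c.n hn (2 * l + 1)
    have k2 : c.fX (2 * l + 1) X ≤ c.P := fold_le c.P (by omega) _
    have k3 := fold_parity c.n hn (2 * l + 1)
    have k4 : ((c.fX (2 * l + 1) X : ℤ) - X) % 2 = 0 := by
      unfold Code.fX
      have q1 := fold_parity c.P (by omega) (X - c.sg * kk c.n (2 * l + 1))
      have q2 := ca_sg_even c hv (kk c.n (2 * l + 1))
      generalize (c.sg : ℤ) * kk c.n (2 * l + 1) = s at *
      omega
    have k5 : c.sg ≠ 0 → c.P % 2 = 0 := by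
      intro hs
      rcases hv.hsg with h | ⟨-, h⟩
      · exact absurd h hs
      · exact h
    have hal : (c.al l - c.par (x1 - 1)) % 2 = 0 := by
      have h6 := fold_succ c.n hn (2 * l) (by omega)
      have hl' := fold_le c.n hn (2 * l)
      have e2 := ca_even c.n hn l
      have hd : fold c.n (2 * l) = x1 - 1 ∨ fold c.n (2 * l) = x1 - 1 + 2 := by omega
      unfold Code.al
      rcases hd with hd | hd
      · rw [hd]
        simp
      · have := hv.hpar (x1 - 1) (by omega) (by omega)
        unfold Code.w at hw'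
        rw [g1] at hw'
        rw [show x1 - 1 + 1 = x1 by omega, hw'] at this
        rw [hd]
        simp only [Bool.false_eq_true, if_false] at this
        omega
    refine ⟨⟨by simp only; omega, ?_⟩, by simp only; omega, ?_, ?_, ?_⟩
    · simp only
      split_ifs at g2 <;> omega
    · simp only
      rw [← g1]
      exact hw'
    · simp only
      split_ifs at g2 with hb
      · have := k5 hb.2
        omega
      · omega
    · simp only
      intro h7 h8
      rw [g1, if_pos ⟨h7, h8⟩] at g2
      omega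

end Pool.Agent.Lib.H54T
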