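import Mathlib
import Pool.Agent.Lib.H54T.Lay

/-! # H54T, chunk GA0: vertices and sides of regular polygons -/

namespace Pool.Agent.Lib.H54T

theorem ga0_add (n : ℕ) (c u : ℂ) (j k : ℕ) :
    vert n c (u * Complex.exp (2 * (Real.pi : ℂ) * Complex.I * (j : ℂ) / (n : ℂ))) k =
      vert n c u (k + j) := by
  unfold vert
  rw [mul_assoc, ← Complex.exp_add]
  congr 3
  push_cast
  ring

theorem ga0_per (n : ℕ) (hn : 1 ≤ n) (c u : ℂ) (j k : ℕ) :
    vert n c u (k + n * j) = vert n c u k := by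
  unfold vert
  have hn' : (n : ℂ) ≠ 0 := by exact_mod_cast (by omega : n ≠ 0)
  have h : 2 * (Real.pi : ℂ) * Complex.I * ((k + n * j : ℕ) : ℂ) / (n : ℂ) =
      2 * (Real.pi : ℂ) * Complex.I * (k : ℂ) / (n : ℂ) + j * (2 * Real.pi * Complex.I) := by
    push_cast
    field_simp
  rw [h, Complex.exp_add, Complex.exp_nat_mul_two_pi_mul_I, mul_one]

/-- `ω^n = 1`: the vertices of the rotated polygon are the same set (for `n ≥ 1` the vertex `k` of
the rotated polygon is the vertex `k + j` of the first one; conversely use `k + (n - 1) * j`). -/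
theorem gon_rot (n : ℕ) (hn : 1 ≤ n) (c u : ℂ) (j : ℕ) :
    gon n c (u * Complex.exp (2 * (Real.pi : ℂ) * Complex.I * (j : ℂ) / (n : ℂ))) = gon n c u := by
  unfold gon
  congr 1
  apply Set.Subset.antisymm
  · rintro z ⟨k, rfl⟩
    exact ⟨k + j, (ga0_add n c u j k).symm⟩
  · rintro z ⟨k, rfl⟩
    refine ⟨k + (n - 1) * j, ?_⟩
    rw [ga0_add]
    have h : k + (n - 1) * j + j = k + n * j := by
      obtain ⟨m, rfl⟩ : ∃ m, n = m + 1 := ⟨n - 1, by omega⟩
      simp only [Nat.add_sub_cancel]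
      ring
    rw [h, ga0_per n hn]

theorem isVertex_vert (n : ℕ) (hn : 3 ≤ n) (c u : ℂ) (k : ℕ) :
    IsVertex (gon n c u) (vert n c u k) := by
  refine ⟨n, c, u * Complex.exp (2 * (Real.pi : ℂ) * Complex.I * (k : ℂ) / (n : ℂ)), hn,
    (gon_rot n (by omega) c u k).symm, ?_⟩
  rw [ga0_add, zero_add]

theorem isSide_vert (n : ℕ) (hn : 3 ≤ n) (c u : ℂ) (k : ℕ) :
    IsSide (gon n c u) (segment ℝ (vert n c u k) (vert n c u (k + 1))) := by
  refine ⟨n, c, u * Complex.exp (2 * (Real.pi : ℂ) * Complex.I * (k : ℂ) / (n : ℂ)), hn,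
    (gon_rot n (by omega) c u k).symm, ?_⟩
  rw [ga0_add, ga0_add, zero_add, add_comm 1 k]

/-- `vert n c u (k + n) = vert n c u k`. -/
theorem vert_add (n : ℕ) (hn : 1 ≤ n) (c u : ℂ) (k : ℕ) : vert n c u (k + n) = vert n c u k := by
  have h := ga0_per n hn c u 1 k
  rwa [mul_one] at h

/-- Reduction of the index modulo `n`. -/
theorem ga0_mod (n : ℕ) (hn : 1 ≤ n) (c u : ℂ) (k : ℕ) :
    vert n c u k = vert n c u (k % n) := by
  conv_lhs => rw [← Nat.mod_add_div k n]
  exact ga0_per n hn c u _ _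

/-- All vertices lie in a set if the first `n` do. -/
theorem ga0_range (n : ℕ) (hn : 1 ≤ n) (c u : ℂ) (S : Set ℂ) (h : ∀ k, k < n → vert n c u k ∈ S) :
    Set.range (vert n c u) ⊆ S := by
  rintro z ⟨k, rfl⟩
  rw [ga0_mod n hn]
  exact h _ (Nat.mod_lt _ (by omega))

/-- A convex set which contains the vertices of a trapezoid contains the trapezoid. -/
theorem ga0_trap (C : Set ℂ) (hC : Convex ℝ C) (x1 x2 x3 x4 a b t : ℝ)
    (h1 : (⟨x1, a⟩ : ℂ) ∈ C) (h2 : (⟨x2, a⟩ : ℂ) ∈ C) (h3 : (⟨x3, b⟩ : ℂ) ∈ C)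
    (h4 : (⟨x4, b⟩ : ℂ) ∈ C) (ht0 : 0 ≤ t) (ht1 : t ≤ 1) (z : ℂ)
    (hz : z.im = (1 - t) * a + t * b) (hl : (1 - t) * x1 + t * x3 ≤ z.re)
    (hr : z.re ≤ (1 - t) * x2 + t * x4) : z ∈ C := by
  have hL : (⟨(1 - t) * x1 + t * x3, (1 - t) * a + t * b⟩ : ℂ) ∈ C := by
    have := hC h1 h3 (sub_nonneg.2 ht1) ht0 (by ring)
    convert this using 1
    apply Complex.ext <;> simp
  have hR : (⟨(1 - t) * x2 + t * x4, (1 - t) * a + t * b⟩ : ℂ) ∈ C := by
    have := hC h2 h4 (sub_nonneg.2 ht1) ht0 (by ring)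
    convert this using 1
    apply Complex.ext <;> simp
  set p := (1 - t) * x1 + t * x3 with hp
  set q := (1 - t) * x2 + t * x4 with hq
  rcases eq_or_lt_of_le (hl.trans hr) with h | h
  · have : z = ⟨p, (1 - t) * a + t * b⟩ := by
      apply Complex.ext
      · simp only
        linarith
      · simpa using hz
    rw [this]
    exact hL
  · have hpq : 0 < q - p := sub_pos.2 h
    have h5 : 0 ≤ (z.re - p) / (q - p) := div_nonneg (by linarith) hpq.le
    have h6 : 0 ≤ 1 - (z.re - p) / (q - p) := by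
      rw [sub_nonneg, div_le_one hpq]
      linarith
    have := hC hL hR h6 h5 (by ring)
    convert this using 1
    apply Complex.ext
    · simp only [Complex.add_re, Complex.smul_re, smul_eq_mul]
      field_simp
      ring
    · simp only [Complex.add_im, Complex.smul_im, smul_eq_mul]
      rw [hz]
      ring

end Pool.Agent.Lib.H54T
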