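import Mathlib
import Pool.Agent.Lib.H54T.Lay

/-! # H54T: traces of tiles on the horizontal lines (definitions) -/

namespace Pool.Agent.Lib.H54T

/-- The lowest line which meets a tile. -/
def bot (k : Kd) (l : ℤ) : ℤ :=
  match k with
  | .hx => l - 1
  | _ => l

/-- `E` is a vertex or a horizontal side of `A` on line `j`. -/
def IsTr (L : Lay) (A : Set ℂ) (j : ℤ) (E : Set ℂ) : Prop :=
  (∃ X : ℤ, (X - L.al j) % 2 = 0 ∧ E = {pt X (L.y j)} ∧ IsVertex A (pt X (L.y j))) ∨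
  (∃ X : ℤ, (X - L.al j) % 2 = 1 ∧ E = segment ℝ (pt (X - 1) (L.y j)) (pt (X + 1) (L.y j)) ∧
    IsSide A E ∧ IsVertex A (pt (X - 1) (L.y j)) ∧ IsVertex A (pt (X + 1) (L.y j)))

end Pool.Agent.Lib.H54T
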