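import Mathlib
import Pool.Agent.Lib.H54T.GB0
import Pool.Agent.Lib.H54T.GA0

/-! # H54T, chunk GB1: heights and traces -/

namespace Pool.Agent.Lib.H54T

theorem rho_pos : 0 < rho := by
  unfold rho
  have : 0 < Real.sqrt 3 := Real.sqrt_pos.2 (by norm_num)
  linarith

theorem rho_lt_one : rho < 1 := by
  unfold rho
  have : Real.sqrt 3 < 2 := by
    rw [Real.sqrt_lt' (by norm_num)]
    norm_num
  linarith

/-- `y` is strictly increasing, with steps at least `rho`. -/
theorem y_strictMono (L : Lay) : StrictMono L.y := by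
  apply strictMono_int_of_lt_succ
  intro l
  have h := L.hy l
  have := rho_pos
  rw [h]
  split_ifs <;> linarith

/-- A tile lies between its lowest and its highest line. -/
theorem reg_range (L : Lay) (k : Kd) (l X : ℤ) (h : L.ok k l X) (z : ℂ) (hz : z ∈ L.reg k l X) :
    L.y (bot k l) ≤ z.im ∧ z.im ≤ L.y (l + 1) := by
  have hr := rho_pos
  have hy := L.hy l
  cases k with
  | tr =>
    have hw : L.w l = true := h.1
    rw [if_pos hw] at hy
    simp only [bot]
    simp only [Lay.reg] at hz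
    split_ifs at hz
    · obtain ⟨τ, h1, h2, h3⟩ := hz
      have h4 := (abs_nonneg _).trans h3
      rw [h1, hy]
      constructor <;> nlinarith
    · obtain ⟨τ, h1, h2, h3⟩ := hz
      have h4 := (abs_nonneg _).trans h3
      rw [h1, hy]
      constructor <;> nlinarith
  | sq =>
    have hw : L.w l = false := h.1
    rw [hw] at hy
    simp only [Bool.false_eq_true, if_false] at hy
    obtain ⟨h1, h2, h3⟩ := hz
    exact ⟨h2, by rw [hy]; exact h3⟩
  | hx =>
    have hH : L.H l X := h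
    obtain ⟨w1, w2⟩ := L.hrow l X hH
    rw [if_pos w1] at hy
    have hy' := L.hy (l - 1)
    rw [if_pos w2, sub_add_cancel] at hy'
    obtain ⟨τ, h1, h2, h3⟩ := hz
    rw [abs_le] at h2
    simp only [bot]
    rw [h1, hy]
    constructor
    · nlinarith [h2.1]
    · nlinarith [h2.2]

/-- A side is contained in the polygon. -/
theorem gb1_side_sub {A e : Set ℂ} (h : IsSide A e) : e ⊆ A := by
  obtain ⟨n, c, u, hn, rfl, rfl⟩ := h
  exact (convex_convexHull ℝ _).segment_subset (subset_convexHull ℝ _ ⟨0, rfl⟩)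
    (subset_convexHull ℝ _ ⟨1, rfl⟩)

/-- A vertex is contained in the polygon. -/
theorem gb1_vertex_mem {A : Set ℂ} {v : ℂ} (h : IsVertex A v) : v ∈ A := by
  obtain ⟨n, c, u, hn, rfl, rfl⟩ := h
  exact subset_convexHull ℝ _ ⟨0, rfl⟩

theorem gb1_seg (X1 X3 : ℤ) (a b t : ℝ) (z : ℂ) (h0 : 0 ≤ t) (h1 : t ≤ 1)
    (hre : 2 * z.re = (1 - t) * X1 + t * X3) (him : z.im = (1 - t) * a + t * b) :
    z ∈ segment ℝ (pt X1 a) (pt X3 b) := by
  rw [segment_eq_image]
  refine ⟨t, ⟨h0, h1⟩, ?_⟩
  unfold pt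
  apply Complex.ext
  · simp only [Complex.add_re, Complex.smul_re, smul_eq_mul]
    linarith
  · simp only [Complex.add_im, Complex.smul_im, smul_eq_mul]
    linarith

theorem gb1_seg_iff (X : ℤ) (b : ℝ) (z : ℂ) :
    z ∈ segment ℝ (pt (X - 1) b) (pt (X + 1) b) ↔ |2 * z.re - X| ≤ 1 ∧ z.im = b := by
  constructor
  · intro h
    rw [segment_eq_image] at h
    obtain ⟨t, ⟨h0, h1⟩, rfl⟩ := h
    unfold pt
    constructor
    · rw [abs_le]
      simp only [Complex.add_re, Complex.smul_re, smul_eq_mul]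
      push_cast
      constructor <;> nlinarith
    · simp only [Complex.add_im, Complex.smul_im, smul_eq_mul]
      ring
  · rintro ⟨h1, h2⟩
    rw [abs_le] at h1
    apply gb1_seg (X - 1) (X + 1) b b ((2 * z.re - X + 1) / 2) z
    · linarith [h1.1]
    · linarith [h1.2]
    · push_cast
      ring
    · rw [h2]
      ring

theorem gb1_meets_seg {A B : Set ℂ} {e : Set ℂ} (hA : IsSide A e)
    (hB : IsSide B e) (h : ∀ z, z ∈ A → z ∈ B → z ∈ e) :
    Meets A B := by
  have : A ∩ B = e := by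
    apply Set.Subset.antisymm
    · rintro z ⟨h1, h2⟩
      exact h z h1 h2
    · intro z hz
      exact ⟨gb1_side_sub hA hz, gb1_side_sub hB hz⟩
  right
  right
  rw [this]
  exact ⟨hA, hB⟩

theorem gb1_meets_pt {A B : Set ℂ} {v : ℂ} (hA : IsVertex A v)
    (hB : IsVertex B v) (h : ∀ z, z ∈ A → z ∈ B → z = v) :
    Meets A B := by
  right
  left
  refine ⟨v, ?_, hA, hB⟩
  apply Set.Subset.antisymm
  · rintro z ⟨h1, h2⟩
    exact h z h1 h2
  · intro z hz
    rw [Set.mem_singleton_iff] at hz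
    rw [hz]
    exact ⟨gb1_vertex_mem hA, gb1_vertex_mem hB⟩

theorem gb1_meets_no {A B : Set ℂ} (h : ∀ z, z ∈ A → z ∈ B → False) : Meets A B := by
  left
  apply Set.eq_empty_iff_forall_notMem.2
  rintro z ⟨h1, h2⟩
  exact h z h1 h2

theorem gb1_pt (X : ℤ) (a : ℝ) (z : ℂ) (h1 : 2 * z.re = X) (h2 : z.im = a) : z = pt X a := by
  unfold pt
  apply Complex.ext
  · simp only
    linarith
  · exact h2

theorem gb1_tau {a τ τ' : ℝ} (h : a + rho * τ = a + rho * τ') : τ = τ' := by
  have h1 := rho_pos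
  have h2 : rho * τ = rho * τ' := by linarith
  exact mul_left_cancel₀ h1.ne' h2

theorem gb1_tau' {a τ τ' : ℝ} (h : a + rho * τ = a + rho + rho * τ') : τ = τ' + 1 := by
  have h1 := rho_pos
  have h2 : rho * τ = rho * (τ' + 1) := by linarith
  exact mul_left_cancel₀ h1.ne' h2

end Pool.Agent.Lib.H54T
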