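import Mathlib
import Pool.Agent.Lib.H54T.GB1

/-! # H54T, chunk SA2A: the label of a tile is determined by the tile -/

namespace Pool.Agent.Lib.H54T

theorem sa2_int (X X' : ℤ) (c : ℝ) (h1 : |((X : ℝ) - c) - X'| ≤ c) (h2 : |((X : ℝ) + c) - X'| ≤ c) :
    X = X' := by
  rw [abs_le] at h1 h2
  have h3 : (X : ℝ) = X' := by linarith [h1.1, h2.2]
  exact_mod_cast h3

theorem sqR_inj (a b : ℝ) (X X' : ℤ) (h : sqR a X = sqR b X') : a = b ∧ X = X' := by
  have key : ∀ (a b : ℝ) (X X' : ℤ), sqR a X = sqR b X' → b ≤ a := by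
    intro a b X X' h
    have h1 : pt X a ∈ sqR a X := by
      refine ⟨?_, le_refl _, by simp only [pt]; linarith⟩
      simp only [pt]
      rw [show (2 * ((X : ℝ) / 2) - X) = 0 by ring]
      simp
    rw [h] at h1
    exact h1.2.1
  have hab : a = b := le_antisymm (key _ _ _ _ h.symm) (key _ _ _ _ h)
  refine ⟨hab, ?_⟩
  have h1 : (⟨((X : ℝ) - 1) / 2, a⟩ : ℂ) ∈ sqR a X := by
    refine ⟨?_, le_refl _, by simp only; linarith⟩
    rw [abs_le]
    simp only
    constructor <;> linarith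
  have h2 : (⟨((X : ℝ) + 1) / 2, a⟩ : ℂ) ∈ sqR a X := by
    refine ⟨?_, le_refl _, by simp only; linarith⟩
    rw [abs_le]
    simp only
    constructor <;> linarith
  rw [h] at h1 h2
  have h3 := h1.1
  have h4 := h2.1
  simp only at h3 h4
  apply sa2_int X X' 1
  · rwa [show (X : ℝ) - 1 - X' = 2 * (((X : ℝ) - 1) / 2) - X' by ring]
  · rwa [show (X : ℝ) + 1 - X' = 2 * (((X : ℝ) + 1) / 2) - X' by ring]

theorem upR_inj (a b : ℝ) (X X' : ℤ) (h : upR a X = upR b X') : a = b ∧ X = X' := by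
  have key : ∀ (a b : ℝ) (X X' : ℤ), upR a X = upR b X' → b ≤ a := by
    intro a b X X' h
    have h1 : pt X a ∈ upR a X := by
      refine ⟨0, by simp [pt], le_refl _, ?_⟩
      simp only [pt]
      rw [show (2 * ((X : ℝ) / 2) - X) = 0 by ring]
      simp
    rw [h] at h1
    obtain ⟨τ, g1, g2, g3⟩ := h1
    have hr := rho_pos
    have g1 : a = b + rho * τ := g1
    nlinarith
  have hab : a = b := le_antisymm (key _ _ _ _ h.symm) (key _ _ _ _ h)
  refine ⟨hab, ?_⟩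
  have h1 : (⟨((X : ℝ) - 1) / 2, a⟩ : ℂ) ∈ upR a X := by
    refine ⟨0, by simp, le_refl _, ?_⟩
    rw [abs_le]
    simp only
    constructor <;> linarith
  have h2 : (⟨((X : ℝ) + 1) / 2, a⟩ : ℂ) ∈ upR a X := by
    refine ⟨0, by simp, le_refl _, ?_⟩
    rw [abs_le]
    simp only
    constructor <;> linarith
  rw [h] at h1 h2
  obtain ⟨τ, g1, g2, g3⟩ := h1
  obtain ⟨τ', f1, f2, f3⟩ := h2
  simp only at g3 f3
  apply sa2_int X X' 1
  · rw [show (X : ℝ) - 1 - X' = 2 * (((X : ℝ) - 1) / 2) - X' by ring]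
    linarith
  · rw [show (X : ℝ) + 1 - X' = 2 * (((X : ℝ) + 1) / 2) - X' by ring]
    linarith

theorem dnR_inj (a b : ℝ) (X X' : ℤ) (h : dnR a X = dnR b X') : a = b ∧ X = X' := by
  have key : ∀ (a b : ℝ) (X X' : ℤ), dnR a X = dnR b X' → a ≤ b := by
    intro a b X X' h
    have h1 : pt X (a + rho) ∈ dnR a X := by
      refine ⟨1, by simp [pt], le_refl _, ?_⟩
      simp only [pt]
      rw [show (2 * ((X : ℝ) / 2) - X) = 0 by ring]
      simp
    rw [h] at h1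
    obtain ⟨τ, g1, g2, g3⟩ := h1
    have hr := rho_pos
    have g1 : a + rho = b + rho * τ := g1
    nlinarith
  have hab : a = b := le_antisymm (key _ _ _ _ h) (key _ _ _ _ h.symm)
  refine ⟨hab, ?_⟩
  have h1 : (⟨((X : ℝ) - 1) / 2, a + rho⟩ : ℂ) ∈ dnR a X := by
    refine ⟨1, by simp, le_refl _, ?_⟩
    rw [abs_le]
    simp only
    constructor <;> linarith
  have h2 : (⟨((X : ℝ) + 1) / 2, a + rho⟩ : ℂ) ∈ dnR a X := by
    refine ⟨1, by simp, le_refl _, ?_⟩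
    rw [abs_le]
    simp only
    constructor <;> linarith
  rw [h] at h1 h2
  obtain ⟨τ, g1, g2, g3⟩ := h1
  obtain ⟨τ', f1, f2, f3⟩ := h2
  simp only at g3 f3
  apply sa2_int X X' 1
  · rw [show (X : ℝ) - 1 - X' = 2 * (((X : ℝ) - 1) / 2) - X' by ring]
    linarith
  · rw [show (X : ℝ) + 1 - X' = 2 * (((X : ℝ) + 1) / 2) - X' by ring]
    linarith

theorem hxR_inj (a b : ℝ) (X X' : ℤ) (h : hxR a X = hxR b X') : a = b ∧ X = X' := by
  have key : ∀ (a b : ℝ) (X X' : ℤ), hxR a X = hxR b X' → a ≤ b := by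
    intro a b X X' h
    have h1 : pt X (a + rho) ∈ hxR a X := by
      refine ⟨1, by simp [pt], by simp, ?_⟩
      simp only [pt]
      rw [show (2 * ((X : ℝ) / 2) - X) = 0 by ring]
      simp
    rw [h] at h1
    obtain ⟨τ, g1, g2, g3⟩ := h1
    have hr := rho_pos
    have g1 : a + rho = b + rho * τ := g1
    have g4 := (abs_le.1 g2).2
    nlinarith
  have hab : a = b := le_antisymm (key _ _ _ _ h) (key _ _ _ _ h.symm)
  refine ⟨hab, ?_⟩
  have h1 : (⟨((X : ℝ) - 2) / 2, a⟩ : ℂ) ∈ hxR a X := by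
    refine ⟨0, by simp, by simp, ?_⟩
    rw [abs_le, abs_zero]
    simp only
    constructor <;> linarith
  have h2 : (⟨((X : ℝ) + 2) / 2, a⟩ : ℂ) ∈ hxR a X := by
    refine ⟨0, by simp, by simp, ?_⟩
    rw [abs_le, abs_zero]
    simp only
    constructor <;> linarith
  rw [h] at h1 h2
  obtain ⟨τ, g1, g2, g3⟩ := h1
  obtain ⟨τ', f1, f2, f3⟩ := h2
  simp only at g3 f3
  have n1 := abs_nonneg τ
  have n2 := abs_nonneg τ'
  apply sa2_int X X' 2
  · rw [show (X : ℝ) - 2 - X' = 2 * (((X : ℝ) - 2) / 2) - X' by ring]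
    linarith
  · rw [show (X : ℝ) + 2 - X' = 2 * (((X : ℝ) + 2) / 2) - X' by ring]
    linarith

theorem upR_ne_dnR (a b : ℝ) (X X' : ℤ) : upR a X ≠ dnR b X' := by
  intro h
  have hr := rho_pos
  have h1 : (⟨((X : ℝ) - 1) / 2, a⟩ : ℂ) ∈ upR a X := by
    refine ⟨0, by simp, le_refl _, ?_⟩
    rw [abs_le]
    simp only
    constructor <;> linarith
  have h2 : (⟨((X : ℝ) + 1) / 2, a⟩ : ℂ) ∈ upR a X := by
    refine ⟨0, by simp, le_refl _, ?_⟩
    rw [abs_le]
    simp only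
    constructor <;> linarith
  have h3 : pt X (a + rho) ∈ upR a X := by
    refine ⟨1, by simp [pt], by norm_num, ?_⟩
    simp only [pt]
    rw [show (2 * ((X : ℝ) / 2) - X) = 0 by ring]
    simp
  rw [h] at h1 h2 h3
  obtain ⟨τ, g1, g2, g3⟩ := h1
  obtain ⟨τ', f1, f2, f3⟩ := h2
  obtain ⟨τ'', e1, e2, e3⟩ := h3
  have hτ : τ = τ' := gb1_tau (g1.symm.trans f1)
  subst hτ
  simp only at g3 f3 g1
  rw [abs_le] at g3 f3
  have h4 : 1 ≤ τ := by linarith [g3.1, f3.2]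
  have e1 : a + rho = b + rho * τ'' := e1
  nlinarith

end Pool.Agent.Lib.H54T
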