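import Mathlib
import Pool.Agent.Lib.H54T.GA0

/-! # H54T, chunk GA1: squares -/

namespace Pool.Agent.Lib.H54T

theorem ga1_vert (c u : ℂ) (k : ℕ) : vert 4 c u k = c + u * Complex.I ^ k := by
  unfold vert
  have h : 2 * (Real.pi : ℂ) * Complex.I * (k : ℂ) / ((4 : ℕ) : ℂ) =
      (k : ℂ) * ((Real.pi : ℂ) / 2 * Complex.I) := by
    push_cast
    ring
  rw [h, Complex.exp_nat_mul, Complex.exp_pi_div_two_mul_I]

/-- The vertices (the fourth roots of unity are 1, I, -1, -I). -/
theorem sq_vert (a : ℝ) (X : ℤ) :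
    vert 4 (pt X (a + 1 / 2)) ((1 + Complex.I) / 2) 0 = pt (X + 1) (a + 1) ∧
    vert 4 (pt X (a + 1 / 2)) ((1 + Complex.I) / 2) 1 = pt (X - 1) (a + 1) ∧
    vert 4 (pt X (a + 1 / 2)) ((1 + Complex.I) / 2) 2 = pt (X - 1) a ∧
    vert 4 (pt X (a + 1 / 2)) ((1 + Complex.I) / 2) 3 = pt (X + 1) a := by
  have e2 : (Complex.I) ^ 2 = -1 := Complex.I_sq
  have e3 : (Complex.I) ^ 3 = -Complex.I := by
    rw [pow_succ, Complex.I_sq]
    ring
  simp only [ga1_vert, pow_zero, pow_one, e2, e3]
  refine ⟨?_, ?_, ?_, ?_⟩ <;> unfold pt <;> apply Complex.ext <;> simp <;> push_cast <;> ring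

theorem ga1_conv (a : ℝ) (X : ℤ) : Convex ℝ (sqR a X) := by
  intro x hx y hy s t hs ht hst
  obtain ⟨h1, h2, h3⟩ := hx
  obtain ⟨g1, g2, g3⟩ := hy
  rw [abs_le] at h1 g1
  have ht' : t = 1 - s := by linarith
  subst ht'
  refine ⟨?_, ?_, ?_⟩
  · rw [abs_le]
    simp only [Complex.add_re, Complex.smul_re, smul_eq_mul]
    constructor <;> nlinarith
  · simp only [Complex.add_im, Complex.smul_im, smul_eq_mul]
    nlinarith
  · simp only [Complex.add_im, Complex.smul_im, smul_eq_mul]
    nlinarith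

/-- The square is the convex hull of its vertices: `⊇` by convexity of the left side; `⊆`: a point of
the square is `(1-s)(1-r) A + s(1-r) B + s r C + (1-s) r D`. -/
theorem sq_gon (a : ℝ) (X : ℤ) : sqR a X = gon 4 (pt X (a + 1 / 2)) ((1 + Complex.I) / 2) := by
  obtain ⟨v0, v1, v2, v3⟩ := sq_vert a X
  apply Set.Subset.antisymm
  · rintro z ⟨h1, h2, h3⟩
    rw [abs_le] at h1
    have m : ∀ k, vert 4 (pt X (a + 1 / 2)) ((1 + Complex.I) / 2) k ∈
        gon 4 (pt X (a + 1 / 2)) ((1 + Complex.I) / 2) := fun k => subset_convexHull ℝ _ ⟨k, rfl⟩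
    have m0 := m 0
    have m1 := m 1
    have m2 := m 2
    have m3 := m 3
    rw [v0] at m0
    rw [v1] at m1
    rw [v2] at m2
    rw [v3] at m3
    unfold pt at m0 m1 m2 m3
    refine ga0_trap _ (convex_convexHull ℝ _) _ _ _ _ a (a + 1) (z.im - a) m2 m3 m1 m0
      (by linarith) (by linarith) z (by ring) ?_ ?_
    · push_cast
      linarith [h1.1]
    · push_cast
      linarith [h1.2]
  · apply convexHull_min _ (ga1_conv a X)
    apply ga0_range 4 (by norm_num)
    intro k hk
    interval_cases k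
    · rw [v0]
      unfold pt sqR
      simp only [Set.mem_setOf_eq]
      refine ⟨?_, by linarith, by linarith⟩
      rw [abs_le]
      push_cast
      constructor <;> linarith
    · rw [v1]
      unfold pt sqR
      simp only [Set.mem_setOf_eq]
      refine ⟨?_, by linarith, by linarith⟩
      rw [abs_le]
      push_cast
      constructor <;> linarith
    · rw [v2]
      unfold pt sqR
      simp only [Set.mem_setOf_eq]
      refine ⟨?_, by linarith, by linarith⟩
      rw [abs_le]
      push_cast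
      constructor <;> linarith
    · rw [v3]
      unfold pt sqR
      simp only [Set.mem_setOf_eq]
      refine ⟨?_, by linarith, by linarith⟩
      rw [abs_le]
      push_cast
      constructor <;> linarith

end Pool.Agent.Lib.H54T
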