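import Mathlib
import Pool.Agent.Lib.H54T.GA0

/-! # H54T, chunk GA4: vertices of hexagons -/

namespace Pool.Agent.Lib.H54T

theorem ga4_rho_sq : rho ^ 2 = 3 / 4 := by
  unfold rho
  rw [div_pow, Real.sq_sqrt (by norm_num)]
  norm_num

theorem ga4_rho_pos : 0 < rho := by
  unfold rho
  have : 0 < Real.sqrt 3 := Real.sqrt_pos.2 (by norm_num)
  linarith

theorem ga4_omega : Complex.exp ((Real.pi : ℂ) / 3 * Complex.I) = ⟨1 / 2, rho⟩ := by
  have h : (Real.pi : ℂ) / 3 = ((Real.pi / 3 : ℝ) : ℂ) := by push_cast; ring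
  rw [h, Complex.exp_mul_I, ← Complex.ofReal_cos, ← Complex.ofReal_sin, Real.cos_pi_div_three,
    Real.sin_pi_div_three]
  unfold rho
  apply Complex.ext <;> simp

theorem ga4_vert (c u : ℂ) (k : ℕ) : vert 6 c u k = c + u * (⟨1 / 2, rho⟩ : ℂ) ^ k := by
  unfold vert
  have h : 2 * (Real.pi : ℂ) * Complex.I * (k : ℂ) / ((6 : ℕ) : ℂ) =
      (k : ℂ) * ((Real.pi : ℂ) / 3 * Complex.I) := by
    push_cast
    ring
  rw [h, Complex.exp_nat_mul, ga4_omega]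

theorem ga4_p2 : (⟨1 / 2, rho⟩ : ℂ) ^ 2 = ⟨-1 / 2, rho⟩ := by
  have := ga4_rho_sq
  rw [sq]
  apply Complex.ext
  · simp only [Complex.mul_re]
    nlinarith
  · simp only [Complex.mul_im]
    ring

theorem ga4_p3 : (⟨1 / 2, rho⟩ : ℂ) ^ 3 = ⟨-1, 0⟩ := by
  have := ga4_rho_sq
  rw [pow_succ, ga4_p2]
  apply Complex.ext
  · simp only [Complex.mul_re]
    nlinarith
  · simp only [Complex.mul_im]
    ring

theorem ga4_p4 : (⟨1 / 2, rho⟩ : ℂ) ^ 4 = ⟨-1 / 2, -rho⟩ := by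
  rw [pow_succ, ga4_p3]
  apply Complex.ext
  · simp only [Complex.mul_re]
    ring
  · simp only [Complex.mul_im]
    ring

theorem ga4_p5 : (⟨1 / 2, rho⟩ : ℂ) ^ 5 = ⟨1 / 2, -rho⟩ := by
  have := ga4_rho_sq
  rw [pow_succ, ga4_p4]
  apply Complex.ext
  · simp only [Complex.mul_re]
    nlinarith
  · simp only [Complex.mul_im]
    ring

/-- The vertices (sixth roots of unity). -/
theorem hx_vert (a : ℝ) (X : ℤ) :
    vert 6 (pt X a) 1 0 = pt (X + 2) a ∧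
    vert 6 (pt X a) 1 1 = pt (X + 1) (a + rho) ∧
    vert 6 (pt X a) 1 2 = pt (X - 1) (a + rho) ∧
    vert 6 (pt X a) 1 3 = pt (X - 2) a ∧
    vert 6 (pt X a) 1 4 = pt (X - 1) (a - rho) ∧
    vert 6 (pt X a) 1 5 = pt (X + 1) (a - rho) := by
  simp only [ga4_vert, pow_zero, pow_one, ga4_p2, ga4_p3, ga4_p4, ga4_p5, one_mul]
  refine ⟨?_, ?_, ?_, ?_, ?_, ?_⟩ <;> unfold pt <;> apply Complex.ext <;>
    simp only [Complex.add_re, Complex.add_im, Complex.one_re, Complex.one_im] <;>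
    push_cast <;> ring

end Pool.Agent.Lib.H54T
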