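import Mathlib
import Pool.Agent.Lib.H54T.GA0
import Pool.Agent.Lib.H54T.GA2

/-! # H54T, chunk GA3: triangles, apex down -/

namespace Pool.Agent.Lib.H54T

/-- The vertices (third roots of unity; the circumradius is `2 rho / 3 = 1 / √3`). -/
theorem dn_vert (a : ℝ) (X : ℤ) :
    vert 3 (pt X (a + 2 * rho / 3)) (-Complex.I * (2 * rho / 3 : ℝ)) 0 = pt X a ∧
    vert 3 (pt X (a + 2 * rho / 3)) (-Complex.I * (2 * rho / 3 : ℝ)) 1 = pt (X + 1) (a + rho) ∧
    vert 3 (pt X (a + 2 * rho / 3)) (-Complex.I * (2 * rho / 3 : ℝ)) 2 = pt (X - 1) (a + rho) := by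
  have hr := ga2_rr
  simp only [ga2_vert, pow_zero, pow_one, ga2_p2, mul_one]
  refine ⟨?_, ?_, ?_⟩ <;> unfold pt <;> apply Complex.ext <;>
    simp only [Complex.add_re, Complex.add_im, Complex.mul_re, Complex.mul_im, Complex.I_re,
      Complex.I_im, Complex.ofReal_re, Complex.ofReal_im, Complex.neg_re, Complex.neg_im] <;>
    push_cast <;> nlinarith

theorem ga3_conv (a : ℝ) (X : ℤ) : Convex ℝ (dnR a X) := by
  intro x hx y hy s t hs ht hst
  obtain ⟨p, h1, h2, h3⟩ := hx
  obtain ⟨q, g1, g2, g3⟩ := hy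
  have ht' : t = 1 - s := by linarith
  subst ht'
  refine ⟨s * p + (1 - s) * q, ?_, ?_, ?_⟩
  · simp only [Complex.add_im, Complex.smul_im, smul_eq_mul]
    rw [h1, g1]
    ring
  · nlinarith
  · rw [abs_le] at h3 g3 ⊢
    simp only [Complex.add_re, Complex.smul_re, smul_eq_mul]
    constructor <;> nlinarith

/-- The triangle is the convex hull of its vertices. -/
theorem dn_gon (a : ℝ) (X : ℤ) :
    dnR a X = gon 3 (pt X (a + 2 * rho / 3)) (-Complex.I * (2 * rho / 3 : ℝ)) := by
  obtain ⟨v0, v1, v2⟩ := dn_vert a X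
  apply Set.Subset.antisymm
  · rintro z ⟨τ, h1, h2, h3⟩
    have hτ : 0 ≤ τ := (abs_nonneg (2 * z.re - X)).trans h3
    rw [abs_le] at h3
    have m : ∀ k, vert 3 (pt X (a + 2 * rho / 3)) (-Complex.I * (2 * rho / 3 : ℝ)) k ∈
        gon 3 (pt X (a + 2 * rho / 3)) (-Complex.I * (2 * rho / 3 : ℝ)) :=
      fun k => subset_convexHull ℝ _ ⟨k, rfl⟩
    have m0 := m 0
    have m1 := m 1
    have m2 := m 2
    rw [v0] at m0
    rw [v1] at m1
    rw [v2] at m2
    unfold pt at m0 m1 m2
    refine ga0_trap _ (convex_convexHull ℝ _) _ _ _ _ a (a + rho) τ m0 m0 m2 m1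
      hτ h2 z (by rw [h1]; ring) ?_ ?_
    · push_cast
      linarith [h3.1]
    · push_cast
      linarith [h3.2]
  · apply convexHull_min _ (ga3_conv a X)
    apply ga0_range 3 (by norm_num)
    intro k hk
    interval_cases k
    · rw [v0]
      unfold pt dnR
      refine ⟨0, by simp, by simp, ?_⟩
      rw [abs_le]
      push_cast
      constructor <;> linarith
    · rw [v1]
      unfold pt dnR
      refine ⟨1, by simp, by simp, ?_⟩
      rw [abs_le]
      push_cast
      constructor <;> linarith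
    · rw [v2]
      unfold pt dnR
      refine ⟨1, by simp, by simp, ?_⟩
      rw [abs_le]
      push_cast
      constructor <;> linarith

end Pool.Agent.Lib.H54T
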