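import Mathlib
import Pool.Agent.Lib.H54T.GA4

/-! # H54T, chunk GA5: hexagons are convex hulls -/

namespace Pool.Agent.Lib.H54T

theorem ga5_conv (a : ℝ) (X : ℤ) : Convex ℝ (hxR a X) := by
  intro x hx y hy s t hs ht hst
  obtain ⟨p, h1, h2, h3⟩ := hx
  obtain ⟨q, g1, g2, g3⟩ := hy
  have ht' : t = 1 - s := by linarith
  subst ht'
  have habs : |s * p + (1 - s) * q| ≤ s * |p| + (1 - s) * |q| := by
    refine (abs_add_le _ _).trans ?_
    rw [abs_mul, abs_mul, abs_of_nonneg hs, abs_of_nonneg ht]
  refine ⟨s * p + (1 - s) * q, ?_, ?_, ?_⟩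
  · simp only [Complex.add_im, Complex.smul_im, smul_eq_mul]
    rw [h1, g1]
    ring
  · nlinarith
  · rw [abs_le] at h3 g3 ⊢
    simp only [Complex.add_re, Complex.smul_re, smul_eq_mul]
    constructor <;> nlinarith

/-- The hexagon is the convex hull of its vertices. `⊇`: the left side is convex (it is cut out by
linear inequalities). `⊆`: for `τ ≥ 0` the point lies in the trapezoid with the vertices 0, 1, 2, 3 (a
convex combination of points of the two horizontal sides, on the heights `0` and `rho`); for `τ ≤ 0`
use the vertices 3, 4, 5, 0. -/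
theorem hx_gon (a : ℝ) (X : ℤ) : hxR a X = gon 6 (pt X a) 1 := by
  obtain ⟨v0, v1, v2, v3, v4, v5⟩ := hx_vert a X
  apply Set.Subset.antisymm
  · rintro z ⟨τ, h1, h2, h3⟩
    rw [abs_le] at h3
    have m : ∀ k, vert 6 (pt X a) 1 k ∈ gon 6 (pt X a) 1 :=
      fun k => subset_convexHull ℝ _ ⟨k, rfl⟩
    have m0 := m 0
    have m1 := m 1
    have m2 := m 2
    have m3 := m 3
    have m4 := m 4
    have m5 := m 5
    rw [v0] at m0
    rw [v1] at m1
    rw [v2] at m2
    rw [v3] at m3
    rw [v4] at m4
    rw [v5] at m5
    unfold pt at m0 m1 m2 m3 m4 m5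
    rcases le_total 0 τ with h | h
    · rw [abs_of_nonneg h] at h2 h3
      refine ga0_trap _ (convex_convexHull ℝ _) _ _ _ _ a (a + rho) τ m3 m0 m2 m1
        h h2 z (by rw [h1]; ring) ?_ ?_
      · push_cast
        linarith [h3.1]
      · push_cast
        linarith [h3.2]
    · rw [abs_of_nonpos h] at h2 h3
      refine ga0_trap _ (convex_convexHull ℝ _) _ _ _ _ a (a - rho) (-τ) m3 m0 m4 m5
        (by linarith) h2 z (by rw [h1]; ring) ?_ ?_
      · push_cast
        linarith [h3.1]
      · push_cast
        linarith [h3.2]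
  · apply convexHull_min _ (ga5_conv a X)
    apply ga0_range 6 (by norm_num)
    intro k hk
    interval_cases k
    · rw [v0]
      unfold pt hxR
      refine ⟨0, by simp, by simp, ?_⟩
      rw [abs_le, abs_zero]
      push_cast
      constructor <;> linarith
    · rw [v1]
      unfold pt hxR
      refine ⟨1, by simp, by simp, ?_⟩
      rw [abs_le, abs_one]
      push_cast
      constructor <;> linarith
    · rw [v2]
      unfold pt hxR
      refine ⟨1, by simp, by simp, ?_⟩
      rw [abs_le, abs_one]
      push_cast
      constructor <;> linarith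
    · rw [v3]
      unfold pt hxR
      refine ⟨0, by simp, by simp, ?_⟩
      rw [abs_le, abs_zero]
      push_cast
      constructor <;> linarith
    · rw [v4]
      unfold pt hxR
      refine ⟨-1, by simp only [mul_neg, mul_one]; ring, by simp, ?_⟩
      rw [abs_le, abs_neg, abs_one]
      push_cast
      constructor <;> linarith
    · rw [v5]
      unfold pt hxR
      refine ⟨-1, by simp only [mul_neg, mul_one]; ring, by simp, ?_⟩
      rw [abs_le, abs_neg, abs_one]
      push_cast
      constructor <;> linarith

end Pool.Agent.Lib.H54T
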