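import Mathlib
import Pool.Agent.Lib.H54T.GA1
import Pool.Agent.Lib.H54T.GA2
import Pool.Agent.Lib.H54T.GA3
import Pool.Agent.Lib.H54T.GA5

/-! # H54T, chunk GA6: summary on the tiles: vertices and sides -/

namespace Pool.Agent.Lib.H54T

theorem ga6_norm (z : ℂ) (h : z.re * z.re + z.im * z.im = 1) : ‖z‖ = 1 := by
  rw [Complex.norm_def, Complex.normSq_apply, h, Real.sqrt_one]

theorem ga6_V (n : ℕ) (hn : 3 ≤ n) (S : Set ℂ) (c u : ℂ) (hS : S = gon n c u) (k : ℕ) (A : ℂ)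
    (hA : vert n c u k = A) : IsVertex S A := by
  rw [hS, ← hA]
  exact isVertex_vert n hn c u k

theorem ga6_S (n : ℕ) (hn : 3 ≤ n) (S : Set ℂ) (c u : ℂ) (hS : S = gon n c u) (k : ℕ) (A B : ℂ)
    (hA : vert n c u k = A) (hB : vert n c u (k + 1) = B) : IsSide S (segment ℝ A B) := by
  rw [hS, ← hA, ← hB]
  exact isSide_vert n hn c u k

theorem ga6_S' (n : ℕ) (hn : 3 ≤ n) (S : Set ℂ) (c u : ℂ) (hS : S = gon n c u) (k : ℕ) (A B : ℂ)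
    (hA : vert n c u k = A) (hB : vert n c u (k + 1) = B) : IsSide S (segment ℝ B A) := by
  rw [segment_symm]
  exact ga6_S n hn S c u hS k A B hA hB

theorem sq_isGon (a : ℝ) (X : ℤ) : IsGon 4 (sqR a X) := by
  obtain ⟨v0, v1, v2, v3⟩ := sq_vert a X
  refine ⟨_, _, ?_, sq_gon a X⟩
  rw [v0, v1]
  apply ga6_norm
  unfold pt
  simp only [Complex.sub_re, Complex.sub_im]
  push_cast
  ring

theorem up_isGon (a : ℝ) (X : ℤ) : IsGon 3 (upR a X) := by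
  obtain ⟨v0, v1, v2⟩ := up_vert a X
  refine ⟨_, _, ?_, up_gon a X⟩
  rw [v0, v1]
  apply ga6_norm
  have := ga2_rr
  unfold pt
  simp only [Complex.sub_re, Complex.sub_im]
  push_cast
  nlinarith

theorem dn_isGon (a : ℝ) (X : ℤ) : IsGon 3 (dnR a X) := by
  obtain ⟨v0, v1, v2⟩ := dn_vert a X
  refine ⟨_, _, ?_, dn_gon a X⟩
  rw [v0, v1]
  apply ga6_norm
  have := ga2_rr
  unfold pt
  simp only [Complex.sub_re, Complex.sub_im]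
  push_cast
  nlinarith

theorem hx_isGon (a : ℝ) (X : ℤ) : IsGon 6 (hxR a X) := by
  obtain ⟨v0, v1, v2, v3, v4, v5⟩ := hx_vert a X
  refine ⟨_, _, ?_, hx_gon a X⟩
  rw [v0, v1]
  apply ga6_norm
  have := ga2_rr
  unfold pt
  simp only [Complex.sub_re, Complex.sub_im]
  push_cast
  nlinarith

theorem sq_V (a : ℝ) (X : ℤ) :
    IsVertex (sqR a X) (pt (X - 1) a) ∧ IsVertex (sqR a X) (pt (X + 1) a) ∧
    IsVertex (sqR a X) (pt (X - 1) (a + 1)) ∧ IsVertex (sqR a X) (pt (X + 1) (a + 1)) := by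
  obtain ⟨v0, v1, v2, v3⟩ := sq_vert a X
  have h := sq_gon a X
  exact ⟨ga6_V 4 (by norm_num) _ _ _ h 2 _ v2, ga6_V 4 (by norm_num) _ _ _ h 3 _ v3,
    ga6_V 4 (by norm_num) _ _ _ h 1 _ v1, ga6_V 4 (by norm_num) _ _ _ h 0 _ v0⟩

theorem up_V (a : ℝ) (X : ℤ) :
    IsVertex (upR a X) (pt (X - 1) a) ∧ IsVertex (upR a X) (pt (X + 1) a) ∧
    IsVertex (upR a X) (pt X (a + rho)) := by
  obtain ⟨v0, v1, v2⟩ := up_vert a X
  have h := up_gon a X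
  exact ⟨ga6_V 3 (by norm_num) _ _ _ h 1 _ v1, ga6_V 3 (by norm_num) _ _ _ h 2 _ v2,
    ga6_V 3 (by norm_num) _ _ _ h 0 _ v0⟩

theorem dn_V (a : ℝ) (X : ℤ) :
    IsVertex (dnR a X) (pt X a) ∧ IsVertex (dnR a X) (pt (X - 1) (a + rho)) ∧
    IsVertex (dnR a X) (pt (X + 1) (a + rho)) := by
  obtain ⟨v0, v1, v2⟩ := dn_vert a X
  have h := dn_gon a X
  exact ⟨ga6_V 3 (by norm_num) _ _ _ h 0 _ v0, ga6_V 3 (by norm_num) _ _ _ h 2 _ v2,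
    ga6_V 3 (by norm_num) _ _ _ h 1 _ v1⟩

theorem hx_V (a : ℝ) (X : ℤ) :
    IsVertex (hxR a X) (pt (X - 2) a) ∧ IsVertex (hxR a X) (pt (X + 2) a) ∧
    IsVertex (hxR a X) (pt (X - 1) (a + rho)) ∧ IsVertex (hxR a X) (pt (X + 1) (a + rho)) ∧
    IsVertex (hxR a X) (pt (X - 1) (a - rho)) ∧ IsVertex (hxR a X) (pt (X + 1) (a - rho)) := by
  obtain ⟨v0, v1, v2, v3, v4, v5⟩ := hx_vert a X
  have h := hx_gon a X
  exact ⟨ga6_V 6 (by norm_num) _ _ _ h 3 _ v3, ga6_V 6 (by norm_num) _ _ _ h 0 _ v0,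
    ga6_V 6 (by norm_num) _ _ _ h 2 _ v2, ga6_V 6 (by norm_num) _ _ _ h 1 _ v1,
    ga6_V 6 (by norm_num) _ _ _ h 4 _ v4, ga6_V 6 (by norm_num) _ _ _ h 5 _ v5⟩

theorem sq_S (a : ℝ) (X : ℤ) :
    IsSide (sqR a X) (segment ℝ (pt (X - 1) a) (pt (X + 1) a)) ∧
    IsSide (sqR a X) (segment ℝ (pt (X - 1) (a + 1)) (pt (X + 1) (a + 1))) ∧
    IsSide (sqR a X) (segment ℝ (pt (X - 1) a) (pt (X - 1) (a + 1))) ∧
    IsSide (sqR a X) (segment ℝ (pt (X + 1) a) (pt (X + 1) (a + 1))) := by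
  obtain ⟨v0, v1, v2, v3⟩ := sq_vert a X
  have h := sq_gon a X
  have v4 := (vert_add 4 (by norm_num) (pt X (a + 1 / 2)) ((1 + Complex.I) / 2) 0).trans v0
  exact ⟨ga6_S 4 (by norm_num) _ _ _ h 2 _ _ v2 v3, ga6_S' 4 (by norm_num) _ _ _ h 0 _ _ v0 v1,
    ga6_S' 4 (by norm_num) _ _ _ h 1 _ _ v1 v2, ga6_S 4 (by norm_num) _ _ _ h 3 _ _ v3 v4⟩

theorem up_S (a : ℝ) (X : ℤ) :
    IsSide (upR a X) (segment ℝ (pt (X - 1) a) (pt (X + 1) a)) ∧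
    IsSide (upR a X) (segment ℝ (pt (X - 1) a) (pt X (a + rho))) ∧
    IsSide (upR a X) (segment ℝ (pt (X + 1) a) (pt X (a + rho))) := by
  obtain ⟨v0, v1, v2⟩ := up_vert a X
  have h := up_gon a X
  have v3 := (vert_add 3 (by norm_num) (pt X (a + rho / 3))
    (Complex.I * (2 * rho / 3 : ℝ)) 0).trans v0
  exact ⟨ga6_S 3 (by norm_num) _ _ _ h 1 _ _ v1 v2, ga6_S' 3 (by norm_num) _ _ _ h 0 _ _ v0 v1,
    ga6_S 3 (by norm_num) _ _ _ h 2 _ _ v2 v3⟩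

theorem dn_S (a : ℝ) (X : ℤ) :
    IsSide (dnR a X) (segment ℝ (pt (X - 1) (a + rho)) (pt (X + 1) (a + rho))) ∧
    IsSide (dnR a X) (segment ℝ (pt X a) (pt (X - 1) (a + rho))) ∧
    IsSide (dnR a X) (segment ℝ (pt X a) (pt (X + 1) (a + rho))) := by
  obtain ⟨v0, v1, v2⟩ := dn_vert a X
  have h := dn_gon a X
  have v3 := (vert_add 3 (by norm_num) (pt X (a + 2 * rho / 3))
    (-Complex.I * (2 * rho / 3 : ℝ)) 0).trans v0
  exact ⟨ga6_S' 3 (by norm_num) _ _ _ h 1 _ _ v1 v2, ga6_S' 3 (by norm_num) _ _ _ h 2 _ _ v2 v3,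
    ga6_S 3 (by norm_num) _ _ _ h 0 _ _ v0 v1⟩

theorem hx_S (a : ℝ) (X : ℤ) :
    IsSide (hxR a X) (segment ℝ (pt (X - 1) (a + rho)) (pt (X + 1) (a + rho))) ∧
    IsSide (hxR a X) (segment ℝ (pt (X - 1) (a - rho)) (pt (X + 1) (a - rho))) ∧
    IsSide (hxR a X) (segment ℝ (pt (X - 2) a) (pt (X - 1) (a + rho))) ∧
    IsSide (hxR a X) (segment ℝ (pt (X - 2) a) (pt (X - 1) (a - rho))) ∧
    IsSide (hxR a X) (segment ℝ (pt (X + 2) a) (pt (X + 1) (a + rho))) ∧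
    IsSide (hxR a X) (segment ℝ (pt (X + 2) a) (pt (X + 1) (a - rho))) := by
  obtain ⟨v0, v1, v2, v3, v4, v5⟩ := hx_vert a X
  have h := hx_gon a X
  have v6 := (vert_add 6 (by norm_num) (pt X a) 1 0).trans v0
  exact ⟨ga6_S' 6 (by norm_num) _ _ _ h 1 _ _ v1 v2, ga6_S 6 (by norm_num) _ _ _ h 4 _ _ v4 v5,
    ga6_S' 6 (by norm_num) _ _ _ h 2 _ _ v2 v3, ga6_S 6 (by norm_num) _ _ _ h 3 _ _ v3 v4,
    ga6_S 6 (by norm_num) _ _ _ h 0 _ _ v0 v1, ga6_S' 6 (by norm_num) _ _ _ h 5 _ _ v5 v6⟩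

end Pool.Agent.Lib.H54T
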