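import Mathlib
import Pool.Agent.Lib.H54T.GB1
import Pool.Agent.Lib.H54T.GA6

/-! # H54T, chunk GB2: traces on the highest and the lowest line -/

namespace Pool.Agent.Lib.H54T

theorem gb2_sq_top (a b : ℝ) (hb : b = a + 1) (X : ℤ) :
    sqR a X ∩ {z | z.im = b} = segment ℝ (pt (X - 1) b) (pt (X + 1) b) := by
  subst hb
  ext z
  rw [gb1_seg_iff]
  constructor
  · rintro ⟨⟨h1, h2, h3⟩, h4⟩
    exact ⟨h1, h4⟩
  · rintro ⟨h1, h2⟩
    exact ⟨⟨h1, by rw [h2]; linarith, by rw [h2]⟩, h2⟩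

theorem gb2_sq_bot (a : ℝ) (X : ℤ) :
    sqR a X ∩ {z | z.im = a} = segment ℝ (pt (X - 1) a) (pt (X + 1) a) := by
  ext z
  rw [gb1_seg_iff]
  constructor
  · rintro ⟨⟨h1, h2, h3⟩, h4⟩
    exact ⟨h1, h4⟩
  · rintro ⟨h1, h2⟩
    exact ⟨⟨h1, by rw [h2], by rw [h2]; linarith⟩, h2⟩

theorem gb2_up_top (a b : ℝ) (hb : b = a + rho) (X : ℤ) :
    upR a X ∩ {z | z.im = b} = {pt X b} := by
  subst hb
  have hr := rho_pos
  ext z
  rw [Set.mem_singleton_iff]
  constructor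
  · rintro ⟨⟨τ, h1, h2, h3⟩, h4⟩
    have h4 : z.im = a + rho := h4
    have h5 : τ = 1 := gb1_tau (a := a) (by rw [← h1, h4, mul_one])
    rw [h5, sub_self] at h3
    have h6 : 2 * z.re - X = 0 := abs_nonpos_iff.1 h3
    exact gb1_pt X _ z (by linarith) h4
  · intro h
    rw [h]
    refine ⟨⟨1, by simp [pt], by norm_num, ?_⟩, rfl⟩
    simp only [pt]
    rw [show (2 * ((X : ℝ) / 2) - X) = 0 by ring]
    simp

theorem gb2_up_bot (a : ℝ) (X : ℤ) :
    upR a X ∩ {z | z.im = a} = segment ℝ (pt (X - 1) a) (pt (X + 1) a) := by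
  ext z
  rw [gb1_seg_iff]
  constructor
  · rintro ⟨⟨τ, h1, h2, h3⟩, h4⟩
    have h4 : z.im = a := h4
    refine ⟨by linarith, h4⟩
  · rintro ⟨h1, h2⟩
    exact ⟨⟨0, by rw [h2]; ring, le_refl _, by rw [sub_zero]; exact h1⟩, h2⟩

theorem gb2_dn_bot (a : ℝ) (X : ℤ) :
    dnR a X ∩ {z | z.im = a} = {pt X a} := by
  have hr := rho_pos
  ext z
  rw [Set.mem_singleton_iff]
  constructor
  · rintro ⟨⟨τ, h1, h2, h3⟩, h4⟩
    have h4 : z.im = a := h4
    have h5 : τ = 0 := gb1_tau (a := a) (by rw [← h1, h4]; ring)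
    rw [h5] at h3
    have h6 : 2 * z.re - X = 0 := abs_nonpos_iff.1 h3
    exact gb1_pt X _ z (by linarith) h4
  · intro h
    rw [h]
    refine ⟨⟨0, by simp [pt], by norm_num, ?_⟩, rfl⟩
    simp only [pt]
    rw [show (2 * ((X : ℝ) / 2) - X) = 0 by ring]
    simp

theorem gb2_dn_top (a b : ℝ) (hb : b = a + rho) (X : ℤ) :
    dnR a X ∩ {z | z.im = b} = segment ℝ (pt (X - 1) b) (pt (X + 1) b) := by
  subst hb
  ext z
  rw [gb1_seg_iff]
  constructor
  · rintro ⟨⟨τ, h1, h2, h3⟩, h4⟩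
    exact ⟨by linarith, h4⟩
  · rintro ⟨h1, h2⟩
    exact ⟨⟨1, by rw [h2]; ring, le_refl _, h1⟩, h2⟩

theorem gb2_hx_top (a b : ℝ) (hb : b = a + rho) (X : ℤ) :
    hxR a X ∩ {z | z.im = b} = segment ℝ (pt (X - 1) b) (pt (X + 1) b) := by
  subst hb
  ext z
  rw [gb1_seg_iff]
  constructor
  · rintro ⟨⟨τ, h1, h2, h3⟩, h4⟩
    have h4 : z.im = a + rho := h4
    have h5 : τ = 1 := gb1_tau (a := a) (by rw [← h1, h4, mul_one])
    rw [h5, abs_one] at h3
    exact ⟨by linarith, h4⟩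
  · rintro ⟨h1, h2⟩
    exact ⟨⟨1, by rw [h2]; ring, by rw [abs_one], by rw [abs_one]; linarith⟩, h2⟩

theorem gb2_hx_bot (a b : ℝ) (hb : b + rho = a) (X : ℤ) :
    hxR a X ∩ {z | z.im = b} = segment ℝ (pt (X - 1) b) (pt (X + 1) b) := by
  subst hb
  ext z
  rw [gb1_seg_iff]
  constructor
  · rintro ⟨⟨τ, h1, h2, h3⟩, h4⟩
    have h4 : z.im = b := h4
    have h5 : (0 : ℝ) = τ + 1 := gb1_tau' (a := b) (by rw [← h1, h4]; ring)
    have h6 : τ = -1 := by linarith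
    rw [h6, abs_neg, abs_one] at h3
    exact ⟨by linarith, h4⟩
  · rintro ⟨h1, h2⟩
    exact ⟨⟨-1, by rw [h2]; ring, by rw [abs_neg, abs_one], by
      rw [abs_neg, abs_one]
      linarith⟩, h2⟩

/-- On the highest line: square: the upper side; triangle apex up: the apex (`X` has the parity of
line `l + 1`); triangle apex down: the upper side; hexagon: the upper side. -/
theorem tr_top (L : Lay) (k : Kd) (l X : ℤ) (h : L.ok k l X) :
    IsTr L (L.reg k l X) (l + 1) (L.reg k l X ∩ {z | z.im = L.y (l + 1)}) := by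
  have hy := L.hy l
  have hal := L.hal l
  cases k with
  | tr =>
    have hw : L.w l = true := h.1
    rw [if_pos hw] at hy hal
    simp only [Lay.reg]
    split_ifs with hp
    · right
      obtain ⟨v1, v2, v3⟩ := dn_V (L.y l) X
      obtain ⟨s1, s2, s3⟩ := dn_S (L.y l) X
      rw [← hy] at v2 v3 s1
      rw [gb2_dn_top _ _ hy]
      exact ⟨X, by omega, rfl, s1, v2, v3⟩
    · left
      obtain ⟨v1, v2, v3⟩ := up_V (L.y l) X
      rw [← hy] at v3
      rw [gb2_up_top _ _ hy]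
      exact ⟨X, by omega, rfl, v3⟩
  | sq =>
    obtain ⟨hw, hp⟩ := h
    rw [hw] at hy hal
    simp only [Bool.false_eq_true, if_false] at hy hal
    simp only [Lay.reg]
    right
    obtain ⟨v1, v2, v3, v4⟩ := sq_V (L.y l) X
    obtain ⟨s1, s2, s3, s4⟩ := sq_S (L.y l) X
    rw [← hy] at v3 v4 s2
    rw [gb2_sq_top _ _ hy]
    exact ⟨X, by omega, rfl, s2, v3, v4⟩
  | hx =>
    have hH : L.H l X := h
    obtain ⟨w1, w2⟩ := L.hrow l X hH
    have hp := L.hpar l X hH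
    rw [if_pos w1] at hy hal
    simp only [Lay.reg]
    right
    obtain ⟨v1, v2, v3, v4, v5, v6⟩ := hx_V (L.y l) X
    obtain ⟨s1, s2, s3, s4, s5, s6⟩ := hx_S (L.y l) X
    rw [← hy] at v3 v4 s1
    rw [gb2_hx_top _ _ hy]
    exact ⟨X, by omega, rfl, s1, v3, v4⟩

/-- On the lowest line. -/
theorem tr_bot (L : Lay) (k : Kd) (l X : ℤ) (h : L.ok k l X) :
    IsTr L (L.reg k l X) (bot k l) (L.reg k l X ∩ {z | z.im = L.y (bot k l)}) := by
  cases k with
  | tr =>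
    simp only [Lay.reg, bot]
    split_ifs with hp
    · left
      obtain ⟨v1, v2, v3⟩ := dn_V (L.y l) X
      rw [gb2_dn_bot]
      exact ⟨X, hp, rfl, v1⟩
    · right
      obtain ⟨v1, v2, v3⟩ := up_V (L.y l) X
      obtain ⟨s1, s2, s3⟩ := up_S (L.y l) X
      rw [gb2_up_bot]
      exact ⟨X, by omega, rfl, s1, v1, v2⟩
  | sq =>
    obtain ⟨hw, hp⟩ := h
    simp only [Lay.reg, bot]
    right
    obtain ⟨v1, v2, v3, v4⟩ := sq_V (L.y l) X
    obtain ⟨s1, s2, s3, s4⟩ := sq_S (L.y l) X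
    rw [gb2_sq_bot]
    exact ⟨X, hp, rfl, s1, v1, v2⟩
  | hx =>
    have hH : L.H l X := h
    obtain ⟨w1, w2⟩ := L.hrow l X hH
    have hp := L.hpar l X hH
    have hy := L.hy (l - 1)
    have hal := L.hal (l - 1)
    rw [if_pos w2, sub_add_cancel] at hy hal
    simp only [Lay.reg, bot]
    right
    obtain ⟨v1, v2, v3, v4, v5, v6⟩ := hx_V (L.y l) X
    obtain ⟨s1, s2, s3, s4, s5, s6⟩ := hx_S (L.y l) X
    have e : L.y l - rho = L.y (l - 1) := by linarith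
    rw [e] at v5 v6 s2
    rw [gb2_hx_bot _ _ hy.symm]
    exact ⟨X, by omega, rfl, s2, v5, v6⟩

end Pool.Agent.Lib.H54T
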