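import Mathlib
import Pool.Agent.Lib.H54T.GB1

/-! # H54T, chunk GB3: two traces on one line -/

namespace Pool.Agent.Lib.H54T

theorem meets_symm {A B : Set ℂ} (h : Meets A B) : Meets B A := by
  unfold Meets at *
  rw [Set.inter_comm B A]
  rcases h with h | ⟨v, h1, h2, h3⟩ | ⟨h1, h2⟩
  · exact Or.inl h
  · exact Or.inr (Or.inl ⟨v, h1, h3, h2⟩)
  · exact Or.inr (Or.inr ⟨h2, h1⟩)

theorem gb3_pt_seg (L : Lay) (A B E F : Set ℂ) (j : ℤ)
    (hA : ∃ X : ℤ, (X - L.al j) % 2 = 0 ∧ E = {pt X (L.y j)} ∧ IsVertex A (pt X (L.y j)))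
    (hB : ∃ X : ℤ, (X - L.al j) % 2 = 1 ∧
      F = segment ℝ (pt (X - 1) (L.y j)) (pt (X + 1) (L.y j)) ∧
      IsSide B F ∧ IsVertex B (pt (X - 1) (L.y j)) ∧ IsVertex B (pt (X + 1) (L.y j)))
    (h : A ∩ B = E ∩ F) : Meets A B := by
  obtain ⟨X, hX, hE, hv⟩ := hA
  obtain ⟨X', hX', hF, hs, hv1, hv2⟩ := hB
  have key : ∀ z, z ∈ A → z ∈ B → z = pt X (L.y j) ∧ |2 * z.re - X'| ≤ 1 := by
    intro z h1 h2
    have h3 : z ∈ E ∩ F := h ▸ (⟨h1, h2⟩ : z ∈ A ∩ B)
    rw [hE, hF] at h3
    exact ⟨h3.1, ((gb1_seg_iff X' _ z).1 h3.2).1⟩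
  by_cases c1 : X = X' - 1
  · exact gb1_meets_pt hv (by rw [c1]; exact hv1) (fun z h1 h2 => (key z h1 h2).1)
  by_cases c2 : X = X' + 1
  · exact gb1_meets_pt hv (by rw [c2]; exact hv2) (fun z h1 h2 => (key z h1 h2).1)
  apply gb1_meets_no
  intro z h1 h2
  obtain ⟨h3, h4⟩ := key z h1 h2
  rw [h3] at h4
  unfold pt at h4
  simp only at h4
  rw [abs_le] at h4
  have h5 : (X : ℝ) ≤ X' + 1 := by linarith [h4.2]
  have h6 : (X' : ℝ) ≤ X + 1 := by linarith [h4.1]
  have h7 : X ≤ X' + 1 := by exact_mod_cast h5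
  have h8 : X' ≤ X + 1 := by exact_mod_cast h6
  omega

/-- Two points: equal or disjoint; a point and a segment: the point is an end of the segment or the
intersection is empty (parity); two segments: equal, a common end (indices differ by 2), or
disjoint. -/
theorem meets_of_tr (L : Lay) (A B E F : Set ℂ) (j : ℤ) (hA : IsTr L A j E) (hB : IsTr L B j F)
    (h : A ∩ B = E ∩ F) : Meets A B := by
  rcases hA with hA | hA
  · rcases hB with hB | hB
    · obtain ⟨X, hX, hE, hv⟩ := hA
      obtain ⟨X', hX', hF, hv'⟩ := hB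
      have key : ∀ z, z ∈ A → z ∈ B → z = pt X (L.y j) ∧ z = pt X' (L.y j) := by
        intro z h1 h2
        have h3 : z ∈ E ∩ F := h ▸ (⟨h1, h2⟩ : z ∈ A ∩ B)
        rw [hE, hF] at h3
        exact ⟨h3.1, h3.2⟩
      by_cases c : X = X'
      · exact gb1_meets_pt hv (by rw [c]; exact hv') (fun z h1 h2 => (key z h1 h2).1)
      · apply gb1_meets_no
        intro z h1 h2
        obtain ⟨h3, h4⟩ := key z h1 h2
        rw [h3] at h4
        unfold pt at h4
        have h5 := congrArg Complex.re h4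
        simp only at h5
        apply c
        have h6 : (X : ℝ) = X' := by linarith
        exact_mod_cast h6
    · exact gb3_pt_seg L A B E F j hA hB h
  · rcases hB with hB | hB
    · apply meets_symm
      exact gb3_pt_seg L B A F E j hB hA (by rw [Set.inter_comm, h, Set.inter_comm])
    · obtain ⟨X, hX, hE, hs, hv1, hv2⟩ := hA
      obtain ⟨X', hX', hF, hs', hv1', hv2'⟩ := hB
      have key : ∀ z, z ∈ A → z ∈ B →
          |2 * z.re - X| ≤ 1 ∧ |2 * z.re - X'| ≤ 1 ∧ z.im = L.y j := by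
        intro z h1 h2
        have h3 : z ∈ E ∩ F := h ▸ (⟨h1, h2⟩ : z ∈ A ∩ B)
        rw [hE, hF] at h3
        obtain ⟨g1, g2⟩ := (gb1_seg_iff X _ z).1 h3.1
        obtain ⟨g3, g4⟩ := (gb1_seg_iff X' _ z).1 h3.2
        exact ⟨g1, g3, g2⟩
      by_cases c : X = X'
      · apply gb1_meets_seg hs
        · rw [hE, c, ← hF]
          exact hs'
        · intro z h1 h2
          obtain ⟨g1, g2, g3⟩ := key z h1 h2
          rw [hE]
          exact (gb1_seg_iff X _ z).2 ⟨g1, g3⟩
      by_cases c1 : X' = X + 2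
      · apply gb1_meets_pt hv2
        · have e : X + 1 = X' - 1 := by omega
          rw [e]
          exact hv1'
        · intro z h1 h2
          obtain ⟨g1, g2, g3⟩ := key z h1 h2
          rw [abs_le] at g1 g2
          rw [c1] at g2
          push_cast at g2
          exact gb1_pt _ _ z (by push_cast; linarith [g1.2, g2.1]) g3
      by_cases c2 : X = X' + 2
      · apply gb1_meets_pt hv1
        · have e : X - 1 = X' + 1 := by omega
          rw [e]
          exact hv2'
        · intro z h1 h2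
          obtain ⟨g1, g2, g3⟩ := key z h1 h2
          rw [abs_le] at g1 g2
          rw [c2] at g1
          push_cast at g1
          exact gb1_pt _ _ z (by rw [c2]; push_cast; linarith [g1.1, g2.2]) g3
      apply gb1_meets_no
      intro z h1 h2
      obtain ⟨g1, g2, g3⟩ := key z h1 h2
      rw [abs_le] at g1 g2
      have h5 : (X : ℝ) ≤ X' + 2 := by linarith [g1.1, g2.2]
      have h6 : (X' : ℝ) ≤ X + 2 := by linarith [g1.2, g2.1]
      have h7 : X ≤ X' + 2 := by exact_mod_cast h5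
      have h8 : X' ≤ X + 2 := by exact_mod_cast h6
      omega

end Pool.Agent.Lib.H54T
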