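import Mathlib
import Pool.Agent.Lib.H54T.GB2
import Pool.Agent.Lib.H54T.GB3

/-! # H54T, chunk GB7A: two tiles -/

namespace Pool.Agent.Lib.H54T

/-- Tiles in lines `[bot, l+1]` and `[bot', l'+1]`. If `l + 1 < bot'` they are disjoint
(`reg_range`, `y_strictMono`); if `l + 1 = bot'`: `tr_top`, `tr_bot`, `meets_of_tr`. -/
theorem meets_far (L : Lay) (k k' : Kd) (l l' X X' : ℤ) (h : L.ok k l X) (h' : L.ok k' l' X')
    (hl : l + 1 ≤ bot k' l') : Meets (L.reg k l X) (L.reg k' l' X') := by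
  rcases lt_or_eq_of_le hl with hl | hl
  · apply gb1_meets_no
    intro z h1 h2
    have h3 := (reg_range L k l X h z h1).2
    have h4 := (reg_range L k' l' X' h' z h2).1
    have h5 := y_strictMono L hl
    linarith
  · have hA := tr_top L k l X h
    have hB := tr_bot L k' l' X' h'
    rw [← hl] at hB
    apply meets_of_tr L _ _ _ _ (l + 1) hA hB
    apply Set.Subset.antisymm
    · rintro z ⟨h1, h2⟩
      have h3 := (reg_range L k l X h z h1).2
      have h4 := (reg_range L k' l' X' h' z h2).1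
      rw [← hl] at h4
      have h5 : z.im = L.y (l + 1) := le_antisymm h3 h4
      exact ⟨⟨h1, h5⟩, ⟨h2, h5⟩⟩
    · rintro z ⟨⟨h1, _⟩, ⟨h2, _⟩⟩
      exact ⟨h1, h2⟩

end Pool.Agent.Lib.H54T
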