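import Mathlib
import Pool.Agent.Lib.H54T.GB1
import Pool.Agent.Lib.H54T.GB3
import Pool.Agent.Lib.H54T.GA6

/-! # H54T, chunk GB4: two tiles in one row (no hexagon) -/

namespace Pool.Agent.Lib.H54T

theorem gb4_sq (a : ℝ) (X X' : ℤ) (hp : (X - X') % 2 = 0) (hlt : X < X') :
    Meets (sqR a X) (sqR a X') := by
  by_cases c : X' = X + 2
  · subst c
    obtain ⟨s1, s2, s3, s4⟩ := sq_S a X
    obtain ⟨t1, t2, t3, t4⟩ := sq_S a (X + 2)
    have e : X + 2 - 1 = X + 1 := by ring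
    rw [e] at t3
    apply gb1_meets_seg s4 t3
    rintro z ⟨h1, h2, h3⟩ ⟨g1, g2, g3⟩
    rw [abs_le] at h1 g1
    push_cast at g1
    apply gb1_seg (X + 1) (X + 1) a (a + 1) (z.im - a) z (by linarith) (by linarith)
    · push_cast
      linarith [h1.2, g1.1]
    · ring
  · apply gb1_meets_no
    rintro z ⟨h1, h2, h3⟩ ⟨g1, g2, g3⟩
    rw [abs_le] at h1 g1
    have h4 : X + 4 ≤ X' := by omega
    have h5 : (X : ℝ) + 4 ≤ X' := by exact_mod_cast h4
    linarith [h1.2, g1.1]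

/-- Squares of one row: indices differ by 2: common vertical side; by 4 or more: disjoint. -/
theorem meets_sq_sq (a : ℝ) (X X' : ℤ) (hp : (X - X') % 2 = 0) (hne : X ≠ X') :
    Meets (sqR a X) (sqR a X') := by
  rcases lt_or_gt_of_ne hne with h | h
  · exact gb4_sq a X X' hp h
  · exact meets_symm (gb4_sq a X' X (by omega) h)

theorem gb4_up (a : ℝ) (X X' : ℤ) (hp : (X - X') % 2 = 0) (hlt : X < X') :
    Meets (upR a X) (upR a X') := by
  by_cases c : X' = X + 2
  · subst c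
    obtain ⟨s1, s2, s3⟩ := up_V a X
    obtain ⟨t1, t2, t3⟩ := up_V a (X + 2)
    have e : X + 2 - 1 = X + 1 := by ring
    rw [e] at t1
    apply gb1_meets_pt s2 t1
    rintro z ⟨τ, h1, h2, h3⟩ ⟨τ', g1, g2, g3⟩
    have hτ : τ = τ' := gb1_tau (h1.symm.trans g1)
    subst hτ
    rw [abs_le] at h3 g3
    push_cast at g3
    have h4 : τ = 0 := by linarith [h3.2, g3.1]
    subst h4
    apply gb1_pt
    · push_cast
      linarith [h3.2, g3.1]
    · rw [h1]
      ring
  · apply gb1_meets_no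
    rintro z ⟨τ, h1, h2, h3⟩ ⟨τ', g1, g2, g3⟩
    rw [abs_le] at h3 g3
    have h4 : X + 4 ≤ X' := by omega
    have h5 : (X : ℝ) + 4 ≤ X' := by exact_mod_cast h4
    linarith [h3.2, g3.1]

/-- Triangles, both apex up: indices differ by 2: common vertex on the lower line. -/
theorem meets_up_up (a : ℝ) (X X' : ℤ) (hp : (X - X') % 2 = 0) (hne : X ≠ X') :
    Meets (upR a X) (upR a X') := by
  rcases lt_or_gt_of_ne hne with h | h
  · exact gb4_up a X X' hp h
  · exact meets_symm (gb4_up a X' X (by omega) h)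

theorem gb4_dn (a : ℝ) (X X' : ℤ) (hp : (X - X') % 2 = 0) (hlt : X < X') :
    Meets (dnR a X) (dnR a X') := by
  by_cases c : X' = X + 2
  · subst c
    obtain ⟨s1, s2, s3⟩ := dn_V a X
    obtain ⟨t1, t2, t3⟩ := dn_V a (X + 2)
    have e : X + 2 - 1 = X + 1 := by ring
    rw [e] at t2
    apply gb1_meets_pt s3 t2
    rintro z ⟨τ, h1, h2, h3⟩ ⟨τ', g1, g2, g3⟩
    have hτ : τ = τ' := gb1_tau (h1.symm.trans g1)
    subst hτ
    rw [abs_le] at h3 g3
    push_cast at g3
    have h4 : τ = 1 := by linarith [h3.2, g3.1]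
    subst h4
    apply gb1_pt
    · push_cast
      linarith [h3.2, g3.1]
    · rw [h1]
      ring
  · apply gb1_meets_no
    rintro z ⟨τ, h1, h2, h3⟩ ⟨τ', g1, g2, g3⟩
    rw [abs_le] at h3 g3
    have h4 : X + 4 ≤ X' := by omega
    have h5 : (X : ℝ) + 4 ≤ X' := by exact_mod_cast h4
    linarith [h3.2, g3.1]

/-- Triangles, both apex down: indices differ by 2: common vertex on the upper line. -/
theorem meets_dn_dn (a : ℝ) (X X' : ℤ) (hp : (X - X') % 2 = 0) (hne : X ≠ X') :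
    Meets (dnR a X) (dnR a X') := by
  rcases lt_or_gt_of_ne hne with h | h
  · exact gb4_dn a X X' hp h
  · exact meets_symm (gb4_dn a X' X (by omega) h)

/-- Triangles, apex up and apex down: indices differ by 1: common side; by 3 or more: disjoint. -/
theorem meets_up_dn (a : ℝ) (X X' : ℤ) (hp : (X - X') % 2 = 1) : Meets (upR a X) (dnR a X') := by
  by_cases c : X' = X + 1
  · subst c
    obtain ⟨s1, s2, s3⟩ := up_S a X
    obtain ⟨t1, t2, t3⟩ := dn_S a (X + 1)
    have e : X + 1 - 1 = X := by ring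
    rw [e] at t2
    apply gb1_meets_seg s3 t2
    rintro z ⟨τ, h1, h2, h3⟩ ⟨τ', g1, g2, g3⟩
    have hτ : τ = τ' := gb1_tau (h1.symm.trans g1)
    subst hτ
    rw [abs_le] at h3 g3
    push_cast at g3
    apply gb1_seg (X + 1) X a (a + rho) τ z h2 g2
    · push_cast
      linarith [h3.2, g3.1]
    · rw [h1]
      ring
  by_cases c2 : X' = X - 1
  · subst c2
    obtain ⟨s1, s2, s3⟩ := up_S a X
    obtain ⟨t1, t2, t3⟩ := dn_S a (X - 1)
    have e : X - 1 + 1 = X := by ring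
    rw [e] at t3
    apply gb1_meets_seg s2 t3
    rintro z ⟨τ, h1, h2, h3⟩ ⟨τ', g1, g2, g3⟩
    have hτ : τ = τ' := gb1_tau (h1.symm.trans g1)
    subst hτ
    rw [abs_le] at h3 g3
    push_cast at g3
    apply gb1_seg (X - 1) X a (a + rho) τ z h2 g2
    · push_cast
      linarith [h3.1, g3.2]
    · rw [h1]
      ring
  apply gb1_meets_no
  rintro z ⟨τ, h1, h2, h3⟩ ⟨τ', g1, g2, g3⟩
  have hτ : τ = τ' := gb1_tau (h1.symm.trans g1)
  subst hτ
  rw [abs_le] at h3 g3
  have h5 : (X' : ℝ) ≤ X + 1 := by linarith [h3.2, g3.1]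
  have h6 : (X : ℝ) ≤ X' + 1 := by linarith [h3.1, g3.2]
  have h7 : X' ≤ X + 1 := by exact_mod_cast h5
  have h8 : X ≤ X' + 1 := by exact_mod_cast h6
  omega

end Pool.Agent.Lib.H54T
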