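import Mathlib
import Pool.Agent.Lib.H54T.GB1
import Pool.Agent.Lib.H54T.GB3
import Pool.Agent.Lib.H54T.GA6

/-! # H54T, chunk GB5: a triangle and a hexagon which overlap in height -/

namespace Pool.Agent.Lib.H54T

/-- Hexagon on the lower line of the row, triangle apex down: `|X - X0|` even and at least 2:
`2`: common side; more: disjoint. -/
theorem meets_dn_hx (a : ℝ) (X X0 : ℤ) (hp : (X - X0) % 2 = 0) (h : 1 < |X - X0|) :
    Meets (dnR a X) (hxR a X0) := by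
  obtain ⟨t1, t2, t3⟩ := dn_S a X
  obtain ⟨s1, s2, s3, s4, s5, s6⟩ := hx_S a X0
  have key : ∀ z, z ∈ dnR a X → z ∈ hxR a X0 → ∃ τ : ℝ, 0 ≤ τ ∧ τ ≤ 1 ∧ z.im = a + rho * τ ∧
      2 * z.re - X ≤ τ ∧ -τ ≤ 2 * z.re - X ∧ 2 * z.re - X0 ≤ 2 - τ ∧
      -(2 - τ) ≤ 2 * z.re - X0 := by
    rintro z ⟨τ, h1, h2, h3⟩ ⟨τ', g1, g2, g3⟩
    have hτ : τ = τ' := gb1_tau (h1.symm.trans g1)
    subst hτ
    have h0 : 0 ≤ τ := (abs_nonneg _).trans h3
    rw [abs_of_nonneg h0, abs_le] at g3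
    rw [abs_le] at h3
    exact ⟨τ, h0, h2, h1, h3.2, h3.1, g3.2, g3.1⟩
  by_cases c : X = X0 + 2
  · subst c
    have e : X0 + 2 - 1 = X0 + 1 := by ring
    rw [e] at t2
    apply gb1_meets_seg t2 s5
    intro z hz1 hz2
    obtain ⟨τ, k0, k1, k2, k3, k4, k5, k6⟩ := key z hz1 hz2
    push_cast at k3 k4
    apply gb1_seg (X0 + 2) (X0 + 1) a (a + rho) τ z k0 k1
    · push_cast
      linarith
    · rw [k2]
      ring
  by_cases c2 : X = X0 - 2
  · subst c2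
    have e : X0 - 2 + 1 = X0 - 1 := by ring
    rw [e] at t3
    apply gb1_meets_seg t3 s3
    intro z hz1 hz2
    obtain ⟨τ, k0, k1, k2, k3, k4, k5, k6⟩ := key z hz1 hz2
    push_cast at k3 k4
    apply gb1_seg (X0 - 2) (X0 - 1) a (a + rho) τ z k0 k1
    · push_cast
      linarith
    · rw [k2]
      ring
  apply gb1_meets_no
  intro z hz1 hz2
  obtain ⟨τ, k0, k1, k2, k3, k4, k5, k6⟩ := key z hz1 hz2
  have h5 : (X : ℝ) ≤ X0 + 2 := by linarith
  have h6 : (X0 : ℝ) ≤ X + 2 := by linarith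
  have h7 : X ≤ X0 + 2 := by exact_mod_cast h5
  have h8 : X0 ≤ X + 2 := by exact_mod_cast h6
  rcases abs_cases (X - X0) with h9 | h9 <;> omega

/-- Hexagon on the lower line of the row, triangle apex up: `|X - X0|` odd and at least 3:
`3`: common vertex on the lower line; more: disjoint. -/
theorem meets_up_hx (a : ℝ) (X X0 : ℤ) (hp : (X - X0) % 2 = 1) (h : 1 < |X - X0|) :
    Meets (upR a X) (hxR a X0) := by
  obtain ⟨t1, t2, t3⟩ := up_V a X
  obtain ⟨s1, s2, s3, s4, s5, s6⟩ := hx_V a X0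
  have key : ∀ z, z ∈ upR a X → z ∈ hxR a X0 → ∃ τ : ℝ, 0 ≤ τ ∧ τ ≤ 1 ∧ z.im = a + rho * τ ∧
      2 * z.re - X ≤ 1 - τ ∧ -(1 - τ) ≤ 2 * z.re - X ∧ 2 * z.re - X0 ≤ 2 - τ ∧
      -(2 - τ) ≤ 2 * z.re - X0 := by
    rintro z ⟨τ, h1, h2, h3⟩ ⟨τ', g1, g2, g3⟩
    have hτ : τ = τ' := gb1_tau (h1.symm.trans g1)
    subst hτ
    have h0 : τ ≤ 1 := by
      have := (abs_nonneg _).trans h3
      linarith
    rw [abs_of_nonneg h2, abs_le] at g3
    rw [abs_le] at h3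
    exact ⟨τ, h2, h0, h1, h3.2, h3.1, g3.2, g3.1⟩
  by_cases c : X = X0 + 3
  · subst c
    have e : X0 + 3 - 1 = X0 + 2 := by ring
    rw [e] at t1
    apply gb1_meets_pt t1 s2
    intro z hz1 hz2
    obtain ⟨τ, k0, k1, k2, k3, k4, k5, k6⟩ := key z hz1 hz2
    push_cast at k3 k4
    have k7 : τ = 0 := by linarith
    subst k7
    apply gb1_pt
    · push_cast
      linarith
    · rw [k2]
      ring
  by_cases c2 : X = X0 - 3
  · subst c2
    have e : X0 - 3 + 1 = X0 - 2 := by ring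
    rw [e] at t2
    apply gb1_meets_pt t2 s1
    intro z hz1 hz2
    obtain ⟨τ, k0, k1, k2, k3, k4, k5, k6⟩ := key z hz1 hz2
    push_cast at k3 k4
    have k7 : τ = 0 := by linarith
    subst k7
    apply gb1_pt
    · push_cast
      linarith
    · rw [k2]
      ring
  apply gb1_meets_no
  intro z hz1 hz2
  obtain ⟨τ, k0, k1, k2, k3, k4, k5, k6⟩ := key z hz1 hz2
  have h5 : (X : ℝ) ≤ X0 + 3 := by linarith
  have h6 : (X0 : ℝ) ≤ X + 3 := by linarith
  have h7 : X ≤ X0 + 3 := by exact_mod_cast h5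
  have h8 : X0 ≤ X + 3 := by exact_mod_cast h6
  rcases abs_cases (X - X0) with h9 | h9 <;> omega

/-- Hexagon on the upper line of the row, triangle apex up: `|X - X0|` even and at least 2:
`2`: common side; more: disjoint. -/
theorem meets_up_hx' (a : ℝ) (X X0 : ℤ) (hp : (X - X0) % 2 = 0) (h : 1 < |X - X0|) :
    Meets (upR a X) (hxR (a + rho) X0) := by
  obtain ⟨t1, t2, t3⟩ := up_S a X
  obtain ⟨s1, s2, s3, s4, s5, s6⟩ := hx_S (a + rho) X0
  rw [add_sub_cancel_right] at s2 s4 s6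
  have key : ∀ z, z ∈ upR a X → z ∈ hxR (a + rho) X0 → ∃ τ : ℝ, 0 ≤ τ ∧ τ ≤ 1 ∧
      z.im = a + rho * τ ∧
      2 * z.re - X ≤ 1 - τ ∧ -(1 - τ) ≤ 2 * z.re - X ∧ 2 * z.re - X0 ≤ 1 + τ ∧
      -(1 + τ) ≤ 2 * z.re - X0 := by
    rintro z ⟨τ, h1, h2, h3⟩ ⟨τ', g1, g2, g3⟩
    have hτ : τ = τ' + 1 := gb1_tau' (h1.symm.trans g1)
    have h0 : τ ≤ 1 := by
      have := (abs_nonneg _).trans h3
      linarith
    have h4 : τ' ≤ 0 := by linarith
    rw [abs_of_nonpos h4, abs_le] at g3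
    rw [abs_le] at h3
    exact ⟨τ, h2, h0, h1, h3.2, h3.1, by linarith [g3.2], by linarith [g3.1]⟩
  by_cases c : X = X0 + 2
  · subst c
    have e : X0 + 2 - 1 = X0 + 1 := by ring
    rw [e] at t2
    rw [segment_symm] at s6
    apply gb1_meets_seg t2 s6
    intro z hz1 hz2
    obtain ⟨τ, k0, k1, k2, k3, k4, k5, k6⟩ := key z hz1 hz2
    push_cast at k3 k4
    apply gb1_seg (X0 + 1) (X0 + 2) a (a + rho) τ z k0 k1
    · push_cast
      linarith
    · rw [k2]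
      ring
  by_cases c2 : X = X0 - 2
  · subst c2
    have e : X0 - 2 + 1 = X0 - 1 := by ring
    rw [e] at t3
    rw [segment_symm] at s4
    apply gb1_meets_seg t3 s4
    intro z hz1 hz2
    obtain ⟨τ, k0, k1, k2, k3, k4, k5, k6⟩ := key z hz1 hz2
    push_cast at k3 k4
    apply gb1_seg (X0 - 1) (X0 - 2) a (a + rho) τ z k0 k1
    · push_cast
      linarith
    · rw [k2]
      ring
  apply gb1_meets_no
  intro z hz1 hz2
  obtain ⟨τ, k0, k1, k2, k3, k4, k5, k6⟩ := key z hz1 hz2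
  have h5 : (X : ℝ) ≤ X0 + 2 := by linarith
  have h6 : (X0 : ℝ) ≤ X + 2 := by linarith
  have h7 : X ≤ X0 + 2 := by exact_mod_cast h5
  have h8 : X0 ≤ X + 2 := by exact_mod_cast h6
  rcases abs_cases (X - X0) with h9 | h9 <;> omega

/-- Hexagon on the upper line of the row, triangle apex down: `|X - X0|` odd and at least 3:
`3`: common vertex on the upper line; more: disjoint. -/
theorem meets_dn_hx' (a : ℝ) (X X0 : ℤ) (hp : (X - X0) % 2 = 1) (h : 1 < |X - X0|) :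
    Meets (dnR a X) (hxR (a + rho) X0) := by
  obtain ⟨t1, t2, t3⟩ := dn_V a X
  obtain ⟨s1, s2, s3, s4, s5, s6⟩ := hx_V (a + rho) X0
  have key : ∀ z, z ∈ dnR a X → z ∈ hxR (a + rho) X0 → ∃ τ : ℝ, 0 ≤ τ ∧ τ ≤ 1 ∧
      z.im = a + rho * τ ∧
      2 * z.re - X ≤ τ ∧ -τ ≤ 2 * z.re - X ∧ 2 * z.re - X0 ≤ 1 + τ ∧
      -(1 + τ) ≤ 2 * z.re - X0 := by
    rintro z ⟨τ, h1, h2, h3⟩ ⟨τ', g1, g2, g3⟩
    have hτ : τ = τ' + 1 := gb1_tau' (h1.symm.trans g1)
    have h0 : 0 ≤ τ := (abs_nonneg _).trans h3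
    have h4 : τ' ≤ 0 := by linarith
    rw [abs_of_nonpos h4, abs_le] at g3
    rw [abs_le] at h3
    exact ⟨τ, h0, h2, h1, h3.2, h3.1, by linarith [g3.2], by linarith [g3.1]⟩
  by_cases c : X = X0 + 3
  · subst c
    have e : X0 + 3 - 1 = X0 + 2 := by ring
    rw [e] at t2
    apply gb1_meets_pt t2 s2
    intro z hz1 hz2
    obtain ⟨τ, k0, k1, k2, k3, k4, k5, k6⟩ := key z hz1 hz2
    push_cast at k3 k4
    have k7 : τ = 1 := by linarith
    subst k7
    apply gb1_pt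
    · push_cast
      linarith
    · rw [k2]
      ring
  by_cases c2 : X = X0 - 3
  · subst c2
    have e : X0 - 3 + 1 = X0 - 2 := by ring
    rw [e] at t3
    apply gb1_meets_pt t3 s1
    intro z hz1 hz2
    obtain ⟨τ, k0, k1, k2, k3, k4, k5, k6⟩ := key z hz1 hz2
    push_cast at k3 k4
    have k7 : τ = 1 := by linarith
    subst k7
    apply gb1_pt
    · push_cast
      linarith
    · rw [k2]
      ring
  apply gb1_meets_no
  intro z hz1 hz2
  obtain ⟨τ, k0, k1, k2, k3, k4, k5, k6⟩ := key z hz1 hz2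
  have h5 : (X : ℝ) ≤ X0 + 3 := by linarith
  have h6 : (X0 : ℝ) ≤ X + 3 := by linarith
  have h7 : X ≤ X0 + 3 := by exact_mod_cast h5
  have h8 : X0 ≤ X + 3 := by exact_mod_cast h6
  rcases abs_cases (X - X0) with h9 | h9 <;> omega

end Pool.Agent.Lib.H54T
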