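import Mathlib
import Pool.Agent.Lib.H54T.GB1
import Pool.Agent.Lib.H54T.GB3
import Pool.Agent.Lib.H54T.GA6

/-! # H54T, chunk GB6: two hexagons which overlap in height -/

namespace Pool.Agent.Lib.H54T

theorem gb6_same (a : ℝ) (X X' : ℤ) (hp : (X - X') % 2 = 0) (h : X + 4 ≤ X') :
    Meets (hxR a X) (hxR a X') := by
  obtain ⟨t1, t2, t3, t4, t5, t6⟩ := hx_V a X
  obtain ⟨s1, s2, s3, s4, s5, s6⟩ := hx_V a X'
  by_cases c : X' = X + 4
  · subst c
    have e : X + 4 - 2 = X + 2 := by ring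
    rw [e] at s1
    apply gb1_meets_pt t2 s1
    rintro z ⟨τ, h1, h2, h3⟩ ⟨τ', g1, g2, g3⟩
    have hτ : τ = τ' := gb1_tau (h1.symm.trans g1)
    subst hτ
    rw [abs_le] at h3 g3
    push_cast at g3
    have h4 : |τ| ≤ 0 := by linarith [h3.2, g3.1]
    have h5 : τ = 0 := abs_nonpos_iff.1 h4
    subst h5
    rw [abs_zero] at h3 g3
    apply gb1_pt
    · push_cast
      linarith [h3.2, g3.1]
    · rw [h1]
      ring
  · apply gb1_meets_no
    rintro z ⟨τ, h1, h2, h3⟩ ⟨τ', g1, g2, g3⟩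
    rw [abs_le] at h3 g3
    have h4 : X + 6 ≤ X' := by omega
    have h5 : (X : ℝ) + 6 ≤ X' := by exact_mod_cast h4
    linarith [h3.2, g3.1, abs_nonneg τ, abs_nonneg τ']

/-- Hexagons on one line: indices differ by 4: common vertex; by 6 or more: disjoint. -/
theorem meets_hx_hx (a : ℝ) (X X' : ℤ) (hp : (X - X') % 2 = 0) (h : 4 ≤ |X - X'|) :
    Meets (hxR a X) (hxR a X') := by
  rcases abs_cases (X - X') with h9 | h9
  · exact meets_symm (gb6_same a X' X (by omega) (by omega))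
  · exact gb6_same a X X' hp (by omega)

/-- Hexagons on consecutive lines: indices differ by 3: common side; by 5 or more: disjoint. (For
`z` in both, `0 ≤ τ ≤ 1` and `|2 re z - X| ≤ 2 - τ`, `|2 re z - X'| ≤ 1 + τ`.) -/
theorem meets_hx_hx' (a : ℝ) (X X' : ℤ) (hp : (X - X') % 2 = 1) (h : 3 ≤ |X - X'|) :
    Meets (hxR a X) (hxR (a + rho) X') := by
  obtain ⟨t1, t2, t3, t4, t5, t6⟩ := hx_S a X
  obtain ⟨s1, s2, s3, s4, s5, s6⟩ := hx_S (a + rho) X'
  rw [add_sub_cancel_right] at s2 s4 s6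
  have key : ∀ z, z ∈ hxR a X → z ∈ hxR (a + rho) X' → ∃ τ : ℝ, 0 ≤ τ ∧ τ ≤ 1 ∧
      z.im = a + rho * τ ∧
      2 * z.re - X ≤ 2 - τ ∧ -(2 - τ) ≤ 2 * z.re - X ∧ 2 * z.re - X' ≤ 1 + τ ∧
      -(1 + τ) ≤ 2 * z.re - X' := by
    rintro z ⟨τ, h1, h2, h3⟩ ⟨τ', g1, g2, g3⟩
    have hτ : τ = τ' + 1 := gb1_tau' (h1.symm.trans g1)
    have k1 := abs_le.1 h2
    have k2 := abs_le.1 g2
    have h0 : 0 ≤ τ := by linarith [k2.1]
    have h4 : τ' ≤ 0 := by linarith [k1.2]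
    rw [abs_of_nonpos h4, abs_le] at g3
    rw [abs_of_nonneg h0, abs_le] at h3
    exact ⟨τ, h0, k1.2, h1, h3.2, h3.1, by linarith [g3.2], by linarith [g3.1]⟩
  by_cases c : X' = X + 3
  · subst c
    have e : X + 3 - 2 = X + 1 := by ring
    have e' : X + 3 - 1 = X + 2 := by ring
    rw [segment_symm, e, e'] at s4
    apply gb1_meets_seg t5 s4
    intro z hz1 hz2
    obtain ⟨τ, k0, k1, k2, k3, k4, k5, k6⟩ := key z hz1 hz2
    push_cast at k5 k6
    apply gb1_seg (X + 2) (X + 1) a (a + rho) τ z k0 k1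
    · push_cast
      linarith
    · rw [k2]
      ring
  by_cases c2 : X' = X - 3
  · subst c2
    have e : X - 3 + 2 = X - 1 := by ring
    have e' : X - 3 + 1 = X - 2 := by ring
    rw [segment_symm, e, e'] at s6
    apply gb1_meets_seg t3 s6
    intro z hz1 hz2
    obtain ⟨τ, k0, k1, k2, k3, k4, k5, k6⟩ := key z hz1 hz2
    push_cast at k5 k6
    apply gb1_seg (X - 2) (X - 1) a (a + rho) τ z k0 k1
    · push_cast
      linarith
    · rw [k2]
      ring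
  apply gb1_meets_no
  intro z hz1 hz2
  obtain ⟨τ, k0, k1, k2, k3, k4, k5, k6⟩ := key z hz1 hz2
  have h5 : (X : ℝ) ≤ X' + 3 := by linarith
  have h6 : (X' : ℝ) ≤ X + 3 := by linarith
  have h7 : X ≤ X' + 3 := by exact_mod_cast h5
  have h8 : X' ≤ X + 3 := by exact_mod_cast h6
  rcases abs_cases (X - X') with h9 | h9 <;> omega

end Pool.Agent.Lib.H54T
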