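import Mathlib
import Pool.Agent.Lib.H54T.GB4
import Pool.Agent.Lib.H54T.GB5
import Pool.Agent.Lib.H54T.GB6
import Pool.Agent.Lib.H54T.GB7A

/-! # H54T, chunk GB7B: two tiles -/

namespace Pool.Agent.Lib.H54T

theorem gb7_tr_tr (L : Lay) (l X X' : ℤ) (hne : L.reg .tr l X ≠ L.reg .tr l X') :
    Meets (L.reg .tr l X) (L.reg .tr l X') := by
  have hX : X ≠ X' := fun e => hne (by rw [e])
  simp only [Lay.reg]
  split_ifs with p q q
  · exact meets_dn_dn _ X X' (by omega) hX
  · exact meets_symm (meets_up_dn _ X' X (by omega))
  · exact meets_up_dn _ X X' (by omega)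
  · exact meets_up_up _ X X' (by omega) hX

theorem gb7_tr_hx (L : Lay) (l l' X X' : ℤ) (h : L.ok .tr l X) (h' : L.ok .hx l' X')
    (hl : l' = l ∨ l' = l + 1) : Meets (L.reg .tr l X) (L.reg .hx l' X') := by
  obtain ⟨hw, hc⟩ := h
  have hH : L.H l' X' := h'
  have hp := L.hpar l' X' hH
  have hgap : 1 < |X - X'| := by
    by_contra hcon
    apply hc
    refine ⟨X', by omega, ?_⟩
    rcases hl with hl | hl
    · left
      rw [← hl]
      exact hH
    · right
      rw [← hl]
      exact hH
  simp only [Lay.reg]
  rcases hl with hl | hl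
  · subst hl
    split_ifs with p
    · exact meets_dn_hx _ X X' (by omega) hgap
    · exact meets_up_hx _ X X' (by omega) hgap
  · subst hl
    have hy := L.hy l
    have hal := L.hal l
    rw [if_pos hw] at hy hal
    rw [hy]
    split_ifs with p
    · exact meets_dn_hx' _ X X' (by omega) hgap
    · exact meets_up_hx' _ X X' (by omega) hgap

theorem gb7_sq_hx (L : Lay) (l l' X X' : ℤ) (h : L.ok .sq l X) (h' : L.ok .hx l' X')
    (hl : l' = l ∨ l' = l + 1) : False := by
  obtain ⟨hw, hc⟩ := h
  have hH : L.H l' X' := h'
  obtain ⟨w1, w2⟩ := L.hrow l' X' hH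
  rcases hl with hl | hl
  · subst hl
    rw [hw] at w1
    exact Bool.false_ne_true w1
  · subst hl
    rw [add_sub_cancel_right, hw] at w2
    exact Bool.false_ne_true w2

theorem gb7_hx_hx (L : Lay) (l X X' : ℤ) (h : L.ok .hx l X) (h' : L.ok .hx (l + 1) X') :
    Meets (L.reg .hx l X) (L.reg .hx (l + 1) X') := by
  have hH : L.H l X := h
  have hH' : L.H (l + 1) X' := h'
  have hp := L.hpar l X hH
  have hp' := L.hpar (l + 1) X' hH'
  have hw := (L.hrow l X hH).1
  have hy := L.hy l
  have hal := L.hal l
  rw [if_pos hw] at hy hal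
  simp only [Lay.reg]
  rw [hy]
  exact meets_hx_hx' _ X X' (by omega) (L.hadj l X X' hH hH')

/-- The other cases (up to symmetry): both in one row; triangle and hexagon (`l' = l` or
`l' = l + 1`, not covered gives `1 < |X - X'|`; `H` gives the type of the row); two hexagons with
`|l - l'| ≤ 1` (`hsame`, `hadj`, `hal`, `hpar` for the parities). -/
theorem meets_all (L : Lay) (k k' : Kd) (l l' X X' : ℤ) (h : L.ok k l X) (h' : L.ok k' l' X')
    (hne : L.reg k l X ≠ L.reg k' l' X') : Meets (L.reg k l X) (L.reg k' l' X') := by
  by_cases f1 : l + 1 ≤ bot k' l'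
  · exact meets_far L k k' l l' X X' h h' f1
  by_cases f2 : l' + 1 ≤ bot k l
  · exact meets_symm (meets_far L k' k l' l X' X h' h f2)
  cases k with
  | tr =>
    cases k' with
    | tr =>
      simp only [bot] at f1 f2
      have e : l' = l := by omega
      subst e
      exact gb7_tr_tr L _ X X' hne
    | sq =>
      simp only [bot] at f1 f2
      have e : l' = l := by omega
      subst e
      have w1 := h.1
      have w2 := h'.1
      rw [w1] at w2
      exact absurd w2 (by simp)
    | hx =>
      simp only [bot] at f1 f2
      exact gb7_tr_hx L l l' X X' h h' (by omega)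
  | sq =>
    cases k' with
    | tr =>
      simp only [bot] at f1 f2
      have e : l' = l := by omega
      subst e
      have w1 := h.1
      have w2 := h'.1
      rw [w1] at w2
      exact absurd w2 (by simp)
    | sq =>
      simp only [bot] at f1 f2
      have e : l' = l := by omega
      subst e
      have hX : X ≠ X' := fun e => hne (by rw [e])
      have p1 := h.2
      have p2 := h'.2
      exact meets_sq_sq _ X X' (by omega) hX
    | hx =>
      simp only [bot] at f1 f2
      exact (gb7_sq_hx L l l' X X' h h' (by omega)).elim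
  | hx =>
    cases k' with
    | tr =>
      simp only [bot] at f1 f2
      exact meets_symm (gb7_tr_hx L l' l X' X h' h (by omega))
    | sq =>
      simp only [bot] at f1 f2
      exact (gb7_sq_hx L l' l X' X h' h (by omega)).elim
    | hx =>
      simp only [bot] at f1 f2
      by_cases e1 : l' = l
      · subst e1
        have hX : X ≠ X' := fun e => hne (by rw [e])
        have hH : L.H l' X := h
        have hH' : L.H l' X' := h'
        have p1 := L.hpar _ _ hH
        have p2 := L.hpar _ _ hH'
        exact meets_hx_hx _ X X' (by omega) (L.hsame _ _ _ hH hH' hX)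
      by_cases e2 : l' = l + 1
      · subst e2
        exact gb7_hx_hx L l X X' h h'
      have e3 : l = l' + 1 := by omega
      subst e3
      exact meets_symm (gb7_hx_hx L l' X' X h' h)

end Pool.Agent.Lib.H54T
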