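import Mathlib
import Pool.Agent.Lib.H54T.GB7A
import Pool.Agent.Lib.H54T.GB7B

/-! # H54T: GB7 (umbrella of GB7A, GB7B) -/
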