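import Mathlib
import Pool.Agent.Lib.H54T.GB1

/-! # H54T, chunk GC1A: the tiles cover the plane -/

namespace Pool.Agent.Lib.H54T

theorem gc1a_step (L : Lay) (l : ℤ) (n : ℕ) : L.y l + rho * n ≤ L.y (l + n) := by
  induction n with
  | zero => simp
  | succ n ih =>
    have h := L.hy (l + n)
    have h1 := rho_lt_one
    have e : l + ((n + 1 : ℕ) : ℤ) = l + n + 1 := by push_cast; ring
    rw [e, h]
    push_cast
    split_ifs <;> nlinarith

/-- `y l ≥ y 0 + rho l` for `l ≥ 0` and `y l ≤ y 0 + rho l` for `l ≤ 0`. -/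
theorem exists_row (L : Lay) (t : ℝ) : ∃ l : ℤ, L.y l ≤ t ∧ t ≤ L.y (l + 1) := by
  have hr := rho_pos
  obtain ⟨N, hN⟩ := exists_nat_gt (|t - L.y 0| / rho)
  rw [div_lt_iff₀ hr] at hN
  have h1 := gc1a_step L 0 N
  have h2 := gc1a_step L (-(N : ℤ)) N
  rw [zero_add] at h1
  rw [neg_add_cancel] at h2
  have h3 := abs_le.1 (le_refl |t - L.y 0|)
  have hb : ∃ b : ℤ, ∀ z : ℤ, L.y z ≤ t → z ≤ b := by
    refine ⟨N, fun z hz => ?_⟩
    by_contra hcon
    push Not at hcon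
    have := y_strictMono L hcon
    linarith [h3.2]
  have hn : ∃ z : ℤ, L.y z ≤ t := ⟨-(N : ℤ), by linarith [h3.1]⟩
  obtain ⟨u, hu1, hu2⟩ := Int.exists_greatest_of_bdd hb hn
  refine ⟨u, hu1, ?_⟩
  by_contra hcon
  push Not at hcon
  have := hu2 (u + 1) hcon.le
  omega

end Pool.Agent.Lib.H54T
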