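import Mathlib
import Pool.Agent.Lib.H54T.GB1

/-! # H54T, chunk GC1B: the tiles cover the plane -/

namespace Pool.Agent.Lib.H54T

theorem gc1b_low (a τ : ℝ) (X' : ℤ) (z : ℂ) (h1 : z.im = a + rho * τ) (h0 : 0 ≤ τ) (h2 : τ ≤ 1)
    (h3 : |2 * z.re - X'| ≤ 2 - τ) : z ∈ hxR a X' :=
  ⟨τ, h1, by rwa [abs_of_nonneg h0], by rwa [abs_of_nonneg h0]⟩

theorem gc1b_high (a τ : ℝ) (X' : ℤ) (z : ℂ) (h1 : z.im = a + rho * τ) (h0 : 0 ≤ τ) (h2 : τ ≤ 1)
    (h3 : |2 * z.re - X'| ≤ 1 + τ) : z ∈ hxR (a + rho) X' := by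
  have h4 : τ - 1 ≤ 0 := by linarith
  refine ⟨τ - 1, by rw [h1]; ring, ?_, ?_⟩
  · rw [abs_of_nonpos h4]
    linarith
  · rw [abs_of_nonpos h4]
    linarith

theorem gc1b_tri (x : ℝ) (X X' : ℤ) (c : ℝ) (h : |x - X| ≤ c) (hX : |X - X'| ≤ 1) :
    |x - X'| ≤ c + 1 := by
  have h1 : |((X - X' : ℤ) : ℝ)| ≤ 1 := by exact_mod_cast hX
  push_cast at h1
  have h2 : x - X' = (x - X) + ((X : ℝ) - X') := by ring
  rw [h2]
  exact (abs_add_le _ _).trans (add_le_add h h1)

/-- A covered triangle lies in the hexagon (four cases: `X - X'` is `0` or `±1`, hexagon on the lower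
or on the upper line). -/
theorem cov_subset (L : Lay) (l X : ℤ) (hw : L.w l = true) (h : L.cov l X) (z : ℂ)
    (hz : z ∈ L.reg .tr l X) : ∃ l' X', L.ok .hx l' X' ∧ z ∈ L.reg .hx l' X' := by
  obtain ⟨X', hX, hH⟩ := h
  have hy := L.hy l
  have hal := L.hal l
  rw [if_pos hw] at hy hal
  simp only [Lay.reg] at hz
  rcases hH with hH | hH
  · have hp := L.hpar l X' hH
    refine ⟨l, X', hH, ?_⟩
    simp only [Lay.reg]
    split_ifs at hz with p
    · obtain ⟨τ, h1, h2, h3⟩ := hz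
      have h0 := (abs_nonneg _).trans h3
      have e : X = X' := by
        rcases abs_cases (X - X') with h9 | h9 <;> omega
      subst e
      exact gc1b_low _ τ X z h1 h0 h2 (by linarith)
    · obtain ⟨τ, h1, h2, h3⟩ := hz
      have h0 := (abs_nonneg _).trans h3
      have h4 := gc1b_tri _ X X' _ h3 hX
      exact gc1b_low _ τ X' z h1 h2 (by linarith) (by linarith)
  · have hp := L.hpar (l + 1) X' hH
    refine ⟨l + 1, X', hH, ?_⟩
    simp only [Lay.reg]
    rw [hy]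
    split_ifs at hz with p
    · obtain ⟨τ, h1, h2, h3⟩ := hz
      have h0 := (abs_nonneg _).trans h3
      have h4 := gc1b_tri _ X X' _ h3 hX
      exact gc1b_high _ τ X' z h1 h0 h2 (by linarith)
    · obtain ⟨τ, h1, h2, h3⟩ := hz
      have h0 := (abs_nonneg _).trans h3
      have e : X = X' := by
        rcases abs_cases (X - X') with h9 | h9 <;> omega
      subst e
      exact gc1b_high _ τ X z h1 h2 (by linarith) (by linarith)

end Pool.Agent.Lib.H54T
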