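import Mathlib
import Pool.Agent.Lib.H54T.GC1A
import Pool.Agent.Lib.H54T.GC1B

/-! # H54T, chunk GC1C: the tiles cover the plane -/

namespace Pool.Agent.Lib.H54T

/-- An integer of given parity near `x`. -/
theorem gc1c_par (x : ℝ) (a : ℤ) : ∃ X : ℤ, (X - a) % 2 = 0 ∧ |x - X| ≤ 1 := by
  refine ⟨a + 2 * round ((x - a) / 2), by omega, ?_⟩
  have h := abs_sub_round ((x - a) / 2)
  rw [abs_le] at h ⊢
  push_cast
  constructor <;> linarith [h.1, h.2]

/-- In a row of triangles: with `τ = (im z - y l) / rho` and `x = 2 re z` there is an integer `X` such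
that `|x - X| ≤ τ`, `X ≡ al l`, or `|x - X| ≤ 1 - τ`, `X ≡ al l + 1`. -/
theorem cover_tr (L : Lay) (l : ℤ) (hw : L.w l = true) (z : ℂ) (h0 : L.y l ≤ z.im)
    (h1 : z.im ≤ L.y (l + 1)) : ∃ X : ℤ, z ∈ L.reg .tr l X := by
  have hr := rho_pos
  have hy := L.hy l
  rw [if_pos hw] at hy
  rw [hy] at h1
  obtain ⟨τ, hτ⟩ : ∃ τ : ℝ, z.im = L.y l + rho * τ :=
    ⟨(z.im - L.y l) / rho, by field_simp; ring⟩
  have t0 : 0 ≤ τ := by
    by_contra hcon
    push Not at hcon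
    nlinarith
  have t1 : τ ≤ 1 := by
    by_contra hcon
    push Not at hcon
    nlinarith
  obtain ⟨m, hm, hx⟩ := gc1c_par (2 * z.re) (L.al l)
  by_cases c : |2 * z.re - m| ≤ τ
  · refine ⟨m, ?_⟩
    simp only [Lay.reg]
    rw [if_pos hm]
    exact ⟨τ, hτ, t1, c⟩
  · push Not at c
    rcases le_total 0 (2 * z.re - m) with hs | hs
    · rw [abs_of_nonneg hs] at c hx
      refine ⟨m + 1, ?_⟩
      simp only [Lay.reg]
      rw [if_neg (by omega)]
      refine ⟨τ, hτ, t0, ?_⟩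
      rw [abs_le]
      push_cast
      constructor <;> linarith
    · rw [abs_of_nonpos hs] at c hx
      refine ⟨m - 1, ?_⟩
      simp only [Lay.reg]
      rw [if_neg (by omega)]
      refine ⟨τ, hτ, t0, ?_⟩
      rw [abs_le]
      push_cast
      constructor <;> linarith

theorem cover_all (L : Lay) (z : ℂ) : ∃ A ∈ L.tiles, z ∈ A := by
  obtain ⟨l, h0, h1⟩ := exists_row L z.im
  cases hw : L.w l with
  | true =>
    obtain ⟨X, hX⟩ := cover_tr L l hw z h0 h1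
    by_cases c : L.cov l X
    · obtain ⟨l', X', h2, h3⟩ := cov_subset L l X hw c z hX
      exact ⟨_, ⟨.hx, l', X', h2, rfl⟩, h3⟩
    · exact ⟨_, ⟨.tr, l, X, ⟨hw, c⟩, rfl⟩, hX⟩
  | false =>
    obtain ⟨m, hm, hx⟩ := gc1c_par (2 * z.re) (L.al l + 1)
    have hy := L.hy l
    rw [hw] at hy
    simp only [Bool.false_eq_true, if_false] at hy
    rw [hy] at h1
    refine ⟨_, ⟨.sq, l, m, ⟨hw, by omega⟩, rfl⟩, ?_⟩
    exact ⟨hx, h0, h1⟩

end Pool.Agent.Lib.H54T
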