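import Mathlib
import Pool.Agent.Lib.H54T.GC1A
import Pool.Agent.Lib.H54T.GC1B
import Pool.Agent.Lib.H54T.GC1C

/-! # H54T: GC1 (umbrella of GC1A, GC1B, GC1C) -/
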