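import Mathlib
import Pool.Agent.Lib.H54T.GA6
import Pool.Agent.Lib.H54T.GB7
import Pool.Agent.Lib.H54T.GC1

/-! # H54T: layered tilings are tilings -/

namespace Pool.Agent.Lib.H54T

theorem reg_isGon (L : Lay) (k : Kd) (l X : ℤ) : IsGon k.size (L.reg k l X) := by
  cases k with
  | tr =>
    simp only [Lay.reg, Kd.size]
    split_ifs
    · exact dn_isGon _ _
    · exact up_isGon _ _
  | sq => exact sq_isGon _ _
  | hx => exact hx_isGon _ _

theorem isTiling (L : Lay) : IsTiling L.tiles where
  tile := by
    rintro A ⟨k, l, X, -, rfl⟩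
    have h := reg_isGon L k l X
    cases k with
    | tr => exact Or.inl h
    | sq => exact Or.inr (Or.inl h)
    | hx => exact Or.inr (Or.inr h)
  cover := cover_all L
  edge := by
    rintro A ⟨k, l, X, h, rfl⟩ B ⟨k', l', X', h', rfl⟩ hne
    exact meets_all L k k' l l' X X' h h' hne

end Pool.Agent.Lib.H54T
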