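import Mathlib
import Pool.Agent.Lib.H54T.GA0
import Pool.Agent.Lib.H54T.GA1
import Pool.Agent.Lib.H54T.GA2
import Pool.Agent.Lib.H54T.GA4

/-! # H54T, chunk SA1: triangles, squares and hexagons have different diameters -/

namespace Pool.Agent.Lib.H54T

theorem sa1_diam (n : ℕ) (hn : 1 ≤ n) (c u : ℂ) (d : ℝ) (hd : 0 ≤ d)
    (h : ∀ j k, j < n → k < n → ‖vert n c u j - vert n c u k‖ ≤ d)
    (h' : ∃ j k, ‖vert n c u j - vert n c u k‖ = d) : Metric.diam (gon n c u) = d := by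
  unfold gon
  rw [convexHull_diam]
  have hle : ∀ x ∈ Set.range (vert n c u), ∀ y ∈ Set.range (vert n c u), dist x y ≤ d := by
    rintro x ⟨j, rfl⟩ y ⟨k, rfl⟩
    rw [dist_eq_norm, ga0_mod n hn c u j, ga0_mod n hn c u k]
    exact h _ _ (Nat.mod_lt _ (by omega)) (Nat.mod_lt _ (by omega))
  apply le_antisymm
  · exact Metric.diam_le_of_forall_dist_le hd hle
  · obtain ⟨j, k, hjk⟩ := h'
    rw [← hjk, ← dist_eq_norm]
    have hb : Bornology.IsBounded (Set.range (vert n c u)) := by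
      rw [Metric.isBounded_iff]
      exact ⟨d, fun x hx y hy => hle x hx y hy⟩
    exact Metric.dist_le_diam_of_mem hb (Set.mem_range_self j) (Set.mem_range_self k)

theorem sa1_w3 : (⟨-1 / 2, rho⟩ : ℂ) ^ 3 = 1 := by
  rw [← ga4_p2, ← pow_mul, show 2 * 3 = 3 * 2 by norm_num, pow_mul, ga4_p3]
  apply Complex.ext <;> simp [sq]

theorem sa1_nw3 : ‖(⟨-1 / 2, rho⟩ : ℂ)‖ = 1 := by
  have h := congrArg norm sa1_w3
  rw [norm_pow, norm_one] at h
  exact (pow_eq_one_iff_of_nonneg (norm_nonneg _) (by norm_num)).1 h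

theorem sa1_nw6 : ‖(⟨1 / 2, rho⟩ : ℂ)‖ = 1 := by
  have h : ‖(⟨1 / 2, rho⟩ : ℂ) ^ 2‖ = 1 := by
    rw [ga4_p2]
    exact sa1_nw3
  rw [norm_pow] at h
  exact (pow_eq_one_iff_of_nonneg (norm_nonneg _) (by norm_num)).1 h

/-- The diameter of a convex hull is the diameter of the set (`convexHull_diam`); the distance of two
vertices is `‖u‖ ‖ω^j - ω^k‖`. -/
theorem diam_gon3 (A : Set ℂ) (h : IsGon 3 A) : Metric.diam A = 1 := by
  obtain ⟨c, u, h1, rfl⟩ := h
  have h1' : ‖vert 3 c u 1 - vert 3 c u 0‖ = 1 := h1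
  rw [ga2_vert, ga2_vert] at h1
  have hw := sa1_w3
  have hn := sa1_nw3
  set w : ℂ := ⟨-1 / 2, rho⟩ with hwdef
  have e1 : c + u * w ^ 1 - (c + u * w ^ 0) = u * (w - 1) := by ring
  rw [e1] at h1
  apply sa1_diam 3 (by norm_num) c u 1 (by norm_num)
  · intro j k hj hk
    rw [ga2_vert, ga2_vert, ← hwdef]
    have d21 : ‖u * (w ^ 2 - w)‖ = 1 := by
      have : u * (w ^ 2 - w) = w * (u * (w - 1)) := by ring
      rw [this, norm_mul, hn, h1, one_mul]
    have d20 : ‖u * (w ^ 2 - 1)‖ = 1 := by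
      have : u * (w ^ 2 - 1) = -(w ^ 2 * (u * (w - 1))) := by
        have : -(w ^ 2 * (u * (w - 1))) = u * (w ^ 2 - w ^ 3) := by ring
        rw [this, hw]
      rw [this, norm_neg, norm_mul, norm_pow, hn, h1]
      norm_num
    interval_cases j <;> interval_cases k
    · simp
    · have : c + u * w ^ 0 - (c + u * w ^ 1) = -(u * (w - 1)) := by ring
      rw [this, norm_neg, h1]
    · have : c + u * w ^ 0 - (c + u * w ^ 2) = -(u * (w ^ 2 - 1)) := by ring
      rw [this, norm_neg, d20]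
    · have : c + u * w ^ 1 - (c + u * w ^ 0) = (u * (w - 1)) := by ring
      rw [this, h1]
    · simp
    · have : c + u * w ^ 1 - (c + u * w ^ 2) = -(u * (w ^ 2 - w)) := by ring
      rw [this, norm_neg, d21]
    · have : c + u * w ^ 2 - (c + u * w ^ 0) = (u * (w ^ 2 - 1)) := by ring
      rw [this, d20]
    · have : c + u * w ^ 2 - (c + u * w ^ 1) = (u * (w ^ 2 - w)) := by ring
      rw [this, d21]
    · simp
  · exact ⟨1, 0, h1'⟩

theorem sa1_sqrt2 (u : ℂ) (h : ‖u * (Complex.I - 1)‖ = 1) : 2 * ‖u‖ = Real.sqrt 2 := by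
  have h2 : ‖Complex.I - 1‖ = Real.sqrt 2 := by
    rw [Complex.norm_def, Complex.normSq_apply]
    congr 1
    simp
    norm_num
  rw [norm_mul, h2] at h
  have h3 : Real.sqrt 2 * Real.sqrt 2 = 2 := Real.mul_self_sqrt (by norm_num)
  calc 2 * ‖u‖ = (Real.sqrt 2 * Real.sqrt 2) * ‖u‖ := by rw [h3]
    _ = Real.sqrt 2 * (‖u‖ * Real.sqrt 2) := by ring
    _ = Real.sqrt 2 := by rw [h, mul_one]

theorem diam_gon4 (A : Set ℂ) (h : IsGon 4 A) : Metric.diam A = Real.sqrt 2 := by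
  obtain ⟨c, u, h1, rfl⟩ := h
  rw [ga1_vert, ga1_vert] at h1
  have e1 : c + u * Complex.I ^ 1 - (c + u * Complex.I ^ 0) = u * (Complex.I - 1) := by ring
  rw [e1] at h1
  have h2 := sa1_sqrt2 u h1
  apply sa1_diam 4 (by norm_num) c u _ (Real.sqrt_nonneg _)
  · intro j k _ _
    rw [ga1_vert, ga1_vert, ← h2]
    have e2 : c + u * Complex.I ^ j - (c + u * Complex.I ^ k) =
        u * Complex.I ^ j - u * Complex.I ^ k := by ring
    rw [e2]
    refine (norm_sub_le _ _).trans ?_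
    rw [norm_mul, norm_mul, norm_pow, norm_pow, Complex.norm_I, one_pow, one_pow]
    linarith
  · refine ⟨0, 2, ?_⟩
    rw [ga1_vert, ga1_vert, ← h2]
    have e2 : c + u * Complex.I ^ 0 - (c + u * Complex.I ^ 2) = 2 * u := by
      rw [Complex.I_sq]
      ring
    rw [e2, norm_mul]
    simp

theorem diam_gon6 (A : Set ℂ) (h : IsGon 6 A) : Metric.diam A = 2 := by
  obtain ⟨c, u, h1, rfl⟩ := h
  have hn := sa1_nw6
  have hn3 := sa1_nw3
  have hu : ‖u‖ = 1 := by
    rw [ga4_vert, ga4_vert] at h1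
    have e1 : c + u * (⟨1 / 2, rho⟩ : ℂ) ^ 1 - (c + u * (⟨1 / 2, rho⟩ : ℂ) ^ 0) =
        u * (⟨-1 / 2, rho⟩ : ℂ) := by
      rw [pow_one, pow_zero]
      have e2 : (⟨-1 / 2, rho⟩ : ℂ) = (⟨1 / 2, rho⟩ : ℂ) - 1 := by
        apply Complex.ext
        · simp
          norm_num
        · simp
      rw [e2]
      ring
    rw [e1, norm_mul, hn3, mul_one] at h1
    exact h1
  apply sa1_diam 6 (by norm_num) c u _ (by norm_num)
  · intro j k _ _
    rw [ga4_vert, ga4_vert]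
    have e2 : c + u * (⟨1 / 2, rho⟩ : ℂ) ^ j - (c + u * (⟨1 / 2, rho⟩ : ℂ) ^ k) =
        u * (⟨1 / 2, rho⟩ : ℂ) ^ j - u * (⟨1 / 2, rho⟩ : ℂ) ^ k := by ring
    rw [e2]
    refine (norm_sub_le _ _).trans ?_
    rw [norm_mul, norm_mul, norm_pow, norm_pow, hn, one_pow, one_pow, hu]
    norm_num
  · refine ⟨0, 3, ?_⟩
    rw [ga4_vert, ga4_vert, ga4_p3]
    have e2 : c + u * (⟨1 / 2, rho⟩ : ℂ) ^ 0 - (c + u * (⟨-1, 0⟩ : ℂ)) = 2 * u := by
      have e3 : (⟨-1, 0⟩ : ℂ) = -1 := by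
        apply Complex.ext <;> simp
      rw [e3]
      ring
    rw [e2, norm_mul, hu]
    simp

theorem size_unique (k k' : Kd) (A : Set ℂ) (h : IsGon k.size A) (h' : IsGon k'.size A) :
    k = k' := by
  have s1 : Real.sqrt 2 ≠ 1 := by
    intro e
    have h3 : Real.sqrt 2 * Real.sqrt 2 = 2 := Real.mul_self_sqrt (by norm_num)
    rw [e] at h3
    norm_num at h3
  have s2 : Real.sqrt 2 ≠ 2 := by
    intro e
    have h3 : Real.sqrt 2 * Real.sqrt 2 = 2 := Real.mul_self_sqrt (by norm_num)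
    rw [e] at h3
    norm_num at h3
  have hd : ∀ k : Kd, IsGon k.size A →
      Metric.diam A = (match k with | .tr => 1 | .sq => Real.sqrt 2 | .hx => 2) := by
    intro k hk
    cases k with
    | tr => exact diam_gon3 A hk
    | sq => exact diam_gon4 A hk
    | hx => exact diam_gon6 A hk
  have e := (hd k h).symm.trans (hd k' h')
  cases k <;> cases k' <;> simp only at e <;> first | rfl | (exfalso; first | exact s1 e | exact s1 e.symm | exact s2 e | exact s2 e.symm | norm_num at e)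

end Pool.Agent.Lib.H54T
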