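import Mathlib
import Pool.Agent.Lib.H54T.SA1
import Pool.Agent.Lib.H54T.SA2A
import Pool.Agent.Lib.H54T.GM

/-! # H54T, chunk SA2B: the label of a tile is determined by the tile -/

namespace Pool.Agent.Lib.H54T

/-- Equal tiles have equal labels (`size_unique`, `y_strictMono`). -/
theorem reg_inj (L : Lay) (k k' : Kd) (l l' X X' : ℤ) (h : L.reg k l X = L.reg k' l' X') :
    k = k' ∧ l = l' ∧ X = X' := by
  have h1 := reg_isGon L k l X
  rw [h] at h1
  have hk := size_unique k k' _ h1 (reg_isGon L k' l' X')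
  subst hk
  have hy := (y_strictMono L).injective
  refine ⟨rfl, ?_⟩
  cases k with
  | tr =>
    simp only [Lay.reg] at h
    split_ifs at h
    · obtain ⟨e1, e2⟩ := dnR_inj _ _ _ _ h
      exact ⟨hy e1, e2⟩
    · exact absurd h.symm (upR_ne_dnR _ _ _ _)
    · exact absurd h (upR_ne_dnR _ _ _ _)
    · obtain ⟨e1, e2⟩ := upR_inj _ _ _ _ h
      exact ⟨hy e1, e2⟩
  | sq =>
    obtain ⟨e1, e2⟩ := sqR_inj _ _ _ _ h
    exact ⟨hy e1, e2⟩
  | hx =>
    obtain ⟨e1, e2⟩ := hxR_inj _ _ _ _ h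
    exact ⟨hy e1, e2⟩

end Pool.Agent.Lib.H54T
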