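import Mathlib
import Pool.Agent.Lib.H54T.SA2A
import Pool.Agent.Lib.H54T.SA2B

/-! # H54T: SA2 (umbrella of SA2A, SA2B) -/
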