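import Mathlib
import Pool.Agent.Lib.H54T.Stmt

/-! # H54T, chunk SB1: the isometries of the plane -/

namespace Pool.Agent.Lib.H54T

/-- Mazur-Ulam (`IsometryEquiv.toRealAffineIsometryEquiv`) and `linear_isometry_complex`. -/
theorem isometry_form (g : ℂ ≃ᵢ ℂ) : ∃ u b : ℂ, ‖u‖ = 1 ∧
    ((∀ z, g z = u * z + b) ∨ (∀ z, g z = u * (starRingEnd ℂ) z + b)) := by
  obtain ⟨a, ha⟩ := linear_isometry_complex g.toRealAffineIsometryEquiv.linearIsometryEquiv
  have h : ∀ z : ℂ, g z = g.toRealAffineIsometryEquiv.linearIsometryEquiv z + g 0 := by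
    intro z
    have := g.toRealAffineIsometryEquiv.map_vadd 0 z
    simp only [vadd_eq_add, add_zero] at this
    exact this
  refine ⟨(a : ℂ), g 0, Circle.norm_coe a, ?_⟩
  rcases ha with ha | ha
  · left
    intro z
    rw [h z, ha, rotation_apply]
  · right
    intro z
    rw [h z, ha]
    rfl

theorem sb1_hull (g : ℂ ≃ᵢ ℂ) (s : Set ℂ) : g '' (convexHull ℝ s) = convexHull ℝ (g '' s) :=
  AffineMap.image_convexHull (g.toRealAffineIsometryEquiv.toAffineEquiv.toAffineMap) s

theorem sb1_conj (n : ℕ) (hn : 1 ≤ n) (k : ℕ) :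
    (starRingEnd ℂ) (Complex.exp (2 * (Real.pi : ℂ) * Complex.I * (k : ℂ) / (n : ℂ))) =
      Complex.exp (2 * (Real.pi : ℂ) * Complex.I * (((n - 1) * k : ℕ) : ℂ) / (n : ℂ)) := by
  have hn' : (n : ℂ) ≠ 0 := by exact_mod_cast (by omega : n ≠ 0)
  rw [← Complex.exp_conj]
  have e1 : (starRingEnd ℂ) (2 * (Real.pi : ℂ) * Complex.I * (k : ℂ) / (n : ℂ)) =
      -(2 * (Real.pi : ℂ) * Complex.I * (k : ℂ) / (n : ℂ)) := by
    simp only [map_div₀, map_mul, Complex.conj_I, Complex.conj_ofReal, map_natCast, map_ofNat]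
    ring
  have e2 : 2 * (Real.pi : ℂ) * Complex.I * (((n - 1) * k : ℕ) : ℂ) / (n : ℂ) =
      -(2 * (Real.pi : ℂ) * Complex.I * (k : ℂ) / (n : ℂ)) + k * (2 * Real.pi * Complex.I) := by
    rw [Nat.cast_mul, Nat.cast_sub hn]
    push_cast
    field_simp
    ring
  rw [e1, e2, Complex.exp_add, Complex.exp_nat_mul_two_pi_mul_I, mul_one]

/-- The image of a regular polygon is a regular polygon (in the second case the vertices appear in
the opposite order: the image of vertex `k` is vertex `(n - 1) * k`). -/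
theorem isGon_image (n : ℕ) (hn : 1 ≤ n) (A : Set ℂ) (h : IsGon n A) (g : ℂ ≃ᵢ ℂ) :
    IsGon n (g '' A) := by
  obtain ⟨c, u, h1, rfl⟩ := h
  obtain ⟨a, b, ha, hg⟩ := isometry_form g
  rcases hg with hg | hg
  · have hv : ∀ k, g (vert n c u k) = vert n (g c) (a * u) k := by
      intro k
      unfold vert
      rw [hg, hg]
      ring
    refine ⟨g c, a * u, ?_, ?_⟩
    · rw [← hv, ← hv, ← dist_eq_norm, g.dist_eq, dist_eq_norm]
      exact h1
    · unfold gon
      rw [sb1_hull]
      congr 1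
      rw [← Set.range_comp]
      congr 1
      funext k
      exact hv k
  · have hv : ∀ k, g (vert n c u k) = vert n (g c) (a * (starRingEnd ℂ) u) ((n - 1) * k) := by
      intro k
      unfold vert
      rw [hg, hg, map_add, map_mul, sb1_conj n hn k]
      ring
    have hper : ∀ j k : ℕ, vert n (g c) (a * (starRingEnd ℂ) u) (k + n * j) =
        vert n (g c) (a * (starRingEnd ℂ) u) k := by
      intro j k
      unfold vert
      have hn' : (n : ℂ) ≠ 0 := by exact_mod_cast (by omega : n ≠ 0)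
      have h : 2 * (Real.pi : ℂ) * Complex.I * ((k + n * j : ℕ) : ℂ) / (n : ℂ) =
          2 * (Real.pi : ℂ) * Complex.I * (k : ℂ) / (n : ℂ) + j * (2 * Real.pi * Complex.I) := by
        push_cast
        field_simp
      rw [h, Complex.exp_add, Complex.exp_nat_mul_two_pi_mul_I, mul_one]
    have hinv : ∀ k : ℕ, vert n (g c) (a * (starRingEnd ℂ) u) k = g (vert n c u ((n - 1) * k)) := by
      intro k
      rw [hv]
      have e : ∃ j, (n - 1) * ((n - 1) * k) = k + n * j ∨ n = 1 := by
        rcases Nat.lt_or_ge 1 n with h2 | h2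
        · obtain ⟨m, rfl⟩ : ∃ m, n = m + 2 := ⟨n - 2, by omega⟩
          refine ⟨m * k, Or.inl ?_⟩
          have : m + 2 - 1 = m + 1 := by omega
          rw [this]
          ring
        · exact ⟨0, Or.inr (by omega)⟩
      obtain ⟨j, e | e⟩ := e
      · rw [e, hper]
      · subst e
        have e3 := hper k 0
        simp only [Nat.sub_self, zero_mul]
        rw [one_mul, zero_add] at e3
        exact e3
    refine ⟨g c, a * (starRingEnd ℂ) u, ?_, ?_⟩
    · unfold vert at h1 ⊢
      have e1 : ∀ d v x y : ℂ, d + v * x - (d + v * y) = v * (x - y) := by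
        intro d v x y
        ring
      rw [e1] at h1 ⊢
      rw [norm_mul, norm_mul, ha, RCLike.norm_conj, one_mul]
      rwa [norm_mul] at h1
    · unfold gon
      rw [sb1_hull]
      congr 1
      apply Set.Subset.antisymm
      · rintro z ⟨w, ⟨k, rfl⟩, rfl⟩
        exact ⟨_, (hv k).symm⟩
      · rintro z ⟨k, rfl⟩
        exact ⟨_, ⟨_, rfl⟩, (hinv k).symm⟩

end Pool.Agent.Lib.H54T
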