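import Mathlib
import Pool.Agent.Lib.H54T.SA1
import Pool.Agent.Lib.H54T.SB1
import Pool.Agent.Lib.H54T.GM

/-! # H54T, chunk SB2C: symmetries preserve the horizontal direction -/

namespace Pool.Agent.Lib.H54T

theorem sb2c_size (k : Kd) : 1 ≤ k.size := by
  cases k <;> simp [Kd.size]

/-- A symmetry maps tiles to tiles of the same kind. -/
theorem sym_kind (L : Lay) (g : ℂ ≃ᵢ ℂ) (hg : g ∈ Sym L.tiles) (k : Kd) (l X : ℤ)
    (h : L.ok k l X) : ∃ l' X', L.ok k l' X' ∧ g '' L.reg k l X = L.reg k l' X' := by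
  have hT : (fun A : Set ℂ => g '' A) '' L.tiles = L.tiles := hg
  have h1 : L.reg k l X ∈ L.tiles := ⟨k, l, X, h, rfl⟩
  have h2 : g '' L.reg k l X ∈ L.tiles := by
    rw [← hT]
    exact ⟨_, h1, rfl⟩
  obtain ⟨k', l', X', h3, h4⟩ := h2
  have h5 := isGon_image _ (sb2c_size k) _ (reg_isGon L k l X) g
  rw [h4] at h5
  have h6 := size_unique k k' _ h5 (reg_isGon L k' l' X')
  subst h6
  exact ⟨l', X', h3, h4⟩

/-- Every tile is the image of a tile of the same kind. -/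
theorem sym_kind' (L : Lay) (g : ℂ ≃ᵢ ℂ) (hg : g ∈ Sym L.tiles) (k : Kd) (l X : ℤ)
    (h : L.ok k l X) : ∃ l' X', L.ok k l' X' ∧ g '' L.reg k l' X' = L.reg k l X := by
  have hT : (fun A : Set ℂ => g '' A) '' L.tiles = L.tiles := hg
  have h1 : L.reg k l X ∈ L.tiles := ⟨k, l, X, h, rfl⟩
  rw [← hT] at h1
  obtain ⟨B, ⟨k', l', X', h3, rfl⟩, h4⟩ := h1
  have h4 : g '' L.reg k' l' X' = L.reg k l X := h4
  have h5 := isGon_image _ (sb2c_size k') _ (reg_isGon L k' l' X') g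
  rw [h4] at h5
  have h6 := size_unique k' k _ h5 (reg_isGon L k l X)
  subst h6
  exact ⟨l', X', h3, h4⟩

end Pool.Agent.Lib.H54T
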