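import Mathlib
import Pool.Agent.Lib.H54T.GB1

/-! # H54T, chunk SB5: images of tiles -/

namespace Pool.Agent.Lib.H54T

theorem sb5_sq (ε : ℤ) (he : ε = 1 ∨ ε = -1) : (ε : ℝ) * ε = 1 := by
  rcases he with h | h <;> rw [h] <;> norm_num

theorem sb5_mem (g : ℂ ≃ᵢ ℂ) (ε δ a : ℤ) (q : ℝ) (he : ε = 1 ∨ ε = -1) (hd : δ = 1 ∨ δ = -1)
    (hg : ∀ z : ℂ, g z = ⟨ε * z.re + (a : ℝ) / 2, δ * z.im + q⟩) (S : Set ℂ) (z : ℂ) :
    z ∈ g '' S ↔ (⟨ε * (z.re - (a : ℝ) / 2), δ * (z.im - q)⟩ : ℂ) ∈ S := by
  have hz : g ⟨ε * (z.re - (a : ℝ) / 2), δ * (z.im - q)⟩ = z := by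
    rw [hg]
    apply Complex.ext
    · simp only
      rw [← mul_assoc, sb5_sq ε he]
      ring
    · simp only
      rw [← mul_assoc, sb5_sq δ hd]
      ring
  constructor
  · rintro ⟨w, hw, hwz⟩
    have : w = ⟨ε * (z.re - (a : ℝ) / 2), δ * (z.im - q)⟩ := by
      apply g.injective
      rw [hwz, hz]
    rw [← this]
    exact hw
  · intro h
    exact ⟨_, h, hz⟩

theorem sb5_abs (ε a : ℤ) (he : ε = 1 ∨ ε = -1) (x : ℝ) (X : ℤ) :
    |2 * ((ε : ℝ) * (x - (a : ℝ) / 2)) - X| = |2 * x - ((ε * X + a : ℤ) : ℝ)| := by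
  rcases he with h | h
  · rw [h]
    push_cast
    congr 1
    ring
  · rw [h]
    push_cast
    rw [← abs_neg]
    congr 1
    ring

/-- Images of the regions under `z ↦ (ε re z + a / 2, δ im z + q)`. -/
theorem image_sq (g : ℂ ≃ᵢ ℂ) (ε δ a : ℤ) (q : ℝ) (he : ε = 1 ∨ ε = -1) (hd : δ = 1 ∨ δ = -1)
    (hg : ∀ z : ℂ, g z = ⟨ε * z.re + (a : ℝ) / 2, δ * z.im + q⟩) (b : ℝ) (X : ℤ) :
    g '' sqR b X = sqR (if δ = 1 then b + q else q - b - 1) (ε * X + a) := by
  ext z
  rw [sb5_mem g ε δ a q he hd hg]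
  have habs := sb5_abs ε a he z.re X
  constructor
  · rintro ⟨h1, h2, h3⟩
    simp only at h1 h2 h3
    rw [habs] at h1
    rcases hd with h | h
    · subst h
      simp only [Int.cast_one, one_mul] at h2 h3
      exact ⟨h1, by simp only [if_true]; linarith, by simp only [if_true]; linarith⟩
    · subst h
      simp only [Int.cast_neg, Int.cast_one] at h2 h3
      rw [if_neg (by norm_num)]
      exact ⟨h1, by linarith, by linarith⟩
  · rintro ⟨h1, h2, h3⟩
    refine ⟨?_, ?_, ?_⟩
    · simp only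
      rw [habs]
      exact h1
    · simp only
      rcases hd with h | h
      · subst h
        simp only [if_true] at h2 h3
        push_cast
        linarith
      · subst h
        rw [if_neg (by norm_num)] at h2 h3
        push_cast
        linarith
    · simp only
      rcases hd with h | h
      · subst h
        simp only [if_true] at h2 h3
        push_cast
        linarith
      · subst h
        rw [if_neg (by norm_num)] at h2 h3
        push_cast
        linarith

theorem image_up (g : ℂ ≃ᵢ ℂ) (ε δ a : ℤ) (q : ℝ) (he : ε = 1 ∨ ε = -1) (hd : δ = 1 ∨ δ = -1)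
    (hg : ∀ z : ℂ, g z = ⟨ε * z.re + (a : ℝ) / 2, δ * z.im + q⟩) (b : ℝ) (X : ℤ) :
    g '' upR b X = if δ = 1 then upR (b + q) (ε * X + a) else dnR (q - b - rho) (ε * X + a) := by
  ext z
  rw [sb5_mem g ε δ a q he hd hg]
  have habs := sb5_abs ε a he z.re X
  rcases hd with h | h
  · subst h
    rw [if_pos rfl]
    constructor
    · rintro ⟨τ, h1, h2, h3⟩
      simp only at h1 h3
      rw [habs] at h3
      push_cast at h1
      exact ⟨τ, by linarith, h2, h3⟩
    · rintro ⟨τ, h1, h2, h3⟩
      refine ⟨τ, ?_, h2, ?_⟩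
      · simp only
        push_cast
        linarith
      · simp only
        rw [habs]
        exact h3
  · subst h
    rw [if_neg (by norm_num)]
    constructor
    · rintro ⟨τ, h1, h2, h3⟩
      simp only at h1 h3
      rw [habs] at h3
      push_cast at h1
      exact ⟨1 - τ, by linarith, by linarith, h3⟩
    · rintro ⟨τ, h1, h2, h3⟩
      refine ⟨1 - τ, ?_, by linarith, ?_⟩
      · simp only
        push_cast
        linarith
      · simp only
        rw [habs]
        linarith

theorem image_dn (g : ℂ ≃ᵢ ℂ) (ε δ a : ℤ) (q : ℝ) (he : ε = 1 ∨ ε = -1) (hd : δ = 1 ∨ δ = -1)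
    (hg : ∀ z : ℂ, g z = ⟨ε * z.re + (a : ℝ) / 2, δ * z.im + q⟩) (b : ℝ) (X : ℤ) :
    g '' dnR b X = if δ = 1 then dnR (b + q) (ε * X + a) else upR (q - b - rho) (ε * X + a) := by
  ext z
  rw [sb5_mem g ε δ a q he hd hg]
  have habs := sb5_abs ε a he z.re X
  rcases hd with h | h
  · subst h
    rw [if_pos rfl]
    constructor
    · rintro ⟨τ, h1, h2, h3⟩
      simp only at h1 h3
      rw [habs] at h3
      push_cast at h1
      exact ⟨τ, by linarith, h2, h3⟩
    · rintro ⟨τ, h1, h2, h3⟩
      refine ⟨τ, ?_, h2, ?_⟩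
      · simp only
        push_cast
        linarith
      · simp only
        rw [habs]
        exact h3
  · subst h
    rw [if_neg (by norm_num)]
    constructor
    · rintro ⟨τ, h1, h2, h3⟩
      simp only at h1 h3
      rw [habs] at h3
      push_cast at h1
      exact ⟨1 - τ, by linarith, by linarith, by linarith⟩
    · rintro ⟨τ, h1, h2, h3⟩
      refine ⟨1 - τ, ?_, by linarith, ?_⟩
      · simp only
        push_cast
        linarith
      · simp only
        rw [habs]
        linarith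

theorem image_hx (g : ℂ ≃ᵢ ℂ) (ε δ a : ℤ) (q : ℝ) (he : ε = 1 ∨ ε = -1) (hd : δ = 1 ∨ δ = -1)
    (hg : ∀ z : ℂ, g z = ⟨ε * z.re + (a : ℝ) / 2, δ * z.im + q⟩) (b : ℝ) (X : ℤ) :
    g '' hxR b X = hxR (δ * b + q) (ε * X + a) := by
  ext z
  rw [sb5_mem g ε δ a q he hd hg]
  have habs := sb5_abs ε a he z.re X
  rcases hd with h | h
  · subst h
    constructor
    · rintro ⟨τ, h1, h2, h3⟩
      simp only at h1 h3
      rw [habs] at h3
      push_cast at h1
      exact ⟨τ, by push_cast; linarith, h2, h3⟩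
    · rintro ⟨τ, h1, h2, h3⟩
      push_cast at h1
      refine ⟨τ, ?_, h2, ?_⟩
      · simp only
        push_cast
        linarith
      · simp only
        rw [habs]
        exact h3
  · subst h
    constructor
    · rintro ⟨τ, h1, h2, h3⟩
      simp only at h1 h3
      rw [habs] at h3
      push_cast at h1
      exact ⟨-τ, by push_cast; linarith, by rwa [abs_neg], by rwa [abs_neg]⟩
    · rintro ⟨τ, h1, h2, h3⟩
      push_cast at h1
      refine ⟨-τ, ?_, by rwa [abs_neg], ?_⟩
      · simp only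
        push_cast
        linarith
      · simp only
        rw [habs, abs_neg]
        exact h3

end Pool.Agent.Lib.H54T
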