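import Mathlib
import Pool.Agent.Lib.H54T.SB2C
import Pool.Agent.Lib.H54T.SA2
import Pool.Agent.Lib.H54T.SB5

/-! # H54T, chunk SB7A: symmetries are combinatorial symmetries -/

namespace Pool.Agent.Lib.H54T

/-- The translation part: the image of a square is a square, so `2 p` is an integer. -/
theorem sym_a (L : Lay) (h2 : ∃ l, L.w l = false) (g : ℂ ≃ᵢ ℂ)
    (hg : g ∈ Sym L.tiles) (ε δ : ℤ) (p q : ℝ) (he : ε = 1 ∨ ε = -1) (hd : δ = 1 ∨ δ = -1)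
    (hgz : ∀ z : ℂ, g z = ⟨ε * z.re + p, δ * z.im + q⟩) : ∃ a : ℤ, p = (a : ℝ) / 2 := by
  obtain ⟨l, hl⟩ := h2
  obtain ⟨X, hX⟩ : ∃ X : ℤ, X = L.al l + 1 := ⟨_, rfl⟩
  have hok : L.ok .sq l X := ⟨hl, by omega⟩
  obtain ⟨l', X', h', e⟩ := sym_kind L g hg _ _ _ hok
  have m1 : (⟨((X : ℝ) - 1) / 2, L.y l⟩ : ℂ) ∈ L.reg .sq l X := by
    refine ⟨?_, le_refl _, by simp only; linarith⟩
    rw [abs_le]
    simp only
    constructor <;> linarith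
  have m2 : (⟨((X : ℝ) + 1) / 2, L.y l⟩ : ℂ) ∈ L.reg .sq l X := by
    refine ⟨?_, le_refl _, by simp only; linarith⟩
    rw [abs_le]
    simp only
    constructor <;> linarith
  have n1 : g ⟨((X : ℝ) - 1) / 2, L.y l⟩ ∈ L.reg .sq l' X' := e ▸ Set.mem_image_of_mem g m1
  have n2 : g ⟨((X : ℝ) + 1) / 2, L.y l⟩ ∈ L.reg .sq l' X' := e ▸ Set.mem_image_of_mem g m2
  rw [hgz] at n1 n2
  have k1 := n1.1
  have k2 := n2.1
  simp only at k1 k2
  rw [abs_le] at k1 k2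
  refine ⟨X' - ε * X, ?_⟩
  rcases he with e1 | e1
  · subst e1
    push_cast at k1 k2 ⊢
    linarith [k1.1, k2.2]
  · subst e1
    push_cast at k1 k2 ⊢
    linarith [k1.2, k2.1]

end Pool.Agent.Lib.H54T
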