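import Mathlib
import Pool.Agent.Lib.H54T.SB5

/-! # H54T, chunk SB6: images of labelled tiles -/

namespace Pool.Agent.Lib.H54T

theorem sb6_step {b c : Bool} (h : (if b = true then rho else (1 : ℝ)) =
    (if c = true then rho else 1)) : b = c := by
  have := rho_lt_one
  cases b <;> cases c <;> simp at h
  · rfl
  · exfalso
    linarith
  · exfalso
    linarith
  · rfl

/-- If the lines are mapped to lines and the types of the rows are preserved, then so are the
lower lines of the rows. -/
theorem rim_heights (L : Lay) (δ m : ℤ) (q : ℝ) (hd : δ = 1 ∨ δ = -1)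
    (hyy : ∀ l, L.y (δ * l + m) = δ * L.y l + q) (l : ℤ) :
    L.w (rim δ m l) = L.w l ∧
    L.y (rim δ m l) = if δ = 1 then L.y l + q else q - L.y l - (if L.w l = true then rho else 1) := by
  rcases hd with h | h
  · subst h
    unfold rim
    simp only [if_true]
    have h1 := hyy l
    have h2 := hyy (l + 1)
    have e1 : 1 * l + m = l + m := by ring
    have e2 : 1 * (l + 1) + m = l + m + 1 := by ring
    rw [e1] at h1
    rw [e2] at h2
    have h3 := L.hy (l + m)
    have h4 := L.hy l
    push_cast at h1 h2
    constructor
    · apply sb6_step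
      linarith
    · linarith
  · subst h
    unfold rim
    have hne : ¬ ((-1 : ℤ) = 1) := by norm_num
    rw [if_neg hne, if_neg hne]
    have h1 := hyy l
    have h2 := hyy (l + 1)
    have e1 : -1 * l + m = m - l - 1 + 1 := by ring
    have e2 : -1 * (l + 1) + m = m - l - 1 := by ring
    rw [e1] at h1
    rw [e2] at h2
    have h3 := L.hy (m - l - 1)
    have h4 := L.hy l
    push_cast at h1 h2
    constructor
    · apply sb6_step
      linarith
    · linarith

/-- The image of a labelled tile (`image_sq`, `image_up`, `image_dn`, `image_hx`, `rim_heights`; for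
triangles with `δ = -1` the parity of line `m - l - 1` is the parity of line `δ l + m` plus 1). -/
theorem reg_image (L : Lay) (g : ℂ ≃ᵢ ℂ) (ε δ a m : ℤ) (q : ℝ) (he : ε = 1 ∨ ε = -1)
    (hd : δ = 1 ∨ δ = -1) (hg : ∀ z : ℂ, g z = ⟨ε * z.re + (a : ℝ) / 2, δ * z.im + q⟩)
    (hyy : ∀ l, L.y (δ * l + m) = δ * L.y l + q)
    (hp : ∀ l, (L.al (δ * l + m) - L.al l - a) % 2 = 0) (k : Kd) (l X : ℤ) (h : L.ok k l X) :
    g '' L.reg k l X = L.reg k (im k δ m l) (ε * X + a) := by
  obtain ⟨r1, r2⟩ := rim_heights L δ m q hd hyy l
  cases k with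
  | tr =>
    have hw : L.w l = true := h.1
    rw [hw] at r1
    rw [if_pos hw] at r2
    simp only [Lay.reg, im]
    have hX : (ε * X - X) % 2 = 0 := by
      rcases he with e | e <;> subst e <;> omega
    rcases hd with e | e
    · subst e
      have hpl := hp l
      have e1 : 1 * l + m = l + m := by ring
      rw [e1] at hpl
      simp only [rim, if_true] at r2 ⊢
      split_ifs with p p' p'
      · rw [image_dn g ε 1 a q he (Or.inl rfl) hg, if_pos rfl, r2]
      · exfalso
        omega
      · exfalso
        omega
      · rw [image_up g ε 1 a q he (Or.inl rfl) hg, if_pos rfl, r2]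
    · subst e
      have hne : ¬ ((-1 : ℤ) = 1) := by norm_num
      have hpl := hp l
      have e1 : -1 * l + m = m - l - 1 + 1 := by ring
      rw [e1] at hpl
      simp only [rim, if_neg hne] at r1 r2 ⊢
      have hal := L.hal (m - l - 1)
      rw [if_pos r1] at hal
      split_ifs with p p' p'
      · exfalso
        omega
      · rw [image_dn g ε (-1) a q he (Or.inr rfl) hg, if_neg hne, r2]
      · rw [image_up g ε (-1) a q he (Or.inr rfl) hg, if_neg hne, r2]
      · exfalso
        omega
  | sq =>
    have hw : L.w l = false := h.1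
    rw [hw] at r2
    simp only [Bool.false_eq_true, if_false] at r2
    simp only [Lay.reg, im]
    rw [image_sq g ε δ a q he hd hg, r2]
  | hx =>
    simp only [Lay.reg, im]
    rw [image_hx g ε δ a q he hd hg, hyy l]

end Pool.Agent.Lib.H54T
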