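import Mathlib
import Pool.Agent.Lib.H54T.SB2C
import Pool.Agent.Lib.H54T.SA2
import Pool.Agent.Lib.H54T.SB6

/-! # H54T, chunk SB7B: symmetries are combinatorial symmetries -/

namespace Pool.Agent.Lib.H54T

/-- Parities: for a row `l` of squares the image of a square of row `l` is a square of row
`rim δ m l` with index `ε X + a`, so line `rim δ m l` has the parity of `al l + a`; then by induction
over the rows, upwards and downwards (`hal`, `rim_heights`). -/
theorem sym_parity (L : Lay) (h2 : ∃ l, L.w l = false) (g : ℂ ≃ᵢ ℂ)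
    (hg : g ∈ Sym L.tiles) (ε δ a m : ℤ) (q : ℝ) (he : ε = 1 ∨ ε = -1) (hd : δ = 1 ∨ δ = -1)
    (hgz : ∀ z : ℂ, g z = ⟨ε * z.re + (a : ℝ) / 2, δ * z.im + q⟩)
    (hyy : ∀ l, L.y (δ * l + m) = δ * L.y l + q) :
    ∀ l, (L.al (δ * l + m) - L.al l - a) % 2 = 0 := by
  have hstep : ∀ l, (L.al (δ * (l + 1) + m) - L.al (l + 1) - a) % 2 =
      (L.al (δ * l + m) - L.al l - a) % 2 := by
    intro l
    have hw := (rim_heights L δ m q hd hyy l).1
    have h1 := L.hal l
    rcases hd with e | e
    · subst e
      simp only [rim, if_true] at hw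
      have h3 := L.hal (l + m)
      rw [hw] at h3
      have e1 : 1 * l + m = l + m := by ring
      have e2 : 1 * (l + 1) + m = l + m + 1 := by ring
      rw [e1, e2]
      omega
    · subst e
      have hne : ¬ ((-1 : ℤ) = 1) := by norm_num
      simp only [rim, if_neg hne] at hw
      have h3 := L.hal (m - l - 1)
      rw [hw] at h3
      have e1 : -1 * l + m = m - l - 1 + 1 := by ring
      have e2 : -1 * (l + 1) + m = m - l - 1 := by ring
      rw [e1, e2]
      omega
  have hall : ∀ l : ℤ, (L.al (δ * l + m) - L.al l - a) % 2 =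
      (L.al (δ * 0 + m) - L.al 0 - a) % 2 := by
    intro l
    induction l using Int.induction_on with
    | zero => rfl
    | succ i ih => rw [hstep, ih]
    | pred i ih =>
      have := hstep (-(i : ℤ) - 1)
      rw [sub_add_cancel] at this
      rw [← this, ih]
  obtain ⟨l0, hl0⟩ := h2
  have base : (L.al (δ * l0 + m) - L.al l0 - a) % 2 = 0 := by
    obtain ⟨X, hX⟩ : ∃ X : ℤ, X = L.al l0 + 1 := ⟨_, rfl⟩
    have hok : L.ok .sq l0 X := ⟨hl0, by omega⟩
    obtain ⟨l', X', h', e⟩ := sym_kind L g hg _ _ _ hok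
    have e : g '' sqR (L.y l0) X = sqR (L.y l') X' := e
    obtain ⟨hw, hr⟩ := rim_heights L δ m q hd hyy l0
    rw [hl0] at hw hr
    simp only [Bool.false_eq_true, if_false] at hr
    rw [image_sq g ε δ a q he hd hgz, ← hr] at e
    obtain ⟨e1, e2⟩ := sqR_inj _ _ _ _ e
    have e3 := (y_strictMono L).injective e1
    have hp' : (X' - L.al l') % 2 = 1 := h'.2
    rw [← e2, ← e3] at hp'
    have hXX : (ε * X - X) % 2 = 0 := by
      rcases he with f | f <;> subst f <;> omega
    rcases hd with f | f
    · subst f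
      simp only [rim, if_true] at hp'
      have e4 : 1 * l0 + m = l0 + m := by ring
      rw [e4]
      omega
    · subst f
      have hne : ¬ ((-1 : ℤ) = 1) := by norm_num
      simp only [rim, if_neg hne] at hp' hw
      have h3 := L.hal (m - l0 - 1)
      rw [hw] at h3
      simp only [Bool.false_eq_true, if_false] at h3
      have e4 : -1 * l0 + m = m - l0 - 1 + 1 := by ring
      rw [e4]
      omega
  intro l
  rw [hall l, ← hall l0]
  exact base

end Pool.Agent.Lib.H54T
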