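import Mathlib
import Pool.Agent.Lib.H54T.SB2C
import Pool.Agent.Lib.H54T.SA2
import Pool.Agent.Lib.H54T.SB6

/-! # H54T, chunk SB7C: symmetries are combinatorial symmetries -/

namespace Pool.Agent.Lib.H54T

/-- Hexagons are mapped to hexagons (`sym_kind`, `sym_kind'`, `image_hx`, `hxR_inj`). -/
theorem sym_H (L : Lay) (g : ℂ ≃ᵢ ℂ)
    (hg : g ∈ Sym L.tiles) (ε δ a m : ℤ) (q : ℝ) (he : ε = 1 ∨ ε = -1) (hd : δ = 1 ∨ δ = -1)
    (hgz : ∀ z : ℂ, g z = ⟨ε * z.re + (a : ℝ) / 2, δ * z.im + q⟩)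
    (hyy : ∀ l, L.y (δ * l + m) = δ * L.y l + q) (l X : ℤ) :
    L.H (δ * l + m) (ε * X + a) ↔ L.H l X := by
  have hinj := (y_strictMono L).injective
  constructor
  · intro h
    have hok : L.ok .hx (δ * l + m) (ε * X + a) := h
    obtain ⟨l', X', h', e⟩ := sym_kind' L g hg _ _ _ hok
    have e : g '' hxR (L.y l') X' = hxR (L.y (δ * l + m)) (ε * X + a) := e
    rw [image_hx g ε δ a q he hd hgz, ← hyy] at e
    obtain ⟨e1, e2⟩ := hxR_inj _ _ _ _ e
    have e3 := hinj e1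
    have h' : L.H l' X' := h'
    have hl : l' = l := by
      rcases hd with f | f <;> subst f <;> omega
    have hX : X' = X := by
      rcases he with f | f <;> subst f <;> omega
    rw [hl, hX] at h'
    exact h'
  · intro h
    have hok : L.ok .hx l X := h
    obtain ⟨l', X', h', e⟩ := sym_kind L g hg _ _ _ hok
    have e : g '' hxR (L.y l) X = hxR (L.y l') X' := e
    rw [image_hx g ε δ a q he hd hgz, ← hyy] at e
    obtain ⟨e1, e2⟩ := hxR_inj _ _ _ _ e
    have e3 := hinj e1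
    rw [e3, e2]
    exact h'

end Pool.Agent.Lib.H54T
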