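import Mathlib
import Pool.Agent.Lib.H54T.GB1

/-! # H54T, chunk SB2A: symmetries preserve the horizontal direction -/

namespace Pool.Agent.Lib.H54T

/-- A square and a tile of another kind meet in a subset of a horizontal line: the rows of the other
tile are rows of triangles (`hrow`), so the intersection lies on line `l` or on line `l + 1`. -/
theorem sq_other (L : Lay) (l X : ℤ) (k' : Kd) (l' X' : ℤ) (h : L.ok .sq l X) (h' : L.ok k' l' X')
    (hk : k' ≠ .sq) (z z' : ℂ) (hz : z ∈ L.reg .sq l X) (hz' : z' ∈ L.reg .sq l X)
    (hw : z ∈ L.reg k' l' X') (hw' : z' ∈ L.reg k' l' X') : z.im = z'.im := by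
  have hm := (y_strictMono L).monotone
  obtain ⟨a1, a2⟩ := reg_range L _ l X h z hz
  obtain ⟨a3, a4⟩ := reg_range L _ l X h z' hz'
  obtain ⟨b1, b2⟩ := reg_range L _ l' X' h' z hw
  obtain ⟨b3, b4⟩ := reg_range L _ l' X' h' z' hw'
  have hwl : L.w l = false := h.1
  simp only [bot] at a1 a3
  have key : l + 1 ≤ bot k' l' ∨ l' + 1 ≤ l := by
    cases k' with
    | tr =>
      have h2 : L.w l' = true := h'.1
      have h3 : l ≠ l' := by
        rintro rfl
        rw [hwl] at h2
        exact Bool.false_ne_true h2
      simp only [bot]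
      omega
    | sq => exact absurd rfl hk
    | hx =>
      have hH : L.H l' X' := h'
      obtain ⟨w1, w2⟩ := L.hrow l' X' hH
      have h3 : l ≠ l' := by
        rintro rfl
        rw [hwl] at w1
        exact Bool.false_ne_true w1
      have h4 : l ≠ l' - 1 := by
        rintro rfl
        rw [hwl] at w2
        exact Bool.false_ne_true w2
      simp only [bot]
      omega
  rcases key with hc | hc
  · have := hm hc
    linarith
  · have := hm hc
    linarith

end Pool.Agent.Lib.H54T
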