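import Mathlib
import Pool.Agent.Lib.H54T.GB1
import Pool.Agent.Lib.H54T.GB2

/-! # H54T, chunk SB2B: symmetries preserve the horizontal direction -/

namespace Pool.Agent.Lib.H54T

theorem sb2b_ne (X : ℤ) (a : ℝ) : pt (X - 1) a ≠ pt (X + 1) a := by
  intro h
  have h1 := congrArg Complex.re h
  unfold pt at h1
  simp only at h1
  push_cast at h1
  linarith

/-- Squares below, triangles above. -/
theorem sb2b_up (L : Lay) (l : ℤ) (h1 : L.w l = false) (h2 : L.w (l + 1) = true) :
    ∃ (l X : ℤ) (k' : Kd) (l' X' : ℤ) (z z' : ℂ), L.ok .sq l X ∧ L.ok k' l' X' ∧ k' ≠ .sq ∧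
      z ∈ L.reg .sq l X ∧ z ∈ L.reg k' l' X' ∧ z' ∈ L.reg .sq l X ∧ z' ∈ L.reg k' l' X' ∧
      z ≠ z' := by
  have hy := L.hy l
  have hal := L.hal l
  rw [h1] at hy hal
  simp only [Bool.false_eq_true, if_false] at hy hal
  have hy1 := L.hy (l + 1)
  have hal1 := L.hal (l + 1)
  rw [if_pos h2] at hy1 hal1
  obtain ⟨X, hX⟩ : ∃ X : ℤ, X = L.al l + 1 := ⟨_, rfl⟩
  obtain ⟨v1, v2, v3, v4⟩ := sq_V (L.y l) X
  rw [← hy] at v3 v4
  by_cases c : L.cov (l + 1) X
  · obtain ⟨X', hX', hH⟩ := c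
    have hH2 : L.H (l + 1 + 1) X' := by
      rcases hH with hH | hH
      · have := (L.hrow _ _ hH).2
        rw [add_sub_cancel_right, h1] at this
        exact absurd this (by simp)
      · exact hH
    have hp := L.hpar _ _ hH2
    have e : X = X' := by
      rcases abs_cases (X - X') with h9 | h9 <;> omega
    subst e
    obtain ⟨u1, u2, u3, u4, u5, u6⟩ := hx_V (L.y (l + 1 + 1)) X
    have e2 : L.y (l + 1 + 1) - rho = L.y (l + 1) := by linarith
    rw [e2] at u5 u6
    exact ⟨l, X, .hx, l + 1 + 1, X, _, _, ⟨h1, by omega⟩, hH2, by simp, gb1_vertex_mem v3,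
      gb1_vertex_mem u5, gb1_vertex_mem v4, gb1_vertex_mem u6, sb2b_ne X _⟩
  · obtain ⟨u1, u2, u3⟩ := up_V (L.y (l + 1)) X
    have hreg : L.reg .tr (l + 1) X = upR (L.y (l + 1)) X := by
      simp only [Lay.reg]
      rw [if_neg (by omega)]
    refine ⟨l, X, .tr, l + 1, X, _, _, ⟨h1, by omega⟩, ⟨h2, c⟩, by simp, gb1_vertex_mem v3,
      ?_, gb1_vertex_mem v4, ?_, sb2b_ne X _⟩
    · rw [hreg]
      exact gb1_vertex_mem u1
    · rw [hreg]
      exact gb1_vertex_mem u2

/-- Triangles below, squares above. -/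
theorem sb2b_dn (L : Lay) (l : ℤ) (h1 : L.w l = true) (h2 : L.w (l + 1) = false) :
    ∃ (l X : ℤ) (k' : Kd) (l' X' : ℤ) (z z' : ℂ), L.ok .sq l X ∧ L.ok k' l' X' ∧ k' ≠ .sq ∧
      z ∈ L.reg .sq l X ∧ z ∈ L.reg k' l' X' ∧ z' ∈ L.reg .sq l X ∧ z' ∈ L.reg k' l' X' ∧
      z ≠ z' := by
  have hy := L.hy l
  have hal := L.hal l
  rw [if_pos h1] at hy hal
  obtain ⟨X, hX⟩ : ∃ X : ℤ, X = L.al l := ⟨_, rfl⟩
  obtain ⟨v1, v2, v3, v4⟩ := sq_V (L.y (l + 1)) X
  by_cases c : L.cov l X
  · obtain ⟨X', hX', hH⟩ := c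
    have hH2 : L.H l X' := by
      rcases hH with hH | hH
      · exact hH
      · have := (L.hrow _ _ hH).1
        rw [h2] at this
        exact absurd this (by simp)
    have hp := L.hpar _ _ hH2
    have e : X = X' := by
      rcases abs_cases (X - X') with h9 | h9 <;> omega
    subst e
    obtain ⟨u1, u2, u3, u4, u5, u6⟩ := hx_V (L.y l) X
    rw [← hy] at u3 u4
    exact ⟨l + 1, X, .hx, l, X, _, _, ⟨h2, by omega⟩, hH2, by simp, gb1_vertex_mem v1,
      gb1_vertex_mem u3, gb1_vertex_mem v2, gb1_vertex_mem u4, sb2b_ne X _⟩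
  · obtain ⟨u1, u2, u3⟩ := dn_V (L.y l) X
    rw [← hy] at u2 u3
    have hreg : L.reg .tr l X = dnR (L.y l) X := by
      simp only [Lay.reg]
      rw [if_pos (by omega)]
    refine ⟨l + 1, X, .tr, l, X, _, _, ⟨h2, by omega⟩, ⟨h1, c⟩, by simp, gb1_vertex_mem v1,
      ?_, gb1_vertex_mem v2, ?_, sb2b_ne X _⟩
    · rw [hreg]
      exact gb1_vertex_mem u2
    · rw [hreg]
      exact gb1_vertex_mem u3

/-- There are neighbouring rows of different types; the tiles of the row of triangles (or hexagons)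
cover the common line, so one of them contains two different points of the horizontal side of a
square (two of the points of the side are in one tile because finitely many tiles meet the side; or:
the trace of the tile which contains the midpoint of the side is the whole side, by parity, `tr_top`,
`tr_bot`). -/
theorem exists_sq_other (L : Lay) (h1 : ∃ l, L.w l = true) (h2 : ∃ l, L.w l = false) :
    ∃ (l X : ℤ) (k' : Kd) (l' X' : ℤ) (z z' : ℂ), L.ok .sq l X ∧ L.ok k' l' X' ∧ k' ≠ .sq ∧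
      z ∈ L.reg .sq l X ∧ z ∈ L.reg k' l' X' ∧ z' ∈ L.reg .sq l X ∧ z' ∈ L.reg k' l' X' ∧
      z ≠ z' := by
  by_cases hA : ∃ l, L.w l = false ∧ L.w (l + 1) = true
  · obtain ⟨l, h3, h4⟩ := hA
    exact sb2b_up L l h3 h4
  by_cases hB : ∃ l, L.w l = true ∧ L.w (l + 1) = false
  · obtain ⟨l, h3, h4⟩ := hB
    exact sb2b_dn L l h3 h4
  exfalso
  push Not at hA hB
  obtain ⟨p, hp⟩ := h1
  obtain ⟨q, hq⟩ := h2
  have hstep : ∀ l, L.w (l + 1) = L.w l := by
    intro l
    cases e : L.w l with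
    | true =>
      have := hB l e
      simpa using this
    | false =>
      have := hA l e
      simpa using this
  have hall : ∀ l : ℤ, L.w l = L.w 0 := by
    intro l
    induction l using Int.induction_on with
    | zero => rfl
    | succ i ih => rw [hstep, ih]
    | pred i ih =>
      have := hstep (-(i : ℤ) - 1)
      rw [sub_add_cancel] at this
      rw [← this, ih]
  rw [hall p] at hp
  rw [hall q, hp] at hq
  exact absurd hq (by simp)

end Pool.Agent.Lib.H54T
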