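import Mathlib
import Pool.Agent.Lib.H54T.SB2A
import Pool.Agent.Lib.H54T.SB2B
import Pool.Agent.Lib.H54T.SB2C

/-! # H54T, chunk SB2D: symmetries preserve the horizontal direction -/

namespace Pool.Agent.Lib.H54T

theorem sb2d_unit (u w : ℂ) (hu : ‖u‖ = 1) (hw : w ≠ 0) (h1 : w.im = 0) (h2 : (u * w).im = 0) :
    ∃ ε : ℤ, (ε = 1 ∨ ε = -1) ∧ u = (ε : ℂ) := by
  have hre : w.re ≠ 0 := by
    intro h
    exact hw (Complex.ext h h1)
  rw [Complex.mul_im, h1, mul_zero, zero_add] at h2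
  have him : u.im = 0 := by
    rcases mul_eq_zero.1 h2 with h | h
    · exact h
    · exact absurd h hre
  have hsq : u.re * u.re = 1 := by
    have h3 := Complex.sq_norm u
    rw [hu, Complex.normSq_apply, him] at h3
    linarith
  rcases mul_self_eq_one_iff.1 hsq with h | h
  · refine ⟨1, Or.inl rfl, ?_⟩
    apply Complex.ext <;> simp [h, him]
  · refine ⟨-1, Or.inr rfl, ?_⟩
    apply Complex.ext <;> simp [h, him]

/-- A symmetry has the form `(x, y) ↦ (ε x + p, δ y + q)`: by `exists_sq_other`, `sym_kind` and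
`sq_other` it maps two different points `z, z'` with equal imaginary parts to points with equal
imaginary parts; insert this in `isometry_form`: `u (z - z')` is real, so `u = ±1`. -/
theorem sym_form (L : Lay) (h1 : ∃ l, L.w l = true) (h2 : ∃ l, L.w l = false) (g : ℂ ≃ᵢ ℂ)
    (hg : g ∈ Sym L.tiles) : ∃ (ε δ : ℤ) (p q : ℝ), (ε = 1 ∨ ε = -1) ∧ (δ = 1 ∨ δ = -1) ∧
      ∀ z : ℂ, g z = ⟨ε * z.re + p, δ * z.im + q⟩ := by
  obtain ⟨l, X, k', l', X', z, z', ok1, ok2, hk, m1, m2, m3, m4, hne⟩ := exists_sq_other L h1 h2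
  have him : z.im = z'.im := sq_other L l X k' l' X' ok1 ok2 hk z z' m1 m3 m2 m4
  obtain ⟨l2, X2, ok3, e3⟩ := sym_kind L g hg _ _ _ ok1
  obtain ⟨l3, X3, ok4, e4⟩ := sym_kind L g hg _ _ _ ok2
  have n1 : g z ∈ L.reg .sq l2 X2 := e3 ▸ Set.mem_image_of_mem g m1
  have n2 : g z ∈ L.reg k' l3 X3 := e4 ▸ Set.mem_image_of_mem g m2
  have n3 : g z' ∈ L.reg .sq l2 X2 := e3 ▸ Set.mem_image_of_mem g m3
  have n4 : g z' ∈ L.reg k' l3 X3 := e4 ▸ Set.mem_image_of_mem g m4
  have him' : (g z).im = (g z').im := sq_other L l2 X2 k' l3 X3 ok3 ok4 hk _ _ n1 n3 n2 n4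
  obtain ⟨u, b, hu, hform⟩ := isometry_form g
  rcases hform with hf | hf
  · have hw : z - z' ≠ 0 := sub_ne_zero.2 hne
    have e5 : u * (z - z') = g z - g z' := by
      rw [hf, hf]
      ring
    obtain ⟨ε, hε, hue⟩ := sb2d_unit u (z - z') hu hw (by rw [Complex.sub_im, him, sub_self])
      (by rw [e5, Complex.sub_im, him', sub_self])
    refine ⟨ε, ε, b.re, b.im, hε, hε, ?_⟩
    intro w
    rw [hf, hue]
    apply Complex.ext
    · simp
    · simp
  · have hw : (starRingEnd ℂ) (z - z') ≠ 0 := by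
      rw [Ne, map_eq_zero]
      exact sub_ne_zero.2 hne
    have e5 : u * (starRingEnd ℂ) (z - z') = g z - g z' := by
      rw [hf, hf, map_sub]
      ring
    obtain ⟨ε, hε, hue⟩ := sb2d_unit u ((starRingEnd ℂ) (z - z')) hu hw
      (by rw [Complex.conj_im, Complex.sub_im, him, sub_self, neg_zero])
      (by rw [e5, Complex.sub_im, him', sub_self])
    refine ⟨ε, -ε, b.re, b.im, hε, by omega, ?_⟩
    intro w
    rw [hf, hue]
    apply Complex.ext
    · simp
    · simp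

end Pool.Agent.Lib.H54T
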