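import Mathlib
import Pool.Agent.Lib.H54T.GB1

/-! # H54T, chunk SB3A: symmetries permute the horizontal lines -/

namespace Pool.Agent.Lib.H54T

theorem sb3a_free (L : Lay) (l : ℤ) : ∃ X : ℤ, (X - L.al l) % 2 = 0 ∧ ¬ L.H l X := by
  by_cases h : L.H l (L.al l)
  · refine ⟨L.al l + 2, by omega, fun h2 => ?_⟩
    have h3 := L.hsame l _ _ h h2 (by omega)
    rcases abs_cases (L.al l - (L.al l + 2)) with h9 | h9 <;> omega
  · exact ⟨L.al l, by omega, h⟩

/-- Every line is the lowest line of a tile: row `l` of squares: clear; row `l` of triangles: the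
hexagons on line `l` cover three consecutive triangles each and their indices differ by at least 4, so
there is a triangle in row `l` not covered by a hexagon on line `l`; it is a tile or covered by a
hexagon on line `l + 1`, whose lowest line is `l`. -/
theorem exists_bot (L : Lay) (l : ℤ) : ∃ k l' X', L.ok k l' X' ∧ bot k l' = l := by
  cases hw : L.w l with
  | false => exact ⟨.sq, l, L.al l + 1, ⟨hw, by omega⟩, rfl⟩
  | true =>
    obtain ⟨X, hX, hn⟩ := sb3a_free L l
    by_cases c : L.cov l X
    · obtain ⟨X', hX', hH⟩ := c
      rcases hH with hH | hH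
      · exfalso
        have hp := L.hpar l X' hH
        have e : X = X' := by
          rcases abs_cases (X - X') with h9 | h9 <;> omega
        subst e
        exact hn hH
      · exact ⟨.hx, l + 1, X', hH, by simp only [bot]; omega⟩
    · exact ⟨.tr, l, X, ⟨hw, c⟩, rfl⟩

/-- Every line is the highest line of a tile. -/
theorem exists_top (L : Lay) (l : ℤ) : ∃ k l' X', L.ok k l' X' ∧ l' + 1 = l := by
  cases hw : L.w (l - 1) with
  | false => exact ⟨.sq, l - 1, L.al (l - 1) + 1, ⟨hw, by omega⟩, by omega⟩
  | true =>
    obtain ⟨X, hX, hn⟩ := sb3a_free L l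
    by_cases c : L.cov (l - 1) X
    · obtain ⟨X', hX', hH⟩ := c
      rw [sub_add_cancel] at hH
      rcases hH with hH | hH
      · exact ⟨.hx, l - 1, X', hH, by omega⟩
      · exfalso
        have hp := L.hpar l X' hH
        have e : X = X' := by
          rcases abs_cases (X - X') with h9 | h9 <;> omega
        subst e
        exact hn hH
    · exact ⟨.tr, l - 1, X, ⟨hw, c⟩, by omega⟩

end Pool.Agent.Lib.H54T
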