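import Mathlib
import Pool.Agent.Lib.H54T.GB1
import Pool.Agent.Lib.H54T.GB2

/-! # H54T, chunk SB3B: symmetries permute the horizontal lines -/

namespace Pool.Agent.Lib.H54T

theorem sb3b_ne (L : Lay) (A : Set ℂ) (j : ℤ) (E : Set ℂ) (h : IsTr L A j E) : E.Nonempty := by
  rcases h with ⟨X, _, h, _⟩ | ⟨X, _, h, _⟩
  · rw [h]
    exact Set.singleton_nonempty _
  · rw [h]
    exact ⟨_, left_mem_segment ℝ _ _⟩

/-- The extreme ordinates of a tile are attained. -/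
theorem reg_attains (L : Lay) (k : Kd) (l X : ℤ) (h : L.ok k l X) :
    (∃ z ∈ L.reg k l X, z.im = L.y (bot k l)) ∧ (∃ z ∈ L.reg k l X, z.im = L.y (l + 1)) := by
  constructor
  · obtain ⟨z, h1, h2⟩ := sb3b_ne _ _ _ _ (tr_bot L k l X h)
    exact ⟨z, h1, h2⟩
  · obtain ⟨z, h1, h2⟩ := sb3b_ne _ _ _ _ (tr_top L k l X h)
    exact ⟨z, h1, h2⟩

end Pool.Agent.Lib.H54T
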