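import Mathlib
import Pool.Agent.Lib.H54T.SB3A
import Pool.Agent.Lib.H54T.SB3B
import Pool.Agent.Lib.H54T.SB2C

/-! # H54T, chunk SB3C: symmetries permute the horizontal lines -/

namespace Pool.Agent.Lib.H54T

/-- Heights of a tile and of its image. -/
theorem sb3c_img (L : Lay) (g : ℂ ≃ᵢ ℂ) (ε δ : ℤ) (p q : ℝ)
    (hd : δ = 1 ∨ δ = -1) (hgz : ∀ z : ℂ, g z = ⟨ε * z.re + p, δ * z.im + q⟩)
    (k : Kd) (l X l' X' : ℤ) (h : L.ok k l X) (h' : L.ok k l' X')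
    (e : g '' L.reg k l X = L.reg k l' X') :
    (δ = 1 ∧ L.y (bot k l') = L.y (bot k l) + q) ∨
    (δ = -1 ∧ L.y (l' + 1) = -L.y (bot k l) + q ∧ L.y (bot k l') = -L.y (l + 1) + q) := by
  obtain ⟨⟨z1, m1, i1⟩, ⟨z2, m2, i2⟩⟩ := reg_attains L k l X h
  obtain ⟨⟨w1, n1, j1⟩, ⟨w2, n2, j2⟩⟩ := reg_attains L k l' X' h'
  have a1 : g z1 ∈ L.reg k l' X' := e ▸ Set.mem_image_of_mem g m1
  have a2 : g z2 ∈ L.reg k l' X' := e ▸ Set.mem_image_of_mem g m2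
  rw [← e] at n1 n2
  obtain ⟨v1, b1, c1⟩ := n1
  obtain ⟨v2, b2, c2⟩ := n2
  have r1 := reg_range L k l' X' h' _ a1
  have r2 := reg_range L k l' X' h' _ a2
  have s1 := reg_range L k l X h _ b1
  have s2 := reg_range L k l X h _ b2
  rw [← c1] at j1
  rw [← c2] at j2
  rw [hgz] at r1 r2 j1 j2
  simp only at r1 r2 j1 j2
  rcases hd with hd | hd
  · left
    refine ⟨hd, ?_⟩
    subst hd
    push_cast at r1 r2 j1 j2
    apply le_antisymm
    · rw [i1] at r1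
      linarith [r1.1]
    · linarith [s1.1]
  · right
    refine ⟨hd, ?_, ?_⟩
    · subst hd
      push_cast at r1 r2 j1 j2
      apply le_antisymm
      · linarith [s2.1]
      · rw [i1] at r1
        linarith [r1.2]
    · subst hd
      push_cast at r1 r2 j1 j2
      apply le_antisymm
      · rw [i2] at r2
        linarith [r2.1]
      · linarith [s1.2]

/-- So the heights of the lines are mapped to heights of lines: the image of the lowest line of a tile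
is the lowest (`δ = 1`) or highest (`δ = -1`) line of the image. -/
theorem heights (L : Lay) (g : ℂ ≃ᵢ ℂ) (hg : g ∈ Sym L.tiles) (ε δ : ℤ) (p q : ℝ)
    (hd : δ = 1 ∨ δ = -1) (hgz : ∀ z : ℂ, g z = ⟨ε * z.re + p, δ * z.im + q⟩) (l : ℤ) :
    ∃ j, L.y j = δ * L.y l + q := by
  obtain ⟨k, l', X', h, hb⟩ := exists_bot L l
  obtain ⟨l2, X2, h2, e⟩ := sym_kind L g hg k l' X' h
  rcases sb3c_img L g ε δ p q hd hgz k l' X' l2 X2 h h2 e with ⟨h3, h4⟩ | ⟨h3, h4, h5⟩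
  · refine ⟨bot k l2, ?_⟩
    rw [h4, hb, h3]
    push_cast
    ring
  · refine ⟨l2 + 1, ?_⟩
    rw [h4, hb, h3]
    push_cast
    ring

/-- And conversely. -/
theorem heights' (L : Lay) (g : ℂ ≃ᵢ ℂ) (hg : g ∈ Sym L.tiles) (ε δ : ℤ) (p q : ℝ)
    (hd : δ = 1 ∨ δ = -1) (hgz : ∀ z : ℂ, g z = ⟨ε * z.re + p, δ * z.im + q⟩) (j : ℤ) :
    ∃ l, L.y j = δ * L.y l + q := by
  obtain ⟨k, l', X', h, hb⟩ := exists_bot L j
  obtain ⟨l2, X2, h2, e⟩ := sym_kind' L g hg k l' X' h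
  rcases sb3c_img L g ε δ p q hd hgz k l2 X2 l' X' h2 h e with ⟨h3, h4⟩ | ⟨h3, h4, h5⟩
  · refine ⟨bot k l2, ?_⟩
    rw [← hb, h4, h3]
    push_cast
    ring
  · refine ⟨l2 + 1, ?_⟩
    rw [← hb, h5, h3]
    push_cast
    ring

end Pool.Agent.Lib.H54T
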