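import Mathlib
import Pool.Agent.Lib.H54T.SB3A
import Pool.Agent.Lib.H54T.SB3B
import Pool.Agent.Lib.H54T.SB3C

/-! # H54T: SB3 (umbrella of SB3A, SB3B, SB3C) -/
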