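import Mathlib
import Pool.Agent.Lib.H54T.Stmt

/-! # H54T, chunk SB4: a monotone bijection of the integers is a translation -/

namespace Pool.Agent.Lib.H54T

theorem sb4_lin (f : ℤ → ℤ) (d : ℤ) (h : ∀ l, f (l + 1) = f l + d) (l : ℤ) :
    f l = d * l + f 0 := by
  induction l using Int.induction_on with
  | zero => ring
  | succ i ih =>
    rw [h, ih]
    ring
  | pred i ih =>
    have := h (-(i : ℤ) - 1)
    rw [sub_add_cancel, ih] at this
    linarith

/-- The map `l ↦ j` with `y j = δ y l + q` is a strictly monotone (`δ = 1`) or strictly antitone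
(`δ = -1`) bijection of the integers. -/
theorem shift_of_heights (y : ℤ → ℝ) (hy : StrictMono y) (δ : ℤ) (hd : δ = 1 ∨ δ = -1) (q : ℝ)
    (h1 : ∀ l, ∃ j, y j = δ * y l + q) (h2 : ∀ j, ∃ l, y j = δ * y l + q) :
    ∃ m : ℤ, ∀ l, y (δ * l + m) = δ * y l + q := by
  choose f hf using h1
  have hstep : ∀ l, f (l + 1) = f l + δ := by
    intro l
    have h3 : y l < y (l + 1) := hy (by omega)
    rcases hd with e | e
    · subst e
      have h4 : y (f l) < y (f (l + 1)) := by
        rw [hf, hf]
        push_cast
        linarith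
      have h5 := hy.lt_iff_lt.1 h4
      by_contra hcon
      obtain ⟨l', hl'⟩ := h2 (f l + 1)
      have h6 : y (f l) < y (f l + 1) := hy (by omega)
      have h7 : y (f l + 1) < y (f (l + 1)) := hy (by omega)
      rw [hl', hf] at h6
      rw [hl', hf] at h7
      push_cast at h6 h7
      have h8 : y l < y l' := by linarith
      have h9 : y l' < y (l + 1) := by linarith
      have := hy.lt_iff_lt.1 h8
      have := hy.lt_iff_lt.1 h9
      omega
    · subst e
      have h4 : y (f (l + 1)) < y (f l) := by
        rw [hf, hf]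
        push_cast
        linarith
      have h5 := hy.lt_iff_lt.1 h4
      by_contra hcon
      obtain ⟨l', hl'⟩ := h2 (f l - 1)
      have h6 : y (f l - 1) < y (f l) := hy (by omega)
      have h7 : y (f (l + 1)) < y (f l - 1) := hy (by omega)
      rw [hl', hf] at h6
      rw [hl', hf] at h7
      push_cast at h6 h7
      have h8 : y l < y l' := by linarith
      have h9 : y l' < y (l + 1) := by linarith
      have := hy.lt_iff_lt.1 h8
      have := hy.lt_iff_lt.1 h9
      omega
  refine ⟨f 0, fun l => ?_⟩
  rw [← sb4_lin f δ hstep l]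
  exact hf l

end Pool.Agent.Lib.H54T
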