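import Mathlib
import Pool.Agent.Lib.H54T.SB7A
import Pool.Agent.Lib.H54T.SB7B
import Pool.Agent.Lib.H54T.SB7C
import Pool.Agent.Lib.H54T.SB2D
import Pool.Agent.Lib.H54T.SB3
import Pool.Agent.Lib.H54T.SB4

/-! # H54T, chunk SB7D: symmetries are combinatorial symmetries -/

namespace Pool.Agent.Lib.H54T

/-- Assembly: `sym_form`, `heights`, `heights'`, `shift_of_heights`, `sym_a`, `sym_parity`, `sym_H`,
`rim_heights`, `reg_image`. -/
theorem sym_CS (L : Lay) (h1 : ∃ l, L.w l = true) (h2 : ∃ l, L.w l = false) (g : ℂ ≃ᵢ ℂ)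
    (hg : g ∈ Sym L.tiles) : ∃ ε δ a m : ℤ, L.CS ε δ a m ∧
      ∀ k l X, L.ok k l X → g '' L.reg k l X = L.reg k (im k δ m l) (ε * X + a) := by
  obtain ⟨ε, δ, p, q, he, hd, hgz⟩ := sym_form L h1 h2 g hg
  obtain ⟨a, ha⟩ := sym_a L h2 g hg ε δ p q he hd hgz
  obtain ⟨m, hm⟩ := shift_of_heights L.y (y_strictMono L) δ hd q
    (heights L g hg ε δ p q hd hgz) (heights' L g hg ε δ p q hd hgz)
  subst ha
  have hp := sym_parity L h2 g hg ε δ a m q he hd hgz hm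
  refine ⟨ε, δ, a, m, ⟨he, hd, fun l => (rim_heights L δ m q hd hm l).1, hp,
    sym_H L g hg ε δ a m q he hd hgz hm⟩, ?_⟩
  intro k l X hok
  exact reg_image L g ε δ a m q he hd hgz hm hp k l X hok

end Pool.Agent.Lib.H54T
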