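import Mathlib
import Pool.Agent.Lib.H54T.SB7A
import Pool.Agent.Lib.H54T.SB7B
import Pool.Agent.Lib.H54T.SB7C
import Pool.Agent.Lib.H54T.SB7D

/-! # H54T: SB7 (umbrella of SB7A, SB7B, SB7C, SB7D) -/
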