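import Mathlib
import Pool.Agent.Lib.H54T.Lay

/-! # H54T, chunk SC1A: combinatorial symmetries are symmetries -/

namespace Pool.Agent.Lib.H54T

theorem sc1a_lines (L : Lay) (ε δ a m : ℤ) (h : L.CS ε δ a m) (l X : ℤ) :
    (L.H (rim δ m l) (ε * X + a) ∨ L.H (rim δ m l + 1) (ε * X + a)) ↔
      (L.H l X ∨ L.H (l + 1) X) := by
  rcases h.hd with e | e
  · subst e
    have h1 := h.hH l X
    have h2 := h.hH (l + 1) X
    have e1 : 1 * l + m = rim 1 m l := by simp only [rim, if_true]; ring
    have e2 : 1 * (l + 1) + m = rim 1 m l + 1 := by simp only [rim, if_true]; ring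
    rw [e1] at h1
    rw [e2] at h2
    rw [h1, h2]
  · subst e
    have h1 := h.hH l X
    have h2 := h.hH (l + 1) X
    have hne : ¬ ((-1 : ℤ) = 1) := by norm_num
    have e1 : -1 * l + m = rim (-1) m l + 1 := by simp only [rim, if_neg hne]; ring
    have e2 : -1 * (l + 1) + m = rim (-1) m l := by simp only [rim, if_neg hne]; ring
    rw [e1] at h1
    rw [e2] at h2
    rw [h1, h2, or_comm]

theorem sc1a_dist (ε a X X' : ℤ) (he : ε = 1 ∨ ε = -1) :
    |ε * X + a - (ε * X' + a)| = |X - X'| := by
  rcases he with e | e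
  · subst e
    congr 1
    ring
  · subst e
    rw [← abs_neg]
    congr 1
    ring

theorem sc1a_cov (L : Lay) (ε δ a m : ℤ) (h : L.CS ε δ a m) (l X : ℤ) :
    L.cov (rim δ m l) (ε * X + a) ↔ L.cov l X := by
  constructor
  · rintro ⟨Y, hY, hH⟩
    have he2 : ε * ε = 1 := by
      rcases h.he with e | e <;> subst e <;> norm_num
    have e : Y = ε * (ε * (Y - a)) + a := by
      rw [← mul_assoc, he2]
      ring
    rw [e] at hY hH
    rw [sc1a_dist ε a _ _ h.he] at hY
    exact ⟨_, hY, (sc1a_lines L ε δ a m h l _).1 hH⟩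
  · rintro ⟨Y, hY, hH⟩
    exact ⟨ε * Y + a, by rwa [sc1a_dist ε a _ _ h.he], (sc1a_lines L ε δ a m h l _).2 hH⟩

/-- A combinatorial symmetry maps labels to labels. For triangles: `cov` is preserved
(`|εX + a - (εX' + a)| = |X - X'|`; the lines of row `rim δ m l` are the images of the lines of row
`l`, in the opposite order if `δ = -1`). -/
theorem ok_image (L : Lay) (ε δ a m : ℤ) (h : L.CS ε δ a m) (k : Kd) (l X : ℤ) :
    L.ok k (im k δ m l) (ε * X + a) ↔ L.ok k l X := by
  cases k with
  | tr =>
    simp only [Lay.ok, im]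
    rw [h.hw, sc1a_cov L ε δ a m h]
  | sq =>
    simp only [Lay.ok, im]
    rw [h.hw]
    have hX : (ε * X - X) % 2 = 0 := by
      rcases h.he with e | e <;> subst e <;> omega
    have hpl := h.hp l
    have hwl := h.hw l
    constructor
    · rintro ⟨h1, h2⟩
      refine ⟨h1, ?_⟩
      rcases h.hd with e | e
      · subst e
        simp only [rim, if_true] at h2
        have e1 : 1 * l + m = l + m := by ring
        rw [e1] at hpl
        omega
      · subst e
        have hne : ¬ ((-1 : ℤ) = 1) := by norm_num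
        simp only [rim, if_neg hne] at h2 hwl
        have hal := L.hal (m - l - 1)
        rw [hwl, h1] at hal
        simp only [Bool.false_eq_true, if_false] at hal
        have e1 : -1 * l + m = m - l - 1 + 1 := by ring
        rw [e1] at hpl
        omega
    · rintro ⟨h1, h2⟩
      refine ⟨h1, ?_⟩
      rcases h.hd with e | e
      · subst e
        simp only [rim, if_true]
        have e1 : 1 * l + m = l + m := by ring
        rw [e1] at hpl
        omega
      · subst e
        have hne : ¬ ((-1 : ℤ) = 1) := by norm_num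
        simp only [rim, if_neg hne] at hwl ⊢
        have hal := L.hal (m - l - 1)
        rw [hwl, h1] at hal
        simp only [Bool.false_eq_true, if_false] at hal
        have e1 : -1 * l + m = m - l - 1 + 1 := by ring
        rw [e1] at hpl
        omega
  | hx =>
    simp only [Lay.ok, im]
    exact h.hH l X

theorem im_surj (k : Kd) (ε δ a m : ℤ) (he : ε = 1 ∨ ε = -1) (hd : δ = 1 ∨ δ = -1) (l' X' : ℤ) :
    ∃ l X, im k δ m l = l' ∧ ε * X + a = X' := by
  have hX : ∃ X, ε * X + a = X' := by
    rcases he with e | e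
    · exact ⟨X' - a, by subst e; ring⟩
    · exact ⟨a - X', by subst e; ring⟩
  have hl : ∃ l, im k δ m l = l' := by
    rcases hd with e | e
    · subst e
      refine ⟨l' - m, ?_⟩
      cases k <;> simp [im, rim]
    · subst e
      have hne : ¬ ((-1 : ℤ) = 1) := by norm_num
      cases k with
      | tr => exact ⟨m - 1 - l', by simp only [im, rim, if_neg hne]; ring⟩
      | sq => exact ⟨m - 1 - l', by simp only [im, rim, if_neg hne]; ring⟩
      | hx => exact ⟨m - l', by simp only [im]; ring⟩
  obtain ⟨X, hX⟩ := hX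
  obtain ⟨l, hl⟩ := hl
  exact ⟨l, X, hl, hX⟩

end Pool.Agent.Lib.H54T
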