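import Mathlib
import Pool.Agent.Lib.H54T.Lay

/-! # H54T, chunk SC1B: combinatorial symmetries are symmetries -/

namespace Pool.Agent.Lib.H54T

/-- The heights: the difference `y (δ l + m) - δ y l` does not depend on `l` (`hw`, induction). -/
theorem CS_heights (L : Lay) (ε δ a m : ℤ) (h : L.CS ε δ a m) :
    ∃ q : ℝ, ∀ l, L.y (δ * l + m) = δ * L.y l + q := by
  have hstep : ∀ l, L.y (δ * (l + 1) + m) - δ * L.y (l + 1) = L.y (δ * l + m) - δ * L.y l := by
    intro l
    have hw := h.hw l
    have h1 := L.hy l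
    rcases h.hd with e | e
    · subst e
      simp only [rim, if_true] at hw
      have h2 := L.hy (l + m)
      rw [hw] at h2
      have e1 : 1 * l + m = l + m := by ring
      have e2 : 1 * (l + 1) + m = l + m + 1 := by ring
      rw [e1, e2, h1, h2]
      push_cast
      ring
    · subst e
      have hne : ¬ ((-1 : ℤ) = 1) := by norm_num
      simp only [rim, if_neg hne] at hw
      have h2 := L.hy (m - l - 1)
      rw [hw] at h2
      have e1 : -1 * l + m = m - l - 1 + 1 := by ring
      have e2 : -1 * (l + 1) + m = m - l - 1 := by ring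
      rw [e1, e2, h1, h2]
      push_cast
      ring
  refine ⟨L.y (δ * 0 + m) - δ * L.y 0, fun l => ?_⟩
  have hall : ∀ l : ℤ, L.y (δ * l + m) - δ * L.y l = L.y (δ * 0 + m) - δ * L.y 0 := by
    intro l
    induction l using Int.induction_on with
    | zero => rfl
    | succ i ih => rw [hstep, ih]
    | pred i ih =>
      have := hstep (-(i : ℤ) - 1)
      rw [sub_add_cancel] at this
      rw [← this, ih]
  have := hall l
  linarith

/-- The isometry `z ↦ (ε re z + a / 2, δ im z + q)`. -/
theorem exists_isometry (ε δ : ℤ) (he : ε = 1 ∨ ε = -1) (hd : δ = 1 ∨ δ = -1) (p q : ℝ) :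
    ∃ g : ℂ ≃ᵢ ℂ, ∀ z : ℂ, g z = ⟨ε * z.re + p, δ * z.im + q⟩ := by
  have he2 : (ε : ℝ) * ε = 1 := by
    rcases he with e | e <;> subst e <;> norm_num
  have hd2 : (δ : ℝ) * δ = 1 := by
    rcases hd with e | e <;> subst e <;> norm_num
  have hi : Isometry (fun z : ℂ => (⟨ε * z.re + p, δ * z.im + q⟩ : ℂ)) := by
    apply Isometry.of_dist_eq
    intro z w
    rw [Complex.dist_eq_re_im, Complex.dist_eq_re_im]
    congr 1
    have e1 : (ε * z.re + p - (ε * w.re + p)) ^ 2 = ((ε : ℝ) * ε) * (z.re - w.re) ^ 2 := by ring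
    have e2 : (δ * z.im + q - (δ * w.im + q)) ^ 2 = ((δ : ℝ) * δ) * (z.im - w.im) ^ 2 := by ring
    simp only
    rw [e1, e2, he2, hd2]
    ring
  refine ⟨⟨⟨fun z : ℂ => (⟨ε * z.re + p, δ * z.im + q⟩ : ℂ),
    fun z : ℂ => (⟨ε * (z.re - p), δ * (z.im - q)⟩ : ℂ), ?_, ?_⟩, hi⟩, fun z => rfl⟩
  · intro z
    apply Complex.ext
    · simp only
      linear_combination z.re * he2
    · simp only
      linear_combination z.im * hd2
  · intro z
    apply Complex.ext
    · simp only
      linear_combination (z.re - p) * he2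
    · simp only
      linear_combination (z.im - q) * hd2

end Pool.Agent.Lib.H54T
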