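import Mathlib
import Pool.Agent.Lib.H54T.SC1A
import Pool.Agent.Lib.H54T.SC1B
import Pool.Agent.Lib.H54T.SB6

/-! # H54T, chunk SC1C: combinatorial symmetries are symmetries -/

namespace Pool.Agent.Lib.H54T

theorem CS_sym (L : Lay) (ε δ a m : ℤ) (h : L.CS ε δ a m) : ∃ g ∈ Sym L.tiles,
    ∀ k l X, L.ok k l X → g '' L.reg k l X = L.reg k (im k δ m l) (ε * X + a) := by
  obtain ⟨q, hq⟩ := CS_heights L ε δ a m h
  obtain ⟨g, hg⟩ := exists_isometry ε δ h.he h.hd ((a : ℝ) / 2) q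
  have himg : ∀ k l X, L.ok k l X →
      g '' L.reg k l X = L.reg k (im k δ m l) (ε * X + a) := fun k l X hok =>
    reg_image L g ε δ a m q h.he h.hd hg hq h.hp k l X hok
  refine ⟨g, ?_, himg⟩
  show (fun A : Set ℂ => g '' A) '' L.tiles = L.tiles
  apply Set.Subset.antisymm
  · rintro B ⟨A, ⟨k, l, X, hok, rfl⟩, rfl⟩
    exact ⟨k, im k δ m l, ε * X + a, (ok_image L ε δ a m h k l X).2 hok, himg k l X hok⟩
  · rintro A ⟨k, l', X', hok, rfl⟩
    obtain ⟨l, X, h1, h2⟩ := im_surj k ε δ a m h.he h.hd l' X'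
    subst h1
    subst h2
    have hok' := (ok_image L ε δ a m h k l X).1 hok
    exact ⟨L.reg k l X, ⟨k, l, X, hok', rfl⟩, himg k l X hok'⟩

end Pool.Agent.Lib.H54T
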