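import Mathlib
import Pool.Agent.Lib.H54T.SC1A
import Pool.Agent.Lib.H54T.SC1B
import Pool.Agent.Lib.H54T.SC1C

/-! # H54T: SC1 (umbrella of SC1A, SC1B, SC1C) -/
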