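import Mathlib
import Pool.Agent.Lib.H54T.SB7
import Pool.Agent.Lib.H54T.SC1

/-! # H54T, chunk SD: counting transitivity classes by labels -/

namespace Pool.Agent.Lib.H54T

theorem sd_symm (T : Set (Set ℂ)) (g : ℂ ≃ᵢ ℂ) (hg : g ∈ Sym T) : g.symm ∈ Sym T := by
  have h : (fun A : Set ℂ => g '' A) '' T = T := hg
  show (fun A : Set ℂ => g.symm '' A) '' T = T
  conv_lhs => rw [← h]
  rw [← Set.image_comp]
  have e : ((fun A : Set ℂ => g.symm '' A) ∘ (fun A : Set ℂ => g '' A)) = id := by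
    funext A
    simp only [Function.comp, id]
    rw [← Set.image_comp]
    have : (⇑g.symm ∘ ⇑g) = id := by
      funext z
      simp
    rw [this, Set.image_id]
  rw [e, Set.image_id]

theorem sd_trans (T : Set (Set ℂ)) (g h : ℂ ≃ᵢ ℂ) (hg : g ∈ Sym T) (hh : h ∈ Sym T) :
    g.trans h ∈ Sym T := by
  have h1 : (fun A : Set ℂ => g '' A) '' T = T := hg
  have h2 : (fun A : Set ℂ => h '' A) '' T = T := hh
  show (fun A : Set ℂ => (g.trans h) '' A) '' T = T
  have e : (fun A : Set ℂ => (g.trans h) '' A) =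
      (fun A : Set ℂ => h '' A) ∘ (fun A : Set ℂ => g '' A) := by
    funext A
    simp only [Function.comp]
    rw [← Set.image_comp]
    rfl
  rw [e, Set.image_comp, h1, h2]

theorem sd_cls (T : Set (Set ℂ)) (g : ℂ ≃ᵢ ℂ) (hg : g ∈ Sym T) (A : Set ℂ) :
    cls T (g '' A) ⊆ cls T A := by
  rintro B ⟨h, hh, rfl⟩
  refine ⟨g.trans h, sd_trans T g h hg hh, ?_⟩
  rw [← Set.image_comp]
  rfl

theorem sd_cls_eq (T : Set (Set ℂ)) (g : ℂ ≃ᵢ ℂ) (hg : g ∈ Sym T) (A : Set ℂ) :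
    cls T (g '' A) = cls T A := by
  apply Set.Subset.antisymm (sd_cls T g hg A)
  have h := sd_cls T g.symm (sd_symm T g hg) (g '' A)
  have e : g.symm '' (g '' A) = A := by
    rw [← Set.image_comp]
    have : (⇑g.symm ∘ ⇑g) = id := by
      funext z
      simp
    rw [this, Set.image_id]
  rwa [e] at h

theorem sd_refl (A : Set ℂ) : (IsometryEquiv.refl ℂ) '' A = A := Set.image_id A

theorem sd_self (T : Set (Set ℂ)) (A : Set ℂ) : A ∈ cls T A := by
  refine ⟨IsometryEquiv.refl ℂ, ?_, (sd_refl A).symm⟩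
  show (fun A : Set ℂ => (IsometryEquiv.refl ℂ) '' A) '' T = T
  have e : (fun A : Set ℂ => (IsometryEquiv.refl ℂ) '' A) = id := by
    funext A
    exact sd_refl A
  rw [e, Set.image_id]

/-- The classes of tiles of kind `k` are in bijection with the values of an invariant which is complete
for the combinatorial symmetries (`sym_CS`, `CS_sym`, `reg_isGon`, `size_unique`, `reg_inj`). -/
theorem count (L : Lay) (h1 : ∃ l, L.w l = true) (h2 : ∃ l, L.w l = false)
    (lab : Kd → ℤ → ℤ → ℕ × ℕ)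
    (hinv : ∀ ε δ a m, L.CS ε δ a m → ∀ k l X, L.ok k l X →
      lab k (im k δ m l) (ε * X + a) = lab k l X)
    (hcom : ∀ k l X l' X', L.ok k l X → L.ok k l' X' → lab k l X = lab k l' X' →
      ∃ ε δ a m, L.CS ε δ a m ∧ im k δ m l = l' ∧ ε * X + a = X')
    (k : Kd) (F : Finset (ℕ × ℕ)) (hF : ∀ x, x ∈ F ↔ ∃ l X, L.ok k l X ∧ lab k l X = x) :
    classes k.size L.tiles = (F.card : ℕ∞) := by
  classical
  have hch : ∀ x : ℕ × ℕ, ∃ y : ℤ × ℤ, x ∈ F → L.ok k y.1 y.2 ∧ lab k y.1 y.2 = x := by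
    intro x
    by_cases hx : x ∈ F
    · obtain ⟨l, X, h⟩ := (hF x).1 hx
      exact ⟨(l, X), fun _ => h⟩
    · exact ⟨(0, 0), fun h => absurd h hx⟩
  choose y hy using hch
  set f : ℕ × ℕ → Set (Set ℂ) := fun x => cls L.tiles (L.reg k (y x).1 (y x).2) with hf
  have hinj : Set.InjOn f (F : Set (ℕ × ℕ)) := by
    intro x hx x' hx' hxx
    obtain ⟨o1, l1⟩ := hy x hx
    obtain ⟨o2, l2⟩ := hy x' hx'
    have h3 : L.reg k (y x').1 (y x').2 ∈ f x := by
      rw [hxx]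
      exact sd_self _ _
    obtain ⟨g, hg, he⟩ := h3
    obtain ⟨ε, δ, a, m, hcs, himg⟩ := sym_CS L h1 h2 g hg
    rw [himg k _ _ o1] at he
    obtain ⟨-, e1, e2⟩ := reg_inj L _ _ _ _ _ _ he
    rw [← l1, ← l2, e1, e2]
    exact (hinv ε δ a m hcs k _ _ o1).symm
  have himage : f '' (F : Set (ℕ × ℕ)) =
      {O : Set (Set ℂ) | ∃ A ∈ L.tiles, IsGon k.size A ∧ O = cls L.tiles A} := by
    apply Set.Subset.antisymm
    · rintro O ⟨x, hx, rfl⟩
      obtain ⟨o1, l1⟩ := hy x hx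
      exact ⟨_, ⟨k, _, _, o1, rfl⟩, reg_isGon L k _ _, rfl⟩
    · rintro O ⟨A, ⟨k', l, X, hok, rfl⟩, hgon, rfl⟩
      have hk := size_unique k k' _ hgon (reg_isGon L k' l X)
      subst hk
      have hx : lab k l X ∈ F := (hF _).2 ⟨l, X, hok, rfl⟩
      refine ⟨lab k l X, hx, ?_⟩
      obtain ⟨o1, l1⟩ := hy _ hx
      obtain ⟨ε, δ, a, m, hcs, e1, e2⟩ := hcom k l X _ _ hok o1 l1.symm
      obtain ⟨g, hg, himg⟩ := CS_sym L ε δ a m hcs
      have h3 := himg k l X hok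
      rw [e1, e2] at h3
      simp only [hf]
      rw [← h3]
      exact sd_cls_eq _ g hg _
  unfold classes
  rw [← himage, hinj.encard_image, Set.encard_coe_eq_coe_finsetCard]

end Pool.Agent.Lib.H54T
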