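import Mathlib
import Pool.Agent.Lib.H54T.SD
import Pool.Agent.Lib.H54T.CD
import Pool.Agent.Lib.H54T.CE
import Pool.Agent.Lib.H54T.CF

/-! # H54T: the main theorem on folded codes -/

namespace Pool.Agent.Lib.H54T

theorem code_main (c : Code) (hv : c.Valid) (r1 : c.R1) (r2 : c.R2)
    (h1 : ∃ v, v % 2 = 1 ∧ v ≤ c.n ∧ c.ty v = true)
    (h2 : ∃ v, v % 2 = 1 ∧ v ≤ c.n ∧ c.ty v = false) :
    ∃ T : Set (Set ℂ), IsTiling T ∧ classes 3 T = (c.LT.card : ℕ∞) ∧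
      classes 4 T = (c.LS.card : ℕ∞) ∧ classes 6 T = (c.LH.card : ℕ∞) := by
  have hn := hv.hn
  have key : ∀ b : Bool, (∃ v, v % 2 = 1 ∧ v ≤ c.n ∧ c.ty v = b) → ∃ l, (c.lay hv).w l = b := by
    rintro b ⟨v, hv1, hv2, hv3⟩
    refine ⟨((v / 2 : ℕ) : ℤ), ?_⟩
    have e : (2 * ((v / 2 : ℕ) : ℤ) + 1) = (v : ℤ) := by omega
    show c.ty (fold c.n (2 * ((v / 2 : ℕ) : ℤ) + 1)) = b
    rw [e]
    have h := fold_of_le c.n hn (v : ℤ) (by rw [abs_of_nonneg (by positivity)]; exact_mod_cast hv2)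
    rw [abs_of_nonneg (by positivity)] at h
    have h' : fold c.n (v : ℤ) = v := by exact_mod_cast h
    rw [h', hv3]
  have hinv : ∀ ε δ a m, (c.lay hv).CS ε δ a m → ∀ k l X, (c.lay hv).ok k l X →
      c.lab k (im k δ m l) (ε * X + a) = c.lab k l X := by
    intro ε δ a m h k l X hok
    obtain ⟨i, j, rfl, rfl⟩ := code_rigid c hv r1 r2 ε δ a m h
    exact lab_inv c hv ε δ i j h.he h.hd k l X hok
  have hcom : ∀ k l X l' X', (c.lay hv).ok k l X → (c.lay hv).ok k l' X' →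
      c.lab k l X = c.lab k l' X' →
      ∃ ε δ a m, (c.lay hv).CS ε δ a m ∧ im k δ m l = l' ∧ ε * X + a = X' := by
    intro k l X l' X' h h' hl
    obtain ⟨ε, δ, i, j, he, hd, e1, e2⟩ := lab_complete c hv k l X l' X' h h' hl
    exact ⟨ε, δ, _, _, code_CS c hv ε δ i j he hd, e1, e2⟩
  refine ⟨(c.lay hv).tiles, isTiling _, ?_, ?_, ?_⟩
  · exact count (c.lay hv) (key true h1) (key false h2) c.lab hinv hcom .tr c.LT (LT_iff c hv)
  · exact count (c.lay hv) (key true h1) (key false h2) c.lab hinv hcom .sq c.LS (LS_iff c hv)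
  · exact count (c.lay hv) (key true h1) (key false h2) c.lab hinv hcom .hx c.LH (LH_iff c hv)

end Pool.Agent.Lib.H54T
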