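import Mathlib
import Pool.Agent.Lib.H54T.CDefs
import Pool.Agent.Lib.H54T.FB

/-!
# H54T, chunk KA1: rigidity of the sequence of rows

A symmetry `rim δ m` maps the `2 L` rows of triangles next to line 0 (rows `-L, ..., L - 1`) to the rows
`m - L, ..., m + L - 1` (both signs), and the rows `-L - 1` and `L` of squares to the rows
`m - L - 1` and `m + L`. Let `μ = fold n (2 m)`; claim `μ = 0`. The rows have the vertical coordinates
`2 m + x`, `x` odd, `|x| ≤ 2 L + 1`; up to a reflection their foldings are `|μ + x|` if this is at most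
`n`, else `2 n - |μ + x|`.
-/

namespace Pool.Agent.Lib.H54T

theorem ka1_big (n : ℕ) (hn : 1 ≤ n) (a : ℤ) (h : |a| ≤ 2 * n) :
    (fold n a : ℤ) = if |a| ≤ n then |a| else 2 * n - |a| := by
  split_ifs with h1
  · exact fold_of_le n hn a h1
  · rcases le_total 0 a with ha | ha
    · rw [abs_of_nonneg ha] at h h1 ⊢
      have h2 : fold n a = fold n (2 * n - a) := by
        rw [fold_eq_iff n hn]
        exact ⟨1, Or.inr (by ring)⟩
      rw [h2, fold_of_le n hn _ (by rw [abs_le]; omega), abs_of_nonneg (by omega)]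
    · rw [abs_of_nonpos ha] at h h1 ⊢
      have h2 : fold n a = fold n (2 * n + a) := by
        rw [fold_eq_iff n hn]
        exact ⟨1, Or.inl (by ring)⟩
      rw [h2, fold_of_le n hn _ (by rw [abs_le]; omega), abs_of_nonneg (by omega)]
      ring

/-- The folding near `V`: with `μ = fold n V`, there is a sign such that for all `x` with
`|x| ≤ n`, `fold n (V + x)` is `|μ ± x|` or `2 n - |μ ± x|`. -/
theorem fold_near (n : ℕ) (hn : 1 ≤ n) (V : ℤ) : ∃ s : ℤ, (s = 1 ∨ s = -1) ∧ ∀ x : ℤ, |x| ≤ n →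
    (fold n (V + x) : ℤ) = if |(fold n V : ℤ) + s * x| ≤ n then |(fold n V : ℤ) + s * x|
      else 2 * n - |(fold n V : ℤ) + s * x| := by
  obtain ⟨k, s, hs, e⟩ := fb_form n hn V
  have hle := fold_le n hn V
  refine ⟨s, hs, fun x hx => ?_⟩
  have hb : |(fold n V : ℤ) + s * x| ≤ 2 * n := by
    rw [abs_le] at hx ⊢
    rcases hs with rfl | rfl <;> omega
  rw [← ka1_big n hn _ hb]
  congr 1
  rw [fold_eq_iff n hn]
  rcases hs with hs | hs
  · refine ⟨-k, Or.inl ?_⟩
    rw [hs] at e ⊢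
    linear_combination (-1 : ℤ) * e
  · refine ⟨k, Or.inr ?_⟩
    rw [hs] at e ⊢
    linear_combination e

/-- `fold n (2 m) = 0` iff `n` divides `m`. -/
theorem fold_zero (n : ℕ) (hn : 1 ≤ n) (m : ℤ) (h : fold n (2 * m) = 0) : (n : ℤ) ∣ m := by
  obtain ⟨k, s, hs, e⟩ := fb_form n hn (2 * m)
  rw [h] at e
  refine ⟨k, ?_⟩
  have : 2 * m = 2 * (n * k) := by rw [e]; push_cast; ring
  omega

end Pool.Agent.Lib.H54T
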