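import Mathlib
import Pool.Agent.Lib.H54T.KA1

/-!
# H54T, chunk KA2: rigidity of the sequence of rows

A symmetry `rim δ m` maps the `2 L` rows of triangles next to line 0 (rows `-L, ..., L - 1`) to the rows
`m - L, ..., m + L - 1` (both signs), and the rows `-L - 1` and `L` of squares to the rows
`m - L - 1` and `m + L`. Let `μ = fold n (2 m)`; claim `μ = 0`. The rows have the vertical coordinates
`2 m + x`, `x` odd, `|x| ≤ 2 L + 1`; up to a reflection their foldings are `|μ + x|` if this is at most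
`n`, else `2 n - |μ + x|`.
-/

namespace Pool.Agent.Lib.H54T

/-- The rows near line `m` in terms of those near line 0: for odd `x`, `|x| ≤ 2 L + 1`, the row with
coordinate `2 m + x` is a row of triangles iff `|x| < 2 L`. -/
theorem row_near (c : Code) (hn : 1 ≤ c.n) (L : ℕ) (hL : 1 ≤ L) (hLn : 2 * L + 1 ≤ c.n)
    (hT : ∀ v, v % 2 = 1 → v < 2 * L → c.ty v = true) (hS : c.ty (2 * L + 1) = false)
    (δ m : ℤ) (hd : δ = 1 ∨ δ = -1) (h : ∀ l, c.w (rim δ m l) = c.w l) (x : ℤ)
    (hx : x % 2 = 1) (hx' : |x| ≤ 2 * L + 1) :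
    c.ty (fold c.n (2 * m + x)) = true ↔ |x| < 2 * L := by
  have h0 : (fold c.n x : ℤ) = |x| := fold_of_le c.n hn x (by
    have : ((2 * L + 1 : ℕ) : ℤ) ≤ c.n := by exact_mod_cast hLn
    push_cast at this
    omega)
  have key : c.ty (fold c.n (2 * m + x)) = c.ty (fold c.n x) := by
    rcases hd with rfl | rfl
    · have h1 := h ((x - 1) / 2)
      unfold Code.w rim at h1
      rw [if_pos rfl] at h1
      rw [show 2 * ((x - 1) / 2 + m) + 1 = 2 * m + x by omega,
        show 2 * ((x - 1) / 2) + 1 = x by omega] at h1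
      exact h1
    · have h1 := h ((-x - 1) / 2)
      unfold Code.w rim at h1
      rw [if_neg (by norm_num)] at h1
      rw [show 2 * (m - (-x - 1) / 2 - 1) + 1 = 2 * m + x by omega,
        show 2 * ((-x - 1) / 2) + 1 = -x by omega, fold_neg c.n hn] at h1
      exact h1
  rw [key]
  have hxo : (fold c.n x) % 2 = 1 := by
    have : |x| % 2 = 1 := by
      rcases abs_choice x with h | h <;> rw [h] <;> omega
    omega
  by_cases hlt : |x| < 2 * L
  · simp only [hlt, iff_true]
    exact hT _ hxo (by omega)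
  · simp only [hlt, iff_false]
    have : |x| % 2 = 1 := by
      rcases abs_choice x with h | h <;> rw [h] <;> omega
    have e : fold c.n x = 2 * L + 1 := by omega
    rw [e, hS]
    simp

/-- The rows near line `m`, by `μ = fold n (2 m)`. -/
theorem ka2_at (c : Code) (hn : 1 ≤ c.n) (L : ℕ) (hL : 1 ≤ L) (hLn : 2 * L + 1 ≤ c.n)
    (hT : ∀ v, v % 2 = 1 → v < 2 * L → c.ty v = true) (hS : c.ty (2 * L + 1) = false)
    (δ m : ℤ) (hd : δ = 1 ∨ δ = -1) (h : ∀ l, c.w (rim δ m l) = c.w l) (y : ℤ)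
    (hy : y % 2 = 1) (hy1 : -(2 * L + 1) ≤ y) (hy2 : y ≤ 2 * L + 1) :
    ∃ v : ℕ, v % 2 = 1 ∧ v ≤ c.n ∧ ((v : ℤ) = fold c.n (2 * m) + y ∨
      (v : ℤ) = -(fold c.n (2 * m) + y) ∨
      ((v : ℤ) = 2 * c.n - (fold c.n (2 * m) + y) ∧ c.n < fold c.n (2 * m) + y)) ∧
      (c.ty v = true ↔ -(2 * (L : ℤ)) < y ∧ y < 2 * L) := by
  obtain ⟨s, hs, hx⟩ := fold_near c.n hn (2 * m)
  have hle := fold_le c.n hn (2 * m)
  have hpar := fold_parity c.n hn (2 * m)
  have hss : s * (s * y) = y := by rcases hs with rfl | rfl <;> ring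
  have habs : |s * y| = |y| := by rcases hs with rfl | rfl <;> simp
  have hyb : |y| ≤ 2 * L + 1 := by
    rw [abs_le]
    omega
  have h1 := hx (s * y) (by rw [habs]; omega)
  have h2 := row_near c hn L hL hLn hT hS δ m hd h (s * y)
    (by rcases hs with rfl | rfl <;> omega) (by rw [habs]; exact hyb)
  rw [hss] at h1
  rw [habs, abs_lt] at h2
  have hpar' := fold_parity c.n hn (2 * m + s * y)
  refine ⟨fold c.n (2 * m + s * y), ?_, fold_le c.n hn _, ?_, h2⟩
  · rcases hs with rfl | rfl <;> omega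
  · rw [h1]
    have hμ0 : (0 : ℤ) ≤ (fold c.n (2 * m) : ℤ) := by positivity
    generalize (fold c.n (2 * m) : ℤ) = μ at *
    split_ifs with h3
    · rcases abs_choice (μ + y) with h4 | h4 <;> rw [h4] <;> simp
    · right
      right
      rw [not_le] at h3
      rcases le_or_gt 0 (μ + y) with h4 | h4
      · rw [abs_of_nonneg h4] at h3 ⊢
        exact ⟨rfl, h3⟩
      · rw [abs_of_neg h4] at h3
        omega

end Pool.Agent.Lib.H54T
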