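import Mathlib
import Pool.Agent.Lib.H54T.KA

/-! # H54T, chunk KC: rigidity, second kind -/

namespace Pool.Agent.Lib.H54T

/-- If `μ ≥ 2`: coordinate `μ - 2 L - 1` (squares) gives `μ ≥ 4 L + 1`, coordinate `μ - 2 L + 1`
(triangles) gives `μ = 4 L + 2`; then coordinate `μ - 2 L + 3 = 2 L + 5 ≤ n` must be a row of triangles
(also for `L = 1`, where it is `μ + 1`), contradiction. -/
theorem R1_two (c : Code) (L b : ℕ) (hL : 1 ≤ L) (hb : 1 ≤ b) (hn : c.n = 2 * L + 4 + b)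
    (hty : ∀ v, v % 2 = 1 → v ≤ c.n → (c.ty v = true ↔ v < 2 * L ∨ v = 2 * L + 3)) : c.R1 := by
  intro δ m hd h
  have hn1 : 1 ≤ c.n := by omega
  apply fold_zero c.n hn1
  have hT : ∀ v, v % 2 = 1 → v < 2 * L → c.ty v = true := fun v h1 h2 =>
    (hty v h1 (by omega)).2 (Or.inl h2)
  have hS : c.ty (2 * L + 1) = false := by
    rw [← Bool.not_eq_true, hty _ (by omega) (by omega)]
    omega
  have key := ka2_at c hn1 L hL (by omega) hT hS δ m hd h
  have hle := fold_le c.n hn1 (2 * m)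
  have hpar := fold_parity c.n hn1 (2 * m)
  obtain ⟨v, v1, v2, v3, v4⟩ := key (-(2 * L + 1)) (by omega) (by omega) (by omega)
  obtain ⟨u, u1, u2, u3, u4⟩ := key (-(2 * L - 1)) (by omega) (by omega) (by omega)
  obtain ⟨t, t1, t2, t3, t4⟩ := key (-(2 * L - 3)) (by omega) (by omega) (by omega)
  rw [hty v v1 v2] at v4
  rw [hty u u1 u2] at u4
  rw [hty t t1 t2] at t4
  generalize fold c.n (2 * m) = μ at *
  omega

end Pool.Agent.Lib.H54T
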