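import Mathlib
import Pool.Agent.Lib.H54T.CDefs

/-!
# Codes given by lists

`rows` lists the rows from line 0 (a symmetry axis) upwards: type of the row and hexagons on the line
above it; `half = true`: there is a further row of squares whose middle is the second symmetry axis.
-/

namespace Pool.Agent.Lib.H54T

abbrev Rows := List (Bool × Finset ℕ)

/-- The hexagons of line `i`. -/
def Dl (D0 : Finset ℕ) (rows : Rows) (i : ℕ) : Finset ℕ :=
  if i = 0 then D0 else (rows.getD (i - 1) (false, ∅)).2

/-- The type of row `i`. -/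
def tyl (rows : Rows) (i : ℕ) : Bool := (rows.getD i (false, ∅)).1

/-- The parity of line `i`. -/
def parl (p : ℕ) (rows : Rows) (i : ℕ) : ℕ := p + (rows.take i).countP (fun x => x.1)

/-- The folded code of a list. -/
def lcode (P sg p : ℕ) (D0 : Finset ℕ) (rows : Rows) (half : Bool) : Code where
  P := P
  n := 2 * rows.length + (if half = true then 1 else 0)
  sg := sg
  ty := fun v => tyl rows (v / 2)
  par := fun v => parl p rows (v / 2)
  D := fun v => Dl D0 rows (v / 2)

/-- The conditions on one line. -/
def okD (P p : ℕ) (D : Finset ℕ) : Prop :=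
  ∀ Y ∈ D, Y ≤ P ∧ Y % 2 = p % 2 ∧ (Y = 0 ∨ 2 ≤ Y) ∧ (Y = P ∨ Y + 2 ≤ P) ∧
    ∀ Z ∈ D, Y < Z → Y + 4 ≤ Z

/-- The conditions on two consecutive lines with a row of triangles between them. -/
def comp (P : ℕ) (D D' : Finset ℕ) : Prop :=
  ∀ Y ∈ D, ∀ Z ∈ D', (Y + 3 ≤ Z ∨ Z + 3 ≤ Y) ∧ 3 ≤ Y + Z ∧ Y + Z + 3 ≤ 2 * P

/-- Validity of a list. -/
def LV (P : ℕ) : ℕ → Finset ℕ → Rows → Prop
  | p, D, [] => okD P p D
  | p, D, (b, D') :: r => okD P p D ∧ (if b = true then comp P D D' else D = ∅ ∧ D' = ∅) ∧
      LV P (if b = true then p + 1 else p) D' r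

/-- The hexagons of the last line. -/
def lastD (D0 : Finset ℕ) (rows : Rows) : Finset ℕ := Dl D0 rows rows.length

/-- The number of classes of triangles in a row between lines with the hexagons `D` and `D'`. -/
def tc (P : ℕ) (D D' : Finset ℕ) : ℕ := ((Finset.range (P + 1)).filter (fun Y => unc D D' Y = true)).card

/-- The number of classes of squares in a row of squares; `p` is the parity of the lines. -/
def rowc (P p : ℕ) : ℕ := ((Finset.range (P + 1)).filter (fun Y => (Y + p) % 2 = 1)).card

/-- The number of classes of squares in a row of squares which is divided by the axis. -/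
def midc (P sg p : ℕ) : ℕ :=
  ((Finset.range (P + 1)).filter (fun Y => (Y + p) % 2 = 1 ∧ (sg ≠ 0 → 2 * Y ≤ P))).card

/-- The number of classes of triangles. -/
def tcount (P : ℕ) : Finset ℕ → Rows → ℕ
  | _, [] => 0
  | D, (b, D') :: r => (if b = true then tc P D D' else 0) + tcount P D' r

/-- The number of classes of squares. -/
def scount (P sg : ℕ) (half : Bool) : ℕ → Rows → ℕ
  | p, [] => if half = true then midc P sg p else 0
  | p, (b, _) :: r => (if b = true then 0 else rowc P p) + scount P sg half (if b = true then p + 1 else p) r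

/-- The number of classes of hexagons. -/
def hcount (D0 : Finset ℕ) (rows : Rows) : ℕ := D0.card + (rows.map (fun x => x.2.card)).sum

end Pool.Agent.Lib.H54T
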