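import Mathlib
import Pool.Agent.Lib.H54T.LDefs

/-! # H54T, chunk LA1: validity of the code of a list -/

namespace Pool.Agent.Lib.H54T

theorem la1_Dl_zero (D0 : Finset ℕ) (rows : Rows) : Dl D0 rows 0 = D0 := by simp [Dl]

theorem la1_Dl_cons (D0 : Finset ℕ) (b : Bool) (D' : Finset ℕ) (r : Rows) (j : ℕ) :
    Dl D0 ((b, D') :: r) (j + 1) = Dl D' r j := by
  unfold Dl
  cases j with
  | zero => simp
  | succ j => simp

theorem la1_tyl_zero (b : Bool) (D' : Finset ℕ) (r : Rows) : tyl ((b, D') :: r) 0 = b := by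
  simp [tyl]

theorem la1_tyl_cons (b : Bool) (D' : Finset ℕ) (r : Rows) (j : ℕ) :
    tyl ((b, D') :: r) (j + 1) = tyl r j := by
  simp [tyl]

theorem la1_parl_zero (p : ℕ) (rows : Rows) : parl p rows 0 = p := by simp [parl]

theorem la1_parl_cons (p : ℕ) (b : Bool) (D' : Finset ℕ) (r : Rows) (j : ℕ) :
    parl p ((b, D') :: r) (j + 1) = parl (if b = true then p + 1 else p) r j := by
  unfold parl
  rw [List.take_succ_cons, List.countP_cons]
  cases b <;> simp <;> omega

/-- What `LV` says about line `i` and row `i` (induction on the list). -/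
theorem LV_line (P p : ℕ) (D0 : Finset ℕ) (rows : Rows) (h : LV P p D0 rows) (i : ℕ)
    (hi : i ≤ rows.length) : okD P (parl p rows i) (Dl D0 rows i) := by
  induction rows generalizing p D0 i with
  | nil =>
    have : i = 0 := by simpa using hi
    subst this
    rw [la1_Dl_zero, la1_parl_zero]
    exact h
  | cons x r ih =>
    obtain ⟨b, D'⟩ := x
    obtain ⟨h1, h2, h3⟩ := h
    cases i with
    | zero =>
      rw [la1_Dl_zero, la1_parl_zero]
      exact h1
    | succ j =>
      rw [la1_Dl_cons, la1_parl_cons]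
      exact ih _ _ h3 j (by simpa using hi)

theorem LV_row (P p : ℕ) (D0 : Finset ℕ) (rows : Rows) (h : LV P p D0 rows) (i : ℕ)
    (hi : i < rows.length) :
    (if tyl rows i = true then comp P (Dl D0 rows i) (Dl D0 rows (i + 1))
      else Dl D0 rows i = ∅ ∧ Dl D0 rows (i + 1) = ∅) ∧
    parl p rows (i + 1) = parl p rows i + (if tyl rows i = true then 1 else 0) := by
  induction rows generalizing p D0 i with
  | nil =>
    simp at hi
  | cons x r ih =>
    obtain ⟨b, D'⟩ := x
    obtain ⟨h1, h2, h3⟩ := h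
    cases i with
    | zero =>
      rw [la1_Dl_cons, la1_parl_cons, la1_tyl_zero, la1_Dl_zero, la1_Dl_zero, la1_parl_zero,
        la1_parl_zero]
      refine ⟨h2, ?_⟩
      split_ifs <;> rfl
    | succ j =>
      rw [la1_Dl_cons, la1_Dl_cons, la1_parl_cons, la1_parl_cons, la1_tyl_cons]
      exact ih _ _ h3 j (by simpa using hi)

end Pool.Agent.Lib.H54T
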