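import Mathlib
import Pool.Agent.Lib.H54T.LA1

/-! # H54T, chunk LA2: validity of the code of a list -/

namespace Pool.Agent.Lib.H54T

theorem la2_tyl_len (rows : Rows) : tyl rows rows.length = false := by
  unfold tyl
  rw [List.getD_eq_default _ _ le_rfl]

/-- Validity. `hlast`: the line next to the divided row of squares has no hexagons; `hsg`: for
`sg ≠ 0` the second axis is in a strip of squares. -/
theorem lcode_valid (P sg p : ℕ) (D0 : Finset ℕ) (rows : Rows) (half : Bool) (hP : 2 ≤ P)
    (hne : rows ≠ []) (hsg : sg = 0 ∨ (sg = P ∧ P % 2 = 0)) (h : LV P p D0 rows)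
    (hlast : half = true → lastD D0 rows = ∅)
    (hsn : sg ≠ 0 → half = false → tyl rows (rows.length - 1) = false) :
    (lcode P sg p D0 rows half).Valid := by
  have hlen : 1 ≤ rows.length := by
    rcases rows with _ | ⟨a, r⟩
    · exact absurd rfl hne
    · simp
  have hn : (lcode P sg p D0 rows half).n = 2 * rows.length + (if half = true then 1 else 0) := rfl
  have hty : ∀ v, (lcode P sg p D0 rows half).ty v = tyl rows (v / 2) := fun _ => rfl
  have hparv : ∀ v, (lcode P sg p D0 rows half).par v = parl p rows (v / 2) := fun _ => rfl
  have hDv : ∀ v, (lcode P sg p D0 rows half).D v = Dl D0 rows (v / 2) := fun _ => rfl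
  have hhalf : (if half = true then 1 else 0) ≤ 1 := by split_ifs <;> omega
  have hrow := LV_row P p D0 rows h
  have hline := LV_line P p D0 rows h
  refine ⟨hP, ?_, hsg, ?_, ?_, ?_, ?_, ?_, ?_, ?_⟩
  · rw [hn]
    omega
  · intro v hv1 hv2
    rw [hn] at hv2
    rw [hparv, hparv, hty]
    have e1 : (v + 2) / 2 = v / 2 + 1 := by omega
    have e2 : (v + 1) / 2 = v / 2 := by omega
    rw [e1, e2, (hrow (v / 2) (by omega)).2]
  · intro ho
    rw [hn] at ho
    rw [hn, hty]
    have e1 : (2 * rows.length + (if half = true then 1 else 0)) / 2 = rows.length := by omega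
    rw [e1, la2_tyl_len]
  · intro v hv1 hv2 Y hY
    rw [hn] at hv2
    rw [hDv] at hY
    rw [hparv]
    have := hline (v / 2) (by omega) Y hY
    exact ⟨this.1, this.2.1, this.2.2.1, this.2.2.2.1⟩
  · intro v hv1 hv2 Y hY Z hZ hYZ
    rw [hn] at hv2
    rw [hDv] at hY hZ
    exact (hline (v / 2) (by omega) Y hY).2.2.2.2 Z hZ hYZ
  · intro v hv1 hv2 hne'
    rw [hDv] at hne'
    rw [hty, hty]
    have hv2' := hv2
    rw [hn] at hv2'
    constructor
    · by_cases hv0 : v = 0
      · left
        exact hv0
      · right
        have e1 : (v - 1) / 2 = v / 2 - 1 := by omega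
        rw [e1]
        by_contra hc
        have := (hrow (v / 2 - 1) (by omega)).1
        rw [if_neg hc, show v / 2 - 1 + 1 = v / 2 by omega] at this
        rw [this.2] at hne'
        simp at hne'
    · by_cases hvn : v = (lcode P sg p D0 rows half).n
      · left
        exact hvn
      · right
        rw [hn] at hvn
        have e1 : (v + 1) / 2 = v / 2 := by omega
        rw [e1]
        by_contra hc
        by_cases hvl : v / 2 < rows.length
        · have := (hrow (v / 2) hvl).1
          rw [if_neg hc] at this
          rw [this.1] at hne'
          simp at hne'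
        · have hve : v / 2 = rows.length := by omega
          cases half with
          | true =>
            have := hlast rfl
            unfold lastD at this
            rw [hve, this] at hne'
            simp at hne'
          | false =>
            exfalso
            apply hvn
            simp only [Bool.false_eq_true, if_false] at hv2' ⊢
            omega
  · intro v hv1 hv2 Y hY Z hZ
    rw [hn] at hv2
    rw [hDv] at hY hZ
    rw [show (v + 2) / 2 = v / 2 + 1 by omega] at hZ
    have := (hrow (v / 2) (by omega)).1
    split_ifs at this with ht
    · exact this Y hY Z hZ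
    · rw [this.1] at hY
      simp at hY
  · intro hs he
    rw [hn] at he
    have hh : half = false := by
      cases half with
      | true =>
        exfalso
        simp only [if_true] at he
        omega
      | false => rfl
    have h1 := hsn hs hh
    rw [hn, hty, hDv, hh]
    simp only [Bool.false_eq_true, if_false, add_zero]
    rw [show (2 * rows.length - 1) / 2 = rows.length - 1 by omega,
      show 2 * rows.length / 2 = rows.length by omega]
    refine ⟨h1, ?_⟩
    have := (hrow (rows.length - 1) (by omega)).1
    rw [if_neg (by rw [h1]; simp), show rows.length - 1 + 1 = rows.length by omega] at this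
    exact this.2

end Pool.Agent.Lib.H54T
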