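import Mathlib
import Pool.Agent.Lib.H54T.LA1
import Pool.Agent.Lib.H54T.LA2

/-! # H54T: LA (umbrella of LA1, LA2) -/
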