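import Mathlib
import Pool.Agent.Lib.H54T.LDefs
import Pool.Agent.Lib.H54T.LA1

/-! # H54T, chunk LB: number of triangle labels -/

namespace Pool.Agent.Lib.H54T

theorem lb_card (n P : ℕ) (q : ℕ × ℕ → Prop) [DecidablePred q] :
    ((Finset.range (n + 1) ×ˢ Finset.range (P + 1)).filter q).card =
      ∑ v ∈ Finset.range (n + 1), ((Finset.range (P + 1)).filter (fun Y => q (v, Y))).card := by
  rw [Finset.card_filter, Finset.sum_product]
  apply Finset.sum_congr rfl
  intro v _
  rw [Finset.card_filter]

theorem lb_odd (f : ℕ → ℕ) (hf : ∀ v, v % 2 = 0 → f v = 0) (m : ℕ) :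
    ∑ v ∈ Finset.range (2 * m + 1), f v = ∑ i ∈ Finset.range m, f (2 * i + 1) := by
  induction m with
  | zero => simp [hf 0]
  | succ m ih =>
    rw [show 2 * (m + 1) + 1 = (2 * m + 1) + 1 + 1 by ring, Finset.sum_range_succ,
      Finset.sum_range_succ, ih, Finset.sum_range_succ, hf (2 * m + 1 + 1) (by omega)]
    ring

theorem lb_even (f : ℕ → ℕ) (hf : ∀ v, v % 2 = 1 → f v = 0) (m : ℕ) :
    ∑ v ∈ Finset.range (2 * m + 1), f v = ∑ i ∈ Finset.range (m + 1), f (2 * i) := by
  induction m with
  | zero => simp
  | succ m ih =>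
    rw [show 2 * (m + 1) + 1 = (2 * m + 1) + 1 + 1 by ring, Finset.sum_range_succ,
      Finset.sum_range_succ, ih, Finset.sum_range_succ _ (m + 1), hf (2 * m + 1) (by omega)]
    ring_nf

theorem lb_tyl_len (rows : Rows) : tyl rows rows.length = false := by
  unfold tyl
  rw [List.getD_eq_default _ _ le_rfl]

theorem lb_tcount (P : ℕ) (rows : Rows) : ∀ D0 : Finset ℕ,
    ∑ i ∈ Finset.range rows.length, (if tyl rows i = true then tc P (Dl D0 rows i) (Dl D0 rows (i + 1))
      else 0) = tcount P D0 rows := by
  induction rows with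
  | nil =>
    intro D0
    simp [tcount]
  | cons x r ih =>
    intro D0
    obtain ⟨b, D'⟩ := x
    rw [List.length_cons, Finset.sum_range_succ']
    simp only [la1_Dl_cons, la1_tyl_cons, la1_tyl_zero, la1_Dl_zero, tcount]
    rw [ih D', add_comm]

/-- The labels with `x.1 = 2 i + 1` are the `tc` triangles of row `i`; sum over `i < rows.length`
(the divided row is a row of squares: `tyl rows rows.length = false`), then induction on the list
(`Finset.sum_range_succ'`). -/
theorem LT_card (P sg p : ℕ) (D0 : Finset ℕ) (rows : Rows) (half : Bool) :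
    (lcode P sg p D0 rows half).LT.card = tcount P D0 rows := by
  unfold Code.LT
  rw [lb_card, ← lb_tcount P rows D0]
  have hn : (lcode P sg p D0 rows half).n = 2 * rows.length + (if half = true then 1 else 0) := rfl
  have hty : ∀ v, (lcode P sg p D0 rows half).ty v = tyl rows (v / 2) := fun _ => rfl
  have hDv : ∀ v, (lcode P sg p D0 rows half).D v = Dl D0 rows (v / 2) := fun _ => rfl
  have hPP : (lcode P sg p D0 rows half).P = P := rfl
  simp only [hty, hDv, hPP]
  set f : ℕ → ℕ := fun v => ((Finset.range (P + 1)).filter (fun Y => v % 2 = 1 ∧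
    tyl rows (v / 2) = true ∧ unc (Dl D0 rows ((v - 1) / 2)) (Dl D0 rows ((v + 1) / 2)) Y = true)).card
    with hf
  have f0 : ∀ v, v % 2 = 0 → f v = 0 := by
    intro v hv
    rw [hf]
    simp [hv]
  have f1 : ∀ i, f (2 * i + 1) =
      if tyl rows i = true then tc P (Dl D0 rows i) (Dl D0 rows (i + 1)) else 0 := by
    intro i
    rw [hf]
    simp only
    rw [show (2 * i + 1) / 2 = i by omega, show (2 * i + 1 - 1) / 2 = i by omega,
      show (2 * i + 1 + 1) / 2 = i + 1 by omega]
    split_ifs with h
    · unfold tc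
      congr 1
      apply Finset.filter_congr
      intro Y _
      simp [h]
    · simp [h]
  have hsum : ∑ v ∈ Finset.range ((lcode P sg p D0 rows half).n + 1), f v =
      ∑ i ∈ Finset.range rows.length, f (2 * i + 1) := by
    rw [hn, ← lb_odd f f0]
    cases half with
    | false => simp
    | true =>
      simp only [if_true]
      rw [Finset.sum_range_succ, f1, lb_tyl_len]
      simp
  rw [hsum]
  exact Finset.sum_congr rfl (fun i _ => f1 i)

end Pool.Agent.Lib.H54T
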