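import Mathlib
import Pool.Agent.Lib.H54T.LDefs
import Pool.Agent.Lib.H54T.LB

/-! # H54T, chunk LC: number of square labels -/

namespace Pool.Agent.Lib.H54T

theorem lc_scount (P sg : ℕ) (half : Bool) (rows : Rows) : ∀ p : ℕ,
    (∑ i ∈ Finset.range rows.length, (if tyl rows i = true then 0 else rowc P (parl p rows i))) +
      (if half = true then midc P sg (parl p rows rows.length) else 0) = scount P sg half p rows := by
  induction rows with
  | nil =>
    intro p
    simp [scount, la1_parl_zero]
  | cons x r ih =>
    intro p
    obtain ⟨b, D'⟩ := x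
    rw [List.length_cons, Finset.sum_range_succ']
    simp only [la1_tyl_cons, la1_tyl_zero, la1_parl_cons, la1_parl_zero, scount]
    rw [← ih]
    omega

/-- The labels with `x.1 = 2 i + 1`, `i < rows.length`, are the `rowc` squares of row `i` (here
`x.1 = n` does not occur), and for `half = true` those with `x.1 = n` are the `midc` squares of the
divided row; induction on the list. -/
theorem LS_card (P sg p : ℕ) (D0 : Finset ℕ) (rows : Rows) (half : Bool) :
    (lcode P sg p D0 rows half).LS.card = scount P sg half p rows := by
  unfold Code.LS
  rw [lb_card, ← lc_scount P sg half rows p]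
  have hn : (lcode P sg p D0 rows half).n = 2 * rows.length + (if half = true then 1 else 0) := rfl
  have hty : ∀ v, (lcode P sg p D0 rows half).ty v = tyl rows (v / 2) := fun _ => rfl
  have hpar : ∀ v, (lcode P sg p D0 rows half).par v = parl p rows (v / 2) := fun _ => rfl
  have hPP : (lcode P sg p D0 rows half).P = P := rfl
  have hsg : (lcode P sg p D0 rows half).sg = sg := rfl
  simp only [hty, hpar, hPP, hsg]
  obtain ⟨n, hn'⟩ : ∃ n, n = (lcode P sg p D0 rows half).n := ⟨_, rfl⟩
  rw [← hn'] at hn ⊢
  set f : ℕ → ℕ := fun v => ((Finset.range (P + 1)).filter (fun Y => v % 2 = 1 ∧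
    tyl rows (v / 2) = false ∧ (Y + parl p rows ((v - 1) / 2)) % 2 = 1 ∧
    (v = n → sg ≠ 0 → 2 * Y ≤ P))).card with hf
  have f0 : ∀ v, v % 2 = 0 → f v = 0 := by
    intro v hv
    rw [hf]
    simp [hv]
  have f1 : ∀ i, i < rows.length → f (2 * i + 1) =
      if tyl rows i = true then 0 else rowc P (parl p rows i) := by
    intro i hi
    have hne : 2 * i + 1 ≠ n := by
      rw [hn]
      split_ifs <;> omega
    rw [hf]
    simp only
    rw [show (2 * i + 1) / 2 = i by omega, show (2 * i + 1 - 1) / 2 = i by omega]
    split_ifs with h
    · simp [h]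
    · unfold rowc
      congr 1
      apply Finset.filter_congr
      intro Y _
      simp [h, hne]
  have f2 : half = true → f (2 * rows.length + 1) = midc P sg (parl p rows rows.length) := by
    intro hh
    have hne : 2 * rows.length + 1 = n := by
      rw [hn, hh]
      simp
    rw [hf]
    simp only
    rw [show (2 * rows.length + 1) / 2 = rows.length by omega,
      show (2 * rows.length + 1 - 1) / 2 = rows.length by omega]
    unfold midc
    congr 1
    apply Finset.filter_congr
    intro Y _
    have ho : n % 2 = 1 := by omega
    simp [lb_tyl_len, hne, ho]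
  have hsum : ∑ v ∈ Finset.range (n + 1), f v =
      ∑ i ∈ Finset.range rows.length, f (2 * i + 1) +
      (if half = true then midc P sg (parl p rows rows.length) else 0) := by
    rw [hn, ← lb_odd f f0]
    cases half with
    | false => simp
    | true =>
      simp only [if_true]
      rw [Finset.sum_range_succ, f2 rfl]
  rw [hsum]
  congr 1
  exact Finset.sum_congr rfl (fun i hi => f1 i (Finset.mem_range.1 hi))

end Pool.Agent.Lib.H54T
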