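import Mathlib
import Pool.Agent.Lib.H54T.LDefs
import Pool.Agent.Lib.H54T.LB

/-! # H54T, chunk LD: number of hexagon labels -/

namespace Pool.Agent.Lib.H54T

theorem ld_hcount (rows : Rows) : ∀ D0 : Finset ℕ,
    ∑ i ∈ Finset.range (rows.length + 1), (Dl D0 rows i).card = hcount D0 rows := by
  induction rows with
  | nil =>
    intro D0
    simp [hcount, la1_Dl_zero]
  | cons x r ih =>
    intro D0
    obtain ⟨b, D'⟩ := x
    rw [List.length_cons, Finset.sum_range_succ']
    simp only [la1_Dl_cons, la1_Dl_zero]
    rw [ih D']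
    simp [hcount]
    omega

/-- The labels with `x.1 = 2 i` are the elements of `Dl D0 rows i`, `i ≤ rows.length`. -/
theorem LH_card (P sg p : ℕ) (D0 : Finset ℕ) (rows : Rows) (half : Bool) (h : LV P p D0 rows) :
    (lcode P sg p D0 rows half).LH.card = hcount D0 rows := by
  unfold Code.LH
  rw [lb_card, ← ld_hcount rows D0]
  have hn : (lcode P sg p D0 rows half).n = 2 * rows.length + (if half = true then 1 else 0) := rfl
  have hDv : ∀ v, (lcode P sg p D0 rows half).D v = Dl D0 rows (v / 2) := fun _ => rfl
  have hPP : (lcode P sg p D0 rows half).P = P := rfl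
  simp only [hDv, hPP]
  rw [hn]
  set f : ℕ → ℕ := fun v => ((Finset.range (P + 1)).filter (fun Y => v % 2 = 0 ∧
    Y ∈ Dl D0 rows (v / 2))).card with hf
  have f0 : ∀ v, v % 2 = 1 → f v = 0 := by
    intro v hv
    rw [hf]
    simp [hv]
  have f1 : ∀ i, i ≤ rows.length → f (2 * i) = (Dl D0 rows i).card := by
    intro i hi
    rw [hf]
    simp only
    rw [show (2 * i) / 2 = i by omega]
    congr 1
    ext Y
    rw [Finset.mem_filter, Finset.mem_range]
    constructor
    · rintro ⟨_, _, hY⟩
      exact hY
    · intro hY
      have := (LV_line P p D0 rows h i hi Y hY).1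
      exact ⟨by omega, by omega, hY⟩
  have hsum : ∑ v ∈ Finset.range (2 * rows.length + (if half = true then 1 else 0) + 1), f v =
      ∑ i ∈ Finset.range (rows.length + 1), f (2 * i) := by
    rw [← lb_even f f0]
    cases half with
    | false => simp
    | true =>
      simp only [if_true]
      rw [Finset.sum_range_succ, f0 (2 * rows.length + 1) (by omega), add_zero]
  rw [hsum]
  exact Finset.sum_congr rfl (fun i hi => f1 i (by have := Finset.mem_range.1 hi; omega))

end Pool.Agent.Lib.H54T
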