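import Mathlib
import Pool.Agent.Lib.H54T.LDefs
import Pool.Agent.Lib.H54T.FB

/-! # H54T, chunk LE: a finite criterion for the exact period -/

namespace Pool.Agent.Lib.H54T

/-- The set of the `a` which preserve the unfolding is a subgroup which contains `2 P`; so if no `a` with
`0 < a < 2 P` preserves it, all of them are multiples of `2 P`. Invariance is checked on
`0 ≤ X < 2 P` (`fold_add`). -/
theorem exactD_of (P : ℕ) (hP : 1 ≤ P) (D : Finset ℕ)
    (h : ∀ a ∈ Finset.range (2 * P), a ≠ 0 → ∃ X ∈ Finset.range (2 * P),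
      ¬ (fold P ((X : ℤ) + (a : ℤ)) ∈ D ↔ fold P (X : ℤ) ∈ D)) : ExactD P D := by
  intro a ha
  have h0 : (0 : ℤ) < 2 * P := by omega
  have hm0 := Int.emod_nonneg a (ne_of_gt h0)
  have hm1 := Int.emod_lt_of_pos a h0
  have hm2 := Int.emod_add_mul_ediv a (2 * P)
  obtain ⟨b, hb⟩ : ∃ b : ℕ, (b : ℤ) = a % (2 * P) := ⟨(a % (2 * P)).toNat, by omega⟩
  by_cases hb0 : b = 0
  · rw [hb0] at hb
    exact Int.dvd_of_emod_eq_zero hb.symm
  · exfalso
    obtain ⟨X, -, hX2⟩ := h b (by rw [Finset.mem_range]; omega) hb0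
    apply hX2
    have := ha X
    rw [← hm2, ← hb, ← add_assoc, fold_add P hP] at this
    exact this

end Pool.Agent.Lib.H54T
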