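import Mathlib
import Pool.Agent.Lib.H54T.LA
import Pool.Agent.Lib.H54T.LB
import Pool.Agent.Lib.H54T.LC
import Pool.Agent.Lib.H54T.LD
import Pool.Agent.Lib.H54T.CG

/-! # H54T, chunk LM: the main theorem for lists -/

namespace Pool.Agent.Lib.H54T

/-- Assembly: `code_main`, `lcode_valid`, `LT_card`, `LS_card`, `LH_card`. -/
theorem list_main (P sg p : ℕ) (D0 : Finset ℕ) (rows : Rows) (half : Bool) (hP : 2 ≤ P)
    (hne : rows ≠ []) (hsg : sg = 0 ∨ (sg = P ∧ P % 2 = 0)) (h : LV P p D0 rows)
    (hlast : half = true → lastD D0 rows = ∅)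
    (hsn : sg ≠ 0 → half = false → tyl rows (rows.length - 1) = false)
    (r1 : (lcode P sg p D0 rows half).R1) (r2 : ∃ i ≤ rows.length, ExactD P (Dl D0 rows i))
    (h1 : ∃ i < rows.length, tyl rows i = true)
    (h2 : half = true ∨ ∃ i < rows.length, tyl rows i = false)
    (ht : 0 < tcount P D0 rows) (hs : 0 < scount P sg half p rows) (hh : 0 < hcount D0 rows) :
    (tcount P D0 rows, scount P sg half p rows, hcount D0 rows) ∈ Sigma3 := by
  have hv := lcode_valid P sg p D0 rows half hP hne hsg h hlast hsn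
  have hn : (lcode P sg p D0 rows half).n = 2 * rows.length + (if half = true then 1 else 0) := rfl
  have hty : ∀ v, (lcode P sg p D0 rows half).ty v = tyl rows (v / 2) := fun _ => rfl
  obtain ⟨T, hT, c3, c4, c6⟩ := code_main (lcode P sg p D0 rows half) hv r1
    (by
      obtain ⟨i, hi, hE⟩ := r2
      refine ⟨2 * i, by omega, by rw [hn]; omega, ?_⟩
      show ExactD P (Dl D0 rows (2 * i / 2))
      rw [show 2 * i / 2 = i by omega]
      exact hE)
    (by
      obtain ⟨i, hi, hE⟩ := h1
      refine ⟨2 * i + 1, by omega, by rw [hn]; omega, ?_⟩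
      rw [hty, show (2 * i + 1) / 2 = i by omega]
      exact hE)
    (by
      rcases h2 with h2 | ⟨i, hi, hE⟩
      · refine ⟨2 * rows.length + 1, by omega, by rw [hn, h2]; simp, ?_⟩
        rw [hty, show (2 * rows.length + 1) / 2 = rows.length by omega]
        exact lb_tyl_len rows
      · refine ⟨2 * i + 1, by omega, by rw [hn]; omega, ?_⟩
        rw [hty, show (2 * i + 1) / 2 = i by omega]
        exact hE)
  rw [LT_card] at c3
  rw [LS_card] at c4
  rw [LH_card P sg p D0 rows half h] at c6
  exact ⟨ht, hs, hh, T, hT, c3, c4, c6⟩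

end Pool.Agent.Lib.H54T
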