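import Mathlib
import Pool.Agent.Lib.H54T.SB2A
import Pool.Agent.Lib.H54T.SB2B
import Pool.Agent.Lib.H54T.SB2C
import Pool.Agent.Lib.H54T.SB2D

/-! # H54T: SB2 (umbrella of SB2A, SB2B, SB2C, SB2D) -/
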