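import Mathlib
import Pool.Agent.Lib.H54T.LDefs

/-!
# Words

A word `[D_0, ..., D_(L-1)]` describes half of a strip of triangles and hexagons: `D_i` are the
(folded) hexagons on line `i`, line 0 is a symmetry axis, and line `L` is the boundary of the strip.
-/

namespace Pool.Agent.Lib.H54T

/-- Number of classes of triangles. -/
def tw (P : ℕ) : List (Finset ℕ) → ℕ
  | [] => 0
  | [D] => tc P D ∅
  | D :: D' :: r => tc P D D' + tw P (D' :: r)

/-- Number of classes of hexagons. -/
def hw (w : List (Finset ℕ)) : ℕ := (w.map Finset.card).sum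

/-- Validity; `p` is the parity of line 0. -/
def WV (P : ℕ) : ℕ → List (Finset ℕ) → Prop
  | _, [] => True
  | p, [D] => okD P p D
  | p, D :: D' :: r => okD P p D ∧ comp P D D' ∧ WV P (p + 1) (D' :: r)

/-- The rows above line 0. -/
def upw (w : List (Finset ℕ)) : Rows := (w.tail ++ [∅]).map (fun D => (true, D))

/-- The rows from the boundary of the strip to the axis. -/
def dnw (w : List (Finset ℕ)) : Rows := w.reverse.map (fun D => (true, D))

end Pool.Agent.Lib.H54T
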