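import Mathlib
import Pool.Agent.Lib.H54T.WDefs

/-! # H54T: reachable pairs -/

namespace Pool.Agent.Lib.H54T

/-- Conditions on a word: validity, boundary of parity `q`, `t` classes of triangles, `h` classes of
hexagons. -/
def WQ (P q t h p : ℕ) (w : List (Finset ℕ)) : Prop :=
  w ≠ [] ∧ WV P p w ∧ (p + w.length) % 2 = q % 2 ∧ tw P w = t ∧ hw w = h

/-- There is a word of length `L`. -/
def NW (P q t h L : ℕ) : Prop := ∃ p w, WQ P q t h p w ∧ w.length = L

/-- There is a word of length `L` with a line of exact period. -/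
def RW (P q t h L : ℕ) : Prop := ∃ p w, WQ P q t h p w ∧ w.length = L ∧ ∃ D ∈ w, ExactD P D

/-- The same for `P = 6`, and the word contains two consecutive lines of the hexagonal lattice. -/
def PW (q t h L : ℕ) : Prop := ∃ p w, WQ 6 q t h p w ∧ w.length = L ∧ (∃ D ∈ w, ExactD 6 D) ∧
  ∃ u v : List (Finset ℕ), w = u ++ {0, 6} :: {3} :: v ∨ w = u ++ {3} :: {0, 6} :: v

/-- Pairs for the first and second kind. -/
def C6 (q t h : ℕ) : Prop := ∃ L, RW 6 q t h L

/-- Pairs for the third kind. -/
def D6 (q t h : ℕ) : Prop := ∃ L L' t1 t2 h1 h2, L' < L ∧ RW 6 q t1 h1 L ∧ NW 6 q t2 h2 L' ∧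
  t = t1 + t2 ∧ h = h1 + h2

/-- The same, first word with two consecutive lines of the hexagonal lattice. -/
def DP (q t h : ℕ) : Prop := ∃ L L' t1 t2 h1 h2, L' < L ∧ PW q t1 h1 L ∧ NW 6 q t2 h2 L' ∧
  t = t1 + t2 ∧ h = h1 + h2

def WV.dec (P : ℕ) : (p : ℕ) → (w : List (Finset ℕ)) → Decidable (WV P p w)
  | _, [] => isTrue trivial
  | p, [D] => by
    unfold WV okD
    infer_instance
  | p, D :: D' :: r => by
    unfold WV okD comp
    have := WV.dec P (p + 1) (D' :: r)
    infer_instance

instance (P p : ℕ) (w : List (Finset ℕ)) : Decidable (WV P p w) := WV.dec P p w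

instance (P q t h p : ℕ) (w : List (Finset ℕ)) : Decidable (WQ P q t h p w) := by
  unfold WQ
  infer_instance

def toW (w : List (List ℕ)) : List (Finset ℕ) := w.map List.toFinset

/-- Two consecutive lines `[0, 6], [3]` or `[3], [0, 6]`. -/
def hasPump : List (List ℕ) → Bool
  | [] => false
  | [_] => false
  | D :: D' :: r => (D = [0, 6] ∧ D' = [3]) || (D = [3] ∧ D' = [0, 6]) || hasPump (D' :: r)

def exB6 (w : List (List ℕ)) : Bool := w.any (fun D => D = [0] || D = [6] || D = [2] || D = [4])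

def exB4 (w : List (List ℕ)) : Bool := w.any (fun D => D = [0] || D = [4])

end Pool.Agent.Lib.H54T
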