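import Mathlib
import Pool.Agent.Lib.H54T.XDefs

/-! # H54T: tables of words (found by computer) -/

namespace Pool.Agent.Lib.H54T

/-- `(q, t, h, pump, p, word)` for `P = 6`. -/
def tabC : List (ℕ × ℕ × ℕ × Bool × ℕ × List (List ℕ)) := [
  (0, 11, 4, true, 0, [[2], [], [0, 6], [3]]),
  (0, 11, 5, true, 1, [[], [0], [3], [0, 6], [3]]),
  (0, 12, 3, false, 0, [[], [3], [0], [3]]),
  (0, 12, 4, true, 0, [[0], [], [0, 6], [3]]),
  (0, 12, 5, false, 1, [[3], [0], [3], [0], [3]]),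
  (0, 12, 6, true, 0, [[], [3], [0], [3], [0, 6], [3]]),
  (0, 12, 8, true, 1, [[3], [0], [3], [0], [3], [0, 6], [3]]),
  (0, 14, 3, false, 0, [[0], [3], [], [3]]),
  (0, 14, 4, true, 0, [[0, 6], [3], [0], []]),
  (0, 14, 5, true, 1, [[3], [0], [], [0, 6], [3]]),
  (0, 14, 6, true, 0, [[0], [3], [], [3], [0, 6], [3]]),
  (0, 15, 3, false, 0, [[2], [], [0], [3]]),
  (0, 15, 4, true, 1, [[], [2], [], [0, 6], [3]]),
  (0, 15, 6, true, 0, [[2], [], [0], [3], [0, 6], [3]]),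
  (0, 16, 3, false, 0, [[0], [], [0], [3]]),
  (0, 16, 4, false, 1, [[3], [], [3], [0], [3]]),
  (0, 16, 5, false, 0, [[], [3], [0], [3], [0], [3]]),
  (0, 16, 6, true, 0, [[0], [], [0], [3], [0, 6], [3]]),
  (0, 16, 7, true, 1, [[3], [], [3], [0], [3], [0, 6], [3]]),
  (0, 16, 8, true, 0, [[], [3], [0], [3], [0], [3], [0, 6], [3]]),
  (0, 17, 3, false, 0, [[0, 4], [], [2], []]),
  (0, 17, 4, true, 1, [[], [0], [], [0, 6], [3]]),
  (0, 17, 6, true, 0, [[0, 4], [], [2], [], [0, 6], [3]]),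
  (0, 18, 3, false, 0, [[0], [], [0, 6], []]),
  (0, 18, 4, true, 1, [[3], [0, 6], [], [2], []]),
  (0, 18, 5, true, 0, [[], [], [0], [3], [0, 6], [3]]),
  (0, 18, 6, true, 0, [[0], [], [0, 6], [], [0, 6], [3]]),
  (0, 19, 3, false, 0, [[0, 4], [], [0], []]),
  (0, 19, 5, true, 0, [[2], [], [], [3], [0, 6], [3]]),
  (0, 19, 6, true, 0, [[0, 4], [], [0], [], [0, 6], [3]]),
  (0, 20, 3, false, 0, [[0, 6], [], [0], []]),
  (0, 20, 4, true, 1, [[3], [0, 6], [], [0], []]),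
  (0, 20, 5, true, 0, [[0], [], [], [3], [0, 6], [3]]),
  (0, 20, 6, true, 0, [[0, 6], [], [0], [], [0, 6], [3]]),
  (0, 21, 3, false, 1, [[], [0], [], [0], [3]]),
  (0, 21, 5, true, 0, [[2], [], [0], [], [0, 6], [3]]),
  (0, 21, 6, true, 1, [[], [0], [], [0], [3], [0, 6], [3]]),
  (0, 22, 3, false, 1, [[3], [], [], [0], [3]]),
  (0, 22, 4, true, 0, [[], [], [2], [], [0, 6], [3]]),
  (0, 22, 5, true, 0, [[0], [], [0], [], [0, 6], [3]]),
  (0, 22, 6, true, 1, [[3], [], [], [0], [3], [0, 6], [3]]),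
  (0, 23, 3, false, 1, [[], [0], [], [0, 6], []]),
  (0, 23, 4, false, 0, [[2], [], [], [3], [0], [3]]),
  (0, 23, 5, true, 1, [[], [2], [], [], [3], [0, 6], [3]]),
  (0, 23, 6, true, 1, [[], [0], [], [0, 6], [], [0, 6], [3]]),
  (0, 23, 7, true, 0, [[2], [], [], [3], [0], [3], [0, 6], [3]]),
  (0, 24, 3, false, 1, [[3], [0], [], [0], []]),
  (0, 24, 4, true, 0, [[], [], [0], [], [0, 6], [3]]),
  (0, 24, 5, true, 0, [[0, 6], [3], [0], [], [0], []]),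
  (0, 24, 6, true, 1, [[3], [0], [], [0], [], [0, 6], [3]]),
  (0, 25, 4, true, 0, [[2], [], [], [], [0, 6], [3]]),
  (0, 25, 5, true, 1, [[], [], [], [0], [3], [0, 6], [3]]),
  (0, 26, 3, false, 0, [[], [], [], [3], [0], [3]]),
  (0, 26, 4, true, 0, [[0], [], [], [], [0, 6], [3]]),
  (0, 26, 5, true, 1, [[3], [], [], [2], [], [0, 6], [3]]),
  (0, 26, 6, true, 1, [[3], [0, 6], [], [0], [], [0, 6], []]),
  (0, 27, 3, false, 0, [[2], [], [], [3], [], [3]]),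
  (0, 27, 5, true, 1, [[], [0], [], [0], [], [0, 6], [3]]),
  (0, 27, 6, true, 0, [[2], [], [], [3], [], [3], [0, 6], [3]]),
  (0, 28, 3, false, 0, [[], [], [0], [], [0], [3]]),
  (0, 28, 4, true, 0, [[0, 6], [3], [], [], [0], []]),
  (0, 28, 5, true, 1, [[3], [], [], [0], [], [0, 6], [3]]),
  (0, 28, 6, true, 0, [[], [], [0], [], [0], [3], [0, 6], [3]]),
  (0, 29, 3, false, 0, [[2], [], [], [], [0], [3]]),
  (0, 29, 4, true, 1, [[], [], [], [2], [], [0, 6], [3]]),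
  (0, 29, 6, true, 0, [[2], [], [], [], [0], [3], [0, 6], [3]]),
  (0, 30, 3, false, 0, [[], [], [0], [], [0, 6], []]),
  (0, 30, 4, false, 0, [[0, 6], [], [0], [], [0], []]),
  (0, 30, 5, true, 1, [[3], [0, 6], [], [0], [], [0], []]),
  (0, 30, 6, true, 0, [[], [], [0], [], [0, 6], [], [0, 6], [3]]),
  (0, 30, 7, true, 0, [[0, 6], [], [0], [], [0], [], [0, 6], [3]]),
  (0, 31, 3, false, 0, [[0, 4], [], [], [], [2], []]),
  (0, 31, 4, true, 1, [[], [], [], [0], [], [0, 6], [3]]),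
  (0, 31, 6, true, 0, [[0, 4], [], [], [], [2], [], [0, 6], [3]]),
  (1, 11, 3, false, 0, [[0], [], [0, 6]]),
  (1, 11, 6, true, 0, [[0], [], [0, 6], [3], [0, 6]]),
  (1, 13, 3, false, 0, [[0, 6], [], [0]]),
  (1, 13, 4, true, 1, [[3], [0, 6], [], [0]]),
  (1, 13, 5, true, 0, [[0], [3], [], [3], [0, 6]]),
  (1, 13, 6, true, 0, [[0, 6], [], [0], [3], [0, 6]]),
  (1, 15, 5, true, 0, [[0], [], [0], [3], [0, 6]]),
  (1, 17, 5, true, 0, [[0, 6], [3], [0], [], [0]]),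
  (1, 18, 4, true, 0, [[2], [], [], [3], [0, 6]]),
  (1, 18, 5, true, 1, [[], [], [3], [0], [3], [0, 6]]),
  (1, 19, 3, false, 0, [[], [], [0, 4], [], [2]]),
  (1, 19, 4, true, 0, [[0], [], [], [3], [0, 6]]),
  (1, 19, 5, true, 1, [[3], [], [3], [0, 6], [], [2]]),
  (1, 19, 6, true, 1, [[3], [0, 6], [], [0], [], [0, 6]]),
  (1, 20, 3, false, 0, [[2], [], [2], [], [2]]),
  (1, 20, 5, true, 1, [[], [0], [], [0], [3], [0, 6]]),
  (1, 21, 3, false, 0, [[], [], [0], [], [0, 4]]),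
  (1, 21, 4, true, 0, [[0, 6], [3], [], [], [0]]),
  (1, 21, 5, true, 1, [[3], [], [], [0], [3], [0, 6]]),
  (1, 21, 6, true, 0, [[], [], [0], [3], [0], [3], [0, 6]]),
  (1, 22, 3, false, 0, [[2], [], [], [], [0, 4]]),
  (1, 22, 4, true, 1, [[], [], [3], [0, 6], [], [2]]),
  (1, 22, 6, true, 0, [[2], [], [], [3], [0], [3], [0, 6]]),
  (1, 23, 3, false, 0, [[], [], [0], [], [0, 6]]),
  (1, 23, 4, false, 0, [[0, 6], [], [0], [], [0]]),
  (1, 23, 5, true, 1, [[3], [0, 6], [], [0], [], [0]]),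
  (1, 23, 6, true, 0, [[], [], [0], [], [0, 6], [3], [0, 6]]),
  (1, 23, 7, true, 0, [[0, 6], [], [0], [], [0], [3], [0, 6]]),
  (1, 24, 3, false, 0, [[0, 4], [], [], [], [2]]),
  (1, 24, 4, true, 1, [[], [], [], [0], [3], [0, 6]]),
  (1, 24, 6, true, 0, [[0, 4], [], [], [3], [0, 6], [], [2]]),
  (1, 25, 3, false, 0, [[0], [], [], [], [0, 6]]),
  (1, 25, 4, true, 1, [[3], [0, 6], [], [], [], [2]]),
  (1, 25, 5, true, 0, [[], [], [], [3], [0], [3], [0, 6]]),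
  (1, 25, 6, true, 0, [[0], [], [], [], [0, 6], [3], [0, 6]]),
  (1, 26, 3, false, 0, [[0, 4], [], [], [], [0]]),
  (1, 26, 5, true, 0, [[2], [], [], [3], [], [3], [0, 6]]),
  (1, 26, 6, true, 0, [[0, 4], [], [], [], [0], [3], [0, 6]]),
  (1, 27, 3, false, 0, [[0, 6], [], [], [], [0]]),
  (1, 27, 4, true, 1, [[3], [0, 6], [], [], [], [0]]),
  (1, 27, 5, true, 0, [[], [], [0], [], [0], [3], [0, 6]]),
  (1, 27, 6, true, 0, [[0, 6], [], [], [], [0], [3], [0, 6]]),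
  (1, 28, 3, false, 1, [[], [], [], [0], [], [0, 4]]),
  (1, 28, 5, true, 0, [[2], [], [], [], [0], [3], [0, 6]]),
  (1, 28, 6, true, 1, [[], [], [], [0], [3], [0], [3], [0, 6]]),
  (1, 29, 3, false, 1, [[3], [], [], [], [3], [0]]),
  (1, 29, 4, true, 0, [[], [], [], [3], [0, 6], [], [2]]),
  (1, 29, 5, true, 0, [[0], [], [], [], [0], [3], [0, 6]]),
  (1, 29, 6, true, 1, [[3], [], [], [], [3], [0], [3], [0, 6]]),
  (1, 30, 3, false, 1, [[], [], [], [0], [], [0, 6]]),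
  (1, 30, 4, false, 0, [[2], [], [], [], [0, 4], [], [2]]),
  (1, 30, 5, true, 1, [[], [], [3], [], [3], [0, 6], [], [2]]),
  (1, 30, 6, true, 1, [[], [], [], [0], [], [0, 6], [3], [0, 6]]),
  (1, 30, 7, true, 0, [[2], [], [], [3], [], [3], [0], [3], [0, 6]]),
  (1, 31, 3, false, 1, [[3], [], [], [0], [], [0]]),
  (1, 31, 4, true, 0, [[], [], [], [], [0], [3], [0, 6]]),
  (1, 31, 5, true, 0, [[0, 6], [3], [], [], [0], [], [0]]),
  (1, 31, 6, true, 1, [[3], [], [], [0], [], [0], [3], [0, 6]])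
]

/-- `(q, t, h, pump, p, word, p', word')` for `P = 6`, third kind. -/
def tabD : List (ℕ × ℕ × ℕ × Bool × ℕ × List (List ℕ) × ℕ × List (List ℕ)) := [
  (0, 19, 4, true, 0, [[0], [], [0, 6], [3]], 1, [[]]),
  (0, 21, 4, true, 0, [[0, 6], [3], [0], []], 1, [[]]),
  (0, 25, 3, false, 0, [[0], [], [0, 6], []], 1, [[]]),
  (0, 25, 6, true, 0, [[0], [], [0, 6], [], [0, 6], [3]], 1, [[]]),
  (0, 27, 4, true, 1, [[3], [0, 6], [], [0], []], 1, [[]]),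
  (0, 29, 5, true, 0, [[0], [], [0], [], [0, 6], [3]], 1, [[]]),
  (0, 31, 5, true, 0, [[0, 6], [3], [0], [], [0], []], 1, [[]]),
  (1, 18, 3, false, 0, [[0], [], [0, 6]], 0, [[]]),
  (1, 18, 6, true, 0, [[0], [], [0, 6], [3], [0, 6]], 0, [[]]),
  (1, 20, 4, true, 1, [[3], [0, 6], [], [0]], 0, [[]]),
  (1, 20, 6, true, 0, [[0, 6], [], [0], [3], [0, 6]], 0, [[]]),
  (1, 22, 5, true, 0, [[0], [], [0], [3], [0, 6]], 0, [[]]),
  (1, 24, 5, true, 0, [[0, 6], [3], [0], [], [0]], 0, [[]]),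
  (1, 26, 4, true, 0, [[0], [], [], [3], [0, 6]], 0, [[]]),
  (1, 28, 4, true, 0, [[0, 6], [3], [], [], [0]], 0, [[]])
]

/-- `(t, h, p, word)` for `P = 4`, `q = 0`. -/
def tab4 : List (ℕ × ℕ × ℕ × List (List ℕ)) := [
  (18, 4, 0, [[0, 4], [], [0], [], [0], []]),
  (19, 4, 1, [[], [0], [], [0], [], [0, 4], []]),
  (20, 4, 0, [[0], [], [2], [], [2], [], [2], []]),
  (21, 4, 0, [[2], [], [0], [], [2], [], [2], []]),
  (22, 4, 0, [[], [], [0], [], [0, 4], [], [2], []]),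
  (23, 4, 0, [[2], [], [0], [], [0], [], [2], []]),
  (24, 4, 0, [[], [], [0], [], [0], [], [0, 4], []]),
  (25, 4, 0, [[2], [], [], [], [0], [], [0, 4], []]),
  (26, 4, 0, [[0], [], [], [], [0], [], [0, 4], []]),
  (27, 4, 1, [[], [], [], [0], [], [0, 4], [], [2], []]),
  (18, 5, 0, [[0], [], [0, 4], [], [2], [], [2], []]),
  (19, 5, 0, [[2], [], [0], [], [0, 4], [], [2], []]),
  (20, 5, 0, [[], [], [0], [], [0, 4], [], [0, 4], []]),
  (21, 5, 0, [[2], [], [0], [], [0], [], [0, 4], []]),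
  (22, 5, 0, [[0], [], [], [], [0, 4], [], [0, 4], []]),
  (23, 5, 1, [[], [0], [], [0], [], [0, 4], [], [2], []]),
  (24, 5, 0, [[0, 4], [], [], [], [0], [], [0, 4], []]),
  (25, 5, 1, [[], [], [], [0], [], [0, 4], [], [0, 4], []]),
  (26, 5, 0, [[], [], [0], [], [0, 4], [], [2], [], [2], []]),
  (27, 5, 0, [[2], [], [0], [], [0], [], [2], [], [2], []]),
  (19, 6, 1, [[], [0], [], [0, 4], [], [0, 4], [], [2], []])
]

def chkC (e : ℕ × ℕ × ℕ × Bool × ℕ × List (List ℕ)) : Bool :=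
  decide (WQ 6 e.1 e.2.1 e.2.2.1 e.2.2.2.2.1 (toW e.2.2.2.2.2)) && exB6 e.2.2.2.2.2 &&
    (!e.2.2.2.1 || hasPump e.2.2.2.2.2)

def chkD (e : ℕ × ℕ × ℕ × Bool × ℕ × List (List ℕ) × ℕ × List (List ℕ)) : Bool :=
  decide (tw 6 (toW e.2.2.2.2.2.1) + tw 6 (toW e.2.2.2.2.2.2.2) = e.2.1) &&
  decide (hw (toW e.2.2.2.2.2.1) + hw (toW e.2.2.2.2.2.2.2) = e.2.2.1) &&
  decide (WQ 6 e.1 (tw 6 (toW e.2.2.2.2.2.1)) (hw (toW e.2.2.2.2.2.1)) e.2.2.2.2.1
    (toW e.2.2.2.2.2.1)) &&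
  decide (WQ 6 e.1 (tw 6 (toW e.2.2.2.2.2.2.2)) (hw (toW e.2.2.2.2.2.2.2)) e.2.2.2.2.2.2.1
    (toW e.2.2.2.2.2.2.2)) &&
  exB6 e.2.2.2.2.2.1 && (!e.2.2.2.1 || hasPump e.2.2.2.2.2.1) &&
  decide (e.2.2.2.2.2.2.2.length < e.2.2.2.2.2.1.length)

def chk4 (e : ℕ × ℕ × ℕ × List (List ℕ)) : Bool :=
  decide (WQ 4 0 e.1 e.2.1 e.2.2.1 (toW e.2.2.2)) && exB4 e.2.2.2

/-- The tables contain an entry for `(q, t, h)`, or (`pump`) an entry from which `(q, t, h)` is reached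
by adding a multiple of 3 to `h`; with `only = true` only the second possibility. -/
def findC (only : Bool) (q t h : ℕ) : Bool :=
  tabC.any (fun e => e.1 = q && e.2.1 = t && ((e.2.2.1 = h && !only) ||
    (e.2.2.2.1 && decide (e.2.2.1 ≤ h) && (h - e.2.2.1) % 3 = 0)))

def findD (only : Bool) (q t h : ℕ) : Bool :=
  tabD.any (fun e => e.1 = q && e.2.1 = t && ((e.2.2.1 = h && !only) ||
    (e.2.2.2.1 && decide (e.2.2.1 ≤ h) && (h - e.2.2.1) % 3 = 0)))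

end Pool.Agent.Lib.H54T
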