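import Mathlib
import Pool.Agent.Lib.H54T.WDefs
import Pool.Agent.Lib.H54T.LM
import Pool.Agent.Lib.H54T.KB

/-! # H54T, chunk WA: first kind: a strip of triangles and hexagons, a strip of `b` rows of squares -/

namespace Pool.Agent.Lib.H54T

theorem wa_okD_empty (P p : ℕ) : okD P p ∅ := by
  intro Y hY
  simp at hY

theorem wa_comp_right (P : ℕ) (D : Finset ℕ) : comp P D ∅ := by
  intro Y _ Z hZ
  simp at hZ

theorem wa_comp_left (P : ℕ) (D : Finset ℕ) : comp P ∅ D := by
  intro Y hY
  simp at hY

/-- The rows above line 0 of the word `D :: r`, followed by the rows `R`. -/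
def waRows (r : List (Finset ℕ)) (R : Rows) : Rows := (r ++ [∅]).map (fun D => (true, D)) ++ R

theorem waRows_nil (R : Rows) : waRows [] R = (true, ∅) :: R := by simp [waRows]

theorem waRows_cons (D : Finset ℕ) (r : List (Finset ℕ)) (R : Rows) :
    waRows (D :: r) R = (true, D) :: waRows r R := by simp [waRows]

theorem waRows_length (r : List (Finset ℕ)) (R : Rows) :
    (waRows r R).length = r.length + 1 + R.length := by
  simp [waRows]
  omega

theorem wa_upw (D : Finset ℕ) (r : List (Finset ℕ)) (R : Rows) :
    upw (D :: r) ++ R = waRows r R := by simp [upw, waRows]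

theorem wa_LV (P : ℕ) (R : Rows) (r : List (Finset ℕ)) : ∀ (p : ℕ) (D : Finset ℕ),
    WV P p (D :: r) → LV P (p + (r.length + 1)) ∅ R → LV P p D (waRows r R) := by
  induction r with
  | nil =>
    intro p D hv hR
    rw [waRows_nil]
    exact ⟨hv, by simpa using wa_comp_right P D, by simpa using hR⟩
  | cons D' r ih =>
    intro p D hv hR
    rw [waRows_cons]
    obtain ⟨h1, h2, h3⟩ := hv
    refine ⟨h1, by simpa using h2, ?_⟩
    have := ih (p + 1) D' h3 (by
      rw [show p + 1 + (r.length + 1) = p + ((D' :: r).length + 1) by simp; omega]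
      exact hR)
    simpa using this

theorem wa_tcount (P : ℕ) (R : Rows) (r : List (Finset ℕ)) : ∀ (D : Finset ℕ),
    tcount P D (waRows r R) = tw P (D :: r) + tcount P ∅ R := by
  induction r with
  | nil =>
    intro D
    rw [waRows_nil]
    simp [tcount, tw]
  | cons D' r ih =>
    intro D
    rw [waRows_cons]
    simp only [tcount, tw, if_true]
    rw [ih D']
    omega

theorem wa_scount (P sg : ℕ) (half : Bool) (R : Rows) (r : List (Finset ℕ)) : ∀ (p : ℕ),
    scount P sg half p (waRows r R) = scount P sg half (p + (r.length + 1)) R := by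
  induction r with
  | nil =>
    intro p
    rw [waRows_nil]
    simp [scount]
  | cons D' r ih =>
    intro p
    rw [waRows_cons]
    simp only [scount, if_true]
    rw [ih (p + 1)]
    rw [show p + 1 + (r.length + 1) = p + ((D' :: r).length + 1) by simp; omega]
    simp

theorem wa_hcount (R : Rows) (r : List (Finset ℕ)) (D : Finset ℕ) :
    hcount D (waRows r R) = hw (D :: r) + (R.map (fun x => x.2.card)).sum := by
  show hcount D (waRows r R) = ((D :: r).map (fun x => x.card)).sum + _
  simp only [hcount, waRows, List.map_append, List.map_map, List.sum_append, List.map_cons,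
    List.sum_cons, List.map_nil, List.sum_nil, Function.comp_def]
  simp
  omega

theorem wa_tyl (r : List (Finset ℕ)) (R : Rows) (i : ℕ) :
    tyl (waRows r R) i = if i < r.length + 1 then true else tyl R (i - (r.length + 1)) := by
  unfold tyl waRows
  split_ifs with h
  · rw [List.getD_append _ _ _ _ (by simpa using h)]
    rw [List.getD_eq_getElem _ _ (by simpa using h), List.getElem_map]
  · rw [List.getD_append_right _ _ _ _ (by simpa using h)]
    simp

theorem wa_Dl_mem (r : List (Finset ℕ)) (R : Rows) (D0 D : Finset ℕ) (h : D ∈ D0 :: r) :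
    ∃ i ≤ (waRows r R).length, Dl D0 (waRows r R) i = D := by
  rcases List.mem_cons.1 h with h | h
  · exact ⟨0, by omega, by simp [Dl, h]⟩
  · obtain ⟨j, hj, hjD⟩ := List.getElem_of_mem h
    refine ⟨j + 1, by rw [waRows_length]; omega, ?_⟩
    unfold Dl waRows
    rw [if_neg (by omega)]
    rw [List.getD_append _ _ _ _ (by simp; omega)]
    rw [List.getD_eq_getElem _ _ (by simp; omega)]
    simp [hj, hjD]

theorem wa_LV_rep (P : ℕ) (k : ℕ) : ∀ q : ℕ, LV P q ∅ (List.replicate k (false, ∅)) := by
  induction k with
  | zero =>
    intro q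
    exact wa_okD_empty P q
  | succ k ih =>
    intro q
    rw [List.replicate_succ]
    refine ⟨wa_okD_empty P q, by simp, ?_⟩
    simpa using ih q

theorem wa_tcount_rep (P : ℕ) (k : ℕ) : tcount P ∅ (List.replicate k (false, ∅)) = 0 := by
  induction k with
  | zero => rfl
  | succ k ih =>
    rw [List.replicate_succ]
    simp [tcount, ih]

theorem wa_scount_rep (P sg : ℕ) (half : Bool) (q k : ℕ) :
    scount P sg half q (List.replicate k (false, ∅)) =
      k * rowc P q + (if half = true then midc P sg q else 0) := by
  induction k with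
  | zero => simp [scount]
  | succ k ih =>
    rw [List.replicate_succ]
    simp only [scount]
    simp only [Bool.false_eq_true, if_false]
    rw [ih]
    ring

theorem wa_tyl_rep (k i : ℕ) : tyl (List.replicate k (false, ∅)) i = false := by
  unfold tyl
  rw [List.getD_eq_getElem?_getD, List.getElem?_replicate]
  split_ifs <;> simp

theorem wa_lastD (r : List (Finset ℕ)) (D0 : Finset ℕ) (k : ℕ) :
    lastD D0 (waRows r (List.replicate k (false, ∅))) = ∅ := by
  unfold lastD Dl
  rw [waRows_length, if_neg (by omega)]
  unfold waRows
  by_cases hk : k = 0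
  · subst hk
    simp only [List.replicate_zero, List.append_nil, List.length_nil, add_zero]
    rw [List.getD_eq_getElem _ _ (by simp)]
    simp
  · rw [List.getD_append_right _ _ _ _ (by simp; omega)]
    rw [List.getD_eq_getElem _ _ (by simp; omega)]
    simp

/-- Apply `list_main` with `D0 = w.headD ∅`, `rows = upw w ++ replicate (b / 2) (false, ∅)`,
`half = (b % 2 = 1)` and `R1_one`. -/
theorem kind_one (P sg p b : ℕ) (w : List (Finset ℕ)) (hw0 : w ≠ []) (hP : 2 ≤ P)
    (hsg : sg = 0 ∨ (sg = P ∧ P % 2 = 0)) (hb : 1 ≤ b) (hv : WV P p w)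
    (hex : ∃ D ∈ w, ExactD P D) (ht : 0 < tw P w) (hh : 0 < hw w)
    (hs : 0 < b / 2 * rowc P (p + w.length) + b % 2 * midc P sg (p + w.length)) :
    (tw P w, b / 2 * rowc P (p + w.length) + b % 2 * midc P sg (p + w.length), hw w) ∈ Sigma3 := by
  obtain ⟨D0, r, rfl⟩ : ∃ D0 r, w = D0 :: r := by
    cases w with
    | nil => exact absurd rfl hw0
    | cons D0 r => exact ⟨D0, r, rfl⟩
  set half : Bool := decide (b % 2 = 1) with hhalf
  set R : Rows := List.replicate (b / 2) (false, ∅) with hR
  have hR1 : R.length = b / 2 := by simp [hR]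
  have ets : scount P sg half p (waRows r R) =
      b / 2 * rowc P (p + (D0 :: r).length) + b % 2 * midc P sg (p + (D0 :: r).length) := by
    rw [wa_scount, hR, wa_scount_rep, List.length_cons]
    congr 1
    by_cases h : b % 2 = 1
    · simp [hhalf, h]
    · have h0 : b % 2 = 0 := by omega
      simp [hhalf, h0]
  have ett : tcount P D0 (waRows r R) = tw P (D0 :: r) := by
    rw [wa_tcount, hR, wa_tcount_rep, add_zero]
  have eth : hcount D0 (waRows r R) = hw (D0 :: r) := by
    rw [wa_hcount, hR]
    simp
  have hlen : (waRows r R).length = r.length + 1 + b / 2 := by rw [waRows_length, hR1]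
  have main := list_main P sg p D0 (waRows r R) half hP (by
      intro h
      have := congrArg List.length h
      rw [hlen] at this
      simp at this) hsg (wa_LV P R r p D0 hv (wa_LV_rep P _ _)) (fun _ => by rw [hR]; exact wa_lastD r D0 _)
    (by
      intro _ hhf
      have hb2 : b % 2 = 0 := by
        by_contra hc
        have h1 : b % 2 = 1 := by omega
        rw [hhalf] at hhf
        simp [h1] at hhf
      rw [hlen, wa_tyl, if_neg (by omega), hR]
      exact wa_tyl_rep _ _)
    (by
      refine R1_one _ (r.length + 1) b (by omega) hb ?_ ?_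
      · show 2 * (waRows r R).length + (if half = true then 1 else 0) = 2 * (r.length + 1) + b
        rw [hlen]
        by_cases h : b % 2 = 1
        · simp [hhalf, h]
          omega
        · have h0 : b % 2 = 0 := by omega
          simp [hhalf, h0]
          omega
      · intro v hv1 _
        show tyl (waRows r R) (v / 2) = true ↔ v < 2 * (r.length + 1)
        rw [wa_tyl]
        split_ifs with h
        · constructor
          · intro _
            omega
          · intro _
            rfl
        · rw [hR, wa_tyl_rep]
          constructor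
          · intro h'
            exact absurd h' (by simp)
          · intro h'
            omega)
    (by
      obtain ⟨D, hD, hE⟩ := hex
      obtain ⟨i, hi, hDi⟩ := wa_Dl_mem r R D0 D hD
      exact ⟨i, hi, by rw [hDi]; exact hE⟩)
    ⟨0, by rw [hlen]; omega, by rw [wa_tyl, if_pos (by omega)]⟩
    (by
      by_cases h : b % 2 = 1
      · left
        simp [hhalf, h]
      · right
        refine ⟨r.length + 1, by rw [hlen]; omega, ?_⟩
        rw [wa_tyl, if_neg (by omega), hR]
        exact wa_tyl_rep _ _)
    (by rw [ett]; exact ht) (by rw [ets]; exact hs) (by rw [eth]; exact hh)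
  rw [ett, ets, eth] at main
  exact main

end Pool.Agent.Lib.H54T
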