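import Mathlib
import Pool.Agent.Lib.H54T.WDefs
import Pool.Agent.Lib.H54T.LM
import Pool.Agent.Lib.H54T.KC
import Pool.Agent.Lib.H54T.WA

/-! # H54T, chunk WB: second kind: a strip of triangles and hexagons, a row of squares, a row of
triangles, `b` rows of squares, a row of triangles, a row of squares -/

namespace Pool.Agent.Lib.H54T

theorem wb_tc_empty (P : ℕ) : tc P ∅ ∅ = P + 1 := by
  simp [tc, unc]

theorem wb_lastD (r : List (Finset ℕ)) (D0 : Finset ℕ) (k : ℕ) :
    lastD D0 (waRows r ((false, ∅) :: (true, ∅) :: List.replicate k (false, ∅))) = ∅ := by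
  unfold lastD Dl
  rw [waRows_length, if_neg (by omega)]
  unfold waRows
  rw [List.getD_append_right _ _ _ _ (by simp)]
  rw [List.getD_eq_getElem _ _ (by simp)]
  simp only [List.length_map, List.length_append, List.length_cons, List.length_nil,
    List.length_replicate]
  by_cases hk : k = 0
  · subst hk
    simp
  · obtain ⟨k', rfl⟩ : ∃ k', k = k' + 1 := ⟨k - 1, by omega⟩
    have e : r.length + 1 + (k' + 1 + 1 + 1) - 1 - (r.length + (0 + 1)) = k' + 2 := by omega
    simp only [e]
    simp

/-- Apply `list_main` with `D0 = w.headD ∅`,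
`rows = upw w ++ [(false, ∅), (true, ∅)] ++ replicate (b / 2) (false, ∅)`, `half = (b % 2 = 1)` and
`R1_two`; `tc P ∅ ∅ = P + 1`. -/
theorem kind_two (P sg p b : ℕ) (w : List (Finset ℕ)) (hw0 : w ≠ []) (hP : 2 ≤ P)
    (hsg : sg = 0 ∨ (sg = P ∧ P % 2 = 0)) (hb : 1 ≤ b) (hv : WV P p w)
    (hex : ∃ D ∈ w, ExactD P D) (hh : 0 < hw w)
    (hs : 0 < rowc P (p + w.length) + (b / 2 * rowc P (p + w.length + 1) +
      b % 2 * midc P sg (p + w.length + 1))) :
    (tw P w + (P + 1), rowc P (p + w.length) + (b / 2 * rowc P (p + w.length + 1) +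
      b % 2 * midc P sg (p + w.length + 1)), hw w) ∈ Sigma3 := by
  obtain ⟨D0, r, rfl⟩ : ∃ D0 r, w = D0 :: r := by
    cases w with
    | nil => exact absurd rfl hw0
    | cons D0 r => exact ⟨D0, r, rfl⟩
  set half : Bool := decide (b % 2 = 1) with hhalf
  set R : Rows := (false, ∅) :: (true, ∅) :: List.replicate (b / 2) (false, ∅) with hR
  have hR1 : R.length = b / 2 + 2 := by simp [hR]
  have hRt : ∀ i, tyl R i = decide (i = 1) := by
    intro i
    rw [hR]
    match i with
    | 0 => simp [tyl]
    | 1 => simp [tyl]
    | (j + 2) =>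
      have := wa_tyl_rep (b / 2) j
      simp only [tyl] at this ⊢
      simpa using this
  have ets : scount P sg half p (waRows r R) =
      rowc P (p + (D0 :: r).length) + (b / 2 * rowc P (p + (D0 :: r).length + 1) +
      b % 2 * midc P sg (p + (D0 :: r).length + 1)) := by
    rw [wa_scount, hR, List.length_cons]
    simp only [scount, if_true, Bool.false_eq_true, if_false, zero_add]
    rw [wa_scount_rep]
    congr 2
    by_cases h : b % 2 = 1
    · simp [hhalf, h]
    · have h0 : b % 2 = 0 := by omega
      simp [hhalf, h0]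
  have ett : tcount P D0 (waRows r R) = tw P (D0 :: r) + (P + 1) := by
    rw [wa_tcount, hR]
    simp only [tcount, if_true, Bool.false_eq_true, if_false, zero_add]
    rw [wa_tcount_rep, wb_tc_empty, add_zero]
  have eth : hcount D0 (waRows r R) = hw (D0 :: r) := by
    rw [wa_hcount, hR]
    simp
  have hlen : (waRows r R).length = r.length + 1 + (b / 2 + 2) := by rw [waRows_length, hR1]
  have hLVR : LV P (p + (r.length + 1)) ∅ R := by
    rw [hR]
    refine ⟨wa_okD_empty _ _, by simp, ?_⟩
    refine ⟨wa_okD_empty _ _, by simpa using wa_comp_right P ∅, ?_⟩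
    exact wa_LV_rep P _ _
  have main := list_main P sg p D0 (waRows r R) half hP (by
      intro h
      have := congrArg List.length h
      rw [hlen] at this
      simp at this) hsg (wa_LV P R r p D0 hv hLVR) (fun _ => by rw [hR]; exact wb_lastD r D0 _)
    (by
      intro _ hhf
      have hb2 : b % 2 = 0 := by
        by_contra hc
        have h1 : b % 2 = 1 := by omega
        rw [hhalf] at hhf
        simp [h1] at hhf
      rw [hlen, wa_tyl, if_neg (by omega), hRt]
      simp
      omega)
    (by
      refine R1_two _ (r.length + 1) b (by omega) hb ?_ ?_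
      · show 2 * (waRows r R).length + (if half = true then 1 else 0) = 2 * (r.length + 1) + 4 + b
        rw [hlen]
        by_cases h : b % 2 = 1
        · simp [hhalf, h]
          omega
        · have h0 : b % 2 = 0 := by omega
          simp [hhalf, h0]
          omega
      · intro v hv1 _
        show tyl (waRows r R) (v / 2) = true ↔
          v < 2 * (r.length + 1) ∨ v = 2 * (r.length + 1) + 3
        rw [wa_tyl]
        split_ifs with h
        · constructor
          · intro _
            omega
          · intro _
            rfl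
        · rw [hRt]
          simp only [decide_eq_true_eq]
          omega)
    (by
      obtain ⟨D, hD, hE⟩ := hex
      obtain ⟨i, hi, hDi⟩ := wa_Dl_mem r R D0 D hD
      exact ⟨i, hi, by rw [hDi]; exact hE⟩)
    ⟨0, by rw [hlen]; omega, by rw [wa_tyl, if_pos (by omega)]⟩
    (by
      right
      refine ⟨r.length + 1, by rw [hlen]; omega, ?_⟩
      rw [wa_tyl, if_neg (by omega), hRt]
      simp)
    (by rw [ett]; omega) (by rw [ets]; exact hs) (by rw [eth]; exact hh)
  rw [ett, ets, eth] at main
  exact main

end Pool.Agent.Lib.H54T
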