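import Mathlib
import Pool.Agent.Lib.H54T.WDefs
import Pool.Agent.Lib.H54T.LM
import Pool.Agent.Lib.H54T.KD
import Pool.Agent.Lib.H54T.WA

/-! # H54T, chunk WC: third kind: two strips of triangles and hexagons of different widths, separated
by strips of `b` rows of squares -/

namespace Pool.Agent.Lib.H54T

theorem wc_okD (P p q : ℕ) (D : Finset ℕ) (h : p % 2 = q % 2) (hD : okD P p D) : okD P q D := by
  intro Y hY
  have := hD Y hY
  rw [h] at this
  exact this

theorem wc_comp (P : ℕ) (D D' : Finset ℕ) (h : comp P D D') : comp P D' D := by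
  intro Y hY Z hZ
  have := h Z hZ Y hY
  omega

theorem wc_tc (P : ℕ) (D D' : Finset ℕ) : tc P D D' = tc P D' D := by
  unfold tc
  congr 1
  apply Finset.filter_congr
  intro Y _
  unfold unc
  simp only [decide_eq_true_eq]
  exact and_comm

/-- The up rows as rows of a list. -/
def wcT (v : List (Finset ℕ)) : Rows := v.map (fun D => (true, D))

theorem wc_LV (P : ℕ) (v : List (Finset ℕ)) : ∀ (q : ℕ) (D : Finset ℕ), WV P q (D :: v) →
    LV P q D (wcT v) := by
  induction v with
  | nil =>
    intro q D h
    exact h
  | cons D' v ih =>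
    intro q D h
    obtain ⟨h1, h2, h3⟩ := h
    exact ⟨h1, by simpa using h2, ih (q + 1) D' h3⟩

theorem wc_snoc (P : ℕ) (D' D : Finset ℕ) (l : List (Finset ℕ)) : ∀ q : ℕ, WV P q (l ++ [D']) →
    comp P D' D → okD P (q + l.length + 1) D → WV P q (l ++ [D'] ++ [D]) := by
  induction l with
  | nil =>
    intro q h1 h2 h3
    exact ⟨h1, h2, h3⟩
  | cons E l ih =>
    intro q h1 h2 h3
    cases l with
    | nil =>
      obtain ⟨g1, g2, g3⟩ := h1
      exact ⟨g1, g2, g3, h2, h3⟩
    | cons F l =>
      obtain ⟨g1, g2, g3⟩ := h1
      refine ⟨g1, g2, ?_⟩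
      apply ih (q + 1) g3 h2
      have e : q + 1 + (F :: l).length + 1 = q + (E :: F :: l).length + 1 := by
        simp
        omega
      rw [e]
      exact h3

theorem wc_rev (P : ℕ) (l : List (Finset ℕ)) : ∀ p q : ℕ, WV P p l →
    (q + l.length) % 2 = (p + 1) % 2 → WV P q l.reverse := by
  induction l with
  | nil =>
    intro p q _ _
    exact trivial
  | cons D l ih =>
    intro p q h hpq
    cases l with
    | nil =>
      simp only [List.reverse_cons, List.reverse_nil, List.nil_append]
      simp only [List.length_cons, List.length_nil] at hpq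
      exact wc_okD P p q D (by omega) h
    | cons D' r =>
      obtain ⟨h1, h2, h3⟩ := h
      simp only [List.length_cons] at hpq
      have := ih (p + 1) q h3 (by simp only [List.length_cons]; omega)
      rw [List.reverse_cons] at this
      rw [List.reverse_cons, List.reverse_cons]
      apply wc_snoc P D' D _ q this (wc_comp P D D' h2)
      apply wc_okD P p _ D _ h1
      rw [List.length_reverse]
      omega

/-- The sum over neighbours. -/
def wcS (P : ℕ) : List (Finset ℕ) → ℕ
  | [] => 0
  | [_] => 0
  | D :: D' :: r => tc P D D' + wcS P (D' :: r)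

theorem wc_tcount (P : ℕ) (v : List (Finset ℕ)) : ∀ D : Finset ℕ,
    tcount P D (wcT v) = wcS P (D :: v) := by
  induction v with
  | nil =>
    intro D
    rfl
  | cons D' v ih =>
    intro D
    show (if true = true then tc P D D' else 0) + tcount P D' (wcT v) = _
    rw [ih D']
    simp [wcS]

theorem wc_tw (P : ℕ) (v : List (Finset ℕ)) : ∀ D : Finset ℕ,
    tw P (D :: v) = wcS P ((D :: v) ++ [∅]) := by
  induction v with
  | nil =>
    intro D
    simp [tw, wcS]
  | cons D' v ih =>
    intro D
    have := ih D'
    simp only [tw, List.cons_append, wcS] at this ⊢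
    rw [this]

theorem wc_S_snoc (P : ℕ) (D' D : Finset ℕ) (l : List (Finset ℕ)) :
    wcS P (l ++ [D'] ++ [D]) = wcS P (l ++ [D']) + tc P D' D := by
  induction l with
  | nil => simp [wcS]
  | cons E l ih =>
    cases l with
    | nil => simp [wcS]
    | cons F l =>
      simp only [List.cons_append, wcS] at ih ⊢
      rw [ih]
      ring

theorem wc_S_rev (P : ℕ) (l : List (Finset ℕ)) : wcS P l.reverse = wcS P l := by
  induction l with
  | nil => rfl
  | cons D l ih =>
    cases l with
    | nil => rfl
    | cons D' r =>
      rw [List.reverse_cons] at ih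
      rw [List.reverse_cons, List.reverse_cons, wc_S_snoc, ih, wc_tc]
      simp only [wcS]
      ring

theorem wc_tcount_dnw (P : ℕ) (w : List (Finset ℕ)) (h : w ≠ []) :
    tcount P ∅ (wcT w.reverse) = tw P w := by
  obtain ⟨D, r, rfl⟩ : ∃ D0 r, w = D0 :: r := by
    cases w with
    | nil => exact absurd rfl h
    | cons D0 r => exact ⟨D0, r, rfl⟩
  rw [wc_tcount, wc_tw, ← wc_S_rev]
  congr 1
  simp

theorem wc_LV_rep (P q b : ℕ) (X : Rows) (h : LV P q ∅ X) :
    LV P q ∅ (List.replicate b (false, ∅) ++ X) := by
  induction b with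
  | zero => simpa using h
  | succ b ih =>
    rw [List.replicate_succ, List.cons_append]
    refine ⟨wa_okD_empty P q, by simp, ?_⟩
    simpa using ih

theorem wc_tcount_rep (P b : ℕ) (X : Rows) :
    tcount P ∅ (List.replicate b (false, ∅) ++ X) = tcount P ∅ X := by
  induction b with
  | zero => simp
  | succ b ih =>
    rw [List.replicate_succ, List.cons_append]
    simp [tcount, ih]

theorem wc_scount_rep (P sg q b : ℕ) (half : Bool) (X : Rows) :
    scount P sg half q (List.replicate b (false, ∅) ++ X) = b * rowc P q + scount P sg half q X := by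
  induction b with
  | zero => simp
  | succ b ih =>
    rw [List.replicate_succ, List.cons_append]
    simp only [scount, Bool.false_eq_true, if_false]
    rw [ih]
    ring

theorem wc_scount_T (P sg : ℕ) (v : List (Finset ℕ)) : ∀ q : ℕ, scount P sg false q (wcT v) = 0 := by
  induction v with
  | nil =>
    intro q
    simp [wcT, scount]
  | cons D v ih =>
    intro q
    show (if true = true then 0 else rowc P q) +
      scount P sg false (if true = true then q + 1 else q) (wcT v) = 0
    rw [ih]
    simp

theorem wc_tyl_mid (b : ℕ) (v : List (Finset ℕ)) (i : ℕ) (hi : i < b + v.length) :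
    tyl (List.replicate b (false, ∅) ++ wcT v) i = decide (b ≤ i) := by
  unfold tyl
  by_cases h : i < b
  · rw [List.getD_append _ _ _ _ (by simpa using h)]
    rw [List.getD_eq_getElem _ _ (by simpa using h)]
    simp [h]
  · rw [List.getD_append_right _ _ _ _ (by simpa using h)]
    rw [List.getD_eq_getElem _ _ (by simp [wcT]; omega)]
    simp [wcT]
    omega

theorem wc_Dl_mem (r : List (Finset ℕ)) (b : ℕ) (v : List (Finset ℕ)) (D0 D : Finset ℕ)
    (h : D ∈ v) : ∃ i ≤ (waRows r (List.replicate b (false, ∅) ++ wcT v)).length,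
      Dl D0 (waRows r (List.replicate b (false, ∅) ++ wcT v)) i = D := by
  obtain ⟨j, hj, hjD⟩ := List.getElem_of_mem h
  refine ⟨r.length + 1 + b + j + 1, ?_, ?_⟩
  · rw [waRows_length]
    simp [wcT]
    omega
  · unfold Dl waRows
    rw [if_neg (by omega)]
    rw [List.getD_append_right _ _ _ _ (by simp; omega)]
    rw [List.getD_append_right _ _ _ _ (by simp; omega)]
    rw [List.getD_eq_getElem _ _ (by simp [wcT]; omega)]
    have e : r.length + 1 + b + j + 1 - 1 - (List.map (fun D => (true, D)) (r ++ [∅])).length -
        (List.replicate b (false, (∅ : Finset ℕ))).length = j := by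
      simp
      omega
    simp only [e]
    simp [wcT, hjD]

/-- Apply `list_main` with `sg = 0`, `D0 = w.headD ∅`,
`rows = upw w ++ replicate b (false, ∅) ++ dnw w'`, `half = false` and `R1_three` (`tc` and `comp` are
symmetric). -/
theorem kind_three (P p p' b : ℕ) (w w' : List (Finset ℕ)) (hw0 : w ≠ []) (hw0' : w' ≠ [])
    (hP : 2 ≤ P) (hb : 1 ≤ b) (hv : WV P p w) (hv' : WV P p' w') (hlen : w.length ≠ w'.length)
    (hpar : (p + w.length) % 2 = (p' + w'.length) % 2)
    (hex : (∃ D ∈ w, ExactD P D) ∨ (∃ D ∈ w', ExactD P D)) (ht : 0 < tw P w + tw P w')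
    (hh : 0 < hw w + hw w') (hs : 0 < b * rowc P (p + w.length)) :
    (tw P w + tw P w', b * rowc P (p + w.length), hw w + hw w') ∈ Sigma3 := by
  obtain ⟨D0, r, rfl⟩ : ∃ D0 r, w = D0 :: r := by
    cases w with
    | nil => exact absurd rfl hw0
    | cons D0 r => exact ⟨D0, r, rfl⟩
  set X : Rows := wcT w'.reverse with hX
  set R : Rows := List.replicate b (false, ∅) ++ X with hR
  have hX1 : X.length = w'.length := by simp [hX, wcT]
  have hR1 : R.length = b + w'.length := by simp [hR, hX1]
  have hw'1 : 1 ≤ w'.length := by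
    rcases w' with _ | ⟨a, l⟩
    · exact absurd rfl hw0'
    · simp
  have hlen' : r.length + 1 ≠ w'.length := by simpa using hlen
  have ets : scount P 0 false p (waRows r R) = b * rowc P (p + (D0 :: r).length) := by
    rw [wa_scount, hR, wc_scount_rep, hX, wc_scount_T, List.length_cons, add_zero]
  have ett : tcount P D0 (waRows r R) = tw P (D0 :: r) + tw P w' := by
    rw [wa_tcount, hR, wc_tcount_rep, hX, wc_tcount_dnw P w' hw0']
  have eth : hcount D0 (waRows r R) = hw (D0 :: r) + hw w' := by
    rw [wa_hcount, hR, hX]
    congr 1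
    show _ = (w'.map (fun D => D.card)).sum
    simp [wcT, Function.comp_def]
  have hlenR : (waRows r R).length = r.length + 1 + (b + w'.length) := by rw [waRows_length, hR1]
  have hLVX : LV P (p + (r.length + 1)) ∅ X := by
    rw [hX]
    apply wc_LV
    have h2 := wc_rev P w' p' (p + (r.length + 1) + 1) hv' (by
      simp only [List.length_cons] at hpar
      omega)
    have hne : w'.reverse ≠ [] := by simpa using hw0'
    obtain ⟨E, l, hl⟩ : ∃ E l, w'.reverse = E :: l := by
      cases h : w'.reverse with
      | nil => exact absurd h hne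
      | cons E l => exact ⟨E, l, rfl⟩
    rw [hl] at h2 ⊢
    exact ⟨wa_okD_empty _ _, wa_comp_left _ _, h2⟩
  have htyl : ∀ i, i < r.length + 1 + (b + w'.length) →
      (tyl (waRows r R) i = true ↔ i < r.length + 1 ∨ r.length + 1 + b ≤ i) := by
    intro i hi
    rw [wa_tyl]
    split_ifs with h
    · simp only [true_iff]
      left
      exact h
    · rw [hR, hX, wc_tyl_mid b _ _ (by simp; omega)]
      simp only [decide_eq_true_eq]
      omega
  have main := list_main P 0 p D0 (waRows r R) false hP (by
      intro h
      have := congrArg List.length h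
      rw [hlenR] at this
      simp at this) (Or.inl rfl) (wa_LV P R r p D0 hv (wc_LV_rep P _ b X hLVX))
    (fun h => absurd h (by simp)) (fun h => absurd rfl h)
    (by
      refine R1_three _ (r.length + 1) b w'.length (by omega) hb hw'1 hlen' ?_ ?_
      · show 2 * (waRows r R).length + (if false = true then 1 else 0) =
          2 * (r.length + 1) + 2 * b + 2 * w'.length
        rw [hlenR]
        simp
        omega
      · intro v hv1 hvn
        have hvn' : v ≤ 2 * (waRows r R).length + (if false = true then 1 else 0) := hvn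
        rw [hlenR] at hvn'
        simp only [Bool.false_eq_true, if_false] at hvn'
        show tyl (waRows r R) (v / 2) = true ↔ _
        rw [htyl _ (by omega)]
        omega)
    (by
      rcases hex with ⟨D, hD, hE⟩ | ⟨D, hD, hE⟩
      · obtain ⟨i, hi, hDi⟩ := wa_Dl_mem r R D0 D hD
        exact ⟨i, hi, by rw [hDi]; exact hE⟩
      · obtain ⟨i, hi, hDi⟩ := wc_Dl_mem r b w'.reverse D0 D (by simpa using hD)
        exact ⟨i, hi, by rw [hR, hX, hDi]; exact hE⟩)
    ⟨0, by rw [hlenR]; omega, (htyl 0 (by omega)).2 (Or.inl (by omega))⟩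
    (by
      right
      refine ⟨r.length + 1, by rw [hlenR]; omega, ?_⟩
      have := htyl (r.length + 1) (by omega)
      by_contra hc
      rw [Bool.not_eq_false] at hc
      rw [this] at hc
      omega)
    (by rw [ett]; exact ht) (by rw [ets]; exact hs) (by rw [eth]; exact hh)
  rw [ett, ets, eth] at main
  exact main

end Pool.Agent.Lib.H54T
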