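import Mathlib
import Pool.Agent.Lib.H54T.XDefs
import Pool.Agent.Lib.H54T.LE

/-! # H54T, chunk XA1: lines of exact period -/

namespace Pool.Agent.Lib.H54T

/-- `exactD_of`, finite checks. -/
theorem exact6 (D : Finset ℕ) (h : D = {0} ∨ D = {6} ∨ D = {2} ∨ D = {4}) : ExactD 6 D := by
  rcases h with rfl | rfl | rfl | rfl
  · exact exactD_of 6 (by norm_num) _ (by decide)
  · exact exactD_of 6 (by norm_num) _ (by decide)
  · exact exactD_of 6 (by norm_num) _ (by decide)
  · exact exactD_of 6 (by norm_num) _ (by decide)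

theorem exact4 (D : Finset ℕ) (h : D = {0} ∨ D = {4}) : ExactD 4 D := by
  rcases h with rfl | rfl
  · exact exactD_of 4 (by norm_num) _ (by decide)
  · exact exactD_of 4 (by norm_num) _ (by decide)

theorem exB6_spec (w : List (List ℕ)) (h : exB6 w = true) : ∃ D ∈ toW w, ExactD 6 D := by
  unfold exB6 at h
  rw [List.any_eq_true] at h
  obtain ⟨D, hD, h1⟩ := h
  refine ⟨D.toFinset, List.mem_map.2 ⟨D, hD, rfl⟩, exact6 _ ?_⟩
  simp only [Bool.or_eq_true, decide_eq_true_eq] at h1
  rcases h1 with ((rfl | rfl) | rfl) | rfl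
  · left; rfl
  · right; left; rfl
  · right; right; left; rfl
  · right; right; right; rfl

theorem exB4_spec (w : List (List ℕ)) (h : exB4 w = true) : ∃ D ∈ toW w, ExactD 4 D := by
  unfold exB4 at h
  rw [List.any_eq_true] at h
  obtain ⟨D, hD, h1⟩ := h
  refine ⟨D.toFinset, List.mem_map.2 ⟨D, hD, rfl⟩, exact4 _ ?_⟩
  simp only [Bool.or_eq_true, decide_eq_true_eq] at h1
  rcases h1 with rfl | rfl
  · left; rfl
  · right; rfl

theorem hasPump_spec (w : List (List ℕ)) (h : hasPump w = true) :
    ∃ u v : List (Finset ℕ), toW w = u ++ {0, 6} :: {3} :: v ∨ toW w = u ++ {3} :: {0, 6} :: v := by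
  induction w with
  | nil => exact absurd h (by simp [hasPump])
  | cons D r ih =>
    cases r with
    | nil => exact absurd h (by simp [hasPump])
    | cons D' r =>
      rw [hasPump] at h
      simp only [Bool.or_eq_true, Bool.and_eq_true, decide_eq_true_eq] at h
      rcases h with (⟨rfl, rfl⟩ | ⟨rfl, rfl⟩) | h
      · exact ⟨[], toW r, Or.inl (by simp [toW])⟩
      · exact ⟨[], toW r, Or.inr (by simp [toW])⟩
      · obtain ⟨u, v, h1⟩ := ih h
        refine ⟨D.toFinset :: u, v, ?_⟩
        rcases h1 with h1 | h1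
        · left
          show D.toFinset :: toW (D' :: r) = _
          rw [h1]
          rfl
        · right
          show D.toFinset :: toW (D' :: r) = _
          rw [h1]
          rfl

end Pool.Agent.Lib.H54T
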