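import Mathlib
import Pool.Agent.Lib.H54T.XDefs

/-! # H54T, chunk XA2: adding a row of triangles at the boundary -/

namespace Pool.Agent.Lib.H54T

theorem xa2_tc (P : ℕ) : tc P ∅ ∅ = P + 1 := by
  unfold tc
  rw [Finset.filter_true_of_mem, Finset.card_range]
  intro Y _
  simp [unc]

theorem xa2_tw (P : ℕ) (w : List (Finset ℕ)) (hw : w ≠ []) :
    tw P (w ++ [∅]) = tw P w + (P + 1) := by
  induction w with
  | nil => exact absurd rfl hw
  | cons D r ih =>
    cases r with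
    | nil =>
      show tc P D ∅ + tw P [∅] = tc P D ∅ + (P + 1)
      rw [tw, xa2_tc]
    | cons D' r =>
      have h1 := ih (by simp)
      show tc P D D' + tw P (D' :: r ++ [∅]) = tc P D D' + tw P (D' :: r) + (P + 1)
      rw [h1]
      ring

theorem xa2_WV (P : ℕ) (w : List (Finset ℕ)) (hw : w ≠ []) :
    ∀ p, WV P p w → WV P p (w ++ [∅]) := by
  induction w with
  | nil => exact absurd rfl hw
  | cons D r ih =>
    intro p h
    cases r with
    | nil =>
      show okD P p D ∧ comp P D ∅ ∧ WV P (p + 1) [∅]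
      refine ⟨h, ?_, ?_⟩
      · intro Y _ Z hZ
        exact absurd hZ (Finset.notMem_empty Z)
      · show okD P (p + 1) ∅
        intro Y hY
        exact absurd hY (Finset.notMem_empty Y)
    | cons D' r =>
      exact ⟨h.1, h.2.1, ih (by simp) (p + 1) h.2.2⟩

/-- Append the empty line: `tw` increases by `tc P ∅ ∅ = P + 1`. -/
theorem WQ_add (P q t h p : ℕ) (w : List (Finset ℕ)) (hw : WQ P q t h p w) :
    WQ P (q + 1) (t + (P + 1)) h p (w ++ [∅]) := by
  obtain ⟨h1, h2, h3, h4, h5⟩ := hw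
  refine ⟨by simp, xa2_WV P w h1 p h2, ?_, ?_, ?_⟩
  · rw [List.length_append, List.length_singleton]
    omega
  · rw [xa2_tw P w h1, h4]
  · unfold Pool.Agent.Lib.H54T.hw at h5 ⊢
    rw [List.map_append, List.sum_append, h5]
    simp

theorem RW_add (P q t h L : ℕ) (hw : RW P q t h L) : RW P (q + 1) (t + (P + 1)) h (L + 1) := by
  obtain ⟨p, w, h1, h2, D, hD, h3⟩ := hw
  refine ⟨p, w ++ [∅], WQ_add P q t h p w h1, ?_, D, List.mem_append_left _ hD, h3⟩
  rw [List.length_append, List.length_singleton, h2]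

theorem NW_add (P q t h L : ℕ) (hw : NW P q t h L) : NW P (q + 1) (t + (P + 1)) h (L + 1) := by
  obtain ⟨p, w, h1, h2⟩ := hw
  refine ⟨p, w ++ [∅], WQ_add P q t h p w h1, ?_⟩
  rw [List.length_append, List.length_singleton, h2]

/-- Only the parity of `q` matters. -/
theorem RW_parity (P q q' t h L : ℕ) (hq : q % 2 = q' % 2) (hw : RW P q t h L) :
    RW P q' t h L := by
  obtain ⟨p, w, ⟨h1, h2, h3, h4⟩, h5⟩ := hw
  exact ⟨p, w, ⟨h1, h2, by omega, h4⟩, h5⟩

theorem C6_add14 (q t h : ℕ) (hc : C6 q t h) : C6 q (t + 14) h := by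
  obtain ⟨L, hL⟩ := hc
  exact ⟨L + 1 + 1, RW_parity 6 (q + 1 + 1) q _ h _ (by omega)
    (RW_add 6 (q + 1) (t + 7) h (L + 1) (RW_add 6 q t h L hL))⟩

/-- Add two rows of triangles to the first word. -/
theorem D6_add14 (q t h : ℕ) (hc : D6 q t h) : D6 q (t + 14) h := by
  obtain ⟨L, L', t1, t2, h1, h2, hL, hR, hN, ht, hh⟩ := hc
  refine ⟨L + 1 + 1, L', t1 + 14, t2, h1, h2, by omega, ?_, hN, by omega, hh⟩
  exact RW_parity 6 (q + 1 + 1) q _ _ _ (by omega)
    (RW_add 6 (q + 1) (t1 + 7) h1 (L + 1) (RW_add 6 q t1 h1 L hR))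

end Pool.Agent.Lib.H54T
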