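import Mathlib
import Pool.Agent.Lib.H54T.XDefs

/-! # H54T, chunk XA3: more lines of the hexagonal lattice -/

namespace Pool.Agent.Lib.H54T

theorem xa3_tw (P : ℕ) (A : Finset ℕ) (r r' : List (Finset ℕ))
    (h : tw P (A :: r) = tw P (A :: r')) (u : List (Finset ℕ)) :
    tw P (u ++ A :: r) = tw P (u ++ A :: r') := by
  induction u with
  | nil => exact h
  | cons D u ih =>
    cases u with
    | nil =>
      show tc P D A + tw P (A :: r) = tc P D A + tw P (A :: r')
      rw [h]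
    | cons E u =>
      show tc P D E + tw P (E :: u ++ A :: r) = tc P D E + tw P (E :: u ++ A :: r')
      rw [ih]

theorem xa3_WV (P : ℕ) (A : Finset ℕ) (r r' : List (Finset ℕ))
    (h : ∀ p, WV P p (A :: r) → WV P p (A :: r')) (u : List (Finset ℕ)) :
    ∀ p, WV P p (u ++ A :: r) → WV P p (u ++ A :: r') := by
  induction u with
  | nil => exact h
  | cons D u ih =>
    cases u with
    | nil => exact fun p hp => ⟨hp.1, hp.2.1, h (p + 1) hp.2.2⟩
    | cons E u => exact fun p hp => ⟨hp.1, hp.2.1, ih (p + 1) hp.2.2⟩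

theorem xa3_okD (P p : ℕ) (D : Finset ℕ) (h : okD P p D) : okD P (p + 2) D := by
  intro Y hY
  obtain ⟨h1, h2, h3⟩ := h Y hY
  exact ⟨h1, by omega, h3⟩

theorem xa3_par (P : ℕ) (w : List (Finset ℕ)) : ∀ p, WV P p w → WV P (p + 2) w := by
  induction w with
  | nil => exact fun _ _ => trivial
  | cons D r ih =>
    cases r with
    | nil => exact fun p h => xa3_okD P p D h
    | cons E r =>
      intro p h
      have h1 := ih (p + 1) h.2.2
      exact ⟨xa3_okD P p D h.1, h.2.1, h1⟩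

theorem xa3_head (P p : ℕ) (D : Finset ℕ) (r : List (Finset ℕ)) (h : WV P p (D :: r)) :
    okD P p D := by
  cases r with
  | nil => exact h
  | cons E r => exact h.1

theorem xa3_pump (A B : Finset ℕ) (hAB : tc 6 A B = 0) (hBA : tc 6 B A = 0) (hc : comp 6 B A)
    (hcard : A.card + B.card = 3) (q t h p : ℕ) (u v : List (Finset ℕ))
    (hw : WQ 6 q t h p (u ++ A :: B :: v)) :
    WQ 6 q t (h + 3) p (u ++ A :: B :: A :: B :: v) := by
  obtain ⟨h1, h2, h3, h4, h5⟩ := hw
  refine ⟨by simp, ?_, ?_, ?_, ?_⟩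
  · refine xa3_WV 6 A (B :: v) (B :: A :: B :: v) (fun p hp => ?_) u p h2
    have hB := hp.2.2
    have h6 := xa3_par 6 (B :: v) (p + 1) hB
    exact ⟨hp.1, hp.2.1, xa3_head 6 _ B v hB, hc, xa3_okD 6 p A hp.1, hp.2.1, h6⟩
  · simp only [List.length_append, List.length_cons] at h3 ⊢
    omega
  · rw [← h4]
    refine xa3_tw 6 A _ _ ?_ u
    show tc 6 A B + (tc 6 B A + (tc 6 A B + tw 6 (B :: v))) = tc 6 A B + tw 6 (B :: v)
    omega
  · rw [← h5]
    unfold Pool.Agent.Lib.H54T.hw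
    simp only [List.map_append, List.map_cons, List.sum_append, List.sum_cons]
    omega

theorem xa3_mem (A B D : Finset ℕ) (u v : List (Finset ℕ)) (h : D ∈ u ++ A :: B :: v) :
    D ∈ u ++ A :: B :: A :: B :: v := by
  simp only [List.mem_append, List.mem_cons] at h ⊢
  tauto

/-- Replace `{0, 6}, {3}` by `{0, 6}, {3}, {0, 6}, {3}` (or `{3}, {0, 6}` by `{3}, {0, 6}, {3}, {0, 6}`):
`tc 6 {0, 6} {3} = 0`, the parities of all other lines are preserved. -/
theorem PW_pump (q t h L : ℕ) (hw : PW q t h L) : PW q t (h + 3) (L + 2) := by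
  obtain ⟨p, w, h1, h2, ⟨D, hD, hE⟩, u, v, h3⟩ := hw
  rcases h3 with rfl | rfl
  · refine ⟨p, u ++ {0, 6} :: {3} :: {0, 6} :: {3} :: v, xa3_pump {0, 6} {3} (by decide)
      (by decide) (by unfold comp; decide) (by decide) q t h p u v h1, ?_,
      ⟨D, xa3_mem _ _ _ _ _ hD, hE⟩, u, {0, 6} :: {3} :: v, Or.inl rfl⟩
    rw [← h2]
    simp only [List.length_append, List.length_cons]
    omega
  · refine ⟨p, u ++ {3} :: {0, 6} :: {3} :: {0, 6} :: v, xa3_pump {3} {0, 6} (by decide)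
      (by decide) (by unfold comp; decide) (by decide) q t h p u v h1, ?_,
      ⟨D, xa3_mem _ _ _ _ _ hD, hE⟩, u, {3} :: {0, 6} :: v, Or.inr rfl⟩
    rw [← h2]
    simp only [List.length_append, List.length_cons]
    omega

theorem PW_RW (q t h L : ℕ) (hw : PW q t h L) : RW 6 q t h L := by
  obtain ⟨p, w, h1, h2, h3, -⟩ := hw
  exact ⟨p, w, h1, h2, h3⟩

theorem PW_pump_k (q t h L k : ℕ) (hw : PW q t h L) : PW q t (h + 3 * k) (L + 2 * k) := by
  induction k with
  | zero => exact hw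
  | succ k ih => exact PW_pump q t (h + 3 * k) (L + 2 * k) ih

theorem DP_pump_k (q t h k : ℕ) (hw : DP q t h) : DP q t (h + 3 * k) := by
  obtain ⟨L, L', t1, t2, h1, h2, hL, hP, hN, ht, hh⟩ := hw
  exact ⟨L + 2 * k, L', t1, t2, h1 + 3 * k, h2, by omega, PW_pump_k q t1 h1 L k hP, hN, ht,
    by omega⟩

theorem DP_D6 (q t h : ℕ) (hw : DP q t h) : D6 q t h := by
  obtain ⟨L, L', t1, t2, h1, h2, hL, hP, hN, ht, hh⟩ := hw
  exact ⟨L, L', t1, t2, h1, h2, hL, PW_RW q t1 h1 L hP, hN, ht, hh⟩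

end Pool.Agent.Lib.H54T
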