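import Mathlib
import Pool.Agent.Lib.H54T.XDefs

/-! # H54T, chunk XA4: the case `P = 4` -/

namespace Pool.Agent.Lib.H54T

/-- An odd line is empty. -/
theorem xa4_empty (p : ℕ) (hp : p % 2 = 1) (D : Finset ℕ) (h : okD 4 p D) : D = ∅ := by
  rw [Finset.eq_empty_iff_forall_notMem]
  intro Y hY
  obtain ⟨h1, h2, h3, h4, -⟩ := h Y hY
  omega

theorem xa4_tw (w : List (Finset ℕ)) :
    tw 4 (w ++ [∅] ++ [{0, 4}, ∅]) = tw 4 (w ++ [∅]) + 2 := by
  induction w with
  | nil => decide
  | cons D r ih =>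
    cases r with
    | nil =>
      show tc 4 D ∅ + tw 4 ([∅] ++ [{0, 4}, ∅]) = tc 4 D ∅ + tw 4 [∅] + 2
      have h1 : tw 4 ([∅] ++ [{0, 4}, ∅]) = tw 4 [∅] + 2 := by decide
      rw [h1]
      ring
    | cons E r =>
      show tc 4 D E + tw 4 (E :: r ++ [∅] ++ [{0, 4}, ∅]) = tc 4 D E + tw 4 (E :: r ++ [∅]) + 2
      rw [ih]
      ring

theorem xa4_WV (w : List (Finset ℕ)) : ∀ p, (p + w.length) % 2 = 1 → WV 4 p (w ++ [∅]) →
    WV 4 p (w ++ [∅] ++ [{0, 4}, ∅]) := by
  have h0 : ∀ p, okD 4 p ∅ := fun p Y hY => absurd hY (Finset.notMem_empty Y)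
  have h04 : ∀ p, p % 2 = 0 → okD 4 p {0, 4} := by
    intro p hp Y hY
    have hY' : Y = 0 ∨ Y = 4 := by simpa using hY
    refine ⟨by omega, by omega, by omega, by omega, fun Z hZ hYZ => ?_⟩
    have hZ' : Z = 0 ∨ Z = 4 := by simpa using hZ
    omega
  have hc1 : ∀ D, comp 4 ∅ D := fun D Y hY => absurd hY (Finset.notMem_empty Y)
  have hc2 : ∀ D, comp 4 D ∅ := fun D Y _ Z hZ => absurd hZ (Finset.notMem_empty Z)
  induction w with
  | nil =>
    intro p hp _
    have hp' : p % 2 = 1 := by simpa using hp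
    exact ⟨h0 p, hc1 _, h04 (p + 1) (by omega), hc2 _, h0 _⟩
  | cons D r ih =>
    intro p hp h
    cases r with
    | nil =>
      have hp' : (p + 1) % 2 = 1 := by simpa using hp
      exact ⟨h.1, h.2.1, h0 (p + 1), hc1 _, h04 (p + 1 + 1) (by omega), hc2 _, h0 _⟩
    | cons E r =>
      refine ⟨h.1, h.2.1, ih (p + 1) ?_ h.2.2⟩
      rw [List.length_cons] at hp
      omega

theorem xa4_last (w : List (Finset ℕ)) (D : Finset ℕ) : ∀ p, WV 4 p (w ++ [D]) →
    okD 4 (p + w.length) D := by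
  induction w with
  | nil => exact fun p h => h
  | cons E r ih =>
    intro p h
    have h1 : WV 4 (p + 1) (r ++ [D]) := by
      cases r with
      | nil => exact h.2.2
      | cons F r => exact h.2.2
    have h2 := ih (p + 1) h1
    rw [List.length_cons]
    rwa [show p + 1 + r.length = p + (r.length + 1) by ring] at h2

/-- For `P = 4` the lines of odd parity have no hexagons, so the last line of a word with `q = 0` is
empty; append `{0, 4}, ∅`: `tc 4 ∅ {0, 4} = 1`. -/
theorem RW4_pump (t h L : ℕ) (hw : RW 4 0 t h L) : RW 4 0 (t + 2) (h + 2) (L + 2) := by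
  obtain ⟨p, w, ⟨h1, h2, h3, h4, h5⟩, h6, D, hD, h7⟩ := hw
  obtain ⟨w', E, rfl⟩ : ∃ w' E, w = w' ++ [E] :=
    ⟨w.dropLast, w.getLast h1, (List.dropLast_append_getLast h1).symm⟩
  have hlen : (p + (w'.length + 1)) % 2 = 0 := by
    simpa using h3
  have hE : E = ∅ := xa4_empty (p + w'.length) (by omega) E (xa4_last w' E p h2)
  subst hE
  refine ⟨p, w' ++ [∅] ++ [{0, 4}, ∅], ⟨by simp, xa4_WV w' p (by omega) h2, ?_, ?_, ?_⟩, ?_,
    D, List.mem_append_left _ hD, h7⟩
  · simp only [List.length_append, List.length_cons, List.length_nil]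
    omega
  · rw [xa4_tw, h4]
  · rw [← h5]
    unfold Pool.Agent.Lib.H54T.hw
    simp only [List.map_append, List.map_cons, List.map_nil, List.sum_append, List.sum_cons,
      List.sum_nil, Finset.card_empty]
    have : ({0, 4} : Finset ℕ).card = 2 := by decide
    omega
  · rw [← h6]
    simp only [List.length_append, List.length_cons, List.length_nil]

end Pool.Agent.Lib.H54T
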