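import Mathlib
import Pool.Agent.Lib.H54T.Tab

/-! # H54T, chunk XT1: the entries of the tables are correct (kernel computation) -/

namespace Pool.Agent.Lib.H54T

theorem tabC_ok : tabC.all chkC = true := by decide +kernel

theorem tabD_ok : tabD.all chkD = true := by decide +kernel

theorem tab4_ok : tab4.all chk4 = true := by decide +kernel

end Pool.Agent.Lib.H54T
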