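import Mathlib
import Pool.Agent.Lib.H54T.XT1
import Pool.Agent.Lib.H54T.XA1
import Pool.Agent.Lib.H54T.XA2
import Pool.Agent.Lib.H54T.XA3

/-! # H54T, chunk XB1: what the tables give -/

namespace Pool.Agent.Lib.H54T

theorem findC_spec (o : Bool) (q t h : ℕ) (hf : findC o q t h = true) :
    C6 q t h ∧ (o = true → ∃ L, PW q t h L) := by
  unfold findC at hf
  rw [List.any_eq_true] at hf
  obtain ⟨⟨q', t', h', b, p, w⟩, he, h1⟩ := hf
  have h2 : chkC (q', t', h', b, p, w) = true := List.all_eq_true.1 tabC_ok _ he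
  simp only [Bool.and_eq_true, Bool.or_eq_true, decide_eq_true_eq, Bool.not_eq_true',
    beq_iff_eq] at h1
  simp only [chkC, Bool.and_eq_true, Bool.or_eq_true, decide_eq_true_eq, Bool.not_eq_true'] at h2
  obtain ⟨⟨rfl, rfl⟩, h1⟩ := h1
  obtain ⟨⟨hW, hex⟩, hp⟩ := h2
  obtain ⟨D, hD, hE⟩ := exB6_spec w hex
  have hpump : b = true → h' ≤ h → (h - h') % 3 = 0 → ∃ L, PW q' t' h L := by
    intro hb hle hmod
    have h3 : hasPump w = true := by
      rcases hp with hp | hp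
      · rw [hb] at hp
        exact absurd hp (by decide)
      · exact hp
    have h4 : PW q' t' h' (toW w).length := ⟨p, toW w, hW, rfl, ⟨D, hD, hE⟩, hasPump_spec w h3⟩
    have h5 := PW_pump_k q' t' h' _ ((h - h') / 3) h4
    rw [show h' + 3 * ((h - h') / 3) = h by omega] at h5
    exact ⟨_, h5⟩
  constructor
  · rcases h1 with ⟨rfl, ho⟩ | ⟨⟨hb, hle⟩, hmod⟩
    · exact ⟨_, p, toW w, hW, rfl, D, hD, hE⟩
    · obtain ⟨L, hL⟩ := hpump hb hle hmod
      exact ⟨L, PW_RW _ _ _ _ hL⟩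
  · intro ho
    rcases h1 with ⟨rfl, ho'⟩ | ⟨⟨hb, hle⟩, hmod⟩
    · rw [ho] at ho'
      exact absurd ho' (by decide)
    · exact hpump hb hle hmod

theorem findD_spec (o : Bool) (q t h : ℕ) (hf : findD o q t h = true) :
    D6 q t h ∧ (o = true → DP q t h) := by
  unfold findD at hf
  rw [List.any_eq_true] at hf
  obtain ⟨⟨q', t', h', b, p, w, p', w'⟩, he, h1⟩ := hf
  have h2 : chkD (q', t', h', b, p, w, p', w') = true := List.all_eq_true.1 tabD_ok _ he
  simp only [Bool.and_eq_true, Bool.or_eq_true, decide_eq_true_eq, Bool.not_eq_true',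
    beq_iff_eq] at h1
  simp only [chkD, Bool.and_eq_true, Bool.or_eq_true, decide_eq_true_eq, Bool.not_eq_true'] at h2
  obtain ⟨⟨rfl, rfl⟩, h1⟩ := h1
  obtain ⟨⟨⟨⟨⟨⟨ht, hh⟩, hW⟩, hW'⟩, hex⟩, hp⟩, hlen⟩ := h2
  obtain ⟨D, hD, hE⟩ := exB6_spec w hex
  have hl : ∀ v : List (List ℕ), (toW v).length = v.length := fun v => List.length_map _
  have hlen' : (toW w').length < (toW w).length := by
    rw [hl, hl]
    exact hlen
  have hpump : b = true → h' ≤ h → (h - h') % 3 = 0 → DP q' t' h := by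
    intro hb hle hmod
    have h3 : hasPump w = true := by
      rcases hp with hp | hp
      · rw [hb] at hp
        exact absurd hp (by decide)
      · exact hp
    have h4 : DP q' t' h' := ⟨_, _, _, _, _, _, hlen',
      ⟨p, toW w, hW, rfl, ⟨D, hD, hE⟩, hasPump_spec w h3⟩, ⟨p', toW w', hW', rfl⟩, ht.symm,
      hh.symm⟩
    have h5 := DP_pump_k q' t' h' ((h - h') / 3) h4
    rwa [show h' + 3 * ((h - h') / 3) = h by omega] at h5
  constructor
  · rcases h1 with ⟨rfl, ho⟩ | ⟨⟨hb, hle⟩, hmod⟩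
    · exact ⟨_, _, _, _, _, _, hlen', ⟨p, toW w, hW, rfl, D, hD, hE⟩, ⟨p', toW w', hW', rfl⟩,
        ht.symm, hh.symm⟩
    · exact DP_D6 _ _ _ (hpump hb hle hmod)
  · intro ho
    rcases h1 with ⟨rfl, ho'⟩ | ⟨⟨hb, hle⟩, hmod⟩
    · rw [ho] at ho'
      exact absurd ho' (by decide)
    · exact hpump hb hle hmod

end Pool.Agent.Lib.H54T
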