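import Mathlib
import Pool.Agent.Lib.H54T.Tab

/-! # H54T, chunk XT2: the tables cover `18 ≤ t ≤ 31` -/

namespace Pool.Agent.Lib.H54T

/-- `h ≤ 17` by any entry, `18 ≤ h ≤ 20` by entries which can be continued. -/
def covAll (f : Bool → ℕ → ℕ → Bool) : Bool :=
  (List.range 14).all (fun i => (List.range 18).all (fun j => f (decide (15 ≤ j)) (18 + i) (3 + j)))

theorem cov1 : covAll (fun o t h => findC o 0 t h || findD o 0 t h) = true := by decide +kernel
theorem cov2 : covAll (fun o t h => findC o 0 t h || findC o 1 t h) = true := by decide +kernel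
theorem cov3 : covAll (fun o t h => findC o 0 t h || findC o 0 (t - 7) h) = true := by decide +kernel
theorem cov4 : covAll (fun o t h => findC o 1 t h || findD o 1 t h) = true := by decide +kernel
theorem cov5 : covAll (fun o t h => findC o 1 t h || findC o 1 (t - 7) h) = true := by decide +kernel
theorem cov6 : covAll (fun o t h => findC o 0 (t - 7) h || findC o 1 (t - 7) h) = true := by
  decide +kernel

end Pool.Agent.Lib.H54T
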