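import Mathlib
import Pool.Agent.Lib.H54T.XT2

/-! # H54T, chunk XB2: all `t ≥ 18`, `h ≥ 3` -/

namespace Pool.Agent.Lib.H54T

/-- `covAll f`, and everything found with `only = true` can be continued by 3: all `h ≥ 3` for
`18 ≤ t ≤ 31`. (For `h ≥ 18` write `h = h0 + 3 k` with `18 ≤ h0 ≤ 20`.) -/
theorem cov_base (f : Bool → ℕ → ℕ → Bool) (Q : ℕ → ℕ → Prop) (hf : covAll f = true)
    (hQ : ∀ o t h, 18 ≤ t → f o t h = true → Q t h)
    (hQ' : ∀ t h, 18 ≤ t → f true t h = true → ∀ k, Q t (h + 3 * k)) (t h : ℕ) (ht : 18 ≤ t)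
    (ht' : t ≤ 31) (hh : 3 ≤ h) : Q t h := by
  have hcov : ∀ i < 14, ∀ j < 18, f (decide (15 ≤ j)) (18 + i) (3 + j) = true := by
    intro i hi j hj
    have h1 := List.all_eq_true.1 hf i (List.mem_range.2 hi)
    exact List.all_eq_true.1 h1 j (List.mem_range.2 hj)
  by_cases hlt : h ≤ 17
  · have h1 := hcov (t - 18) (by omega) (h - 3) (by omega)
    rw [show 18 + (t - 18) = t by omega, show 3 + (h - 3) = h by omega] at h1
    exact hQ _ t h ht h1
  · have h1 := hcov (t - 18) (by omega) (15 + h % 3) (by omega)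
    rw [show 18 + (t - 18) = t by omega, decide_eq_true (by omega : 15 ≤ 15 + h % 3)] at h1
    have h2 := hQ' t _ ht h1 ((h - (3 + (15 + h % 3))) / 3)
    rwa [show 3 + (15 + h % 3) + 3 * ((h - (3 + (15 + h % 3))) / 3) = h by omega] at h2

theorem cov_step (Q : ℕ → ℕ → Prop) (h14 : ∀ t h, 18 ≤ t → Q t h → Q (t + 14) h)
    (hb : ∀ t h, 18 ≤ t → t ≤ 31 → 3 ≤ h → Q t h) (t h : ℕ) (ht : 18 ≤ t) (hh : 3 ≤ h) :
    Q t h := by
  induction t using Nat.strong_induction_on with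
  | _ t ih =>
    by_cases hlt : t ≤ 31
    · exact hb t h ht hlt hh
    · have h1 := h14 (t - 14) h (by omega) (ih (t - 14) (by omega) (by omega))
      rwa [show t - 14 + 14 = t by omega] at h1

end Pool.Agent.Lib.H54T
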