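import Mathlib
import Pool.Agent.Lib.H54T.XB1
import Pool.Agent.Lib.H54T.XB2

/-! # H54T, chunk XB3: the six coverings -/

namespace Pool.Agent.Lib.H54T

theorem xb3_c (o : Bool) (q t h : ℕ) (hf : findC o q t h = true) : C6 q t h :=
  (findC_spec o q t h hf).1

theorem xb3_cp (q t h : ℕ) (hf : findC true q t h = true) (k : ℕ) : C6 q t (h + 3 * k) := by
  obtain ⟨L, hL⟩ := (findC_spec true q t h hf).2 rfl
  exact ⟨_, PW_RW _ _ _ _ (PW_pump_k q t h L k hL)⟩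

theorem xb3_d (o : Bool) (q t h : ℕ) (hf : findD o q t h = true) : D6 q t h :=
  (findD_spec o q t h hf).1

theorem xb3_dp (q t h : ℕ) (hf : findD true q t h = true) (k : ℕ) : D6 q t (h + 3 * k) :=
  DP_D6 _ _ _ (DP_pump_k q t h k ((findD_spec true q t h hf).2 rfl))

theorem Z1 (t h : ℕ) (ht : 18 ≤ t) (hh : 3 ≤ h) : C6 0 t h ∨ D6 0 t h := by
  refine cov_step (fun t h => C6 0 t h ∨ D6 0 t h) ?_ ?_ t h ht hh
  · rintro t h _ (hc | hc)
    · exact Or.inl (C6_add14 _ _ _ hc)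
    · exact Or.inr (D6_add14 _ _ _ hc)
  · intro t h h1 h2 h3
    refine cov_base _ (fun t h => C6 0 t h ∨ D6 0 t h) cov1 ?_ ?_ t h h1 h2 h3
    · intro o t h _ hf
      rcases Bool.or_eq_true_iff.1 hf with hf | hf
      · exact Or.inl (xb3_c _ _ _ _ hf)
      · exact Or.inr (xb3_d _ _ _ _ hf)
    · intro t h _ hf k
      rcases Bool.or_eq_true_iff.1 hf with hf | hf
      · exact Or.inl (xb3_cp _ _ _ hf k)
      · exact Or.inr (xb3_dp _ _ _ hf k)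

theorem Z2 (t h : ℕ) (ht : 18 ≤ t) (hh : 3 ≤ h) : C6 0 t h ∨ C6 1 t h := by
  refine cov_step (fun t h => C6 0 t h ∨ C6 1 t h) ?_ ?_ t h ht hh
  · rintro t h _ (hc | hc)
    · exact Or.inl (C6_add14 _ _ _ hc)
    · exact Or.inr (C6_add14 _ _ _ hc)
  · intro t h h1 h2 h3
    refine cov_base _ (fun t h => C6 0 t h ∨ C6 1 t h) cov2 ?_ ?_ t h h1 h2 h3
    · intro o t h _ hf
      rcases Bool.or_eq_true_iff.1 hf with hf | hf
      · exact Or.inl (xb3_c _ _ _ _ hf)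
      · exact Or.inr (xb3_c _ _ _ _ hf)
    · intro t h _ hf k
      rcases Bool.or_eq_true_iff.1 hf with hf | hf
      · exact Or.inl (xb3_cp _ _ _ hf k)
      · exact Or.inr (xb3_cp _ _ _ hf k)

theorem xb3_sub (q t h : ℕ) (ht : 18 ≤ t) (hc : C6 q (t - 7) h) : C6 q (t + 14 - 7) h := by
  rw [show t + 14 - 7 = t - 7 + 14 by omega]
  exact C6_add14 _ _ _ hc

theorem Z3 (t h : ℕ) (ht : 18 ≤ t) (hh : 3 ≤ h) : C6 0 t h ∨ C6 0 (t - 7) h := by
  refine cov_step (fun t h => C6 0 t h ∨ C6 0 (t - 7) h) ?_ ?_ t h ht hh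
  · rintro t h h18 (hc | hc)
    · exact Or.inl (C6_add14 _ _ _ hc)
    · exact Or.inr (xb3_sub _ _ _ h18 hc)
  · intro t h h1 h2 h3
    refine cov_base _ (fun t h => C6 0 t h ∨ C6 0 (t - 7) h) cov3 ?_ ?_ t h h1 h2 h3
    · intro o t h _ hf
      rcases Bool.or_eq_true_iff.1 hf with hf | hf
      · exact Or.inl (xb3_c _ _ _ _ hf)
      · exact Or.inr (xb3_c _ _ _ _ hf)
    · intro t h _ hf k
      rcases Bool.or_eq_true_iff.1 hf with hf | hf
      · exact Or.inl (xb3_cp _ _ _ hf k)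
      · exact Or.inr (xb3_cp _ _ _ hf k)

theorem Z4 (t h : ℕ) (ht : 18 ≤ t) (hh : 3 ≤ h) : C6 1 t h ∨ D6 1 t h := by
  refine cov_step (fun t h => C6 1 t h ∨ D6 1 t h) ?_ ?_ t h ht hh
  · rintro t h _ (hc | hc)
    · exact Or.inl (C6_add14 _ _ _ hc)
    · exact Or.inr (D6_add14 _ _ _ hc)
  · intro t h h1 h2 h3
    refine cov_base _ (fun t h => C6 1 t h ∨ D6 1 t h) cov4 ?_ ?_ t h h1 h2 h3
    · intro o t h _ hf
      rcases Bool.or_eq_true_iff.1 hf with hf | hf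
      · exact Or.inl (xb3_c _ _ _ _ hf)
      · exact Or.inr (xb3_d _ _ _ _ hf)
    · intro t h _ hf k
      rcases Bool.or_eq_true_iff.1 hf with hf | hf
      · exact Or.inl (xb3_cp _ _ _ hf k)
      · exact Or.inr (xb3_dp _ _ _ hf k)

theorem Z5 (t h : ℕ) (ht : 18 ≤ t) (hh : 3 ≤ h) : C6 1 t h ∨ C6 1 (t - 7) h := by
  refine cov_step (fun t h => C6 1 t h ∨ C6 1 (t - 7) h) ?_ ?_ t h ht hh
  · rintro t h h18 (hc | hc)
    · exact Or.inl (C6_add14 _ _ _ hc)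
    · exact Or.inr (xb3_sub _ _ _ h18 hc)
  · intro t h h1 h2 h3
    refine cov_base _ (fun t h => C6 1 t h ∨ C6 1 (t - 7) h) cov5 ?_ ?_ t h h1 h2 h3
    · intro o t h _ hf
      rcases Bool.or_eq_true_iff.1 hf with hf | hf
      · exact Or.inl (xb3_c _ _ _ _ hf)
      · exact Or.inr (xb3_c _ _ _ _ hf)
    · intro t h _ hf k
      rcases Bool.or_eq_true_iff.1 hf with hf | hf
      · exact Or.inl (xb3_cp _ _ _ hf k)
      · exact Or.inr (xb3_cp _ _ _ hf k)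

theorem Z6 (t h : ℕ) (ht : 18 ≤ t) (hh : 3 ≤ h) : C6 0 (t - 7) h ∨ C6 1 (t - 7) h := by
  refine cov_step (fun t h => C6 0 (t - 7) h ∨ C6 1 (t - 7) h) ?_ ?_ t h ht hh
  · rintro t h h18 (hc | hc)
    · exact Or.inl (xb3_sub _ _ _ h18 hc)
    · exact Or.inr (xb3_sub _ _ _ h18 hc)
  · intro t h h1 h2 h3
    refine cov_base _ (fun t h => C6 0 (t - 7) h ∨ C6 1 (t - 7) h) cov6 ?_ ?_ t h h1 h2 h3
    · intro o t h _ hf
      rcases Bool.or_eq_true_iff.1 hf with hf | hf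
      · exact Or.inl (xb3_c _ _ _ _ hf)
      · exact Or.inr (xb3_c _ _ _ _ hf)
    · intro t h _ hf k
      rcases Bool.or_eq_true_iff.1 hf with hf | hf
      · exact Or.inl (xb3_cp _ _ _ hf k)
      · exact Or.inr (xb3_cp _ _ _ hf k)

end Pool.Agent.Lib.H54T
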