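import Mathlib
import Pool.Agent.Lib.H54T.XT1
import Pool.Agent.Lib.H54T.XA1
import Pool.Agent.Lib.H54T.XA2
import Pool.Agent.Lib.H54T.XA4

/-! # H54T, chunk XB4: the case `s = 1` -/

namespace Pool.Agent.Lib.H54T

/-- Every entry of `tab4`: `(t, 4)` and `(t, 5)` for `18 ≤ t ≤ 27`, and `(19, 6)`. -/
theorem tab4_spec (t h : ℕ) (hth : (18 ≤ t ∧ t ≤ 27 ∧ (h = 4 ∨ h = 5)) ∨ (t = 19 ∧ h = 6)) :
    ∃ L, RW 4 0 t h L := by
  have h1 : ∀ i ∈ List.range 10, tab4.any (fun e => e.1 = 18 + i && e.2.1 = 4) = true ∧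
      tab4.any (fun e => e.1 = 18 + i && e.2.1 = 5) = true := by decide +kernel
  have h2 : tab4.any (fun e => e.1 = 19 && e.2.1 = 6) = true := by decide +kernel
  have h3 : tab4.any (fun e => e.1 = t && e.2.1 = h) = true := by
    rcases hth with ⟨ht, ht', hh⟩ | ⟨rfl, rfl⟩
    · have h4 := h1 (t - 18) (List.mem_range.2 (by omega))
      rw [show 18 + (t - 18) = t by omega] at h4
      rcases hh with rfl | rfl
      · exact h4.1
      · exact h4.2
    · exact h2
  rw [List.any_eq_true] at h3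
  obtain ⟨⟨t', h', p, w⟩, he, h5⟩ := h3
  have h6 : chk4 (t', h', p, w) = true := List.all_eq_true.1 tab4_ok _ he
  simp only [Bool.and_eq_true, decide_eq_true_eq] at h5
  obtain ⟨rfl, rfl⟩ := h5
  simp only [chk4, Bool.and_eq_true, decide_eq_true_eq] at h6
  exact ⟨_, p, toW w, h6.1, rfl, exB4_spec w h6.2⟩

/-- Induction on `t`: for `h ∈ {4, 5}` and `t ≥ 28` subtract 10 from `t` (two rows of triangles,
`RW_add` twice with `P = 4`, `RW_parity`), for `t ≤ 27` use the table; for `h ≥ 6`: `(19, 6)` is in the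
table, otherwise `t ≥ 20`, subtract `(2, 2)` (`RW4_pump`). -/
theorem Z7 (t h : ℕ) (ht : 18 ≤ t) (hh : 4 ≤ h) (hth : h + 13 ≤ t) : ∃ L, RW 4 0 t h L := by
  induction t using Nat.strong_induction_on generalizing h with
  | _ t ih =>
    by_cases h5 : h ≤ 5
    · by_cases h27 : t ≤ 27
      · exact tab4_spec t h (Or.inl ⟨ht, h27, by omega⟩)
      · obtain ⟨L, hL⟩ := ih (t - 10) (by omega) h (by omega) hh (by omega)
        refine ⟨L + 1 + 1, ?_⟩
        have h1 := RW_parity 4 (0 + 1 + 1) 0 _ h _ (by omega)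
          (RW_add 4 (0 + 1) (t - 10 + 5) h (L + 1) (RW_add 4 0 (t - 10) h L hL))
        rwa [show t - 10 + 5 + (4 + 1) = t by omega] at h1
    · by_cases h19 : t = 19
      · exact tab4_spec t h (Or.inr ⟨h19, by omega⟩)
      · obtain ⟨L, hL⟩ := ih (t - 2) (by omega) (h - 2) (by omega) (by omega) (by omega)
        have h1 := RW4_pump (t - 2) (h - 2) L hL
        rw [show t - 2 + 2 = t by omega, show h - 2 + 2 = h by omega] at h1
        exact ⟨_, h1⟩

end Pool.Agent.Lib.H54T
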