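import Mathlib
import Pool.Agent.Lib.H54T.XDefs
import Pool.Agent.Lib.H54T.WA

/-! # H54T, chunk XC1: the number of classes of squares -/

namespace Pool.Agent.Lib.H54T

theorem rowc_parity (P p p' : ℕ) (h : p % 2 = p' % 2) : rowc P p = rowc P p' := by
  unfold rowc
  congr 1
  refine Finset.filter_congr fun Y _ => ?_
  omega

theorem midc_parity (P sg p p' : ℕ) (h : p % 2 = p' % 2) : midc P sg p = midc P sg p' := by
  unfold midc
  congr 1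
  refine Finset.filter_congr fun Y _ => ?_
  have h1 : (Y + p) % 2 = (Y + p') % 2 := by omega
  rw [h1]

theorem rowc_values : rowc 6 0 = 3 ∧ rowc 6 1 = 4 ∧ midc 6 6 0 = 2 ∧ midc 6 6 1 = 2 ∧
    midc 4 4 0 = 1 := by
  decide

theorem xc1_one (P sg q t h L b s : ℕ) (hP : 2 ≤ P) (hsg : sg = 0 ∨ (sg = P ∧ P % 2 = 0))
    (hb : 1 ≤ b) (ht : 0 < t) (hh : 0 < h) (hc : RW P q t h L) (hs0 : 0 < s)
    (hs : b / 2 * rowc P q + b % 2 * midc P sg q = s) : (t, s, h) ∈ Sigma3 := by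
  obtain ⟨p, w, ⟨h1, h2, h3, h4, h5⟩, -, h6⟩ := hc
  have e1 := rowc_parity P _ _ h3
  have e2 := midc_parity P sg _ _ h3
  have h7 := kind_one P sg p b w h1 hP hsg hb h2 h6 (by omega) (by omega)
    (by rw [e1, e2, hs]; exact hs0)
  rwa [e1, e2, hs, h4, h5] at h7

/-- `kind_one` with `b = 2 k`, `sg = 0`. -/
theorem S1 (t h k : ℕ) (ht : 0 < t) (hh : 0 < h) (hk : 1 ≤ k) (hc : C6 0 t h) :
    (t, 3 * k, h) ∈ Sigma3 := by
  obtain ⟨L, hL⟩ := hc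
  obtain ⟨v1, v2, v3, v4, v5⟩ := rowc_values
  refine xc1_one 6 0 0 t h L (2 * k) _ (by norm_num) (Or.inl rfl) (by omega) ht hh hL (by omega) ?_
  rw [v1, show 2 * k / 2 = k by omega, show 2 * k % 2 = 0 by omega]
  ring

/-- `kind_one` with `b = 2 k + 1`, `sg = 6`. -/
theorem S2 (t h k : ℕ) (ht : 0 < t) (hh : 0 < h) (hc : C6 0 t h) : (t, 3 * k + 2, h) ∈ Sigma3 := by
  obtain ⟨L, hL⟩ := hc
  obtain ⟨v1, v2, v3, v4, v5⟩ := rowc_values
  refine xc1_one 6 6 0 t h L (2 * k + 1) _ (by norm_num) (Or.inr ⟨rfl, rfl⟩) (by omega) ht hh hL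
    (by omega) ?_
  rw [v1, v3, show (2 * k + 1) / 2 = k by omega, show (2 * k + 1) % 2 = 1 by omega]
  ring

/-- `kind_one` with `sg = 6`: `b / 2 * 4 + b % 2 * 2 = 2 b`. -/
theorem S3 (t h b : ℕ) (ht : 0 < t) (hh : 0 < h) (hb : 1 ≤ b) (hc : C6 1 t h) :
    (t, 2 * b, h) ∈ Sigma3 := by
  obtain ⟨L, hL⟩ := hc
  obtain ⟨v1, v2, v3, v4, v5⟩ := rowc_values
  refine xc1_one 6 6 1 t h L b _ (by norm_num) (Or.inr ⟨rfl, rfl⟩) hb ht hh hL (by omega) ?_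
  rw [v2, v4]
  omega

/-- `kind_one` with `P = sg = 4`, `b = 1`. -/
theorem S8 (t h L : ℕ) (ht : 0 < t) (hh : 0 < h) (hc : RW 4 0 t h L) : (t, 1, h) ∈ Sigma3 := by
  obtain ⟨v1, v2, v3, v4, v5⟩ := rowc_values
  refine xc1_one 4 4 0 t h L 1 _ (by norm_num) (Or.inr ⟨rfl, rfl⟩) (by omega) ht hh hc
    (by omega) ?_
  rw [v5, show 1 / 2 = 0 by norm_num, show 1 % 2 = 1 by norm_num]
  ring

end Pool.Agent.Lib.H54T
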