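import Mathlib
import Pool.Agent.Lib.H54T.XC1
import Pool.Agent.Lib.H54T.WB
import Pool.Agent.Lib.H54T.WC

/-! # H54T, chunk XC2: the number of classes of squares -/

namespace Pool.Agent.Lib.H54T

theorem xc2_two (sg q t h L b s : ℕ) (hsg : sg = 0 ∨ (sg = 6 ∧ 6 % 2 = 0))
    (hb : 1 ≤ b) (hh : 0 < h) (hc : RW 6 q t h L) (hs0 : 0 < s)
    (hs : rowc 6 q + (b / 2 * rowc 6 (q + 1) + b % 2 * midc 6 sg (q + 1)) = s) :
    (t + 7, s, h) ∈ Sigma3 := by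
  obtain ⟨p, w, ⟨h1, h2, h3, h4, h5⟩, -, h6⟩ := hc
  have e1 := rowc_parity 6 _ _ h3
  have e2 := rowc_parity 6 (p + w.length + 1) (q + 1) (by omega)
  have e3 := midc_parity 6 sg (p + w.length + 1) (q + 1) (by omega)
  have h7 := kind_two 6 sg p b w h1 (by norm_num) hsg hb h2 h6 (by omega)
    (by rw [e1, e2, e3, hs]; exact hs0)
  rwa [e1, e2, e3, hs, h4, h5] at h7

theorem xc2_three (q t h b s : ℕ) (ht : 0 < t) (hb : 1 ≤ b) (hh : 0 < h) (hc : D6 q t h)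
    (hs0 : 0 < s) (hs : b * rowc 6 q = s) : (t, s, h) ∈ Sigma3 := by
  obtain ⟨L, L', t1, t2, h1, h2, hL, ⟨p, w, ⟨a1, a2, a3, a4, a5⟩, a6, a7⟩,
    ⟨p', w', ⟨b1, b2, b3, b4, b5⟩, b6⟩, rfl, rfl⟩ := hc
  have e1 := rowc_parity 6 _ _ a3
  have h7 := kind_three 6 p p' b w w' a1 b1 (by norm_num) hb a2 b2 (by omega) (by omega)
    (Or.inl a7) (by omega) (by omega) (by rw [e1, hs]; exact hs0)
  rwa [e1, hs, a4, a5, b4, b5] at h7

/-- `kind_two` with `sg = 6`. -/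
theorem S4 (t h b : ℕ) (hh : 0 < h) (hb : 1 ≤ b) (hc : C6 0 t h) :
    (t + 7, 3 + 2 * b, h) ∈ Sigma3 := by
  obtain ⟨L, hL⟩ := hc
  obtain ⟨v1, v2, v3, v4, v5⟩ := rowc_values
  refine xc2_two 6 0 t h L b _ (Or.inr ⟨rfl, rfl⟩) hb hh hL (by omega) ?_
  rw [zero_add, v1, v2, v4]
  omega

/-- `kind_two` with `b = 2 k`, `sg = 0`. -/
theorem S5 (t h k : ℕ) (hh : 0 < h) (hk : 1 ≤ k) (hc : C6 1 t h) :
    (t + 7, 4 + 3 * k, h) ∈ Sigma3 := by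
  obtain ⟨L, hL⟩ := hc
  obtain ⟨v1, v2, v3, v4, v5⟩ := rowc_values
  refine xc2_two 0 1 t h L (2 * k) _ (Or.inl rfl) (by omega) hh hL (by omega) ?_
  rw [rowc_parity 6 (1 + 1) 0 rfl, v1, v2, show 2 * k / 2 = k by omega,
    show 2 * k % 2 = 0 by omega]
  ring

/-- `kind_three`. -/
theorem S6 (t h b : ℕ) (ht : 0 < t) (hh : 0 < h) (hb : 1 ≤ b) (hc : D6 0 t h) :
    (t, 3 * b, h) ∈ Sigma3 := by
  obtain ⟨v1, v2, v3, v4, v5⟩ := rowc_values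
  refine xc2_three 0 t h b _ ht hb hh hc (by omega) ?_
  rw [v1, mul_comm]

/-- `kind_three`. -/
theorem S7 (t h b : ℕ) (ht : 0 < t) (hh : 0 < h) (hb : 1 ≤ b) (hc : D6 1 t h) :
    (t, 4 * b, h) ∈ Sigma3 := by
  obtain ⟨v1, v2, v3, v4, v5⟩ := rowc_values
  refine xc2_three 1 t h b _ ht hb hh hc (by omega) ?_
  rw [v2, mul_comm]

end Pool.Agent.Lib.H54T
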