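import Mathlib
import Pool.Agent.Lib.H54T.XC1
import Pool.Agent.Lib.H54T.XC2

/-! # H54T: XC (umbrella of XC1, XC2) -/
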