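import Mathlib
import Pool.Agent.Lib.H54T.XB3
import Pool.Agent.Lib.H54T.XB4
import Pool.Agent.Lib.H54T.XC

/-! # H54T: the main theorem -/

namespace Pool.Agent.Lib.H54T

theorem main_ge_two (t s h : ℕ) (ht : 18 ≤ t) (hs : 2 ≤ s) (hh : 3 ≤ h) : (t, s, h) ∈ Sigma3 := by
  have h0 : 0 < h := by omega
  have t0 : 0 < t := by omega
  have hm : s % 3 = 0 ∨ s % 3 = 1 ∨ s % 3 = 2 := by omega
  rcases hm with hm | hm | hm
  · obtain ⟨k, rfl⟩ : ∃ k, s = 3 * k := ⟨s / 3, by omega⟩
    rcases Z1 t h ht hh with hc | hc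
    · exact S1 t h k t0 h0 (by omega) hc
    · exact S6 t h k t0 h0 (by omega) hc
  · by_cases h4 : s = 4
    · subst h4
      rcases Z4 t h ht hh with hc | hc
      · exact S3 t h 2 t0 h0 (by omega) hc
      · exact S7 t h 1 t0 h0 (by omega) hc
    · by_cases he : s % 2 = 0
      · rcases Z5 t h ht hh with hc | hc
        · have := S3 t h (s / 2) t0 h0 (by omega) hc
          rwa [show 2 * (s / 2) = s by omega] at this
        · have := S5 (t - 7) h ((s - 4) / 3) h0 (by omega) hc
          rwa [show t - 7 + 7 = t by omega, show 4 + 3 * ((s - 4) / 3) = s by omega] at this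
      · rcases Z6 t h ht hh with hc | hc
        · have := S4 (t - 7) h ((s - 3) / 2) h0 (by omega) hc
          rwa [show t - 7 + 7 = t by omega, show 3 + 2 * ((s - 3) / 2) = s by omega] at this
        · have := S5 (t - 7) h ((s - 4) / 3) h0 (by omega) hc
          rwa [show t - 7 + 7 = t by omega, show 4 + 3 * ((s - 4) / 3) = s by omega] at this
  · by_cases he : s % 2 = 0
    · rcases Z2 t h ht hh with hc | hc
      · have := S2 t h (s / 3) t0 h0 hc
        rwa [show 3 * (s / 3) + 2 = s by omega] at this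
      · have := S3 t h (s / 2) t0 h0 (by omega) hc
        rwa [show 2 * (s / 2) = s by omega] at this
    · rcases Z3 t h ht hh with hc | hc
      · have := S2 t h (s / 3) t0 h0 hc
        rwa [show 3 * (s / 3) + 2 = s by omega] at this
      · have := S4 (t - 7) h ((s - 3) / 2) h0 (by omega) hc
        rwa [show t - 7 + 7 = t by omega, show 3 + 2 * ((s - 3) / 2) = s by omega] at this

theorem main_one (t h : ℕ) (ht : 18 ≤ t) (hh : 4 ≤ h) (hth : h + 13 ≤ t) : (t, 1, h) ∈ Sigma3 := by
  obtain ⟨L, hL⟩ := Z7 t h ht hh hth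
  exact S8 t h L (by omega) (by omega) hL

end Pool.Agent.Lib.H54T
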